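import Pool.Agent.N907.EG.Def
import Pool.Agent.Erdos456.Smooth2

/-!
# Few primes `p = Dm+1` with `m` tiny and `D` rough

Proof of `S_Cof` from the Selberg sieve for two linear forms.
-/

set_option autoImplicit false

open Finset

namespace Pool.Agent.N907.EG
namespace Cof

open Pool.Agent.Erdos456

/-- the function `1/n` as a homomorphism of monoids -/
noncomputable def invHom : ℕ →* ℝ where
  toFun n := (n : ℝ)⁻¹
  map_one' := by simp
  map_mul' a b := by push_cast; rw [mul_inv]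

theorem invHom_apply (n : ℕ) : invHom n = (n : ℝ)⁻¹ := rfl

theorem inv_factor_le {x : ℝ} (h0 : 0 ≤ x) (h1 : x ≤ 1 / 2) :
    (1 - x)⁻¹ ≤ Real.exp (x + 2 * x ^ 2) := by
  have h2 : 0 < 1 - x := by linarith
  have h3 : (1 - x)⁻¹ = 1 + x / (1 - x) := by field_simp; ring
  have h4 : x / (1 - x) ≤ x + 2 * x ^ 2 := by
    rw [div_le_iff₀ h2]
    nlinarith [mul_nonneg (mul_nonneg h0 h0) (by linarith : 0 ≤ 1 - 2 * x)]
  rw [h3]
  have h5 := Real.add_one_le_exp (x / (1 - x))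
  calc 1 + x / (1 - x) ≤ Real.exp (x / (1 - x)) := by linarith
    _ ≤ _ := Real.exp_le_exp.2 h4

theorem prime_inv_le_half {p : ℕ} (hp : p.Prime) : (p : ℝ)⁻¹ ≤ 1 / 2 := by
  have h2 : (2 : ℝ) ≤ p := by exact_mod_cast hp.two_le
  rw [one_div]
  exact inv_anti₀ (by norm_num) h2

open Classical in
theorem rough_sum : ∃ C : ℝ, 0 < C ∧ ∀ i J : ℕ, 1 ≤ i → i ≤ J →
    ∑ D ∈ (Finset.Icc 1 (2 ^ J)).filter (fun D => Rough i D), (D : ℝ)⁻¹ ≤ C * (J / i) := by
  obtain ⟨C, hC, h⟩ := mertens_both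
  refine ⟨Real.exp (2 * C + 4), Real.exp_pos _, ?_⟩
  intro i J hi hiJ
  have hi0 : (0 : ℝ) < i := by exact_mod_cast hi
  have hJ0 : (0 : ℝ) < J := by exact_mod_cast (lt_of_lt_of_le hi hiJ)
  set s := Finset.Ioc (2 ^ i) (2 ^ J) with hs
  have hlt : ∀ {p : ℕ}, p.Prime → ‖invHom p‖ < 1 := by
    intro p hp
    rw [invHom_apply, Real.norm_eq_abs, abs_of_nonneg (by positivity)]
    have := prime_inv_le_half hp
    linarith
  have hE := (EulerProduct.summable_and_hasSum_factoredNumbers_prod_filter_prime_geometric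
    (f := invHom) hlt s).2
  have h1 : ∑ D ∈ (Finset.Icc 1 (2 ^ J)).filter (fun D => Rough i D), (D : ℝ)⁻¹ ≤
      ∏ p ∈ s with p.Prime, (1 - invHom p)⁻¹ := by
    have hmem : ∀ D ∈ (Finset.Icc 1 (2 ^ J)).filter (fun D => Rough i D),
        D ∈ Nat.factoredNumbers s := by
      intro D hD
      rw [mem_filter, mem_Icc] at hD
      rw [Nat.mem_factoredNumbers_iff_forall_le]
      refine ⟨by omega, fun p hp1 hp2 hp3 => ?_⟩
      rw [hs, mem_Ioc]
      exact ⟨hD.2 p hp2 hp3, hp1.trans hD.1.2⟩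
    have h2 := Finset.sum_subtype_of_mem (fun D : ℕ => (D : ℝ)⁻¹) hmem
    rw [← h2]
    exact sum_le_hasSum _ (fun j _ => by positivity) hE
  have h2 : ∏ p ∈ s with p.Prime, (1 - invHom p)⁻¹ ≤
      Real.exp (∑ p ∈ s with p.Prime, ((p : ℝ)⁻¹ + 2 * ((p : ℝ)⁻¹) ^ 2)) := by
    rw [Real.exp_sum]
    apply Finset.prod_le_prod
    · intro p hp
      rw [mem_filter] at hp
      have := prime_inv_le_half hp.2
      rw [invHom_apply]
      exact inv_nonneg.2 (by linarith)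
    · intro p hp
      rw [mem_filter] at hp
      rw [invHom_apply]
      exact inv_factor_le (by positivity) (prime_inv_le_half hp.2)
  have h3 : ∑ p ∈ s with p.Prime, (p : ℝ)⁻¹ ≤ Real.log J - Real.log i + 2 * C := by
    have hsub : Nat.primesBelow (2 ^ i + 1) ⊆ Nat.primesBelow (2 ^ J + 1) := by
      intro p hp
      rw [Nat.mem_primesBelow] at hp ⊢
      have : 2 ^ i ≤ 2 ^ J := Nat.pow_le_pow_right (by norm_num) hiJ
      exact ⟨by omega, hp.2⟩
    have hsd : Nat.primesBelow (2 ^ J + 1) \ Nat.primesBelow (2 ^ i + 1) =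
        s.filter Nat.Prime := by
      ext p
      rw [mem_sdiff, Nat.mem_primesBelow, Nat.mem_primesBelow, mem_filter, hs, mem_Ioc]
      constructor
      · rintro ⟨⟨a, b⟩, c⟩
        refine ⟨⟨?_, by omega⟩, b⟩
        by_contra hcon
        exact c ⟨by omega, b⟩
      · rintro ⟨⟨a, b⟩, c⟩
        exact ⟨⟨by omega, c⟩, fun hcon => by omega⟩
    have h4 := Finset.sum_sdiff (f := fun p : ℕ => (p : ℝ)⁻¹) hsub
    rw [hsd] at h4
    have h5 := abs_le.1 (h i hi)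
    have h6 := abs_le.1 (h J (hi.trans hiJ))
    linarith [h5.1, h6.2]
  have h4 : ∑ p ∈ s with p.Prime, ((p : ℝ)⁻¹) ^ 2 ≤ 2 := by
    apply sum_inv_sq_le
    intro p hp
    rw [mem_filter] at hp
    exact hp.2.one_lt.le
  refine (h1.trans h2).trans ?_
  rw [Finset.sum_add_distrib, ← Finset.mul_sum]
  calc Real.exp (∑ p ∈ s with p.Prime, (p : ℝ)⁻¹ + 2 * ∑ p ∈ s with p.Prime, ((p : ℝ)⁻¹) ^ 2)
      ≤ Real.exp ((2 * C + 4) + (Real.log J - Real.log i)) := by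
        apply Real.exp_le_exp.2
        linarith
    _ = Real.exp (2 * C + 4) * (J / i) := by
        rw [Real.exp_add, Real.exp_sub, Real.exp_log hJ0, Real.exp_log hi0]

theorem GG_rough {i J D : ℕ} (hJ : J ≤ 2 ^ i) (hD : 1 ≤ D) (hD2 : D ≤ 2 ^ J)
    (hr : Rough i D) : GG D ≤ Real.exp 2 := by
  rw [GG_eq_prod hD]
  have hz : (0 : ℝ) < 2 ^ i := by positivity
  have hcard : D.primeFactors.card ≤ J := by
    have h1 : 2 ^ D.primeFactors.card ≤ ∏ p ∈ D.primeFactors, p := by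
      apply Finset.pow_card_le_prod
      intro p hp
      exact (Nat.prime_of_mem_primeFactors hp).two_le
    have h2 : ∏ p ∈ D.primeFactors, p ≤ D := Nat.le_of_dvd hD (Nat.prod_primeFactors_dvd D)
    exact (Nat.pow_le_pow_iff_right (by norm_num : 1 < 2)).1 ((h1.trans h2).trans hD2)
  calc ∏ p ∈ D.primeFactors, (1 - (p : ℝ)⁻¹)⁻¹
      ≤ ∏ p ∈ D.primeFactors, Real.exp (2 / 2 ^ i) := by
        apply Finset.prod_le_prod
        · intro p hp
          have := prime_inv_le_half (Nat.prime_of_mem_primeFactors hp)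
          exact inv_nonneg.2 (by linarith)
        · intro p hp
          have hpp := Nat.prime_of_mem_primeFactors hp
          have hh := prime_inv_le_half hpp
          have h0 : (0 : ℝ) ≤ (p : ℝ)⁻¹ := by positivity
          refine (inv_factor_le h0 hh).trans (Real.exp_le_exp.2 ?_)
          have h2 : (2 : ℝ) ^ i ≤ p := by
            exact_mod_cast (hr p hpp (Nat.dvd_of_mem_primeFactors hp)).le
          have h3 : (p : ℝ)⁻¹ ≤ ((2 : ℝ) ^ i)⁻¹ := inv_anti₀ hz h2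
          rw [div_eq_mul_inv]
          nlinarith
    _ = Real.exp (D.primeFactors.card * (2 / 2 ^ i)) := by
        rw [Finset.prod_const, ← Real.exp_nat_mul]
    _ ≤ Real.exp 2 := by
        apply Real.exp_le_exp.2
        have h1 : (D.primeFactors.card : ℝ) ≤ 2 ^ i := by
          exact_mod_cast hcard.trans hJ
        calc (D.primeFactors.card : ℝ) * (2 / 2 ^ i) ≤ 2 ^ i * (2 / 2 ^ i) := by
              apply mul_le_mul_of_nonneg_right h1 (by positivity)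
          _ = 2 := by field_simp

open Classical in
theorem count_m (i J m : ℕ) (hm : 1 ≤ m) :
    ((Finset.Icc 2 (2 ^ J)).filter (fun D => Rough i D ∧ (D * m + 1).Prime ∧
        2 ^ (J - 1) < D * m + 1 ∧ D * m + 1 ≤ 2 ^ J)).card ≤
      ∑ E ∈ (Finset.Icc 1 (2 ^ J)).filter (fun E => Rough i E ∧ 2 ^ i < 2 ^ J / (m * E)),
        ((Finset.Icc 1 (2 ^ J / (m * E))).filter
          (fun q => (1 * q + 0).Prime ∧ (m * E * q + 1).Prime)).card := by
  refine (Finset.card_le_card (t := ((Finset.Icc 1 (2 ^ J)).filter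
    (fun E => Rough i E ∧ 2 ^ i < 2 ^ J / (m * E))).biUnion (fun E =>
      ((Finset.Icc 1 (2 ^ J / (m * E))).filter
          (fun q => (1 * q + 0).Prime ∧ (m * E * q + 1).Prime)).image (fun q => q * E))) ?_).trans
    (Finset.card_biUnion_le.trans (Finset.sum_le_sum fun _ _ => Finset.card_image_le))
  intro D hD
  rw [mem_filter, mem_Icc] at hD
  obtain ⟨⟨hD2, hDJ⟩, hr, hp, _, hle⟩ := hD
  have hne : D ≠ 1 := by omega
  have hq := Nat.minFac_prime hne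
  obtain ⟨E, hE⟩ := Nat.minFac_dvd D
  have hE0 : 0 < E := by
    rcases Nat.eq_zero_or_pos E with h | h
    · rw [h, mul_zero] at hE; omega
    · exact h
  have hq2 : 2 ^ i < D.minFac := hr _ hq (Nat.minFac_dvd D)
  have hmE : 0 < m * E := Nat.mul_pos hm hE0
  have hqle : D.minFac ≤ 2 ^ J / (m * E) := by
    rw [Nat.le_div_iff_mul_le hmE]
    calc D.minFac * (m * E) = (D.minFac * E) * m := by ring
      _ = D * m := by rw [← hE]
      _ ≤ 2 ^ J := by omega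
  rw [mem_biUnion]
  refine ⟨E, ?_, ?_⟩
  · rw [mem_filter, mem_Icc]
    refine ⟨⟨hE0, ?_⟩, ?_, lt_of_lt_of_le hq2 hqle⟩
    · refine le_trans ?_ hDJ
      conv_rhs => rw [hE]
      exact Nat.le_mul_of_pos_left _ hq.pos
    · intro r hr1 hr2
      apply hr r hr1
      rw [hE]
      exact hr2.trans (Nat.dvd_mul_left _ _)
  · rw [mem_image]
    refine ⟨D.minFac, ?_, hE.symm⟩
    rw [mem_filter, mem_Icc]
    refine ⟨⟨hq.pos, hqle⟩, ?_, ?_⟩
    · rw [one_mul, add_zero]; exact hq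
    · have : m * E * D.minFac + 1 = D * m + 1 := by
        conv_rhs => rw [hE]
        ring
      rw [this]; exact hp

theorem GG_sum_real : ∃ C : ℝ, 0 < C ∧ ∀ N : ℕ, 1 ≤ N →
    ∑ m ∈ Finset.Icc 1 N, GG m ^ 2 * (m : ℝ)⁻¹ ≤ C * (1 + Real.log N) := by
  obtain ⟨C, hC, h⟩ := sum_GG_sq_div_le
  refine ⟨C, hC, fun N hN => ?_⟩
  have h1 := h N
  rw [tsum_eq_sum (s := Finset.Icc 1 N)] at h1
  · have h2 : ∑ b ∈ Finset.Icc 1 N,
        (if 1 ≤ b ∧ b ≤ N then ENNReal.ofReal (GG b ^ 2 * (b : ℝ)⁻¹) else 0) =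
        ENNReal.ofReal (∑ m ∈ Finset.Icc 1 N, GG m ^ 2 * (m : ℝ)⁻¹) := by
      rw [ENNReal.ofReal_sum_of_nonneg (fun i _ => by positivity)]
      apply Finset.sum_congr rfl
      intro b hb
      rw [mem_Icc] at hb
      rw [if_pos hb]
    rw [h2] at h1
    have h3 : 0 ≤ Real.log N := Real.log_natCast_nonneg N
    exact (ENNReal.ofReal_le_ofReal_iff (by positivity)).1 h1
  · intro b hb
    rw [mem_Icc] at hb
    rw [if_neg hb]

theorem iJ_facts : ∃ J1 : ℕ, 1 ≤ J1 ∧ ∀ J : ℕ, J1 ≤ J →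
    1 ≤ iJ J ∧ iJ J ≤ J ∧ J ≤ 2 ^ (iJ J) ∧ (J : ℝ) ^ (7 / 8 : ℝ) ≤ iJ J := by
  have hl2 : 0 < Real.log 2 := Real.log_pos (by norm_num)
  have h1 := (isLittleO_log_rpow_atTop (by norm_num : (0 : ℝ) < 7 / 8)).bound hl2
  have h2 := (tendsto_natCast_atTop_atTop (R := ℝ)).eventually h1
  obtain ⟨J0, hJ0⟩ := Filter.eventually_atTop.1 h2
  refine ⟨max 1 J0, le_max_left _ _, fun J hJ => ?_⟩
  have hJ1 : 1 ≤ J := (le_max_left _ _).trans hJ
  have hJR : (1 : ℝ) ≤ J := by exact_mod_cast hJ1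
  have hJ2 := hJ0 J ((le_max_right _ _).trans hJ)
  have hpow1 : (1 : ℝ) ≤ (J : ℝ) ^ (7 / 8 : ℝ) := Real.one_le_rpow hJR (by norm_num)
  have hceil : (J : ℝ) ^ (7 / 8 : ℝ) ≤ iJ J := Nat.le_ceil _
  refine ⟨?_, ?_, ?_, hceil⟩
  · have : (1 : ℝ) ≤ iJ J := hpow1.trans hceil
    exact_mod_cast this
  · unfold iJ
    rw [Nat.ceil_le]
    calc (J : ℝ) ^ (7 / 8 : ℝ) ≤ (J : ℝ) ^ (1 : ℝ) :=
          Real.rpow_le_rpow_of_exponent_le hJR (by norm_num)
      _ = J := Real.rpow_one _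
  · rw [Real.norm_eq_abs, Real.norm_eq_abs, abs_of_nonneg (Real.log_nonneg hJR),
      abs_of_nonneg (by positivity)] at hJ2
    have h3 : Real.log J ≤ Real.log ((2 : ℝ) ^ (iJ J)) := by
      rw [Real.log_pow, mul_comm]
      exact hJ2.trans (mul_le_mul_of_nonneg_left hceil hl2.le)
    have h4 := (Real.log_le_log_iff (by linarith) (by positivity)).1 h3
    exact_mod_cast h4

end Cof

open Cof Pool.Agent.Erdos456 in
theorem s_cof : S_Cof := by
  classical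
  intro B
  obtain ⟨C1, hC1, hsv⟩ := sieve_two'
  obtain ⟨C2, hC2, hG⟩ := GG_sum_real
  obtain ⟨C3, hC3, hR⟩ := rough_sum
  obtain ⟨J1, hJ11, hJ1⟩ := iJ_facts
  have hl2 : 0 < Real.log 2 := Real.log_pos (by norm_num)
  set K : ℝ := C1 * Real.exp 2 ^ 2 / Real.log 2 ^ 2 with hK
  have hK0 : 0 < K := by positivity
  refine ⟨K * C3 * C2 * (1 + 8 * B), by positivity, J1, fun J hJ => ?_⟩
  obtain ⟨hi1, hiJ, hJi, hi78⟩ := hJ1 J hJ
  set i := iJ J with hi
  have hi0 : (0 : ℝ) < i := by exact_mod_cast hi1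
  have hJ1' : 1 ≤ J := hJ11.trans hJ
  have hJR : (1 : ℝ) ≤ J := by exact_mod_cast hJ1'
  have hJ0 : (0 : ℝ) < J := by linarith
  -- bound for fixed m
  have hm : ∀ m ∈ Finset.Icc 1 (J ^ B), (((Finset.Icc 2 (2 ^ J)).filter
        (fun D => Rough i D ∧ (D * m + 1).Prime ∧ 2 ^ (J - 1) < D * m + 1 ∧
          D * m + 1 ≤ 2 ^ J)).card : ℝ) ≤
      (K * 2 ^ J / (i : ℝ) ^ 2 * (C3 * (J / i))) * (GG m ^ 2 * (m : ℝ)⁻¹) := by
    intro m hm
    rw [mem_Icc] at hm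
    have hm0 : (0 : ℝ) < m := by exact_mod_cast hm.1
    have hc := count_m i J m hm.1
    have hc' : (((Finset.Icc 2 (2 ^ J)).filter
        (fun D => Rough i D ∧ (D * m + 1).Prime ∧ 2 ^ (J - 1) < D * m + 1 ∧
          D * m + 1 ≤ 2 ^ J)).card : ℝ) ≤
        ∑ E ∈ (Finset.Icc 1 (2 ^ J)).filter (fun E => Rough i E ∧ 2 ^ i < 2 ^ J / (m * E)),
        (((Finset.Icc 1 (2 ^ J / (m * E))).filter
          (fun q => (1 * q + 0).Prime ∧ (m * E * q + 1).Prime)).card : ℝ) := by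
      exact_mod_cast hc
    refine hc'.trans ?_
    have hterm : ∀ E ∈ (Finset.Icc 1 (2 ^ J)).filter
        (fun E => Rough i E ∧ 2 ^ i < 2 ^ J / (m * E)),
        (((Finset.Icc 1 (2 ^ J / (m * E))).filter
          (fun q => (1 * q + 0).Prime ∧ (m * E * q + 1).Prime)).card : ℝ) ≤
        (K * 2 ^ J / (i : ℝ) ^ 2 * (GG m ^ 2 * (m : ℝ)⁻¹)) * (E : ℝ)⁻¹ := by
      intro E hE
      rw [mem_filter, mem_Icc] at hE
      obtain ⟨⟨hE1, hEJ⟩, hEr, hN⟩ := hE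
      have hE0 : (0 : ℝ) < E := by exact_mod_cast hE1
      have hmE : 0 < m * E := Nat.mul_pos hm.1 hE1
      set N := 2 ^ J / (m * E) with hNdef
      have h2i : 1 ≤ 2 ^ i := Nat.one_le_two_pow
      have h1 := hsv 1 0 (m * E) 1 N one_pos hmE (by norm_num) (Nat.coprime_one_right _)
        (by omega) (by omega)
      have e1 : (1 * (m * E) * (((1 * 1 : ℕ) : ℤ) - ((m * E * 0 : ℕ) : ℤ)).natAbs) = m * E := by
        simp
      rw [e1] at h1
      refine h1.trans ?_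
      have hNR : (2 : ℝ) ^ i ≤ N := by exact_mod_cast hN.le
      have hN0 : (0 : ℝ) < N := lt_of_lt_of_le (by positivity) hNR
      have hlog : (i : ℝ) * Real.log 2 ≤ Real.log N := by
        rw [← Real.log_pow]
        exact Real.log_le_log (by positivity) hNR
      have hNle : (N : ℝ) ≤ 2 ^ J / (m * E) := by
        have := Nat.cast_div_le (α := ℝ) (m := 2 ^ J) (n := m * E)
        push_cast at this
        exact this
      have hGG : GG (m * E) ≤ GG m * Real.exp 2 :=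
        (GG_mul_le m E).trans (mul_le_mul_of_nonneg_left (GG_rough hJi hE1 hEJ hEr)
          (GG_nonneg m))
      have hGG0 := GG_nonneg (m * E)
      calc C1 * GG (m * E) ^ 2 * N / Real.log N ^ 2
          ≤ C1 * (GG m * Real.exp 2) ^ 2 * (2 ^ J / (m * E)) / ((i : ℝ) * Real.log 2) ^ 2 := by
            gcongr
        _ = (K * 2 ^ J / (i : ℝ) ^ 2 * (GG m ^ 2 * (m : ℝ)⁻¹)) * (E : ℝ)⁻¹ := by
            rw [hK]
            field_simp
    refine (Finset.sum_le_sum hterm).trans ?_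
    rw [← Finset.mul_sum]
    have hsub : ∑ E ∈ (Finset.Icc 1 (2 ^ J)).filter
        (fun E => Rough i E ∧ 2 ^ i < 2 ^ J / (m * E)), (E : ℝ)⁻¹ ≤ C3 * (J / i) := by
      refine (Finset.sum_le_sum_of_subset_of_nonneg ?_ (fun _ _ _ => by positivity)).trans
        (hR i J hi1 hiJ)
      intro E hE
      rw [mem_filter] at hE ⊢
      exact ⟨hE.1, hE.2.1⟩
    have hG0 : 0 ≤ GG m ^ 2 * (m : ℝ)⁻¹ := by positivity
    calc (K * 2 ^ J / (i : ℝ) ^ 2 * (GG m ^ 2 * (m : ℝ)⁻¹)) *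
          ∑ E ∈ (Finset.Icc 1 (2 ^ J)).filter
            (fun E => Rough i E ∧ 2 ^ i < 2 ^ J / (m * E)), (E : ℝ)⁻¹
        ≤ (K * 2 ^ J / (i : ℝ) ^ 2 * (GG m ^ 2 * (m : ℝ)⁻¹)) * (C3 * (J / i)) := by
          apply mul_le_mul_of_nonneg_left hsub
          positivity
      _ = _ := by ring
  refine (Finset.sum_le_sum hm).trans ?_
  rw [← Finset.mul_sum]
  have hpw : 1 ≤ J ^ B := Nat.one_le_pow _ _ hJ1'
  have h3 := hG (J ^ B) hpw
  have hlogJ : Real.log J ≤ 8 * (J : ℝ) ^ (1 / 8 : ℝ) := by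
    have := Real.log_le_rpow_div hJ0.le (by norm_num : (0 : ℝ) < 1 / 8)
    linarith
  have hp18 : (1 : ℝ) ≤ (J : ℝ) ^ (1 / 8 : ℝ) := Real.one_le_rpow hJR (by norm_num)
  have h4 : 1 + Real.log ((J ^ B : ℕ) : ℝ) ≤ (1 + 8 * B) * (J : ℝ) ^ (1 / 8 : ℝ) := by
    push_cast
    rw [Real.log_pow]
    have hB : (0 : ℝ) ≤ B := Nat.cast_nonneg B
    nlinarith
  have h5 : ∑ m ∈ Finset.Icc 1 (J ^ B), GG m ^ 2 * (m : ℝ)⁻¹ ≤
      C2 * ((1 + 8 * B) * (J : ℝ) ^ (1 / 8 : ℝ)) :=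
    h3.trans (mul_le_mul_of_nonneg_left h4 hC2.le)
  have hi3 : (J : ℝ) * (J : ℝ) ^ (1 / 8 : ℝ) * (J : ℝ) ^ (3 / 2 : ℝ) ≤ (i : ℝ) ^ 3 := by
    have e1 : (J : ℝ) * (J : ℝ) ^ (1 / 8 : ℝ) * (J : ℝ) ^ (3 / 2 : ℝ) =
        ((J : ℝ) ^ (7 / 8 : ℝ)) ^ 3 := by
      rw [← Real.rpow_natCast ((J : ℝ) ^ (7 / 8 : ℝ)) 3, ← Real.rpow_mul hJ0.le]
      nth_rewrite 1 [← Real.rpow_one (J : ℝ)]
      rw [← Real.rpow_add hJ0, ← Real.rpow_add hJ0]
      norm_num
    rw [e1]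
    exact pow_le_pow_left₀ (by positivity) hi78 3
  have hJ32 : (0 : ℝ) < (J : ℝ) ^ (3 / 2 : ℝ) := by positivity
  calc K * 2 ^ J / (i : ℝ) ^ 2 * (C3 * (J / i)) * ∑ m ∈ Finset.Icc 1 (J ^ B), GG m ^ 2 * (m : ℝ)⁻¹
      ≤ K * 2 ^ J / (i : ℝ) ^ 2 * (C3 * (J / i)) *
          (C2 * ((1 + 8 * B) * (J : ℝ) ^ (1 / 8 : ℝ))) := by
        apply mul_le_mul_of_nonneg_left h5
        positivity
    _ = (K * C3 * C2 * (1 + 8 * B) * 2 ^ J) *
          ((J : ℝ) * (J : ℝ) ^ (1 / 8 : ℝ) / (i : ℝ) ^ 3) := by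
        field_simp
    _ ≤ (K * C3 * C2 * (1 + 8 * B) * 2 ^ J) * (1 / (J : ℝ) ^ (3 / 2 : ℝ)) := by
        apply mul_le_mul_of_nonneg_left _ (by positivity)
        rw [div_le_div_iff₀ (by positivity) hJ32, one_mul]
        exact hi3
    _ = K * C3 * C2 * (1 + 8 * B) * 2 ^ J / (J : ℝ) ^ (3 / 2 : ℝ) := by ring

end Pool.Agent.N907.EG
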