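import Pool.Agent.N907.EG.Def

set_option autoImplicit false

open Finset

namespace Pool.Agent.N907.EG

namespace Cov

/-- count in one residue class -/
lemma class_count (q a u N : ℕ) (hq : 0 < q) :
    |(((Ioc u (u + N)).filter (fun n => n ≡ a [MOD q])).card : ℝ) - (N : ℝ) / q| ≤ 1 := by
  have h := Nat.Ioc_filter_modEq_card u (u + N) hq a
  have hq' : (0 : ℚ) < q := by exact_mod_cast hq
  set x : ℚ := (((u + N : ℕ) : ℚ) - a) / q with hx
  set y : ℚ := ((u : ℚ) - a) / q with hy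
  have hxy : x - y = (N : ℚ) / q := by
    rw [hx, hy, ← sub_div]; push_cast; ring_nf
  have hN : (0 : ℚ) ≤ (N : ℚ) / q := by positivity
  have h1 := Int.floor_le x
  have h2 := Int.lt_floor_add_one x
  have h3 := Int.floor_le y
  have h4 := Int.lt_floor_add_one y
  have h5 : ((((Ioc u (u + N)).filter (fun n => n ≡ a [MOD q])).card : ℤ) : ℚ) =
      max ((⌊x⌋ : ℚ) - ⌊y⌋) 0 := by
    rw [h]; push_cast; rfl
  have key : |((((Ioc u (u + N)).filter (fun n => n ≡ a [MOD q])).card : ℤ) : ℚ) -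
      (N : ℚ) / q| ≤ 1 := by
    rw [h5, ← hxy, abs_le]
    rw [← hxy] at hN
    rcases max_cases ((⌊x⌋ : ℚ) - ⌊y⌋) 0 with ⟨h6, h7⟩ | ⟨h6, h7⟩ <;> rw [h6] <;>
      constructor <;> linarith
  have key2 := (Rat.cast_le (K := ℝ)).2 key
  push_cast at key2
  exact key2

/-- the counting lemma (CL) -/
lemma CL : ∀ (q2 : ℕ), Squarefree q2 → ∀ (q1 a u N : ℕ), 0 < q1 → Nat.Coprime q1 q2 →
    |(((Ioc u (u + N)).filter (fun n => n ≡ a [MOD q1] ∧ Nat.Coprime n q2)).card : ℝ) -
      (N : ℝ) * (Nat.totient q2) / (q1 * q2)| ≤ (Nat.divisors q2).card := by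
  intro q2
  induction q2 using Nat.strong_induction_on with
  | _ q2 ih =>
    intro h2 q1 a u N hq1 hco
    have hq2 : q2 ≠ 0 := h2.ne_zero
    rcases eq_or_ne q2 1 with rfl | hne
    · have := class_count q1 a u N hq1
      simpa using this
    · have hp : (Nat.minFac q2).Prime := Nat.minFac_prime hne
      obtain ⟨q', hq'⟩ := Nat.minFac_dvd q2
      set p := Nat.minFac q2 with hpdef
      have hpq : Nat.Coprime p q' := by
        rw [hq'] at h2
        exact Nat.coprime_of_squarefree_mul h2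
      have hq'sf : Squarefree q' := by
        rw [hq'] at h2
        exact h2.of_mul_right
      have hq'0 : 0 < q' := Nat.pos_of_ne_zero hq'sf.ne_zero
      have hlt : q' < q2 := by
        rw [hq']
        have := hp.two_le
        nlinarith
      have hco1 : Nat.Coprime q1 p := by
        rw [hq'] at hco
        exact Nat.Coprime.coprime_mul_right_right hco
      have hco2 : Nat.Coprime q1 q' := by
        rw [hq'] at hco
        exact Nat.Coprime.coprime_mul_left_right hco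
      have e1 := ih q' hlt hq'sf q1 a u N hq1 hco2
      obtain ⟨a', ha1, ha2⟩ := Nat.chineseRemainder hco1 a 0
      have e2 := ih q' hlt hq'sf (q1 * p) a' u N (Nat.mul_pos hq1 hp.pos)
        (Nat.Coprime.mul_left hco2 hpq)
      have hA : ∀ n, (n ≡ a' [MOD q1 * p]) ↔ (n ≡ a [MOD q1] ∧ p ∣ n) := by
        intro n
        rw [← Nat.modEq_and_modEq_iff_modEq_mul hco1]
        constructor
        · rintro ⟨h3, h4⟩
          exact ⟨h3.trans ha1, (Nat.modEq_zero_iff_dvd).1 (h4.trans ha2)⟩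
        · rintro ⟨h3, h4⟩
          exact ⟨h3.trans ha1.symm, ((Nat.modEq_zero_iff_dvd).2 h4).trans ha2.symm⟩
      have hcard : ((Ioc u (u + N)).filter (fun n => n ≡ a [MOD q1] ∧ Nat.Coprime n q')).card =
          ((Ioc u (u + N)).filter (fun n => n ≡ a [MOD q1] ∧ Nat.Coprime n q2)).card +
          ((Ioc u (u + N)).filter (fun n => n ≡ a' [MOD q1 * p] ∧ Nat.Coprime n q')).card := by
        rw [← Finset.card_union_of_disjoint]
        · congr 1
          ext n
          simp only [mem_filter, mem_union, hA]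
          rw [hq', Nat.coprime_mul_iff_right, Nat.coprime_comm (n := n) (m := p),
            hp.coprime_iff_not_dvd]
          tauto
        · rw [Finset.disjoint_filter]
          intro n _ h3 h4
          rw [hA] at h4
          have h5 := h3.2
          rw [hq', Nat.coprime_mul_iff_right, Nat.coprime_comm (n := n) (m := p),
            hp.coprime_iff_not_dvd] at h5
          exact h5.1 h4.1.2
      have hcard' : (((Ioc u (u + N)).filter
            (fun n => n ≡ a [MOD q1] ∧ Nat.Coprime n q')).card : ℝ) =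
          ((Ioc u (u + N)).filter (fun n => n ≡ a [MOD q1] ∧ Nat.Coprime n q2)).card +
          ((Ioc u (u + N)).filter (fun n => n ≡ a' [MOD q1 * p] ∧ Nat.Coprime n q')).card := by
        exact_mod_cast hcard
      have htot : (Nat.totient q2 : ℝ) = ((p : ℝ) - 1) * Nat.totient q' := by
        rw [hq', Nat.totient_mul hpq, Nat.totient_prime hp]
        push_cast [Nat.cast_sub hp.one_le]
        ring
      have hdiv : ((Nat.divisors q2).card : ℝ) = 2 * (Nat.divisors q').card := by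
        rw [hq', hpq.card_divisors_mul, hp.divisors, Finset.card_pair hp.one_lt.ne]
        push_cast; ring
      have hq2r : (q2 : ℝ) = p * q' := by rw [hq']; push_cast; ring
      have hp0 : (p : ℝ) ≠ 0 := by exact_mod_cast hp.pos.ne'
      have hq10 : (q1 : ℝ) ≠ 0 := by exact_mod_cast hq1.ne'
      have hq'0' : (q' : ℝ) ≠ 0 := by exact_mod_cast hq'0.ne'
      have hmain : (N : ℝ) * (Nat.totient q2) / (q1 * q2) =
          (N : ℝ) * (Nat.totient q') / (q1 * q') -
          (N : ℝ) * (Nat.totient q') / (((q1 * p : ℕ) : ℝ) * q') := by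
        rw [htot, hq2r]
        push_cast
        field_simp
      rw [hmain, hdiv]
      rw [abs_le] at e1 e2 ⊢
      constructor <;> linarith [e1.1, e1.2, e2.1, e2.2]

/-- the solutions of `e ∣ D m + 1` form a residue class -/
lemma class_of (e m : ℕ) (he : 0 < e) (h : Nat.Coprime m e) :
    ∃ a : ℕ, (∀ D : ℕ, e ∣ D * m + 1 ↔ D ≡ a [MOD e]) := by
  have : NeZero e := ⟨he.ne'⟩
  let w := ZMod.unitOfCoprime m h
  refine ⟨((-(w⁻¹ : (ZMod e)ˣ) : ZMod e)).val, fun D => ?_⟩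
  rw [← ZMod.natCast_eq_natCast_iff, ← (ZMod.natCast_eq_zero_iff (D * m + 1) e)]
  push_cast
  rw [ZMod.natCast_zmod_val]
  have hw : ((w : (ZMod e)ˣ) : ZMod e) = (m : ZMod e) := ZMod.coe_unitOfCoprime m h
  rw [← hw]
  constructor
  · intro h3
    have h4 : (D : ZMod e) * w = -1 := by
      linear_combination h3
    calc (D : ZMod e) = (D : ZMod e) * w * ((w⁻¹ : (ZMod e)ˣ) : ZMod e) := by
          rw [mul_assoc, Units.mul_inv, mul_one]
      _ = _ := by rw [h4]; ring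
  · intro h3
    rw [h3]
    have : ((w⁻¹ : (ZMod e)ˣ) : ZMod e) * w = 1 := Units.inv_mul w
    linear_combination -this

lemma modEq_lcm (a b m n : ℕ) :
    (a ≡ b [MOD m] ∧ a ≡ b [MOD n]) ↔ a ≡ b [MOD Nat.lcm m n] := by
  rw [← Int.natCast_modEq_iff, ← Int.natCast_modEq_iff, ← Int.natCast_modEq_iff,
    Int.modEq_and_modEq_iff_modEq_lcm]
  rfl

/-- (a) both congruences -/
lemma pair_count (e e' m m' Y : ℕ) (he : 0 < e) (he' : 0 < e') :
    |(((Ioc Y (Y + Y)).filter (fun D => e ∣ D * m + 1 ∧ e' ∣ D * m' + 1)).card : ℝ) -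
      (if (Nat.Coprime m e ∧ Nat.Coprime m' e' ∧ m' ≡ m [MOD (Nat.gcd e e')])
        then (Y : ℝ) / (Nat.lcm e e') else 0)| ≤ 1 := by
  have hcop : ∀ (x y D : ℕ), x ∣ D * y + 1 → Nat.Coprime y x ∧ Nat.Coprime D x := by
    intro x y D h
    constructor
    · have h1 : Nat.gcd y x ∣ 1 := by
        have h2 : Nat.gcd y x ∣ D * y := (Nat.gcd_dvd_left y x).mul_left D
        have h3 : Nat.gcd y x ∣ D * y + 1 := (Nat.gcd_dvd_right y x).trans h
        exact (Nat.dvd_add_right h2).1 h3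
      exact Nat.dvd_one.1 h1
    · have h1 : Nat.gcd D x ∣ 1 := by
        have h2 : Nat.gcd D x ∣ D * y := (Nat.gcd_dvd_left D x).mul_right y
        have h3 : Nat.gcd D x ∣ D * y + 1 := (Nat.gcd_dvd_right D x).trans h
        exact (Nat.dvd_add_right h2).1 h3
      exact Nat.dvd_one.1 h1
  have hg : 0 < Nat.gcd e e' := Nat.gcd_pos_of_pos_left e' he
  split_ifs with hc
  · obtain ⟨h1, h2, h3⟩ := hc
    obtain ⟨a, ha⟩ := class_of e m he h1
    obtain ⟨a', ha'⟩ := class_of e' m' he' h2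
    obtain ⟨b, hb⟩ := class_of (Nat.gcd e e') m hg
      (Nat.Coprime.coprime_dvd_right (Nat.gcd_dvd_left e e') h1)
    have hab : a ≡ b [MOD Nat.gcd e e'] := by
      rw [← hb]
      exact (Nat.gcd_dvd_left e e').trans ((ha a).2 rfl)
    have hab' : a' ≡ b [MOD Nat.gcd e e'] := by
      rw [← hb]
      have h4 : Nat.gcd e e' ∣ a' * m' + 1 := (Nat.gcd_dvd_right e e').trans ((ha' a').2 rfl)
      rw [← Nat.modEq_zero_iff_dvd] at h4 ⊢
      exact (Nat.ModEq.add_right 1 (Nat.ModEq.mul_left a' h3.symm)).trans h4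
    obtain ⟨k, hk1, hk2⟩ := Nat.chineseRemainder' (hab.trans hab'.symm)
    have hfil : ((Ioc Y (Y + Y)).filter (fun D => e ∣ D * m + 1 ∧ e' ∣ D * m' + 1)) =
        (Ioc Y (Y + Y)).filter (fun D => D ≡ k [MOD Nat.lcm e e']) := by
      apply Finset.filter_congr
      intro D _
      rw [ha, ha']
      rw [← modEq_lcm]
      constructor
      · rintro ⟨h5, h6⟩
        exact ⟨h5.trans hk1.symm, h6.trans hk2.symm⟩
      · rintro ⟨h5, h6⟩
        exact ⟨h5.trans hk1, h6.trans hk2⟩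
    rw [hfil]
    exact class_count _ k Y Y (Nat.lcm_pos he he')
  · have hfil : ((Ioc Y (Y + Y)).filter (fun D => e ∣ D * m + 1 ∧ e' ∣ D * m' + 1)) = ∅ := by
      rw [Finset.filter_eq_empty_iff]
      rintro D - ⟨h1, h2⟩
      apply hc
      refine ⟨(hcop _ _ _ h1).1, (hcop _ _ _ h2).1, ?_⟩
      have hDg : Nat.gcd (Nat.gcd e e') D = 1 := by
        have := Nat.Coprime.coprime_dvd_right (Nat.gcd_dvd_left e e') (hcop _ _ _ h1).2
        exact Nat.coprime_comm.1 this
      apply Nat.ModEq.cancel_left_of_coprime hDg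
      have h3 : Nat.gcd e e' ∣ D * m + 1 := (Nat.gcd_dvd_left e e').trans h1
      have h4 : Nat.gcd e e' ∣ D * m' + 1 := (Nat.gcd_dvd_right e e').trans h2
      rw [← Nat.modEq_zero_iff_dvd] at h3 h4
      exact Nat.ModEq.add_right_cancel' 1 (h4.trans h3.symm)
    rw [hfil]
    simp

lemma cop_quot (e e' : ℕ) (hs' : Squarefree e') :
    Nat.Coprime e (e' / Nat.gcd e e') := by
  obtain ⟨q, hq⟩ := Nat.gcd_dvd_right e e'
  have hg : 0 < Nat.gcd e e' := Nat.gcd_pos_of_pos_right e (Nat.pos_of_ne_zero hs'.ne_zero)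
  have h1 : e' / Nat.gcd e e' = q := Nat.div_eq_of_eq_mul_right hg hq
  rw [h1]
  have hs : Squarefree (Nat.gcd e e' * q) := by rw [← hq]; exact hs'
  have h2 : Nat.Coprime (Nat.gcd e e') q := Nat.coprime_of_squarefree_mul hs
  have h3 : Nat.gcd e q ∣ Nat.gcd e e' :=
    Nat.dvd_gcd (Nat.gcd_dvd_left e q) ((Nat.gcd_dvd_right e q).trans ⟨Nat.gcd e e', by
      rw [mul_comm]; exact hq⟩)
  have h4 : Nat.gcd e q ∣ Nat.gcd (Nat.gcd e e') q := Nat.dvd_gcd h3 (Nat.gcd_dvd_right e q)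
  rw [h2] at h4
  exact Nat.dvd_one.1 h4

lemma cop_iff (e e' D : ℕ) (h : Nat.Coprime D (Nat.gcd e e')) :
    Nat.Coprime D e' ↔ Nat.Coprime D (e' / Nat.gcd e e') := by
  obtain ⟨q, hq⟩ := Nat.gcd_dvd_right e e'
  rcases Nat.eq_zero_or_pos (Nat.gcd e e') with h0 | hg
  · have h1 : e' = 0 := by rw [hq, h0]; simp
    rw [h0] at h
    subst h1
    simp at h ⊢
  · have h1 : e' / Nat.gcd e e' = q := Nat.div_eq_of_eq_mul_right hg hq
    rw [h1]
    conv_lhs => rw [hq]
    rw [Nat.coprime_mul_iff_right]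
    tauto

lemma cop_of_dvd (x y D : ℕ) (h : x ∣ D * y + 1) : Nat.Coprime y x ∧ Nat.Coprime D x := by
  constructor
  · have h1 : Nat.gcd y x ∣ 1 := by
      have h2 : Nat.gcd y x ∣ D * y := (Nat.gcd_dvd_left y x).mul_left D
      have h3 : Nat.gcd y x ∣ D * y + 1 := (Nat.gcd_dvd_right y x).trans h
      exact (Nat.dvd_add_right h2).1 h3
    exact Nat.dvd_one.1 h1
  · have h1 : Nat.gcd D x ∣ 1 := by
      have h2 : Nat.gcd D x ∣ D * y := (Nat.gcd_dvd_left D x).mul_right y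
      have h3 : Nat.gcd D x ∣ D * y + 1 := (Nat.gcd_dvd_right D x).trans h
      exact (Nat.dvd_add_right h2).1 h3
    exact Nat.dvd_one.1 h1

lemma div_gcd_facts (e e' : ℕ) (hs' : Squarefree e') :
    Squarefree (e' / Nat.gcd e e') ∧ (Nat.divisors (e' / Nat.gcd e e')).card ≤
      (Nat.divisors e').card ∧ ((e' / Nat.gcd e e' : ℕ) : ℝ) * (Nat.gcd e e' : ℕ) = e' := by
  have h1 : e' / Nat.gcd e e' ∣ e' := Nat.div_dvd_of_dvd (Nat.gcd_dvd_right e e')
  refine ⟨hs'.squarefree_of_dvd h1, ?_, ?_⟩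
  · exact Finset.card_le_card (Nat.divisors_subset_of_dvd hs'.ne_zero h1)
  · rw [← Nat.cast_mul, Nat.div_mul_cancel (Nat.gcd_dvd_right e e')]

/-- (b) one congruence, one coprimality -/
lemma mixed_count (e e' m Y : ℕ) (he : 0 < e) (hs' : Squarefree e') :
    |(((Ioc Y (Y + Y)).filter (fun D => e ∣ D * m + 1 ∧ Nat.Coprime D e')).card : ℝ) -
      (if Nat.Coprime m e then (Y : ℝ) * (Nat.totient (e' / Nat.gcd e e')) /
        (e * (e' / Nat.gcd e e' : ℕ)) else 0)| ≤ (Nat.divisors e').card := by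
  split_ifs with hc
  · obtain ⟨a, ha⟩ := class_of e m he hc
    have hfil : ((Ioc Y (Y + Y)).filter (fun D => e ∣ D * m + 1 ∧ Nat.Coprime D e')) =
        (Ioc Y (Y + Y)).filter (fun D => D ≡ a [MOD e] ∧
          Nat.Coprime D (e' / Nat.gcd e e')) := by
      apply Finset.filter_congr
      intro D _
      rw [← ha]
      constructor
      · rintro ⟨h1, h2⟩
        exact ⟨h1, (cop_iff e e' D (Nat.Coprime.coprime_dvd_right (Nat.gcd_dvd_left e e')
          (cop_of_dvd _ _ _ h1).2)).1 h2⟩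
      · rintro ⟨h1, h2⟩
        exact ⟨h1, (cop_iff e e' D (Nat.Coprime.coprime_dvd_right (Nat.gcd_dvd_left e e')
          (cop_of_dvd _ _ _ h1).2)).2 h2⟩
    rw [hfil]
    obtain ⟨h1, h2, _⟩ := div_gcd_facts e e' hs'
    exact (CL _ h1 e a Y Y he (cop_quot e e' hs')).trans (by exact_mod_cast h2)
  · have hfil : ((Ioc Y (Y + Y)).filter (fun D => e ∣ D * m + 1 ∧ Nat.Coprime D e')) = ∅ := by
      rw [Finset.filter_eq_empty_iff]
      rintro D - ⟨h1, h2⟩
      exact hc (cop_of_dvd _ _ _ h1).1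
    rw [hfil]
    simp

lemma lcm_eq (e e' : ℕ) : Nat.lcm e e' = e * (e' / Nat.gcd e e') := by
  rw [Nat.lcm, Nat.mul_div_assoc _ (Nat.gcd_dvd_right e e')]

/-- (c) two coprimalities -/
lemma cop_count (e e' Y : ℕ) (hs : Squarefree e) (hs' : Squarefree e') :
    |(((Ioc Y (Y + Y)).filter (fun D => Nat.Coprime D e ∧ Nat.Coprime D e')).card : ℝ) -
      (Y : ℝ) * (Nat.totient (Nat.lcm e e')) / (Nat.lcm e e')| ≤ (e : ℝ) * e' := by
  have hl : Squarefree (Nat.lcm e e') := by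
    rw [lcm_eq, Nat.squarefree_mul (cop_quot e e' hs')]
    exact ⟨hs, (div_gcd_facts e e' hs').1⟩
  have h1 := CL (Nat.lcm e e') hl 1 0 Y Y one_pos (by simp)
  have hfil : ((Ioc Y (Y + Y)).filter (fun D => Nat.Coprime D e ∧ Nat.Coprime D e')) =
      (Ioc Y (Y + Y)).filter (fun n => n ≡ 0 [MOD 1] ∧ Nat.Coprime n (Nat.lcm e e')) := by
    apply Finset.filter_congr
    intro D _
    constructor
    · rintro ⟨h1, h2⟩
      refine ⟨Nat.modEq_one, ?_⟩
      exact Nat.Coprime.coprime_dvd_right (Nat.lcm_dvd_mul e e') (Nat.Coprime.mul_right h1 h2)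
    · rintro ⟨_, h2⟩
      exact ⟨Nat.Coprime.coprime_dvd_right (Nat.dvd_lcm_left e e') h2,
        Nat.Coprime.coprime_dvd_right (Nat.dvd_lcm_right e e') h2⟩
  rw [hfil]
  have h2 : ((Nat.divisors (Nat.lcm e e')).card : ℝ) ≤ (e : ℝ) * e' := by
    have h3 : (Nat.divisors (Nat.lcm e e')).card ≤ e * e' :=
      (Nat.card_divisors_le_self _).trans
        (Nat.le_of_dvd (Nat.mul_pos (Nat.pos_of_ne_zero hs.ne_zero)
          (Nat.pos_of_ne_zero hs'.ne_zero)) (Nat.lcm_dvd_mul e e'))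
    exact_mod_cast h3
  refine le_trans ?_ h2
  simpa using h1

/-- (d) -/
lemma m_count (e e' m M : ℕ) (hs' : Squarefree e') (hm : Nat.Coprime m e) :
    |(((Icc 1 M).filter (fun m' => Nat.Coprime m' e' ∧ m' ≡ m [MOD (Nat.gcd e e')])).card : ℝ) -
      (M : ℝ) * (Nat.totient (e' / Nat.gcd e e')) / e'| ≤ (Nat.divisors e').card := by
  obtain ⟨h1, h2, h3⟩ := div_gcd_facts e e' hs'
  have hg : 0 < Nat.gcd e e' := Nat.gcd_pos_of_pos_right e (Nat.pos_of_ne_zero hs'.ne_zero)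
  have h4 : Nat.Coprime (Nat.gcd e e') (e' / Nat.gcd e e') :=
    Nat.Coprime.coprime_dvd_left (Nat.gcd_dvd_left e e') (cop_quot e e' hs')
  have h5 := CL _ h1 (Nat.gcd e e') m 0 M hg h4
  have hfil : ((Icc 1 M).filter (fun m' => Nat.Coprime m' e' ∧ m' ≡ m [MOD (Nat.gcd e e')])) =
      (Ioc 0 (0 + M)).filter (fun n => n ≡ m [MOD (Nat.gcd e e')] ∧
        Nat.Coprime n (e' / Nat.gcd e e')) := by
    have h6 : Icc 1 M = Ioc 0 (0 + M) := by
      ext x; simp [Nat.succ_le_iff]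
    rw [h6]
    apply Finset.filter_congr
    intro D _
    have h7 : D ≡ m [MOD (Nat.gcd e e')] → Nat.Coprime D (Nat.gcd e e') := by
      intro h8
      have h9 : Nat.gcd D (Nat.gcd e e') = Nat.gcd m (Nat.gcd e e') := h8.gcd_eq
      unfold Nat.Coprime
      rw [h9]
      exact Nat.Coprime.coprime_dvd_right (Nat.gcd_dvd_left e e') hm
    constructor
    · rintro ⟨h8, h9⟩
      exact ⟨h9, (cop_iff e e' D (h7 h9)).1 h8⟩
    · rintro ⟨h8, h9⟩
      exact ⟨(cop_iff e e' D (h7 h8)).2 h9, h8⟩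
  rw [hfil]
  refine le_trans ?_ (show ((Nat.divisors (e' / Nat.gcd e e')).card : ℝ) ≤ _ by exact_mod_cast h2)
  have h10 : (M : ℝ) * (Nat.totient (e' / Nat.gcd e e')) / e' =
      (M : ℝ) * (Nat.totient (e' / Nat.gcd e e')) /
        (((Nat.gcd e e' : ℕ) : ℝ) * ((e' / Nat.gcd e e' : ℕ) : ℝ)) := by
    rw [mul_comm ((Nat.gcd e e' : ℕ) : ℝ), h3]
  rw [h10]
  exact h5

/-- (e) -/
lemma m_count' (e' M : ℕ) (hs' : Squarefree e') :
    |(((Icc 1 M).filter (fun m' => Nat.Coprime m' e')).card : ℝ) -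
      (M : ℝ) * (Nat.totient e') / e'| ≤ (Nat.divisors e').card := by
  have h5 := CL _ hs' 1 0 0 M one_pos (by simp)
  have hfil : ((Icc 1 M).filter (fun m' => Nat.Coprime m' e')) =
      (Ioc 0 (0 + M)).filter (fun n => n ≡ 0 [MOD 1] ∧ Nat.Coprime n e') := by
    have h6 : Icc 1 M = Ioc 0 (0 + M) := by
      ext x; simp [Nat.succ_le_iff]
    rw [h6]
    apply Finset.filter_congr
    intro D _
    simp [Nat.modEq_one]
  rw [hfil]
  simpa using h5

lemma ite_mul_ite (p q : Prop) [Decidable p] [Decidable q] [Decidable (p ∧ q)] :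
    (if p then (1 : ℝ) else 0) * (if q then (1 : ℝ) else 0) = if p ∧ q then (1 : ℝ) else 0 := by
  split_ifs <;> simp_all

lemma ite_mul_const (p : Prop) [Decidable p] (c : ℝ) :
    (if p then c else 0) = (if p then (1 : ℝ) else 0) * c := by
  split_ifs <;> simp

lemma fin1 (b M t u : ℝ) (hb : 0 < b) (hM : 0 ≤ M) (htb : t ≤ b) (hu : |u| ≤ M * t) :
    |(M / b) * u| ≤ M ^ 2 := by
  rw [abs_mul, abs_of_nonneg (by positivity : 0 ≤ M / b)]
  calc M / b * |u| ≤ M / b * (M * t) := by gcongr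
    _ = M ^ 2 * (t / b) := by ring
    _ ≤ M ^ 2 * 1 := by
        gcongr
        exact (div_le_one hb).2 htb
    _ = M ^ 2 := mul_one _

lemma fin2 (M τ τ' Z : ℝ) (hτ : 1 ≤ τ) (hτ' : 1 ≤ τ') (hZ : 0 ≤ Z) :
    4 * M ^ 2 + 2 * τ' * Z ≤ 4 * τ * τ' * (Z + M ^ 2) := by
  have h1 : 1 ≤ τ * τ' := one_le_mul_of_one_le_of_one_le hτ hτ'
  have h2 : τ' ≤ τ * τ' := le_mul_of_one_le_left (by linarith) hτ
  have h3 : τ' * Z ≤ τ * τ' * Z := mul_le_mul_of_nonneg_right h2 hZ
  have h4 : 1 * M ^ 2 ≤ τ * τ' * M ^ 2 := mul_le_mul_of_nonneg_right h1 (sq_nonneg M)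
  have h5 : 0 ≤ τ * τ' * Z := by positivity
  have h6 : 4 * τ * τ' * (Z + M ^ 2) = 4 * (τ * τ' * Z) + 4 * (τ * τ' * M ^ 2) := by ring
  rw [h6]
  linarith

/-- the final bound for real numbers -/
lemma assemble (a b L Y M S11 S12 S21 S22 A B B' φq φq' φe' φl τ τ' : ℝ)
    (ha : 0 < a) (hb : 0 < b) (hL : 0 < L) (hY : 0 ≤ Y) (hM : 0 ≤ M)
    (hτ : 1 ≤ τ) (hτ' : 1 ≤ τ') (hτa : τ ≤ a) (hτb : τ' ≤ b) (hφq : 0 ≤ φq) (hφqa : φq ≤ a)
    (h11 : |S11 - (Y / L) * A| ≤ M ^ 2)
    (h12 : |S12 - (Y * φq' / L) * B| ≤ M * τ')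
    (h21 : |S21 - (Y * φq / L) * B'| ≤ M * τ)
    (h22 : |S22 - Y * φl / L| ≤ a * b)
    (hA : |A - B * (M * φq' / b)| ≤ M * τ')
    (hB : |B' - M * φe' / b| ≤ τ')
    (hl : φl = φe' * φq) :
    |S11 - (M / b) * S12 - (M / a) * S21 + (M / a) * (M / b) * S22| ≤
      4 * τ * τ' * (Y * M / L + M ^ 2) := by
  have hab1 : M / b * (Y * φq' / L) = Y / L * (M * φq' / b) := by ring
  have key : S11 - (M / b) * S12 - (M / a) * S21 + (M / a) * (M / b) * S22 =
      (S11 - (Y / L) * A) - (M / b) * (S12 - (Y * φq' / L) * B) -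
      (M / a) * (S21 - (Y * φq / L) * B') + (M / a) * (M / b) * (S22 - Y * φl / L) +
      (Y / L) * ((A - B * (M * φq' / b)) - (M * φq / a) * (B' - M * φe' / b)) := by
    rw [hl]
    ring
  rw [key]
  have e1 : |(M / b) * (S12 - (Y * φq' / L) * B)| ≤ M ^ 2 := fin1 b M τ' _ hb hM hτb h12
  have e2 : |(M / a) * (S21 - (Y * φq / L) * B')| ≤ M ^ 2 := fin1 a M τ _ ha hM hτa h21
  have e3 : |(M / a) * (M / b) * (S22 - Y * φl / L)| ≤ M ^ 2 := by
    rw [abs_mul, abs_of_nonneg (by positivity : 0 ≤ M / a * (M / b))]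
    calc M / a * (M / b) * |S22 - Y * φl / L| ≤ M / a * (M / b) * (a * b) := by gcongr
      _ = M ^ 2 := by field_simp
  have e4 : |(M * φq / a) * (B' - M * φe' / b)| ≤ M * τ' := by
    rw [abs_mul, abs_of_nonneg (by positivity : 0 ≤ M * φq / a)]
    calc M * φq / a * |B' - M * φe' / b| ≤ M * φq / a * τ' := by gcongr
      _ = M * τ' * (φq / a) := by ring
      _ ≤ M * τ' * 1 := by
          gcongr
          exact (div_le_one ha).2 hφqa
      _ = M * τ' := mul_one _
  have e5 : |(Y / L) * ((A - B * (M * φq' / b)) - (M * φq / a) * (B' - M * φe' / b))| ≤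
      (Y / L) * (M * τ' + M * τ') := by
    rw [abs_mul, abs_of_nonneg (by positivity : 0 ≤ Y / L)]
    gcongr
    exact (abs_sub _ _).trans (add_le_add hA e4)
  generalize (S11 - (Y / L) * A) = z1 at *
  generalize (M / b) * (S12 - (Y * φq' / L) * B) = z2 at *
  generalize (M / a) * (S21 - (Y * φq / L) * B') = z3 at *
  generalize (M / a) * (M / b) * (S22 - Y * φl / L) = z4 at *
  generalize (Y / L) * ((A - B * (M * φq' / b)) - (M * φq / a) * (B' - M * φe' / b)) = z5 at *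
  have t1 : |z1 - z2 - z3 + z4 + z5| ≤ 4 * M ^ 2 + 2 * τ' * (Y * M / L) := by
    have e6 : (Y / L) * (M * τ' + M * τ') = 2 * τ' * (Y * M / L) := by ring
    rw [e6] at e5
    clear hA hB h12 h21 h22 e4 key hab1
    rw [abs_le] at h11 e1 e2 e3 e5 ⊢
    constructor <;> linarith [h11.1, h11.2, e1.1, e1.2, e2.1, e2.2, e3.1, e3.2, e5.1, e5.2]
  exact t1.trans (fin2 M τ τ' _ hτ hτ' (by positivity))

end Cov

open Cov in
theorem s_cov : S_Cov := by
  intro e e' Y M hs hs'
  have he : 0 < e := Nat.pos_of_ne_zero hs.ne_zero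
  have he' : 0 < e' := Nat.pos_of_ne_zero hs'.ne_zero
  have h2Y : 2 * Y = Y + Y := two_mul Y
  rw [h2Y]
  set I := Ioc Y (Y + Y) with hI
  set Mm := Icc 1 M with hMm
  have hcardM : (Mm.card : ℝ) = M := by rw [hMm]; simp
  -- indicator functions
  let P : ℕ → ℕ → ℝ := fun D m => if e ∣ D * m + 1 then 1 else 0
  let P' : ℕ → ℕ → ℝ := fun D m => if e' ∣ D * m + 1 then 1 else 0
  let κ : ℕ → ℝ := fun D => if Nat.Coprime D e then 1 else 0
  let κ' : ℕ → ℝ := fun D => if Nat.Coprime D e' then 1 else 0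
  have hbb : ∀ D, bb M e D = ∑ m ∈ Mm, P D m - κ D * (M / e) := by
    intro D
    unfold bb
    rw [Finset.natCast_card_filter]
    congr 1
    exact ite_mul_const _ _
  have hbb' : ∀ D, bb M e' D = ∑ m ∈ Mm, P' D m - κ' D * (M / e') := by
    intro D
    unfold bb
    rw [Finset.natCast_card_filter]
    congr 1
    exact ite_mul_const _ _
  set S11 : ℝ := ∑ D ∈ I, (∑ m ∈ Mm, P D m) * (∑ m ∈ Mm, P' D m) with hS11
  set S12 : ℝ := ∑ D ∈ I, (∑ m ∈ Mm, P D m) * κ' D with hS12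
  set S21 : ℝ := ∑ D ∈ I, (∑ m ∈ Mm, P' D m) * κ D with hS21
  set S22 : ℝ := ∑ D ∈ I, κ D * κ' D with hS22
  have hexp : ∑ D ∈ I, bb M e D * bb M e' D =
      S11 - ((M : ℝ) / e') * S12 - ((M : ℝ) / e) * S21 + ((M : ℝ) / e) * (M / e') * S22 := by
    rw [hS11, hS12, hS21, hS22, Finset.mul_sum, Finset.mul_sum, Finset.mul_sum,
      ← Finset.sum_sub_distrib, ← Finset.sum_sub_distrib, ← Finset.sum_add_distrib]
    apply Finset.sum_congr rfl
    intro D _
    rw [hbb, hbb']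
    ring
  -- T11
  have hT11 : S11 = ∑ m ∈ Mm, ∑ m' ∈ Mm,
      ((I.filter (fun D => e ∣ D * m + 1 ∧ e' ∣ D * m' + 1)).card : ℝ) := by
    rw [hS11]
    simp_rw [Finset.sum_mul_sum]
    rw [Finset.sum_comm]
    apply Finset.sum_congr rfl
    intro m _
    rw [Finset.sum_comm]
    apply Finset.sum_congr rfl
    intro m' _
    rw [Finset.natCast_card_filter]
    apply Finset.sum_congr rfl
    intro D _
    exact ite_mul_ite _ _
  have hT12 : S12 = ∑ m ∈ Mm,
      ((I.filter (fun D => e ∣ D * m + 1 ∧ Nat.Coprime D e')).card : ℝ) := by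
    rw [hS12]
    simp_rw [Finset.sum_mul]
    rw [Finset.sum_comm]
    apply Finset.sum_congr rfl
    intro m _
    rw [Finset.natCast_card_filter]
    apply Finset.sum_congr rfl
    intro D _
    exact ite_mul_ite _ _
  have hT21 : S21 = ∑ m ∈ Mm,
      ((I.filter (fun D => e' ∣ D * m + 1 ∧ Nat.Coprime D e)).card : ℝ) := by
    rw [hS21]
    simp_rw [Finset.sum_mul]
    rw [Finset.sum_comm]
    apply Finset.sum_congr rfl
    intro m _
    rw [Finset.natCast_card_filter]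
    apply Finset.sum_congr rfl
    intro D _
    exact ite_mul_ite _ _
  have hT22 : S22 = ((I.filter (fun D => Nat.Coprime D e ∧ Nat.Coprime D e')).card : ℝ) := by
    rw [hS22, Finset.natCast_card_filter]
    apply Finset.sum_congr rfl
    intro D _
    exact ite_mul_ite _ _
  set A : ℝ := ∑ m ∈ Mm, ∑ m' ∈ Mm,
    (if (Nat.Coprime m e ∧ Nat.Coprime m' e' ∧ m' ≡ m [MOD (Nat.gcd e e')]) then (1 : ℝ) else 0)
    with hAdef
  set B : ℝ := ∑ m ∈ Mm, (if Nat.Coprime m e then (1 : ℝ) else 0) with hBdef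
  set B' : ℝ := ∑ m ∈ Mm, (if Nat.Coprime m e' then (1 : ℝ) else 0) with hBdef'
  have hLe : (((Nat.lcm e e' : ℕ)) : ℝ) = (e : ℝ) * ((e' / Nat.gcd e e' : ℕ) : ℝ) := by
    rw [lcm_eq]; push_cast; ring
  have hLe' : (((Nat.lcm e e' : ℕ)) : ℝ) = (e' : ℝ) * ((e / Nat.gcd e' e : ℕ) : ℝ) := by
    rw [Nat.lcm_comm, lcm_eq]; push_cast; ring
  rw [hexp]
  refine assemble (e : ℝ) (e' : ℝ) ((Nat.lcm e e' : ℕ) : ℝ) Y M S11 S12 S21 S22 A B B'
    (Nat.totient (e / Nat.gcd e' e)) (Nat.totient (e' / Nat.gcd e e')) (Nat.totient e')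
    (Nat.totient (Nat.lcm e e')) (Nat.divisors e).card (Nat.divisors e').card
    (by exact_mod_cast he) (by exact_mod_cast he')
    (by exact_mod_cast Nat.lcm_pos he he') (by positivity) (by positivity)
    ?_ ?_ ?_ ?_ (by positivity) ?_ ?_ ?_ ?_ ?_ ?_ ?_ ?_
  · have : 0 < (Nat.divisors e).card := Finset.card_pos.2 ⟨1, Nat.one_mem_divisors.2 he.ne'⟩
    exact_mod_cast this
  · have : 0 < (Nat.divisors e').card := Finset.card_pos.2 ⟨1, Nat.one_mem_divisors.2 he'.ne'⟩
    exact_mod_cast this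
  · exact_mod_cast Nat.card_divisors_le_self e
  · exact_mod_cast Nat.card_divisors_le_self e'
  · have : Nat.totient (e / Nat.gcd e' e) ≤ e :=
      (Nat.totient_le _).trans (Nat.div_le_self _ _)
    exact_mod_cast this
  · -- h11
    rw [hT11, hAdef, Finset.mul_sum, ← Finset.sum_sub_distrib]
    have hle : ∀ m ∈ Mm, |(∑ m' ∈ Mm,
        ((I.filter (fun D => e ∣ D * m + 1 ∧ e' ∣ D * m' + 1)).card : ℝ)) -
        ((Y : ℝ) / ((Nat.lcm e e' : ℕ) : ℝ)) * ∑ m' ∈ Mm,
        (if (Nat.Coprime m e ∧ Nat.Coprime m' e' ∧ m' ≡ m [MOD (Nat.gcd e e')])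
          then (1 : ℝ) else 0)| ≤ (M : ℝ) := by
      intro m _
      rw [Finset.mul_sum, ← Finset.sum_sub_distrib]
      refine (Finset.abs_sum_le_sum_abs _ _).trans ?_
      have : ∑ _m' ∈ Mm, (1 : ℝ) = M := by simp [hcardM]
      rw [← this]
      apply Finset.sum_le_sum
      intro m' _
      have := pair_count e e' m m' Y he he'
      rw [mul_ite, mul_one, mul_zero]
      exact this
    refine (Finset.abs_sum_le_sum_abs _ _).trans ((Finset.sum_le_sum hle).trans ?_)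
    rw [Finset.sum_const, nsmul_eq_mul, hcardM, sq]
  · -- h12
    rw [hT12, hBdef, Finset.mul_sum, ← Finset.sum_sub_distrib]
    refine (Finset.abs_sum_le_sum_abs _ _).trans ?_
    have hc : (M : ℝ) * (Nat.divisors e').card = ∑ _m ∈ Mm, ((Nat.divisors e').card : ℝ) := by
      rw [Finset.sum_const, nsmul_eq_mul, hcardM]
    rw [hc]
    apply Finset.sum_le_sum
    intro m _
    have := mixed_count e e' m Y he hs'
    rw [mul_ite, mul_one, mul_zero, hLe]
    exact this
  · -- h21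
    rw [hT21, hBdef', Finset.mul_sum, ← Finset.sum_sub_distrib]
    refine (Finset.abs_sum_le_sum_abs _ _).trans ?_
    have hc : (M : ℝ) * (Nat.divisors e).card = ∑ _m ∈ Mm, ((Nat.divisors e).card : ℝ) := by
      rw [Finset.sum_const, nsmul_eq_mul, hcardM]
    rw [hc]
    apply Finset.sum_le_sum
    intro m _
    have := mixed_count e' e m Y he' hs
    rw [mul_ite, mul_one, mul_zero, hLe']
    exact this
  · -- h22
    rw [hT22]
    exact cop_count e e' Y hs hs'
  · -- hA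
    rw [hAdef, hBdef, Finset.sum_mul, ← Finset.sum_sub_distrib]
    refine (Finset.abs_sum_le_sum_abs _ _).trans ?_
    have hc : (M : ℝ) * (Nat.divisors e').card = ∑ _m ∈ Mm, ((Nat.divisors e').card : ℝ) := by
      rw [Finset.sum_const, nsmul_eq_mul, hcardM]
    rw [hc]
    apply Finset.sum_le_sum
    intro m _
    by_cases hm : Nat.Coprime m e
    · have := m_count e e' m M hs' hm
      rw [Finset.natCast_card_filter] at this
      rw [if_pos hm, one_mul,
        Finset.sum_congr rfl (fun m' _ => if_congr (and_iff_right hm) rfl rfl)]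
      exact this
    · rw [if_neg hm, zero_mul, sub_zero, Finset.sum_eq_zero, abs_zero]
      · positivity
      · intro m' _
        exact if_neg (fun h => hm h.1)
  · -- hB
    rw [hBdef']
    have := m_count' e' M hs'
    rw [Finset.natCast_card_filter] at this
    exact this
  · -- totient
    rw [Nat.lcm_comm, lcm_eq, Nat.totient_mul (cop_quot e' e hs)]
    push_cast
    ring

end Pool.Agent.N907.EG
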