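import Pool.Agent.N907.EG.Def
import Pool.Agent.W23.UBa
import Pool.Agent.H307R2.OP.BT4

/-!
Selberg weights.
-/

set_option autoImplicit false

open Finset BoundingSieve
open scoped ArithmeticFunction.Moebius

namespace Pool.Agent.N907.EG

namespace NuB

open Pool.Agent.Helper923.PPS

theorem PP_one (R : ℕ) : PP 1 R = primorial R := by
  unfold PP primorial
  apply Finset.prod_congr _ fun _ _ => rfl
  ext p
  simp only [Finset.mem_filter, Finset.mem_Icc, Finset.mem_range]
  constructor
  · rintro ⟨⟨_, h2⟩, h3, _⟩; exact ⟨by omega, h3⟩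
  · rintro ⟨h1, h2⟩
    exact ⟨⟨h2.one_lt.le, by omega⟩, h2, fun h => h2.one_lt.ne' (Nat.dvd_one.mp h)⟩

theorem nuB : S_Nu := by
  classical
  intro R hR
  set s := apSieve 1 1 1 R with hs
  have hP : s.prodPrimes = primorial R := PP_one R
  have hR1 : (1 : ℝ) ≤ R := by exact_mod_cast (show 1 ≤ R by omega)
  set w : ℕ → ℝ := selW s R with hw
  have hw1 : w 1 = 1 := selW_one s R hR1
  have hP0 : primorial R ≠ 0 := by rw [← hP]; exact prodPrimes_ne_zero
  refine ⟨fun e => if e ∣ primorial R then lambdaSquared w e else 0, ?_, ?_, ?_, ?_, ?_⟩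
  · intro e he
    by_cases hd : e ∣ primorial R
    · refine ⟨hd, ?_⟩
      simp only [if_pos hd] at he
      unfold lambdaSquared at he
      obtain ⟨d1, _, h2⟩ := Finset.exists_ne_zero_of_sum_ne_zero he
      obtain ⟨d2, _, h4⟩ := Finset.exists_ne_zero_of_sum_ne_zero h2
      by_cases hl : e = Nat.lcm d1 d2
      · rw [if_pos hl] at h4
        have a1 : (d1 : ℝ) ≤ R := by
          by_contra hcon
          apply h4
          rw [hw, selW_eq_zero s R (not_le.mp hcon), zero_mul]
        have a2 : (d2 : ℝ) ≤ R := by
          by_contra hcon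
          apply h4
          rw [hw, selW_eq_zero s R (not_le.mp hcon), mul_zero]
        have b1 : d1 ≤ R := by exact_mod_cast a1
        have b2 : d2 ≤ R := by exact_mod_cast a2
        have he0 : e ≠ 0 := ne_zero_of_dvd_ne_zero hP0 hd
        have hd1 : d1 ≠ 0 := by rintro rfl; simp at hl; exact he0 hl
        have hd2 : d2 ≠ 0 := by rintro rfl; simp at hl; exact he0 hl
        calc e = Nat.lcm d1 d2 := hl
          _ ≤ d1 * d2 := Nat.lcm_le_mul (Nat.pos_of_ne_zero hd1) (Nat.pos_of_ne_zero hd2)
          _ ≤ R * R := Nat.mul_le_mul b1 b2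
          _ = R ^ 2 := by ring
      · rw [if_neg hl] at h4; exact absurd rfl h4
    · simp only [if_neg hd] at he; exact absurd rfl he
  · intro e
    by_cases hd : e ∣ primorial R
    · simp only [if_pos hd]
      unfold lambdaSquared
      have hb : ∀ d ∈ e.divisors, |w d| ≤ 1 := by
        intro d hd'
        exact Pool.Agent.W23.UB.abs_selW_le_one s R hR1
          (by rw [hP]; exact (Nat.dvd_of_mem_divisors hd').trans hd)
      refine (Finset.abs_sum_le_sum_abs _ _).trans ?_
      calc ∑ d1 ∈ e.divisors, |∑ d2 ∈ e.divisors, if e = Nat.lcm d1 d2 then w d1 * w d2 else 0|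
          ≤ ∑ d1 ∈ e.divisors, ∑ _d2 ∈ e.divisors, (1 : ℝ) := by
            apply Finset.sum_le_sum
            intro d1 h1
            refine (Finset.abs_sum_le_sum_abs _ _).trans ?_
            apply Finset.sum_le_sum
            intro d2 h2
            split_ifs
            · rw [abs_mul]
              exact mul_le_one₀ (hb d1 h1) (abs_nonneg _) (hb d2 h2)
            · simp
        _ = _ := by simp [pow_two]
    · simp only [if_neg hd, abs_zero]; positivity
  · intro n
    have hset : (Nat.divisors (primorial R)).filter (fun e => e ∣ n) =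
        (Nat.gcd (primorial R) n).divisors := by
      ext e
      rw [Finset.mem_filter, Nat.mem_divisors, Nat.mem_divisors, Nat.dvd_gcd_iff]
      constructor
      · rintro ⟨⟨h1, _⟩, h2⟩
        exact ⟨⟨h1, h2⟩, Nat.gcd_ne_zero_left hP0⟩
      · rintro ⟨⟨h1, h2⟩, _⟩
        exact ⟨⟨h1, hP0⟩, h2⟩
    rw [hset]
    have h1 := upperMoebius_lambdaSquared w hw1 (Nat.gcd (primorial R) n)
    have h2 : ∑ e ∈ (Nat.gcd (primorial R) n).divisors,
        (if e ∣ primorial R then lambdaSquared w e else 0) =
        ∑ e ∈ (Nat.gcd (primorial R) n).divisors, lambdaSquared w e := by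
      apply Finset.sum_congr rfl
      intro e he
      rw [if_pos ((Nat.dvd_of_mem_divisors he).trans (Nat.gcd_dvd_left _ _))]
    rw [h2]
    refine le_trans ?_ h1
    split_ifs <;> norm_num
  · intro n hn hRn
    have hset : (Nat.divisors (primorial R)).filter (fun e => e ∣ n) = {1} := by
      ext e
      rw [Finset.mem_filter, Nat.mem_divisors, Finset.mem_singleton]
      constructor
      · rintro ⟨⟨h1, _⟩, h2⟩
        rcases (Nat.dvd_prime hn).mp h2 with h | h
        · exact h
        · exfalso
          rw [h, ← hP] at h1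
          have := (prime_dvd_PP hn).mp (show n ∣ PP 1 R from h1)
          omega
      · rintro rfl; exact ⟨⟨one_dvd _, hP0⟩, one_dvd _⟩
    rw [hset, Finset.sum_singleton, if_pos (one_dvd _)]
    unfold lambdaSquared
    simp [hw1]
  · have h1 := mainSum_selW s R hR1
    have h2 : ∑ e ∈ Nat.divisors (primorial R),
        (if e ∣ primorial R then lambdaSquared w e else 0) / (e : ℝ) = s.mainSum (lambdaSquared w) := by
      unfold BoundingSieve.mainSum
      rw [hP]
      apply Finset.sum_congr rfl
      intro e he
      rw [if_pos (Nat.dvd_of_mem_divisors he), div_eq_mul_inv]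
      rfl
    rw [h2, h1]
    have h3 := Pool.Agent.H307R2.OP.BT4P.selS_ge2 (a := 1) (q := 1) (N := 1) (R := R) le_rfl
    rw [Nat.totient_one, Nat.cast_one, div_one, one_mul] at h3
    have h4 : Real.log R ≤ Real.log ((R : ℝ) + 1) := Real.log_le_log (by linarith) (by linarith)
    have h5 : 0 < Real.log R := Real.log_pos (by exact_mod_cast (show 1 < R by omega))
    rw [← one_div]
    apply one_div_le_one_div_of_le h5
    exact h4.trans h3

end NuB

end Pool.Agent.N907.EG
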