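import Pool.Agent.N907.EG.Def
import Pool.Agent.Erdos456.Mertens

set_option autoImplicit false

open Finset

namespace Pool.Agent.N907.EG
namespace T2

/-! ### divisor sums over a primorial -/

/-- `τ(t)^k / t` as an arithmetic function -/
noncomputable def tf (k : ℕ) : ArithmeticFunction ℝ :=
  ⟨fun t => ((t.divisors.card : ℝ)) ^ k / t, by simp⟩

lemma tf_apply (k t : ℕ) : tf k t = ((t.divisors.card : ℝ)) ^ k / t := rfl

lemma tf_mult (k : ℕ) : (tf k).IsMultiplicative := by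
  refine ⟨by simp [tf_apply], ?_⟩
  intro m n hmn
  rw [tf_apply, tf_apply, tf_apply, hmn.card_divisors_mul]
  push_cast
  rw [mul_pow, mul_div_mul_comm]

lemma sum_div_pow (P : ℕ) (hP : Squarefree P) (k : ℕ) :
    ∑ t ∈ P.divisors, ((t.divisors.card : ℝ)) ^ k / t =
      ∏ p ∈ P.primeFactors, (1 + 2 ^ k / (p : ℝ)) := by
  have h := (tf_mult k).prodPrimeFactors_one_add_of_squarefree hP
  simp only [tf_apply] at h
  rw [← h]
  refine Finset.prod_congr rfl fun p hp => ?_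
  have hp' := (Nat.mem_primeFactors.mp hp).1
  rw [hp'.divisors, Finset.card_pair hp'.one_lt.ne]
  norm_num

lemma squarefree_primorial (R : ℕ) : Squarefree (primorial R) := by
  unfold primorial
  refine Finset.squarefree_prod_of_pairwise_isCoprime ?_ ?_
  · intro a ha b hb hab
    rw [Function.onFun, ← Nat.coprime_iff_isRelPrime]
    exact (Nat.coprime_primes (Finset.mem_filter.mp (Finset.mem_coe.mp ha)).2
      (Finset.mem_filter.mp (Finset.mem_coe.mp hb)).2).mpr hab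
  · intro p hp
    exact (Finset.mem_filter.mp hp).2.squarefree

/-- the constant in Mertens, in the form used here -/
lemma sum_div_le : ∃ C : ℝ, 1 ≤ C ∧ ∀ k J : ℕ, 200 ≤ J →
    ∑ t ∈ (primorial (2 ^ (J / 100))).divisors, ((t.divisors.card : ℝ)) ^ k / t ≤
      (C * J) ^ (2 ^ k) := by
  obtain ⟨C0, hC0⟩ := Pool.Agent.Erdos456.Mert.mertens_inv
  refine ⟨Real.exp |C0|, Real.one_le_exp (abs_nonneg _), ?_⟩
  intro k J hJ
  have hj : 2 ≤ J / 100 := by omega
  have hR : 3 ≤ 2 ^ (J / 100) := by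
    calc 3 ≤ 2 ^ 2 := by norm_num
      _ ≤ 2 ^ (J / 100) := Nat.pow_le_pow_right (by norm_num) hj
  have h1 := hC0 (2 ^ (J / 100)) hR
  have h2 := (abs_le.mp h1).2
  rw [sum_div_pow _ (squarefree_primorial _)]
  have h3 : (primorial (2 ^ (J / 100))).primeFactors =
      Pool.Agent.Erdos456.Mert.PP (2 ^ (J / 100)) := by
    rw [primeFactors_primorial]
    ext p
    simp only [Nat.mem_primesLE, Finset.mem_filter, Finset.mem_Icc]
    constructor
    · rintro ⟨h4, h5⟩; exact ⟨⟨h5.one_lt.le, h4⟩, h5⟩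
    · rintro ⟨⟨_, h4⟩, h5⟩; exact ⟨h4, h5⟩
  rw [h3]
  have hJ0 : (0 : ℝ) < J := by exact_mod_cast (by omega : 0 < J)
  have h4 : ∑ p ∈ Pool.Agent.Erdos456.Mert.PP (2 ^ (J / 100)), (1 : ℝ) / p ≤
      Real.log J + |C0| := by
    have h5 : Real.log (Real.log ((2 ^ (J / 100) : ℕ) : ℝ)) ≤ Real.log J := by
      apply Real.log_le_log
      · apply Real.log_pos
        exact_mod_cast (by omega : 1 < 2 ^ (J / 100))
      · push_cast
        rw [Real.log_pow]
        have h6 : Real.log 2 ≤ 1 := by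
          have := Real.log_two_lt_d9
          linarith
        have h7 : ((J / 100 : ℕ) : ℝ) ≤ J := by exact_mod_cast Nat.div_le_self _ _
        have h8 : 0 ≤ Real.log 2 := Real.log_nonneg (by norm_num)
        nlinarith
    have h9 := le_abs_self C0
    linarith
  calc ∏ p ∈ Pool.Agent.Erdos456.Mert.PP (2 ^ (J / 100)), (1 + 2 ^ k / (p : ℝ))
      ≤ ∏ p ∈ Pool.Agent.Erdos456.Mert.PP (2 ^ (J / 100)), Real.exp (2 ^ k / (p : ℝ)) := by
        refine Finset.prod_le_prod (fun p _ => by positivity) (fun p _ => ?_)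
        rw [add_comm]
        exact Real.add_one_le_exp _
    _ = Real.exp (2 ^ k * ∑ p ∈ Pool.Agent.Erdos456.Mert.PP (2 ^ (J / 100)), (1 : ℝ) / p) := by
        rw [← Real.exp_sum, Finset.mul_sum]
        congr 1
        refine Finset.sum_congr rfl fun p _ => by ring
    _ ≤ Real.exp (2 ^ k * (Real.log J + |C0|)) := by
        apply Real.exp_le_exp.mpr
        exact mul_le_mul_of_nonneg_left h4 (by positivity)
    _ = (Real.exp |C0| * J) ^ (2 ^ k) := by
        rw [mul_add, Real.exp_add, mul_pow, mul_comm]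
        congr 1
        · rw [← Real.exp_nat_mul]
          push_cast
          rfl
        · have : ((2 : ℝ) ^ k) = ((2 ^ k : ℕ) : ℝ) := by push_cast; rfl
          rw [this, Real.exp_nat_mul, Real.exp_log hJ0]

/-! ### the main term -/

/-- divisors of the primorial divisible by a given prime -/
lemma sum_dvd_prime (P : ℕ) (hP : Squarefree P) (q : ℕ) (hq : q.Prime) :
    ∑ e ∈ P.divisors.filter (fun e => q ∣ e), ((e.divisors.card : ℝ)) ^ 2 / e ≤
      4 / q * ∑ e ∈ P.divisors, ((e.divisors.card : ℝ)) ^ 2 / e := by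
  have hP0 : P ≠ 0 := hP.ne_zero
  rw [Finset.mul_sum]
  have hinj : ∀ e ∈ P.divisors.filter (fun e => q ∣ e), e / q ∈ P.divisors := by
    intro e he
    rw [Finset.mem_filter, Nat.mem_divisors] at he
    rw [Nat.mem_divisors]
    exact ⟨(Nat.div_dvd_of_dvd he.2).trans he.1.1, hP0⟩
  have hterm : ∀ e ∈ P.divisors.filter (fun e => q ∣ e),
      ((e.divisors.card : ℝ)) ^ 2 / e = 4 / q * ((((e / q).divisors.card : ℝ)) ^ 2 / (e / q : ℕ)) := by
    intro e he
    rw [Finset.mem_filter, Nat.mem_divisors] at he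
    obtain ⟨⟨he1, _⟩, f, rfl⟩ := he
    have hsq : Squarefree (q * f) := hP.squarefree_of_dvd he1
    have hcop : Nat.Coprime q f := Nat.coprime_of_squarefree_mul hsq
    have hf0 : f ≠ 0 := by
      rintro rfl
      simp at hsq
    rw [Nat.mul_div_cancel_left f hq.pos, hcop.card_divisors_mul, hq.divisors,
      Finset.card_pair hq.one_lt.ne]
    push_cast
    have hq0 : (q : ℝ) ≠ 0 := by exact_mod_cast hq.ne_zero
    have hf0' : (f : ℝ) ≠ 0 := by exact_mod_cast hf0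
    field_simp
    ring
  rw [Finset.sum_congr rfl hterm]
  have himg : ∑ e ∈ P.divisors.filter (fun e => q ∣ e),
      4 / (q : ℝ) * ((((e / q).divisors.card : ℝ)) ^ 2 / (e / q : ℕ)) =
      ∑ f ∈ (P.divisors.filter (fun e => q ∣ e)).image (fun e => e / q),
        4 / (q : ℝ) * (((f.divisors.card : ℝ)) ^ 2 / (f : ℕ)) := by
    rw [Finset.sum_image]
    intro a ha b hb hab
    rw [Finset.mem_coe, Finset.mem_filter] at ha hb
    simp only at hab
    rw [← Nat.div_mul_cancel ha.2, ← Nat.div_mul_cancel hb.2, hab]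
  rw [himg]
  refine Finset.sum_le_sum_of_subset_of_nonneg ?_ (fun e _ _ => by positivity)
  intro f hf
  rw [Finset.mem_image] at hf
  obtain ⟨e, he, rfl⟩ := hf
  exact hinj e he

lemma sum_biUnion_le {ι : Type} [DecidableEq ι] (s : Finset ι) (t : ι → Finset ℕ) (f : ℕ → ℝ)
    (hf : ∀ e, 0 ≤ f e) : ∑ e ∈ s.biUnion t, f e ≤ ∑ q ∈ s, ∑ e ∈ t q, f e := by
  classical
  induction s using Finset.induction_on with
  | empty => simp
  | insert a s ha ih =>
    rw [Finset.biUnion_insert, Finset.sum_insert ha]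
    have h1 := Finset.sum_union_inter (s₁ := t a) (s₂ := s.biUnion t) (f := f)
    have h2 : 0 ≤ ∑ e ∈ t a ∩ s.biUnion t, f e := Finset.sum_nonneg fun e _ => hf e
    linarith

/-- the main term for a rough modulus -/
lemma main_bound (R i0 J D : ℕ) (ν : ℕ → ℝ) (E K : ℝ)
    (hν : ∀ e, |ν e| ≤ ((Nat.divisors e).card : ℝ) ^ 2)
    (hsum : ∑ e ∈ Nat.divisors (primorial R), ν e / e ≤ K)
    (hE : ∑ e ∈ (primorial R).divisors, ((e.divisors.card : ℝ)) ^ 2 / e ≤ E)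
    (hD : 1 ≤ D) (hDJ : D ≤ 2 ^ J) (hR : Rough i0 D) :
    ∑ e ∈ (Nat.divisors (primorial R)).filter (fun e => Nat.Coprime D e), ν e / e ≤
      K + 4 * J * E / 2 ^ i0 := by
  set P := primorial R with hPdef
  have hP : Squarefree P := squarefree_primorial R
  have hsplit := Finset.sum_filter_add_sum_filter_not (Nat.divisors P)
    (fun e => Nat.Coprime D e) (fun e => ν e / (e : ℝ))
  have h1 : |∑ e ∈ (Nat.divisors P).filter (fun e => ¬ Nat.Coprime D e), ν e / (e : ℝ)| ≤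
      4 * J * E / 2 ^ i0 := by
    have hE0 : 0 ≤ ∑ e ∈ P.divisors, ((e.divisors.card : ℝ)) ^ 2 / e :=
      Finset.sum_nonneg fun e _ => by positivity
    calc |∑ e ∈ (Nat.divisors P).filter (fun e => ¬ Nat.Coprime D e), ν e / (e : ℝ)|
        ≤ ∑ e ∈ (Nat.divisors P).filter (fun e => ¬ Nat.Coprime D e), |ν e / (e : ℝ)| :=
          Finset.abs_sum_le_sum_abs _ _
      _ ≤ ∑ e ∈ (Nat.divisors P).filter (fun e => ¬ Nat.Coprime D e),
            ((e.divisors.card : ℝ)) ^ 2 / e := by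
          refine Finset.sum_le_sum fun e _ => ?_
          rw [abs_div, Nat.abs_cast]
          exact div_le_div_of_nonneg_right (hν e) (Nat.cast_nonneg _)
      _ ≤ ∑ e ∈ D.primeFactors.biUnion (fun q => (Nat.divisors P).filter (fun e => q ∣ e)),
            ((e.divisors.card : ℝ)) ^ 2 / e := by
          refine Finset.sum_le_sum_of_subset_of_nonneg ?_ (fun e _ _ => by positivity)
          intro e he
          rw [Finset.mem_filter] at he
          obtain ⟨q, hq, hq1, hq2⟩ := Nat.Prime.not_coprime_iff_dvd.mp he.2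
          rw [Finset.mem_biUnion]
          refine ⟨q, Nat.mem_primeFactors.mpr ⟨hq, hq1, by omega⟩, ?_⟩
          rw [Finset.mem_filter]
          exact ⟨he.1, hq2⟩
      _ ≤ ∑ q ∈ D.primeFactors, ∑ e ∈ (Nat.divisors P).filter (fun e => q ∣ e),
            ((e.divisors.card : ℝ)) ^ 2 / e := by
          exact sum_biUnion_le _ _ _ (fun e => by positivity)
      _ ≤ ∑ q ∈ D.primeFactors, 4 / (2 : ℝ) ^ i0 * E := by
          refine Finset.sum_le_sum fun q hq => ?_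
          have hq' := Nat.mem_primeFactors.mp hq
          have hq2 : (2 : ℝ) ^ i0 ≤ q := by exact_mod_cast (hR q hq'.1 hq'.2.1).le
          refine (sum_dvd_prime P hP q hq'.1).trans ?_
          refine mul_le_mul ?_ hE hE0 (by positivity)
          exact div_le_div_of_nonneg_left (by norm_num) (by positivity) hq2
      _ ≤ 4 * J * E / 2 ^ i0 := by
          rw [Finset.sum_const, nsmul_eq_mul]
          have hE1 : 0 ≤ E := hE0.trans hE
          have hc : ((D.primeFactors.card : ℕ) : ℝ) ≤ J := by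
            have h2 : 2 ^ D.primeFactors.card ≤ D := by
              calc 2 ^ D.primeFactors.card = ∏ q ∈ D.primeFactors, 2 := by
                    rw [Finset.prod_const]
                _ ≤ ∏ q ∈ D.primeFactors, q :=
                    Finset.prod_le_prod' fun q hq => (Nat.mem_primeFactors.mp hq).1.two_le
                _ ≤ D := Nat.le_of_dvd (by omega) (Nat.prod_primeFactors_dvd D)
            have h3 : D.primeFactors.card ≤ J :=
              (Nat.pow_le_pow_iff_right (by norm_num)).mp (h2.trans hDJ)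
            exact_mod_cast h3
          have : (D.primeFactors.card : ℝ) * (4 / 2 ^ i0 * E) ≤ J * (4 / 2 ^ i0 * E) :=
            mul_le_mul_of_nonneg_right hc (by positivity)
          refine this.trans (le_of_eq ?_)
          ring
  have h2 := (abs_le.mp h1).1
  linarith

/-! ### the error term -/

lemma bb_abs_le_one (M e D : ℕ) (he : 0 < e) : |bb M e D| ≤ 1 := by
  unfold bb
  by_cases hc : Nat.Coprime D e
  · rw [if_pos hc]
    have : NeZero e := ⟨he.ne'⟩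
    set v : ℕ := (-((D : ZMod e)⁻¹)).val with hv
    have hset : (Finset.Icc 1 M).filter (fun m => e ∣ D * m + 1) =
        (Finset.Ioc 0 M).filter (fun m => m ≡ v [MOD e]) := by
      ext m
      simp only [Finset.mem_filter, Finset.mem_Icc, Finset.mem_Ioc]
      have hu : (D : ZMod e) * (D : ZMod e)⁻¹ = 1 := ZMod.coe_mul_inv_eq_one D hc
      have hiff : e ∣ D * m + 1 ↔ m ≡ v [MOD e] := by
        rw [← ZMod.natCast_eq_natCast_iff, hv, ZMod.natCast_val, ZMod.cast_id', id,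
          ← ZMod.natCast_eq_zero_iff]
        push_cast
        constructor
        · intro h
          have h1 : (D : ZMod e) * m = -1 := eq_neg_of_add_eq_zero_left h
          calc (m : ZMod e) = ((D : ZMod e) * (D : ZMod e)⁻¹) * m := by rw [hu, one_mul]
            _ = (D : ZMod e)⁻¹ * ((D : ZMod e) * m) := by ring
            _ = -(D : ZMod e)⁻¹ := by rw [h1]; ring
        · intro h
          rw [h, mul_neg, hu]
          ring
      rw [hiff]
      constructor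
      · rintro ⟨⟨h1, h2⟩, h3⟩; exact ⟨⟨by omega, h2⟩, h3⟩
      · rintro ⟨⟨h1, h2⟩, h3⟩; exact ⟨⟨by omega, h2⟩, h3⟩
    rw [hset]
    have hcard := Nat.Ioc_filter_modEq_card 0 M he v
    set c := ((Finset.Ioc 0 M).filter (fun m => m ≡ v [MOD e])).card with hcdef
    have he0 : (0 : ℚ) < e := by exact_mod_cast he
    have h1 := Int.floor_le (((M : ℕ) - (v : ℕ) : ℚ) / (e : ℚ))
    have h2 := Int.lt_floor_add_one (((M : ℕ) - (v : ℕ) : ℚ) / (e : ℚ))
    have h3 := Int.floor_le ((((0 : ℕ) : ℚ) - (v : ℕ) : ℚ) / (e : ℚ))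
    have h4 := Int.lt_floor_add_one ((((0 : ℕ) : ℚ) - (v : ℕ) : ℚ) / (e : ℚ))
    set A := ⌊(((M : ℕ) - (v : ℕ) : ℚ) / (e : ℚ))⌋ with hA
    set B := ⌊((((0 : ℕ) : ℚ) - (v : ℕ) : ℚ) / (e : ℚ))⌋ with hB
    have h5 : (((M : ℕ) - (v : ℕ) : ℚ) / (e : ℚ)) - ((((0 : ℕ) : ℚ) - (v : ℕ) : ℚ) / (e : ℚ)) =
        M / e := by
      push_cast
      ring
    have hMe : (0 : ℚ) ≤ (M : ℚ) / e := by positivity
    have hcQ : (c : ℚ) = ((max (A - B) 0 : ℤ) : ℚ) := by exact_mod_cast congrArg (fun z : ℤ => (z : ℚ)) hcard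
    have h6 : |(c : ℚ) - M / e| ≤ 1 := by
      rw [hcQ, abs_le]
      rcases le_total (A - B) 0 with h7 | h7
      · rw [max_eq_right h7]
        have h8 : ((A - B : ℤ) : ℚ) ≤ 0 := by exact_mod_cast h7
        push_cast at h8 ⊢
        constructor <;> linarith
      · rw [max_eq_left h7]
        have h8 : (0 : ℚ) ≤ ((A - B : ℤ) : ℚ) := by exact_mod_cast h7
        push_cast at h8 ⊢
        constructor <;> linarith
    have h9 : |((c : ℝ)) - M / e| = ((|(c : ℚ) - M / e| : ℚ) : ℝ) := by push_cast; rfl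
    rw [h9]
    exact_mod_cast h6
  · rw [if_neg hc]
    have hempty : (Finset.Icc 1 M).filter (fun m => e ∣ D * m + 1) = ∅ := by
      rw [Finset.filter_eq_empty_iff]
      intro m _ hm
      obtain ⟨q, hq, hq1, hq2⟩ := Nat.Prime.not_coprime_iff_dvd.mp hc
      have h1 : q ∣ D * m + 1 := hq2.trans hm
      have h2 : q ∣ 1 := (Nat.dvd_add_right (hq1.mul_right m)).mp h1
      exact hq.one_lt.ne' (Nat.dvd_one.mp h2)
    rw [hempty]
    simp

/-- sum over pairs with given least common multiple -/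
lemma sum_pairs_lcm (P : ℕ) (hP : P ≠ 0) :
    ∑ e ∈ P.divisors, ∑ e' ∈ P.divisors,
        ((e.divisors.card : ℝ)) ^ 3 * ((e'.divisors.card : ℝ)) ^ 3 / (Nat.lcm e e' : ℝ) ≤
      ∑ t ∈ P.divisors, ((t.divisors.card : ℝ)) ^ 8 / t := by
  rw [← Finset.sum_product']
  have hmaps : ∀ x ∈ P.divisors ×ˢ P.divisors, Nat.lcm x.1 x.2 ∈ P.divisors := by
    intro x hx
    rw [Finset.mem_product, Nat.mem_divisors, Nat.mem_divisors] at hx
    rw [Nat.mem_divisors]
    exact ⟨Nat.lcm_dvd hx.1.1 hx.2.1, hP⟩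
  rw [← Finset.sum_fiberwise_of_maps_to hmaps]
  refine Finset.sum_le_sum fun t ht => ?_
  have ht0 : t ≠ 0 := (Nat.pos_of_mem_divisors ht).ne'
  have hsub : (P.divisors ×ˢ P.divisors).filter (fun x => Nat.lcm x.1 x.2 = t) ⊆
      t.divisors ×ˢ t.divisors := by
    intro x hx
    rw [Finset.mem_filter] at hx
    rw [Finset.mem_product, Nat.mem_divisors, Nat.mem_divisors]
    exact ⟨⟨hx.2 ▸ Nat.dvd_lcm_left _ _, ht0⟩, ⟨hx.2 ▸ Nat.dvd_lcm_right _ _, ht0⟩⟩
  calc ∑ x ∈ (P.divisors ×ˢ P.divisors).filter (fun x => Nat.lcm x.1 x.2 = t),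
        ((x.1.divisors.card : ℝ)) ^ 3 * ((x.2.divisors.card : ℝ)) ^ 3 / (Nat.lcm x.1 x.2 : ℝ)
      ≤ ∑ x ∈ (P.divisors ×ˢ P.divisors).filter (fun x => Nat.lcm x.1 x.2 = t),
        ((t.divisors.card : ℝ)) ^ 6 / t := by
        refine Finset.sum_le_sum fun x hx => ?_
        have hx' := hsub hx
        rw [Finset.mem_product, Nat.mem_divisors, Nat.mem_divisors] at hx'
        rw [Finset.mem_filter] at hx
        rw [hx.2]
        have h1 : ((x.1.divisors.card : ℕ) : ℝ) ≤ t.divisors.card := by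
          exact_mod_cast Finset.card_le_card (Nat.divisors_subset_of_dvd ht0 hx'.1.1)
        have h2 : ((x.2.divisors.card : ℕ) : ℝ) ≤ t.divisors.card := by
          exact_mod_cast Finset.card_le_card (Nat.divisors_subset_of_dvd ht0 hx'.2.1)
        refine div_le_div_of_nonneg_right ?_ (Nat.cast_nonneg _)
        calc ((x.1.divisors.card : ℝ)) ^ 3 * ((x.2.divisors.card : ℝ)) ^ 3
            ≤ ((t.divisors.card : ℝ)) ^ 3 * ((t.divisors.card : ℝ)) ^ 3 := by gcongr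
          _ = ((t.divisors.card : ℝ)) ^ 6 := by ring
    _ ≤ ∑ x ∈ t.divisors ×ˢ t.divisors, ((t.divisors.card : ℝ)) ^ 6 / t :=
        Finset.sum_le_sum_of_subset_of_nonneg hsub (fun _ _ _ => by positivity)
    _ = ((t.divisors.card : ℝ)) ^ 8 / t := by
        rw [Finset.sum_const, Finset.card_product, nsmul_eq_mul]
        push_cast
        ring

lemma card_filter_le (P R : ℕ) : (P.divisors.filter (fun e => e ≤ R)).card ≤ R := by
  have h : P.divisors.filter (fun e => e ≤ R) ⊆ Finset.Icc 1 R := by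
    intro e he
    rw [Finset.mem_filter] at he
    rw [Finset.mem_Icc]
    exact ⟨Nat.pos_of_mem_divisors he.1, he.2⟩
  have := Finset.card_le_card h
  simpa using this

lemma sum_restrict (P R : ℕ) (ν f : ℕ → ℝ) (hν : ∀ e, ν e ≠ 0 → e ∣ P ∧ e ≤ R ^ 2) :
    ∑ e ∈ P.divisors, ν e * f e = ∑ e ∈ P.divisors.filter (fun e => e ≤ R ^ 2), ν e * f e := by
  symm
  refine Finset.sum_filter_of_ne ?_
  intro e _ he
  exact (hν e (left_ne_zero_of_mul he)).2

lemma card_div_le {e R : ℕ} (he : e ≤ R) : ((e.divisors.card : ℕ) : ℝ) ≤ R := by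
  exact_mod_cast (Nat.card_divisors_le_self e).trans he

lemma errA (P R M D : ℕ) (ν : ℕ → ℝ) (hν : ∀ e, ν e ≠ 0 → e ∣ P ∧ e ≤ R ^ 2)
    (hν2 : ∀ e, |ν e| ≤ ((Nat.divisors e).card : ℝ) ^ 2) :
    |∑ e ∈ P.divisors, ν e * bb M e D| ≤ (R : ℝ) ^ 6 := by
  rw [sum_restrict P R ν _ hν]
  calc |∑ e ∈ P.divisors.filter (fun e => e ≤ R ^ 2), ν e * bb M e D|
      ≤ ∑ e ∈ P.divisors.filter (fun e => e ≤ R ^ 2), |ν e * bb M e D| :=
        Finset.abs_sum_le_sum_abs _ _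
    _ ≤ ∑ e ∈ P.divisors.filter (fun e => e ≤ R ^ 2), (R : ℝ) ^ 4 := by
        refine Finset.sum_le_sum fun e he => ?_
        rw [Finset.mem_filter] at he
        rw [abs_mul]
        have h1 := hν2 e
        have h2 := bb_abs_le_one M e D (Nat.pos_of_mem_divisors he.1)
        have h3 : ((e.divisors.card : ℕ) : ℝ) ≤ ((R ^ 2 : ℕ) : ℝ) := card_div_le he.2
        have h4 : ((e.divisors.card : ℕ) : ℝ) ^ 2 ≤ (R : ℝ) ^ 4 := by
          calc ((e.divisors.card : ℕ) : ℝ) ^ 2 ≤ (((R ^ 2 : ℕ) : ℝ)) ^ 2 := by gcongr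
            _ = (R : ℝ) ^ 4 := by push_cast; ring
        calc |ν e| * |bb M e D| ≤ |ν e| * 1 := mul_le_mul_of_nonneg_left h2 (abs_nonneg _)
          _ ≤ (R : ℝ) ^ 4 := by rw [mul_one]; exact h1.trans h4
    _ ≤ (R : ℝ) ^ 6 := by
        rw [Finset.sum_const, nsmul_eq_mul]
        have h5 : (((P.divisors.filter (fun e => e ≤ R ^ 2)).card : ℕ) : ℝ) ≤ (R : ℝ) ^ 2 := by
          exact_mod_cast card_filter_le P (R ^ 2)
        calc (((P.divisors.filter (fun e => e ≤ R ^ 2)).card : ℕ) : ℝ) * (R : ℝ) ^ 4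
            ≤ (R : ℝ) ^ 2 * (R : ℝ) ^ 4 := by gcongr
          _ = (R : ℝ) ^ 6 := by ring

lemma errB (h2 : S_Cov) (P R M Y : ℕ) (ν α : ℕ → ℝ) (E : ℝ) (hP : Squarefree P)
    (hν : ∀ e, ν e ≠ 0 → e ∣ P ∧ e ≤ R ^ 2)
    (hν2 : ∀ e, |ν e| ≤ ((Nat.divisors e).card : ℝ) ^ 2)
    (hE : ∑ t ∈ P.divisors, ((t.divisors.card : ℝ)) ^ 8 / t ≤ E)
    (hα0 : ∀ D, 0 ≤ α D) (hα1 : ∀ D, α D ≤ 1) :
    (∑ D ∈ Finset.Ioc Y (2 * Y), α D * ∑ e ∈ P.divisors, ν e * bb M e D) ^ 2 ≤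
      (Y : ℝ) * (4 * (Y : ℝ) * M * E + 4 * (M : ℝ) ^ 2 * (R : ℝ) ^ 16) := by
  set ES := P.divisors.filter (fun e => e ≤ R ^ 2) with hES
  have hES1 : ∀ e ∈ ES, Squarefree e := fun e he =>
    hP.squarefree_of_dvd (Nat.dvd_of_mem_divisors (Finset.mem_filter.mp he).1)
  have hsum3 : ∑ e ∈ ES, ((e.divisors.card : ℝ)) ^ 3 ≤ (R : ℝ) ^ 8 := by
    calc ∑ e ∈ ES, ((e.divisors.card : ℝ)) ^ 3 ≤ ∑ e ∈ ES, (R : ℝ) ^ 6 := by
          refine Finset.sum_le_sum fun e he => ?_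
          have h3 : ((e.divisors.card : ℕ) : ℝ) ≤ ((R ^ 2 : ℕ) : ℝ) :=
            card_div_le (Finset.mem_filter.mp he).2
          calc ((e.divisors.card : ℕ) : ℝ) ^ 3 ≤ (((R ^ 2 : ℕ) : ℝ)) ^ 3 := by gcongr
            _ = (R : ℝ) ^ 6 := by push_cast; ring
      _ ≤ (R : ℝ) ^ 8 := by
          rw [Finset.sum_const, nsmul_eq_mul]
          have h5 : ((ES.card : ℕ) : ℝ) ≤ (R : ℝ) ^ 2 := by
            exact_mod_cast card_filter_le P (R ^ 2)
          calc ((ES.card : ℕ) : ℝ) * (R : ℝ) ^ 6 ≤ (R : ℝ) ^ 2 * (R : ℝ) ^ 6 := by gcongr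
            _ = (R : ℝ) ^ 8 := by ring
  have hsum3' : 0 ≤ ∑ e ∈ ES, ((e.divisors.card : ℝ)) ^ 3 :=
    Finset.sum_nonneg fun e _ => by positivity
  -- variance
  have hV : ∑ D ∈ Finset.Ioc Y (2 * Y), (∑ e ∈ P.divisors, ν e * bb M e D) ^ 2 ≤
      4 * (Y : ℝ) * M * E + 4 * (M : ℝ) ^ 2 * (R : ℝ) ^ 16 := by
    have hexp : ∑ D ∈ Finset.Ioc Y (2 * Y), (∑ e ∈ P.divisors, ν e * bb M e D) ^ 2 =
        ∑ e ∈ ES, ∑ e' ∈ ES, ν e * ν e' * ∑ D ∈ Finset.Ioc Y (2 * Y), bb M e D * bb M e' D := by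
      calc ∑ D ∈ Finset.Ioc Y (2 * Y), (∑ e ∈ P.divisors, ν e * bb M e D) ^ 2
          = ∑ D ∈ Finset.Ioc Y (2 * Y), ∑ e ∈ ES, ∑ e' ∈ ES,
              (ν e * bb M e D) * (ν e' * bb M e' D) := by
            refine Finset.sum_congr rfl fun D _ => ?_
            rw [sum_restrict P R ν _ hν, sq, Finset.sum_mul_sum]
        _ = ∑ e ∈ ES, ∑ e' ∈ ES, ∑ D ∈ Finset.Ioc Y (2 * Y),
              (ν e * bb M e D) * (ν e' * bb M e' D) := by
            rw [Finset.sum_comm]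
            refine Finset.sum_congr rfl fun e _ => ?_
            rw [Finset.sum_comm]
        _ = _ := by
            refine Finset.sum_congr rfl fun e _ => Finset.sum_congr rfl fun e' _ => ?_
            rw [Finset.mul_sum]
            refine Finset.sum_congr rfl fun D _ => by ring
    rw [hexp]
    have hb : ∀ e ∈ ES, ∀ e' ∈ ES,
        ν e * ν e' * ∑ D ∈ Finset.Ioc Y (2 * Y), bb M e D * bb M e' D ≤
        4 * (Y : ℝ) * M * (((e.divisors.card : ℝ)) ^ 3 * ((e'.divisors.card : ℝ)) ^ 3 /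
          (Nat.lcm e e' : ℝ)) +
        4 * (M : ℝ) ^ 2 * (((e.divisors.card : ℝ)) ^ 3 * ((e'.divisors.card : ℝ)) ^ 3) := by
      intro e he e' he'
      have hc := h2 e e' Y M (hES1 e he) (hES1 e' he')
      calc ν e * ν e' * ∑ D ∈ Finset.Ioc Y (2 * Y), bb M e D * bb M e' D
          ≤ |ν e * ν e' * ∑ D ∈ Finset.Ioc Y (2 * Y), bb M e D * bb M e' D| := le_abs_self _
        _ = |ν e| * |ν e'| * |∑ D ∈ Finset.Ioc Y (2 * Y), bb M e D * bb M e' D| := by
            rw [abs_mul, abs_mul]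
        _ ≤ ((e.divisors.card : ℝ)) ^ 2 * ((e'.divisors.card : ℝ)) ^ 2 *
            (4 * (Nat.divisors e).card * (Nat.divisors e').card *
              ((Y : ℝ) * M / (Nat.lcm e e' : ℝ) + (M : ℝ) ^ 2)) := by
            refine mul_le_mul (mul_le_mul (hν2 e) (hν2 e') (abs_nonneg _) (by positivity)) hc
              (abs_nonneg _) (by positivity)
        _ = _ := by ring
    calc ∑ e ∈ ES, ∑ e' ∈ ES, ν e * ν e' * ∑ D ∈ Finset.Ioc Y (2 * Y), bb M e D * bb M e' D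
        ≤ ∑ e ∈ ES, ∑ e' ∈ ES, (4 * (Y : ℝ) * M * (((e.divisors.card : ℝ)) ^ 3 *
            ((e'.divisors.card : ℝ)) ^ 3 / (Nat.lcm e e' : ℝ)) +
          4 * (M : ℝ) ^ 2 * (((e.divisors.card : ℝ)) ^ 3 * ((e'.divisors.card : ℝ)) ^ 3)) :=
          Finset.sum_le_sum fun e he => Finset.sum_le_sum fun e' he' => hb e he e' he'
      _ = 4 * (Y : ℝ) * M * (∑ e ∈ ES, ∑ e' ∈ ES, (((e.divisors.card : ℝ)) ^ 3 *
            ((e'.divisors.card : ℝ)) ^ 3 / (Nat.lcm e e' : ℝ))) +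
          4 * (M : ℝ) ^ 2 * ((∑ e ∈ ES, ((e.divisors.card : ℝ)) ^ 3) *
            (∑ e' ∈ ES, ((e'.divisors.card : ℝ)) ^ 3)) := by
          rw [Finset.sum_mul_sum]
          simp only [Finset.sum_add_distrib, ← Finset.mul_sum]
      _ ≤ 4 * (Y : ℝ) * M * E + 4 * (M : ℝ) ^ 2 * ((R : ℝ) ^ 8 * (R : ℝ) ^ 8) := by
          refine add_le_add (mul_le_mul_of_nonneg_left ?_ (by positivity))
            (mul_le_mul_of_nonneg_left (mul_le_mul hsum3 hsum3 hsum3' (by positivity))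
              (by positivity))
          refine le_trans ?_ ((sum_pairs_lcm P hP.ne_zero).trans hE)
          calc ∑ e ∈ ES, ∑ e' ∈ ES, (((e.divisors.card : ℝ)) ^ 3 *
                ((e'.divisors.card : ℝ)) ^ 3 / (Nat.lcm e e' : ℝ))
              ≤ ∑ e ∈ ES, ∑ e' ∈ P.divisors, (((e.divisors.card : ℝ)) ^ 3 *
                ((e'.divisors.card : ℝ)) ^ 3 / (Nat.lcm e e' : ℝ)) :=
                Finset.sum_le_sum fun e _ => Finset.sum_le_sum_of_subset_of_nonneg
                  (Finset.filter_subset _ _) (fun _ _ _ => by positivity)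
            _ ≤ _ := Finset.sum_le_sum_of_subset_of_nonneg
                  (Finset.filter_subset _ _)
                  (fun _ _ _ => Finset.sum_nonneg fun _ _ => by positivity)
      _ = 4 * (Y : ℝ) * M * E + 4 * (M : ℝ) ^ 2 * (R : ℝ) ^ 16 := by ring
  have hα2 : ∑ D ∈ Finset.Ioc Y (2 * Y), α D ^ 2 ≤ (Y : ℝ) := by
    calc ∑ D ∈ Finset.Ioc Y (2 * Y), α D ^ 2 ≤ ∑ D ∈ Finset.Ioc Y (2 * Y), (1 : ℝ) := by
          refine Finset.sum_le_sum fun D _ => ?_
          have := hα0 D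
          have := hα1 D
          nlinarith
      _ = (Y : ℝ) := by
          rw [Finset.sum_const, Nat.card_Ioc, nsmul_eq_mul, mul_one]
          congr 1
          omega
  calc (∑ D ∈ Finset.Ioc Y (2 * Y), α D * ∑ e ∈ P.divisors, ν e * bb M e D) ^ 2
      ≤ (∑ D ∈ Finset.Ioc Y (2 * Y), α D ^ 2) *
        (∑ D ∈ Finset.Ioc Y (2 * Y), (∑ e ∈ P.divisors, ν e * bb M e D) ^ 2) :=
        Finset.sum_mul_sq_le_sq_mul_sq _ _ _
    _ ≤ (Y : ℝ) * (4 * (Y : ℝ) * M * E + 4 * (M : ℝ) ^ 2 * (R : ℝ) ^ 16) :=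
        mul_le_mul hα2 hV (Finset.sum_nonneg fun _ _ => sq_nonneg _) (Nat.cast_nonneg _)

/-! ### the sieve inequality for a single modulus -/

lemma count_le (R M J D : ℕ) (ν : ℕ → ℝ) (hRJ : R ≤ 2 ^ (J - 1))
    (hν3 : ∀ n : ℕ, 0 ≤ ∑ e ∈ (Nat.divisors (primorial R)).filter (fun e => e ∣ n), ν e)
    (hν4 : ∀ n : ℕ, n.Prime → R < n →
      ∑ e ∈ (Nat.divisors (primorial R)).filter (fun e => e ∣ n), ν e = 1) :
    ((((Finset.Icc 1 M).filter
      (fun m => (D * m + 1).Prime ∧ 2 ^ (J - 1) < D * m + 1)).card : ℕ) : ℝ) ≤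
    (M : ℝ) * (∑ e ∈ (Nat.divisors (primorial R)).filter (fun e => Nat.Coprime D e), ν e / e) +
      ∑ e ∈ (primorial R).divisors, ν e * bb M e D := by
  set P := primorial R with hPdef
  have h1 : ((((Finset.Icc 1 M).filter
      (fun m => (D * m + 1).Prime ∧ 2 ^ (J - 1) < D * m + 1)).card : ℕ) : ℝ) ≤
      ∑ m ∈ Finset.Icc 1 M, ∑ e ∈ (Nat.divisors P).filter (fun e => e ∣ D * m + 1), ν e := by
    calc ((((Finset.Icc 1 M).filter
          (fun m => (D * m + 1).Prime ∧ 2 ^ (J - 1) < D * m + 1)).card : ℕ) : ℝ)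
        = ∑ m ∈ (Finset.Icc 1 M).filter
          (fun m => (D * m + 1).Prime ∧ 2 ^ (J - 1) < D * m + 1), (1 : ℝ) := by
          rw [Finset.sum_const, nsmul_eq_mul, mul_one]
      _ = ∑ m ∈ (Finset.Icc 1 M).filter
          (fun m => (D * m + 1).Prime ∧ 2 ^ (J - 1) < D * m + 1),
            ∑ e ∈ (Nat.divisors P).filter (fun e => e ∣ D * m + 1), ν e := by
          refine Finset.sum_congr rfl fun m hm => ?_
          rw [Finset.mem_filter] at hm
          exact (hν4 _ hm.2.1 (lt_of_le_of_lt hRJ hm.2.2)).symm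
      _ ≤ _ := Finset.sum_le_sum_of_subset_of_nonneg (Finset.filter_subset _ _)
          (fun m _ _ => hν3 _)
  refine h1.trans (le_of_eq ?_)
  calc ∑ m ∈ Finset.Icc 1 M, ∑ e ∈ (Nat.divisors P).filter (fun e => e ∣ D * m + 1), ν e
      = ∑ m ∈ Finset.Icc 1 M, ∑ e ∈ Nat.divisors P, if e ∣ D * m + 1 then ν e else 0 := by
        refine Finset.sum_congr rfl fun m _ => ?_
        rw [Finset.sum_filter]
    _ = ∑ e ∈ Nat.divisors P, ∑ m ∈ Finset.Icc 1 M, if e ∣ D * m + 1 then ν e else 0 :=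
        Finset.sum_comm
    _ = ∑ e ∈ Nat.divisors P, ν e *
          ((((Finset.Icc 1 M).filter (fun m => e ∣ D * m + 1)).card : ℕ) : ℝ) := by
        refine Finset.sum_congr rfl fun e _ => ?_
        rw [← Finset.sum_filter, Finset.sum_const, nsmul_eq_mul, mul_comm]
    _ = ∑ e ∈ Nat.divisors P, (ν e * bb M e D +
          (if Nat.Coprime D e then (M : ℝ) * (ν e / e) else 0)) := by
        refine Finset.sum_congr rfl fun e _ => ?_
        unfold bb
        by_cases hc : Nat.Coprime D e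
        · rw [if_pos hc, if_pos hc]; ring
        · rw [if_neg hc, if_neg hc]; ring
    _ = _ := by
        rw [Finset.sum_add_distrib, ← Finset.sum_filter, ← Finset.mul_sum, add_comm]

/-! ### growth facts -/

lemma ev_pow (K : ℝ) (k : ℕ) : ∀ᶠ n : ℕ in Filter.atTop, K * (n : ℝ) ^ k ≤ 2 ^ n := by
  have h := tendsto_pow_const_div_const_pow_of_one_lt k (r := (2 : ℝ)) (by norm_num)
  have h2 : ∀ᶠ n : ℕ in Filter.atTop, (n : ℝ) ^ k / 2 ^ n < 1 / (|K| + 1) :=
    h.eventually_lt_const (by positivity)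
  filter_upwards [h2] with n hn
  have h3 : (0 : ℝ) < 2 ^ n := by positivity
  rw [div_lt_div_iff₀ h3 (by positivity)] at hn
  have h4 : K ≤ |K| + 1 := (le_abs_self K).trans (by linarith)
  have h5 : (0 : ℝ) ≤ (n : ℝ) ^ k := by positivity
  nlinarith

lemma ev_quarter (K : ℝ) (k : ℕ) : ∀ᶠ J : ℕ in Filter.atTop, K * (J : ℝ) ^ k ≤ 2 ^ (J / 4) := by
  have h1 : Filter.Tendsto (fun J : ℕ => J / 4) Filter.atTop Filter.atTop :=
    Nat.tendsto_div_const_atTop (by norm_num)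
  have h2 := h1.eventually (ev_pow (|K| * 7 ^ k) k)
  filter_upwards [h2, Filter.eventually_ge_atTop 4] with J hJ hJ4
  have h3 : (J : ℝ) ≤ 7 * ((J / 4 : ℕ) : ℝ) := by exact_mod_cast (by omega : J ≤ 7 * (J / 4))
  calc K * (J : ℝ) ^ k ≤ |K| * (J : ℝ) ^ k :=
        mul_le_mul_of_nonneg_right (le_abs_self K) (by positivity)
    _ ≤ |K| * (7 * ((J / 4 : ℕ) : ℝ)) ^ k := by gcongr
    _ = |K| * 7 ^ k * ((J / 4 : ℕ) : ℝ) ^ k := by rw [mul_pow]; ring
    _ ≤ 2 ^ (J / 4) := hJ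

lemma iJ_ge (J : ℕ) : (J : ℝ) ^ (7 / 8 : ℝ) ≤ iJ J := Nat.le_ceil _

lemma iJ_tendsto : Filter.Tendsto iJ Filter.atTop Filter.atTop := by
  have h1 : Filter.Tendsto (fun J : ℕ => (J : ℝ) ^ (7 / 8 : ℝ)) Filter.atTop Filter.atTop :=
    (tendsto_rpow_atTop (by norm_num)).comp tendsto_natCast_atTop_atTop
  exact tendsto_nat_ceil_atTop.comp h1

lemma le_iJ_sq (J : ℕ) (hJ : 1 ≤ J) : (J : ℝ) ≤ (iJ J : ℝ) ^ 2 := by
  have hJ1 : (1 : ℝ) ≤ J := by exact_mod_cast hJ
  have h0 : (0 : ℝ) ≤ (J : ℝ) ^ (7 / 8 : ℝ) := by positivity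
  have h1 : (J : ℝ) ^ (7 / 8 : ℝ) * (J : ℝ) ^ (7 / 8 : ℝ) ≤ (iJ J : ℝ) ^ 2 := by
    have := iJ_ge J
    nlinarith
  refine le_trans ?_ h1
  rw [← Real.rpow_add (by linarith)]
  calc (J : ℝ) = (J : ℝ) ^ (1 : ℝ) := (Real.rpow_one _).symm
    _ ≤ _ := Real.rpow_le_rpow_of_exponent_le hJ1 (by norm_num)

lemma ev_iJ (K : ℝ) (k : ℕ) : ∀ᶠ J : ℕ in Filter.atTop, K * (J : ℝ) ^ k ≤ 2 ^ (iJ J) := by
  have h2 := iJ_tendsto.eventually (ev_pow |K| (2 * k))
  filter_upwards [h2, Filter.eventually_ge_atTop 1] with J hJ hJ1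
  calc K * (J : ℝ) ^ k ≤ |K| * (J : ℝ) ^ k :=
        mul_le_mul_of_nonneg_right (le_abs_self K) (by positivity)
    _ ≤ |K| * ((iJ J : ℝ) ^ 2) ^ k := by
        have := le_iJ_sq J hJ1
        gcongr
    _ = |K| * (iJ J : ℝ) ^ (2 * k) := by rw [← pow_mul]
    _ ≤ 2 ^ (iJ J) := hJ

end T2

open Classical in
/-- (T1) from its parts -/
theorem s_typeII (h1 : S_Nu) (h2 : S_Cov) : S_TypeII := by
  obtain ⟨C1, hC1, hE⟩ := T2.sum_div_le
  have hC1' : (0 : ℝ) < C1 := by linarith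
  have hev : ∀ᶠ J : ℕ in Filter.atTop,
      400 ≤ J ∧ 4 * C1 ^ 4 * (J : ℝ) ^ 6 ≤ 2 ^ (iJ J) ∧ 8 * (J : ℝ) ^ 8 ≤ 2 ^ (J / 4) ∧
        8 * C1 ^ 256 ≤ (J : ℝ) := by
    refine (Filter.eventually_ge_atTop 400).and ((T2.ev_iJ _ 6).and ((T2.ev_quarter 8 8).and ?_))
    exact tendsto_natCast_atTop_atTop.eventually_ge_atTop _
  obtain ⟨J1, hJ1⟩ := Filter.eventually_atTop.mp hev
  refine ⟨301, by norm_num, 270, J1, ?_⟩
  intro J hJ i hiJ hM α hα0 hα1 hαR
  obtain ⟨hJ400, hg1, hg2, hg3⟩ := hJ1 J hJ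
  have hJpos : (0 : ℝ) < J := by exact_mod_cast (by omega : 0 < J)
  have hJone : (1 : ℝ) ≤ J := by exact_mod_cast (by omega : 1 ≤ J)
  set R : ℕ := 2 ^ (J / 100) with hRdef
  have hR2 : 2 ≤ R := by
    calc 2 = 2 ^ 1 := by norm_num
      _ ≤ 2 ^ (J / 100) := Nat.pow_le_pow_right (by norm_num) (by omega)
  obtain ⟨ν, hν1, hν2, hν3, hν4, hν5⟩ := h1 R hR2
  set P := primorial R with hPdef
  have hRJ : R ≤ 2 ^ (J - 1) := Nat.pow_le_pow_right (by norm_num) (by omega)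
  set M : ℕ := 2 ^ (J - i) with hMdef
  set Y : ℕ := 2 ^ i with hYdef
  have hIoc : Finset.Ioc (2 ^ i) (2 ^ (i + 1)) = Finset.Ioc Y (2 * Y) := by
    rw [hYdef, pow_succ, mul_comm (2 ^ i) 2]
  have hYM : (Y : ℝ) * M = 2 ^ J := by
    rw [hYdef, hMdef]
    push_cast
    rw [← pow_add]
    congr 1
    omega
  have hE4 := hE 2 J (by omega)
  have hE8 := hE 8 J (by omega)
  rw [← hRdef, ← hPdef] at hE4 hE8
  norm_num at hE4 hE8
  -- main coefficient
  have hlog : 1 / Real.log R ≤ 300 / J := by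
    have h3 : (J : ℝ) / 300 ≤ Real.log R := by
      rw [hRdef]
      push_cast
      rw [Real.log_pow]
      have h4 : (J : ℝ) / 200 ≤ ((J / 100 : ℕ) : ℝ) := by
        rw [div_le_iff₀ (by norm_num)]
        exact_mod_cast (by omega : J ≤ J / 100 * 200)
      have h5 : (2 : ℝ) / 3 ≤ Real.log 2 := by
        have := Real.log_two_gt_d9
        linarith
      nlinarith
    rw [div_le_div_iff₀ (by nlinarith) hJpos]
    nlinarith
  have hmain : ∀ D ∈ Finset.Ioc Y (2 * Y), α D *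
      ((((Finset.Icc 1 M).filter
        (fun m => (D * m + 1).Prime ∧ 2 ^ (J - 1) < D * m + 1)).card : ℕ) : ℝ) ≤
      (301 * ((M : ℝ) / J)) * α D + α D * ∑ e ∈ P.divisors, ν e * bb M e D := by
    intro D hD
    by_cases hz : α D = 0
    · rw [hz]; simp
    rw [Finset.mem_Ioc] at hD
    have hDJ : D ≤ 2 ^ J := by
      calc D ≤ 2 * Y := hD.2
        _ = 2 ^ (i + 1) := by rw [hYdef, pow_succ, mul_comm]
        _ ≤ 2 ^ J := Nat.pow_le_pow_right (by norm_num) (by omega)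
    have hb := T2.main_bound R (iJ J) J D ν _ _ hν2 hν5 hE4 (by omega) hDJ (hαR D hz)
    have hc := T2.count_le R M J D ν hRJ hν3 hν4
    have h6 : 1 / Real.log R + 4 * J * (C1 * J) ^ 4 / 2 ^ iJ J ≤ 301 / J := by
      have h7 : 4 * J * (C1 * J) ^ 4 / 2 ^ iJ J ≤ 1 / J := by
        rw [div_le_div_iff₀ (by positivity) hJpos]
        calc 4 * J * (C1 * J) ^ 4 * J = 4 * C1 ^ 4 * (J : ℝ) ^ 6 := by ring
          _ ≤ 1 * 2 ^ iJ J := by rw [one_mul]; exact hg1
      calc 1 / Real.log R + 4 * J * (C1 * J) ^ 4 / 2 ^ iJ J ≤ 300 / J + 1 / J := add_le_add hlog h7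
        _ = 301 / J := by ring
    have h8 : (M : ℝ) * (∑ e ∈ (Nat.divisors P).filter (fun e => Nat.Coprime D e), ν e / e) ≤
        301 * ((M : ℝ) / J) := by
      calc (M : ℝ) * (∑ e ∈ (Nat.divisors P).filter (fun e => Nat.Coprime D e), ν e / e)
          ≤ (M : ℝ) * (301 / J) := mul_le_mul_of_nonneg_left (hb.trans h6) (Nat.cast_nonneg _)
        _ = 301 * ((M : ℝ) / J) := by ring
    calc α D * ((((Finset.Icc 1 M).filter
          (fun m => (D * m + 1).Prime ∧ 2 ^ (J - 1) < D * m + 1)).card : ℕ) : ℝ)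
        ≤ α D * (301 * ((M : ℝ) / J) + ∑ e ∈ P.divisors, ν e * bb M e D) :=
          mul_le_mul_of_nonneg_left (by linarith) (hα0 D)
      _ = _ := by ring
  have herr : ∑ D ∈ Finset.Ioc Y (2 * Y), α D * ∑ e ∈ P.divisors, ν e * bb M e D ≤
      (2 : ℝ) ^ J / (J : ℝ) ^ 4 := by
    have hq : (J : ℝ) ^ 4 ≤ 2 ^ (J / 4) := by
      have h9 : (J : ℝ) ^ 4 ≤ (J : ℝ) ^ 8 := pow_le_pow_right₀ hJone (by norm_num)
      have h10 : 0 ≤ (J : ℝ) ^ 8 := by positivity
      linarith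
    rcases Nat.lt_or_ge J (2 * i) with hi | hi
    · -- large `Y`
      have hB := T2.errB h2 P R M Y ν α _ (T2.squarefree_primorial R) hν1 hν2 hE8 hα0 hα1
      have hMJ : (J : ℝ) ^ 270 ≤ M := by exact_mod_cast hM
      have hM8 : 8 * (J : ℝ) ^ 8 * (C1 * J) ^ 256 ≤ M := by
        calc 8 * (J : ℝ) ^ 8 * (C1 * J) ^ 256 = (8 * C1 ^ 256) * (J : ℝ) ^ 264 := by
              rw [mul_pow]; ring
          _ ≤ (J : ℝ) * (J : ℝ) ^ 264 := mul_le_mul_of_nonneg_right hg3 (by positivity)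
          _ = (J : ℝ) ^ 265 := by ring
          _ ≤ (J : ℝ) ^ 270 := pow_le_pow_right₀ hJone (by norm_num)
          _ ≤ M := hMJ
      have hY8 : 8 * (J : ℝ) ^ 8 * (R : ℝ) ^ 16 ≤ Y := by
        calc 8 * (J : ℝ) ^ 8 * (R : ℝ) ^ 16 ≤ 2 ^ (J / 4) * (R : ℝ) ^ 16 :=
              mul_le_mul_of_nonneg_right hg2 (by positivity)
          _ = 2 ^ (J / 4 + (J / 100) * 16) := by
              rw [hRdef]
              push_cast
              rw [← pow_mul, ← pow_add]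
          _ ≤ 2 ^ i := pow_le_pow_right₀ (by norm_num) (by omega)
          _ = Y := by rw [hYdef]; push_cast; rfl
      have hsq : (∑ D ∈ Finset.Ioc Y (2 * Y), α D * ∑ e ∈ P.divisors, ν e * bb M e D) ^ 2 ≤
          ((2 : ℝ) ^ J / (J : ℝ) ^ 4) ^ 2 := by
        refine hB.trans ?_
        rw [← hYM, div_pow, le_div_iff₀ (by positivity)]
        have hY0 : (0 : ℝ) ≤ Y := Nat.cast_nonneg _
        have hM0 : (0 : ℝ) ≤ M := Nat.cast_nonneg _
        calc (Y : ℝ) * (4 * Y * M * (C1 * J) ^ 256 + 4 * (M : ℝ) ^ 2 * (R : ℝ) ^ 16) *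
              ((J : ℝ) ^ 4) ^ 2
            = (Y : ℝ) ^ 2 * M / 2 * (8 * (J : ℝ) ^ 8 * (C1 * J) ^ 256) +
              (Y : ℝ) * (M : ℝ) ^ 2 / 2 * (8 * (J : ℝ) ^ 8 * (R : ℝ) ^ 16) := by ring
          _ ≤ (Y : ℝ) ^ 2 * M / 2 * M + (Y : ℝ) * (M : ℝ) ^ 2 / 2 * Y := by gcongr
          _ = ((Y : ℝ) * M) ^ 2 := by ring
      have hnn : (0 : ℝ) ≤ (2 : ℝ) ^ J / (J : ℝ) ^ 4 := by positivity
      exact (abs_le.mp (abs_le_of_sq_le_sq hsq hnn)).2
    · -- large `M`
      calc ∑ D ∈ Finset.Ioc Y (2 * Y), α D * ∑ e ∈ P.divisors, ν e * bb M e D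
          ≤ ∑ D ∈ Finset.Ioc Y (2 * Y), (R : ℝ) ^ 6 := by
            refine Finset.sum_le_sum fun D _ => ?_
            have h11 := T2.errA P R M D ν hν1 hν2
            have h12 := (abs_le.mp h11).2
            have h13 : (0 : ℝ) ≤ (R : ℝ) ^ 6 := by positivity
            have h14 := hα0 D
            have h15 := hα1 D
            calc α D * ∑ e ∈ P.divisors, ν e * bb M e D ≤ α D * (R : ℝ) ^ 6 :=
                  mul_le_mul_of_nonneg_left h12 h14
              _ ≤ 1 * (R : ℝ) ^ 6 := mul_le_mul_of_nonneg_right h15 h13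
              _ = (R : ℝ) ^ 6 := one_mul _
        _ = (Y : ℝ) * (R : ℝ) ^ 6 := by
            rw [Finset.sum_const, Nat.card_Ioc, nsmul_eq_mul]
            congr 2
            omega
        _ ≤ (2 : ℝ) ^ J / (J : ℝ) ^ 4 := by
            rw [le_div_iff₀ (by positivity)]
            calc (Y : ℝ) * (R : ℝ) ^ 6 * (J : ℝ) ^ 4 ≤ (Y : ℝ) * (R : ℝ) ^ 6 * 2 ^ (J / 4) :=
                  mul_le_mul_of_nonneg_left hq (by positivity)
              _ = 2 ^ (i + (J / 100) * 6 + J / 4) := by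
                  rw [hYdef, hRdef]
                  push_cast
                  rw [← pow_mul, ← pow_add, ← pow_add]
              _ ≤ 2 ^ J := pow_le_pow_right₀ (by norm_num) (by omega)
  rw [hIoc]
  calc ∑ D ∈ Finset.Ioc Y (2 * Y), α D *
        ((((Finset.Icc 1 M).filter
          (fun m => (D * m + 1).Prime ∧ 2 ^ (J - 1) < D * m + 1)).card : ℕ) : ℝ)
      ≤ ∑ D ∈ Finset.Ioc Y (2 * Y), ((301 * ((M : ℝ) / J)) * α D +
          α D * ∑ e ∈ P.divisors, ν e * bb M e D) := Finset.sum_le_sum hmain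
    _ = (301 * ((M : ℝ) / J)) * ∑ D ∈ Finset.Ioc Y (2 * Y), α D +
          ∑ D ∈ Finset.Ioc Y (2 * Y), α D * ∑ e ∈ P.divisors, ν e * bb M e D := by
        rw [Finset.sum_add_distrib, ← Finset.mul_sum]
    _ ≤ 301 * ((2 : ℝ) ^ (J - i) / J) * ∑ D ∈ Finset.Ioc Y (2 * Y), α D +
          (2 : ℝ) ^ J / (J : ℝ) ^ 4 := by
        have : (M : ℝ) = (2 : ℝ) ^ (J - i) := by rw [hMdef]; push_cast; rfl
        rw [this]
        linarith

end Pool.Agent.N907.EG
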