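import Pool.Agent.N907.EG.Def
import Pool.Agent.TH915.UC.BT
import Pool.Agent.Erdos456.Iface

/-!
Project EG (helper907), part (T3): the smooth part of shifted primes, from Brun-Titchmarsh and
Mertens' first theorem.
-/

set_option autoImplicit false

open Finset

namespace Pool.Agent.N907.EG

namespace Small

theorem inner_le {q n J i : ℕ} (hq : q.Prime) (hqn : q ∣ n) (hn : 1 ≤ n) (hnJ : n < 2 ^ J) :
    (n.factorization q : ℝ) * Real.log q - (if 2 ^ i < q then Real.log q else 0) ≤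
      ∑ a ∈ (Icc 1 J).filter (fun a => q ≤ 2 ^ i ∨ 2 ≤ a),
        if q ^ a ∣ n then Real.log q else 0 := by
  have hlog : 0 ≤ Real.log q := Real.log_natCast_nonneg q
  rw [← Finset.sum_filter, Finset.filter_filter, Finset.sum_const, nsmul_eq_mul]
  set v := n.factorization q with hv
  have hv1 : 1 ≤ v := (hq.dvd_iff_one_le_factorization (by omega)).mp hqn
  have hvJ : v ≤ J := by
    have h1 : q ^ v ∣ n := Nat.ordProj_dvd n q
    have h2 : q ^ v ≤ n := Nat.le_of_dvd (by omega) h1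
    have h3 : 2 ^ v ≤ q ^ v := Nat.pow_le_pow_left hq.two_le v
    have h4 : 2 ^ v < 2 ^ J := by omega
    exact ((Nat.pow_lt_pow_iff_right (by norm_num)).mp h4).le
  split_ifs with h
  · have hsub : Icc 2 v ⊆ (Icc 1 J).filter (fun a => (q ≤ 2 ^ i ∨ 2 ≤ a) ∧ q ^ a ∣ n) := by
      intro a ha
      rw [mem_Icc] at ha
      rw [mem_filter, mem_Icc]
      refine ⟨⟨by omega, by omega⟩, Or.inr ha.1, ?_⟩
      exact (hq.pow_dvd_iff_le_factorization (by omega)).mpr ha.2
    have hc := card_le_card hsub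
    rw [Nat.card_Icc] at hc
    have hc' : (v : ℝ) ≤
        (((Icc 1 J).filter (fun a => (q ≤ 2 ^ i ∨ 2 ≤ a) ∧ q ^ a ∣ n)).card : ℝ) + 1 := by
      have : v ≤ ((Icc 1 J).filter (fun a => (q ≤ 2 ^ i ∨ 2 ≤ a) ∧ q ^ a ∣ n)).card + 1 := by
        omega
      exact_mod_cast this
    nlinarith
  · have hsub : Icc 1 v ⊆ (Icc 1 J).filter (fun a => (q ≤ 2 ^ i ∨ 2 ≤ a) ∧ q ^ a ∣ n) := by
      intro a ha
      rw [mem_Icc] at ha
      rw [mem_filter, mem_Icc]
      refine ⟨⟨by omega, by omega⟩, Or.inl (by omega), ?_⟩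
      exact (hq.pow_dvd_iff_le_factorization (by omega)).mpr ha.2
    have hc := card_le_card hsub
    rw [Nat.card_Icc] at hc
    have hc' : (v : ℝ) ≤
        (((Icc 1 J).filter (fun a => (q ≤ 2 ^ i ∨ 2 ≤ a) ∧ q ^ a ∣ n)).card : ℝ) := by
      have : v ≤ ((Icc 1 J).filter (fun a => (q ≤ 2 ^ i ∨ 2 ≤ a) ∧ q ^ a ∣ n)).card := by
        omega
      exact_mod_cast this
    nlinarith

theorem bsm_le {n J i : ℕ} (hn : 1 ≤ n) (hnJ : n < 2 ^ J) :
    Bsm i n ≤ ∑ q ∈ (Icc 1 (2 ^ J)).filter Nat.Prime,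
      ∑ a ∈ (Icc 1 J).filter (fun a => q ≤ 2 ^ i ∨ 2 ≤ a),
        if q ^ a ∣ n then Real.log q else 0 := by
  unfold Bsm
  rw [Finset.sum_filter, ← Finset.sum_sub_distrib]
  calc ∑ q ∈ n.primeFactors,
        ((n.factorization q : ℝ) * Real.log q - if 2 ^ i < q then Real.log q else 0)
      ≤ ∑ q ∈ n.primeFactors, ∑ a ∈ (Icc 1 J).filter (fun a => q ≤ 2 ^ i ∨ 2 ≤ a),
        if q ^ a ∣ n then Real.log q else 0 := by
        apply Finset.sum_le_sum
        intro q hq
        have hq' := Nat.mem_primeFactors.mp hq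
        exact inner_le hq'.1 hq'.2.1 hn hnJ
    _ ≤ _ := by
        apply Finset.sum_le_sum_of_subset_of_nonneg
        · intro q hq
          have hq' := Nat.mem_primeFactors.mp hq
          have h1 : q ≤ n := Nat.le_of_dvd (by omega) hq'.2.1
          rw [mem_filter, mem_Icc]
          exact ⟨⟨hq'.1.one_lt.le, by omega⟩, hq'.1⟩
        · intro q _ _
          apply Finset.sum_nonneg
          intro a _
          split_ifs
          · exact Real.log_natCast_nonneg q
          · exact le_refl _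

/-- number of primes of the block congruent to one -/
def NP (J m : ℕ) : ℕ := ((blk J).filter (fun p => m ∣ p - 1)).card

theorem sum_bsm_le (J i : ℕ) :
    ∑ p ∈ blk J, Bsm i (p - 1) ≤ ∑ q ∈ (Icc 1 (2 ^ J)).filter Nat.Prime,
      ∑ a ∈ (Icc 1 J).filter (fun a => q ≤ 2 ^ i ∨ 2 ≤ a), Real.log q * NP J (q ^ a) := by
  calc ∑ p ∈ blk J, Bsm i (p - 1)
      ≤ ∑ p ∈ blk J, ∑ q ∈ (Icc 1 (2 ^ J)).filter Nat.Prime,
      ∑ a ∈ (Icc 1 J).filter (fun a => q ≤ 2 ^ i ∨ 2 ≤ a),
        (if q ^ a ∣ p - 1 then Real.log q else 0) := by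
        apply Finset.sum_le_sum
        intro p hp
        unfold blk at hp
        rw [mem_filter, mem_Ioc] at hp
        have h2 := hp.2.two_le
        exact bsm_le (by omega) (by omega)
    _ = _ := by
        rw [Finset.sum_comm]
        apply Finset.sum_congr rfl
        intro q _
        rw [Finset.sum_comm]
        apply Finset.sum_congr rfl
        intro a _
        rw [← Finset.sum_filter, Finset.sum_const, nsmul_eq_mul, mul_comm]
        rfl

theorem np_triv (J m : ℕ) (_hm : 1 ≤ m) : (NP J m : ℝ) ≤ 2 ^ J / m := by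
  have h1 : NP J m ≤ ((Ioc 0 (2 ^ J - 1)).filter (fun k => m ∣ k)).card := by
    unfold NP
    apply Finset.card_le_card_of_injOn (fun p => p - 1)
    · intro p hp
      have hp' := Finset.mem_coe.mp hp
      rw [mem_filter] at hp'
      obtain ⟨h3, h4⟩ := hp'
      unfold blk at h3
      rw [mem_filter, mem_Ioc] at h3
      have h2 := h3.2.two_le
      apply Finset.mem_coe.mpr
      rw [mem_filter, mem_Ioc]
      exact ⟨⟨by simp only; omega, by simp only; omega⟩, h4⟩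
    · intro p hp p' hp' h
      have hp2 := (mem_filter.mp (Finset.mem_coe.mp hp)).1
      have hp3 := (mem_filter.mp (Finset.mem_coe.mp hp')).1
      unfold blk at hp2 hp3
      have h4 := (mem_filter.mp hp2).2.two_le
      have h5 := (mem_filter.mp hp3).2.two_le
      simp only at h
      omega
  have h2 : ((Ioc 0 (2 ^ J - 1)).filter (fun k => m ∣ k)).card = (2 ^ J - 1) / m := by
    exact Nat.Ioc_filter_dvd_card_eq_div _ _
  rw [h2] at h1
  have h3 : (2 ^ J - 1) / m ≤ 2 ^ J / m := Nat.div_le_div_right (Nat.sub_le _ _)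
  have h4 : ((2 ^ J / m : ℕ) : ℝ) ≤ ((2 ^ J : ℕ) : ℝ) / m := Nat.cast_div_le
  push_cast at h4
  calc (NP J m : ℝ) ≤ ((2 ^ J / m : ℕ) : ℝ) := by exact_mod_cast h1.trans h3
    _ ≤ _ := h4

theorem np_bt (J q a : ℕ) (hJ : 2 ≤ J) (hq : q.Prime) (ha : 1 ≤ a) (hs : (q ^ a) ^ 2 ≤ 2 ^ J) :
    (NP J (q ^ a) : ℝ) ≤ 176 / Real.log 2 * (2 ^ J / J) / q ^ a := by
  set m := q ^ a with hm
  have hmpos : 0 < m := pow_pos hq.pos a
  have hm2 : 2 ≤ m := by
    calc 2 ≤ q := hq.two_le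
      _ = q ^ 1 := (pow_one q).symm
      _ ≤ q ^ a := Nat.pow_le_pow_right hq.pos ha
  set N := 2 ^ J / m + 1 with hN
  have hlog2 : 0 < Real.log 2 := Real.log_pos (by norm_num)
  have hmX : m ≤ 2 ^ J := by
    calc m ≤ m ^ 2 := by nlinarith
      _ ≤ 2 ^ J := hs
  have hN2 : 2 ≤ N := by
    have : 1 ≤ 2 ^ J / m := (Nat.one_le_div_iff hmpos).mpr hmX
    omega
  have h1 : NP J m ≤ ((Finset.range N).filter (fun k => (1 + k * m).Prime)).card := by
    unfold NP
    apply Finset.card_le_card_of_injOn (fun p => (p - 1) / m)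
    · intro p hp
      have hp' := Finset.mem_coe.mp hp
      rw [mem_filter] at hp'
      obtain ⟨h3, h4⟩ := hp'
      unfold blk at h3
      rw [mem_filter, mem_Ioc] at h3
      have h2 := h3.2.two_le
      apply Finset.mem_coe.mpr
      rw [mem_filter, mem_range]
      refine ⟨?_, ?_⟩
      · have : (p - 1) / m ≤ 2 ^ J / m := Nat.div_le_div_right (by omega)
        simp only
        omega
      · have : (p - 1) / m * m = p - 1 := Nat.div_mul_cancel h4
        simp only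
        rw [this]
        have h6 : 1 + (p - 1) = p := by omega
        rw [h6]
        exact h3.2
    · intro p hp p' hp' h
      obtain ⟨hp2, hd⟩ := (mem_filter.mp (Finset.mem_coe.mp hp))
      obtain ⟨hp3, hd'⟩ := (mem_filter.mp (Finset.mem_coe.mp hp'))
      unfold blk at hp2 hp3
      have h4 := (mem_filter.mp hp2).2.two_le
      have h5 := (mem_filter.mp hp3).2.two_le
      simp only at h
      have h6 : (p - 1) / m * m = p - 1 := Nat.div_mul_cancel hd
      have h7 : (p' - 1) / m * m = p' - 1 := Nat.div_mul_cancel hd'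
      rw [h] at h6
      omega
  have h2 := Pool.Agent.TH915.UC.bt_gen 1 m N hmpos hN2
  have hX : (0 : ℝ) < 2 ^ J := by positivity
  have hmR : (0 : ℝ) < m := by exact_mod_cast hmpos
  have hJR : (0 : ℝ) < J := by
    have : 0 < J := by omega
    exact_mod_cast this
  -- N bounds
  have hNu : (N : ℝ) ≤ 2 * (2 ^ J / m) := by
    have h4 : ((2 ^ J / m : ℕ) : ℝ) ≤ ((2 ^ J : ℕ) : ℝ) / m := Nat.cast_div_le
    push_cast at h4
    have h5 : (1 : ℝ) ≤ 2 ^ J / m := by
      rw [le_div_iff₀ hmR, one_mul]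
      exact_mod_cast hmX
    have h6 : (N : ℝ) = ((2 ^ J / m : ℕ) : ℝ) + 1 := by rw [hN]; push_cast; rfl
    rw [h6]; linarith
  have hNl : (2 : ℝ) ^ J / m ≤ N := by
    have h7 : 2 ^ J < m * N := by
      rw [hN]
      exact Nat.lt_mul_div_succ _ hmpos
    rw [div_le_iff₀ hmR, mul_comm]
    exact_mod_cast h7.le
  have hNpos : (0 : ℝ) < N := by
    have : 0 < N := by omega
    exact_mod_cast this
  have hlogN : (J : ℝ) * Real.log 2 / 2 ≤ Real.log N := by
    have h8 : Real.log ((2 : ℝ) ^ J / m) ≤ Real.log N := Real.log_le_log (by positivity) hNl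
    rw [Real.log_div (by positivity) hmR.ne', Real.log_pow] at h8
    have h9 : (2 : ℝ) * Real.log m ≤ J * Real.log 2 := by
      have h10 : ((m : ℝ)) ^ 2 ≤ 2 ^ J := by exact_mod_cast hs
      have h11 := Real.log_le_log (by positivity) h10
      rw [Real.log_pow, Real.log_pow] at h11
      exact_mod_cast h11
    linarith
  have hphi : (m : ℝ) / (Nat.totient m) ≤ 2 := by
    have h12 : Nat.totient m * 2 ≥ m := by
      rw [hm, Nat.totient_prime_pow hq (by omega)]
      obtain ⟨b, rfl⟩ : ∃ b, a = b + 1 := ⟨a - 1, by omega⟩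
      rw [pow_succ, Nat.add_sub_cancel]
      have : q ≤ (q - 1) * 2 := by have := hq.two_le; omega
      calc q ^ b * q ≤ q ^ b * ((q - 1) * 2) := Nat.mul_le_mul_left _ this
        _ = q ^ b * (q - 1) * 2 := by ring
    have h13 : (0 : ℝ) < Nat.totient m := by
      exact_mod_cast Nat.totient_pos.mpr hmpos
    rw [div_le_iff₀ h13]
    have : ((m : ℕ) : ℝ) ≤ (Nat.totient m : ℝ) * 2 := by exact_mod_cast h12
    linarith
  have hlogNpos : 0 < Real.log N := lt_of_lt_of_le (by positivity) hlogN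
  have h1' : (NP J m : ℝ) ≤ (((Finset.range N).filter (fun k => (1 + k * m).Prime)).card : ℝ) := by
    exact_mod_cast h1
  calc (NP J m : ℝ) ≤ _ := h1'
    _ ≤ _ := h2
    _ ≤ 22 * 2 * (2 * (2 ^ J / m)) / (J * Real.log 2 / 2) := by
        have h14 : (0 : ℝ) ≤ (m : ℝ) / (Nat.totient m) := by positivity
        gcongr
    _ = 176 / Real.log 2 * (2 ^ J / J) / (m : ℝ) := by
        field_simp
        norm_num
    _ = _ := by rw [hm]; push_cast; rfl

theorem geo1 (r : ℝ) (h0 : 0 ≤ r) (h1 : r ≤ 1 / 2) (J : ℕ) :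
    ∑ a ∈ Icc 1 J, r ^ a + 2 * r ^ (J + 1) ≤ 2 * r := by
  induction J with
  | zero => simp
  | succ J ih =>
    rw [Finset.sum_Icc_succ_top (by omega)]
    have h2 : 0 ≤ r ^ (J + 1) := pow_nonneg h0 _
    have h3 : r ^ (J + 1 + 1) = r ^ (J + 1) * r := pow_succ _ _
    rw [h3]
    nlinarith

theorem geo2 (r : ℝ) (h0 : 0 ≤ r) (h1 : r ≤ 1 / 2) (J : ℕ) :
    ∑ a ∈ Icc 2 (J + 1), r ^ a + 2 * r ^ (J + 2) ≤ 2 * r ^ 2 := by
  induction J with
  | zero => simp
  | succ J ih =>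
    rw [Finset.sum_Icc_succ_top (by omega)]
    have h2 : 0 ≤ r ^ (J + 2) := pow_nonneg h0 _
    have h3 : r ^ (J + 1 + 2) = r ^ (J + 2) * r := by rw [← pow_succ]
    have h4 : r ^ (J + 1 + 1) = r ^ (J + 2) := rfl
    rw [h3, h4]
    nlinarith

theorem low (J q i : ℕ) (hJ : 2 ≤ J) (hq : q.Prime) :
    ∑ a ∈ (Icc 1 J).filter (fun a => q ≤ 2 ^ i ∨ 2 ≤ a), Real.log q * (NP J (q ^ a) : ℝ) ≤
      2 * (176 / Real.log 2) * (2 ^ J / J) * (Real.log q / q) +
        J * Real.log q * Real.sqrt (2 ^ J) := by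
  have hlog : 0 ≤ Real.log q := Real.log_natCast_nonneg q
  have hlog2 : 0 < Real.log 2 := Real.log_pos (by norm_num)
  have hqR : (0 : ℝ) < q := by exact_mod_cast hq.pos
  have hJR : (0 : ℝ) < J := by
    have : 0 < J := by omega
    exact_mod_cast this
  have hS : 0 < Real.sqrt (2 ^ J) := Real.sqrt_pos.mpr (by positivity)
  have hterm : ∀ a ∈ Icc 1 J, Real.log q * (NP J (q ^ a) : ℝ) ≤
      (176 / Real.log 2) * (2 ^ J / J) * Real.log q * (1 / (q : ℝ)) ^ a +
        Real.log q * Real.sqrt (2 ^ J) := by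
    intro a ha
    rw [mem_Icc] at ha
    have hpos : 0 ≤ (176 / Real.log 2) * (2 ^ J / J) * Real.log q * (1 / (q : ℝ)) ^ a := by
      positivity
    by_cases h : (q ^ a) ^ 2 ≤ 2 ^ J
    · have h1 := np_bt J q a hJ hq ha.1 h
      have h2 := mul_le_mul_of_nonneg_left h1 hlog
      have h3 : Real.log q * (176 / Real.log 2 * (2 ^ J / J) / (q : ℝ) ^ a) =
          (176 / Real.log 2) * (2 ^ J / J) * Real.log q * (1 / (q : ℝ)) ^ a := by
        rw [one_div, inv_pow]; ring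
      rw [h3] at h2
      have : 0 ≤ Real.log q * Real.sqrt (2 ^ J) := by positivity
      linarith
    · push Not at h
      have h1 := np_triv J (q ^ a) (Nat.one_le_pow _ _ hq.pos)
      have h2 : (2 : ℝ) ^ J / ((q ^ a : ℕ) : ℝ) ≤ Real.sqrt (2 ^ J) := by
        have h3 : Real.sqrt (2 ^ J) ≤ ((q ^ a : ℕ) : ℝ) := by
          rw [Real.sqrt_le_left (by positivity)]
          exact_mod_cast h.le
        rw [div_le_iff₀ (Nat.cast_pos.mpr (pow_pos hq.pos a))]
        calc (2 : ℝ) ^ J = Real.sqrt (2 ^ J) * Real.sqrt (2 ^ J) :=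
              (Real.mul_self_sqrt (by positivity)).symm
          _ ≤ _ := by gcongr
      have h4 := mul_le_mul_of_nonneg_left (h1.trans h2) hlog
      linarith
  calc ∑ a ∈ (Icc 1 J).filter (fun a => q ≤ 2 ^ i ∨ 2 ≤ a), Real.log q * (NP J (q ^ a) : ℝ)
      ≤ ∑ a ∈ Icc 1 J, Real.log q * (NP J (q ^ a) : ℝ) := by
        apply Finset.sum_le_sum_of_subset_of_nonneg (Finset.filter_subset _ _)
        intro a _ _
        positivity
    _ ≤ ∑ a ∈ Icc 1 J, ((176 / Real.log 2) * (2 ^ J / J) * Real.log q * (1 / (q : ℝ)) ^ a +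
        Real.log q * Real.sqrt (2 ^ J)) := Finset.sum_le_sum hterm
    _ = (176 / Real.log 2) * (2 ^ J / J) * Real.log q * ∑ a ∈ Icc 1 J, (1 / (q : ℝ)) ^ a +
        J * (Real.log q * Real.sqrt (2 ^ J)) := by
        rw [Finset.sum_add_distrib, ← Finset.mul_sum, Finset.sum_const, Nat.card_Icc,
          nsmul_eq_mul, Nat.add_sub_cancel]
    _ ≤ (176 / Real.log 2) * (2 ^ J / J) * Real.log q * (2 * (1 / q)) +
        J * (Real.log q * Real.sqrt (2 ^ J)) := by
        have h5 := geo1 (1 / (q : ℝ)) (by positivity) (by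
          rw [one_div_le_one_div hqR (by norm_num)]
          exact_mod_cast hq.two_le) J
        have h6 : 0 ≤ (1 / (q : ℝ)) ^ (J + 1) := by positivity
        have h7 : ∑ a ∈ Icc 1 J, (1 / (q : ℝ)) ^ a ≤ 2 * (1 / q) := by linarith
        gcongr
    _ = _ := by ring

theorem high (J q i : ℕ) (hJ : 2 ≤ J) (hq : q.Prime) (hqi : 2 ^ i < q) (hqJ : q ≤ 2 ^ J) :
    ∑ a ∈ (Icc 1 J).filter (fun a => q ≤ 2 ^ i ∨ 2 ≤ a), Real.log q * (NP J (q ^ a) : ℝ) ≤
      2 * J * 2 ^ J * ((q : ℝ) ^ 2)⁻¹ := by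
  have hlog : 0 ≤ Real.log q := Real.log_natCast_nonneg q
  have hlog2 : 0 < Real.log 2 := Real.log_pos (by norm_num)
  have hqR : (0 : ℝ) < q := by exact_mod_cast hq.pos
  have hJR : (0 : ℝ) < J := by
    have : 0 < J := by omega
    exact_mod_cast this
  have hlogJ : Real.log q ≤ J := by
    have h1 : Real.log q ≤ Real.log ((2 : ℝ) ^ J) := by
      apply Real.log_le_log hqR
      exact_mod_cast hqJ
    rw [Real.log_pow] at h1
    have h2 := Real.log_two_lt_d9
    nlinarith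
  calc ∑ a ∈ (Icc 1 J).filter (fun a => q ≤ 2 ^ i ∨ 2 ≤ a), Real.log q * (NP J (q ^ a) : ℝ)
      ≤ ∑ a ∈ (Icc 1 J).filter (fun a => q ≤ 2 ^ i ∨ 2 ≤ a),
        (J * 2 ^ J : ℝ) * (1 / (q : ℝ)) ^ a := by
        apply Finset.sum_le_sum
        intro a ha
        have h1 := np_triv J (q ^ a) (Nat.one_le_pow _ _ hq.pos)
        have h2 : (J * 2 ^ J : ℝ) * (1 / (q : ℝ)) ^ a = J * (2 ^ J / ((q ^ a : ℕ) : ℝ)) := by
          rw [one_div, inv_pow]; push_cast; ring
        rw [h2]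
        gcongr
    _ ≤ ∑ a ∈ Icc 2 (J + 1), (J * 2 ^ J : ℝ) * (1 / (q : ℝ)) ^ a := by
        apply Finset.sum_le_sum_of_subset_of_nonneg
        · intro a ha
          rw [mem_filter, mem_Icc] at ha
          rw [mem_Icc]
          rcases ha.2 with h | h
          · omega
          · omega
        · intro a _ _
          positivity
    _ = (J * 2 ^ J : ℝ) * ∑ a ∈ Icc 2 (J + 1), (1 / (q : ℝ)) ^ a := by rw [Finset.mul_sum]
    _ ≤ (J * 2 ^ J : ℝ) * (2 * (1 / (q : ℝ)) ^ 2) := by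
        have h5 := geo2 (1 / (q : ℝ)) (by positivity) (by
          rw [one_div_le_one_div hqR (by norm_num)]
          exact_mod_cast hq.two_le) J
        have h6 : 0 ≤ (1 / (q : ℝ)) ^ (J + 2) := by positivity
        have h7 : ∑ a ∈ Icc 2 (J + 1), (1 / (q : ℝ)) ^ a ≤ 2 * (1 / (q : ℝ)) ^ 2 := by linarith
        gcongr
    _ = _ := by rw [one_div, inv_pow]; ring

theorem total (J i : ℕ) (hJ : 2 ≤ J) (hi : 1 ≤ i) (C₁ : ℝ)
    (hM : ∑ p ∈ Nat.primesBelow (2 ^ i + 1), Real.log p / p ≤ C₁ * i)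
    (hA : (2 : ℝ) ^ i * J ^ 2 ≤ Real.sqrt (2 ^ J)) (hB : (J : ℝ) ^ 2 ≤ 2 ^ i) :
    ∑ p ∈ blk J, Bsm i (p - 1) ≤ (2 * (176 / Real.log 2) * C₁ + 5) * 2 ^ J * i / J := by
  have hlog2 : 0 < Real.log 2 := Real.log_pos (by norm_num)
  have hJR : (0 : ℝ) < J := by
    have : 0 < J := by omega
    exact_mod_cast this
  have hiR : (1 : ℝ) ≤ i := by exact_mod_cast hi
  have hS : 0 < Real.sqrt (2 ^ J) := Real.sqrt_pos.mpr (by positivity)
  have hSS : Real.sqrt (2 ^ J) * Real.sqrt (2 ^ J) = 2 ^ J := Real.mul_self_sqrt (by positivity)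
  have h0 := sum_bsm_le J i
  have hK : 0 ≤ 2 * (176 / Real.log 2) * (2 ^ J / (J : ℝ)) := by positivity
  -- low part
  have hlow : ∑ q ∈ Nat.primesBelow (2 ^ i + 1), (2 * (176 / Real.log 2) * (2 ^ J / J) *
      (Real.log q / q) + J * Real.log q * Real.sqrt (2 ^ J)) ≤
      2 * (176 / Real.log 2) * (2 ^ J / J) * (C₁ * i) + 2 ^ J * i / J := by
    rw [Finset.sum_add_distrib, ← Finset.mul_sum]
    have h1 := mul_le_mul_of_nonneg_left hM hK
    have h2 : ∑ q ∈ Nat.primesBelow (2 ^ i + 1), (J : ℝ) * Real.log q * Real.sqrt (2 ^ J) ≤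
        2 ^ J * i / J := by
      calc ∑ q ∈ Nat.primesBelow (2 ^ i + 1), (J : ℝ) * Real.log q * Real.sqrt (2 ^ J)
          ≤ ∑ q ∈ Nat.primesBelow (2 ^ i + 1), (J : ℝ) * i * Real.sqrt (2 ^ J) := by
            apply Finset.sum_le_sum
            intro q hq
            rw [Nat.mem_primesBelow] at hq
            have h3 : Real.log q ≤ i := by
              have h1 : Real.log q ≤ Real.log ((2 : ℝ) ^ i) := by
                apply Real.log_le_log (by exact_mod_cast hq.2.pos)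
                exact_mod_cast (by omega : q ≤ 2 ^ i)
              rw [Real.log_pow] at h1
              have h2 := Real.log_two_lt_d9
              nlinarith
            gcongr
        _ = ((Nat.primesBelow (2 ^ i + 1)).card : ℝ) * ((J : ℝ) * i * Real.sqrt (2 ^ J)) := by
            rw [Finset.sum_const, nsmul_eq_mul]
        _ ≤ (2 : ℝ) ^ i * ((J : ℝ) * i * Real.sqrt (2 ^ J)) := by
            have h4 : (Nat.primesBelow (2 ^ i + 1)).card ≤ 2 ^ i := by
              rw [Erdos456.primesBelow_eq]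
              calc ((Icc 1 (2 ^ i)).filter Nat.Prime).card ≤ (Icc 1 (2 ^ i)).card :=
                    Finset.card_filter_le _ _
                _ = 2 ^ i := by rw [Nat.card_Icc]; rfl
            have h5 : ((Nat.primesBelow (2 ^ i + 1)).card : ℝ) ≤ 2 ^ i := by exact_mod_cast h4
            gcongr
        _ ≤ 2 ^ J * i / J := by
            rw [le_div_iff₀ hJR]
            calc (2 : ℝ) ^ i * ((J : ℝ) * i * Real.sqrt (2 ^ J)) * J
                = ((2 : ℝ) ^ i * J ^ 2) * (Real.sqrt (2 ^ J) * i) := by ring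
              _ ≤ Real.sqrt (2 ^ J) * (Real.sqrt (2 ^ J) * i) := by gcongr
              _ = 2 ^ J * i := by rw [← mul_assoc, hSS]
    linarith
  -- high part
  have hhigh : ∑ q ∈ Ioo ((2 : ℕ) ^ i) (2 ^ J + 1), 2 * (J : ℝ) * 2 ^ J * ((q : ℝ) ^ 2)⁻¹ ≤
      4 * 2 ^ J * i / J := by
    rw [← Finset.mul_sum]
    have h1 := sum_Ioo_inv_sq_le (α := ℝ) (2 ^ i) (2 ^ J + 1)
    push_cast at h1
    have h2 : (2 : ℝ) / (2 ^ i + 1) ≤ 2 / 2 ^ i := by
      apply div_le_div_of_nonneg_left (by norm_num) (by positivity)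
      linarith
    calc 2 * (J : ℝ) * 2 ^ J * ∑ q ∈ Ioo ((2 : ℕ) ^ i) (2 ^ J + 1), ((q : ℝ) ^ 2)⁻¹
        ≤ 2 * J * 2 ^ J * (2 / 2 ^ i) := by
          have := h1.trans h2
          gcongr
      _ ≤ 4 * 2 ^ J * i / J := by
          rw [le_div_iff₀ hJR]
          have h3 : (J : ℝ) ^ 2 / 2 ^ i ≤ 1 := by
            rw [div_le_one (by positivity)]
            exact hB
          calc 2 * (J : ℝ) * 2 ^ J * (2 / 2 ^ i) * J = 4 * 2 ^ J * ((J : ℝ) ^ 2 / 2 ^ i) := by
                ring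
            _ ≤ 4 * 2 ^ J * 1 := by gcongr
            _ ≤ 4 * 2 ^ J * i := by gcongr
  -- combine
  have hsplit : ∑ q ∈ (Icc 1 (2 ^ J)).filter Nat.Prime,
      ∑ a ∈ (Icc 1 J).filter (fun a => q ≤ 2 ^ i ∨ 2 ≤ a), Real.log q * (NP J (q ^ a) : ℝ) ≤
      ∑ q ∈ Nat.primesBelow (2 ^ i + 1), (2 * (176 / Real.log 2) * (2 ^ J / J) *
      (Real.log q / q) + J * Real.log q * Real.sqrt (2 ^ J)) +
      ∑ q ∈ Ioo ((2 : ℕ) ^ i) (2 ^ J + 1), 2 * (J : ℝ) * 2 ^ J * ((q : ℝ) ^ 2)⁻¹ := by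
    rw [← Finset.sum_filter_add_sum_filter_not ((Icc 1 (2 ^ J)).filter Nat.Prime)
      (fun q => q ≤ 2 ^ i)]
    apply add_le_add
    · calc _ ≤ ∑ q ∈ ((Icc 1 (2 ^ J)).filter Nat.Prime).filter (fun q => q ≤ 2 ^ i),
            (2 * (176 / Real.log 2) * (2 ^ J / J) *
            (Real.log q / q) + J * Real.log q * Real.sqrt (2 ^ J)) := by
            apply Finset.sum_le_sum
            intro q hq
            rw [mem_filter, mem_filter] at hq
            exact low J q i hJ hq.1.2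
        _ ≤ _ := by
            apply Finset.sum_le_sum_of_subset_of_nonneg
            · intro q hq
              rw [mem_filter, mem_filter] at hq
              rw [Nat.mem_primesBelow]
              exact ⟨by omega, hq.1.2⟩
            · intro q _ _
              have hlog : 0 ≤ Real.log q := Real.log_natCast_nonneg q
              positivity
    · calc _ ≤ ∑ q ∈ ((Icc 1 (2 ^ J)).filter Nat.Prime).filter (fun q => ¬ q ≤ 2 ^ i),
            2 * J * 2 ^ J * ((q : ℝ) ^ 2)⁻¹ := by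
            apply Finset.sum_le_sum
            intro q hq
            rw [mem_filter, mem_filter, mem_Icc] at hq
            exact high J q i hJ hq.1.2 (by omega) (by omega)
        _ ≤ _ := by
            apply Finset.sum_le_sum_of_subset_of_nonneg
            · intro q hq
              rw [mem_filter, mem_filter, mem_Icc] at hq
              rw [mem_Ioo]
              exact ⟨by omega, by omega⟩
            · intro q _ _
              positivity
  calc _ ≤ _ := h0
    _ ≤ _ := hsplit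
    _ ≤ (2 * (176 / Real.log 2) * (2 ^ J / J) * (C₁ * i) + 2 ^ J * i / J) +
        4 * 2 ^ J * i / J := add_le_add hlow hhigh
    _ = _ := by ring

theorem asym : ∃ J1 : ℕ, ∀ J : ℕ, J1 ≤ J → 2 ≤ J ∧ 1 ≤ iJ J ∧
    (2 : ℝ) ^ (iJ J) * J ^ 2 ≤ Real.sqrt (2 ^ J) ∧ (J : ℝ) ^ 2 ≤ 2 ^ (iJ J) := by
  have e1 : ∀ᶠ x : ℝ in Filter.atTop, (8 : ℝ) ≤ x ^ (1 / 8 : ℝ) :=
    (tendsto_rpow_atTop (by norm_num : (0 : ℝ) < 1 / 8)).eventually_ge_atTop 8
  have e2 : ∀ᶠ x : ℝ in Filter.atTop, ‖Real.log x‖ ≤ 1 / 16 * ‖id x‖ :=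
    Real.isLittleO_log_id_atTop.bound (by norm_num)
  have e3 : ∀ᶠ x : ℝ in Filter.atTop, ‖Real.log x‖ ≤ 1 / 4 * ‖x ^ (7 / 8 : ℝ)‖ :=
    (isLittleO_log_rpow_atTop (by norm_num : (0 : ℝ) < 7 / 8)).bound (by norm_num)
  have e4 : ∀ᶠ x : ℝ in Filter.atTop, (16 : ℝ) ≤ x := Filter.eventually_ge_atTop 16
  obtain ⟨J1, hJ1⟩ := Filter.eventually_atTop.mp
    (tendsto_natCast_atTop_atTop.eventually (e1.and (e2.and (e3.and e4))))
  refine ⟨J1, fun J hJ => ?_⟩
  obtain ⟨h1, h2, h3, h4⟩ := hJ1 J hJ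
  have hJpos : (0 : ℝ) < J := by linarith
  have hlog2 : 0 < Real.log 2 := Real.log_pos (by norm_num)
  have hlog2l := Real.log_two_gt_d9
  have hlog2u := Real.log_two_lt_d9
  have hlogJ : 0 < Real.log J := Real.log_pos (by linarith)
  have hr : 0 < (J : ℝ) ^ (7 / 8 : ℝ) := Real.rpow_pos_of_pos hJpos _
  rw [Real.norm_of_nonneg hlogJ.le, id, Real.norm_of_nonneg hJpos.le] at h2
  rw [Real.norm_of_nonneg hlogJ.le, Real.norm_of_nonneg hr.le] at h3
  have hmul : (J : ℝ) ^ (7 / 8 : ℝ) * (J : ℝ) ^ (1 / 8 : ℝ) = J := by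
    rw [← Real.rpow_add hJpos]
    norm_num
  have h5 : (J : ℝ) ^ (7 / 8 : ℝ) ≤ J / 8 := by nlinarith
  have hi1 : (iJ J : ℝ) < (J : ℝ) ^ (7 / 8 : ℝ) + 1 := Nat.ceil_lt_add_one hr.le
  have hi2 : (J : ℝ) ^ (7 / 8 : ℝ) ≤ iJ J := Nat.le_ceil _
  have hipos : (0 : ℝ) < iJ J := lt_of_lt_of_le hr hi2
  refine ⟨?_, ?_, ?_, ?_⟩
  · have : (2 : ℝ) ≤ J := by linarith
    exact_mod_cast this
  · have : 0 < iJ J := by exact_mod_cast hipos
    omega
  · rw [← Real.log_le_log_iff (by positivity) (Real.sqrt_pos.mpr (by positivity)),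
      Real.log_sqrt (by positivity), Real.log_mul (by positivity) (by positivity), Real.log_pow,
      Real.log_pow, Real.log_pow]
    push_cast
    have h6 : (iJ J : ℝ) * Real.log 2 ≤ (J / 8 + 1) * Real.log 2 := by
      have : (iJ J : ℝ) ≤ J / 8 + 1 := by linarith
      gcongr
    nlinarith
  · rw [← Real.log_le_log_iff (by positivity) (by positivity), Real.log_pow, Real.log_pow]
    push_cast
    have h6 : (J : ℝ) ^ (7 / 8 : ℝ) * Real.log 2 ≤ (iJ J : ℝ) * Real.log 2 := by gcongr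
    nlinarith

end Small

theorem s_small : S_Small := by
  obtain ⟨C₁, hC₁, hM⟩ := Erdos456.mertens_log_upper
  obtain ⟨J1, hJ1⟩ := Small.asym
  have hlog2 : 0 < Real.log 2 := Real.log_pos (by norm_num)
  refine ⟨2 * (176 / Real.log 2) * C₁ + 5, by positivity, J1, fun J hJ => ?_⟩
  obtain ⟨h1, h2, h3, h4⟩ := hJ1 J hJ
  exact Small.total J (iJ J) h1 h2 C₁ (hM _ h2) h3 h4

end Pool.Agent.N907.EG
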