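import Pool.Agent.N907.EG.Seq
import Pool.Agent.Erdos456.Iface

/-!
The product of the two one-sided moments contracts.
-/

set_option autoImplicit false

open Finset

namespace Pool.Agent.N907.EG

namespace Ctr

/-- harmonic measure of the primes in `(2^a, 2^b]` -/
noncomputable def HM (a b : ℕ) : ℝ :=
  ∑ q ∈ (Finset.Ioc (2 ^ a) (2 ^ b)).filter Nat.Prime, (1 : ℝ) / q

theorem HM_nonneg (a b : ℕ) : 0 ≤ HM a b := Finset.sum_nonneg fun _ _ => by positivity

theorem HM_eq_zero {a b : ℕ} (h : b ≤ a) : HM a b = 0 := by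
  unfold HM
  rw [Finset.Ioc_eq_empty_of_le (Nat.pow_le_pow_right (by norm_num) h)]
  simp

theorem HM_eq {a b : ℕ} (h : a ≤ b) : HM a b =
    ∑ p ∈ Nat.primesBelow (2 ^ b + 1), (p : ℝ)⁻¹ - ∑ p ∈ Nat.primesBelow (2 ^ a + 1), (p : ℝ)⁻¹ := by
  have hsub : Nat.primesBelow (2 ^ a + 1) ⊆ Nat.primesBelow (2 ^ b + 1) := by
    intro p hp
    rw [Nat.mem_primesBelow] at hp ⊢
    have := Nat.pow_le_pow_right (show 0 < 2 by norm_num) h
    exact ⟨by omega, hp.2⟩
  rw [← Finset.sum_sdiff hsub, add_sub_cancel_right]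
  unfold HM
  apply Finset.sum_congr
  · ext p
    simp only [Finset.mem_filter, Finset.mem_Ioc, Finset.mem_sdiff, Nat.mem_primesBelow]
    constructor
    · rintro ⟨⟨h1, h2⟩, h3⟩; exact ⟨⟨by omega, h3⟩, by omega⟩
    · rintro ⟨⟨h1, h2⟩, h3⟩
      refine ⟨⟨?_, by omega⟩, h2⟩
      by_contra h4
      exact h3 ⟨by omega, h2⟩
  · intro p _; rw [one_div]

/-- Mertens for windows -/
theorem mert : ∃ CM : ℝ, 0 < CM ∧ (∀ a b : ℕ, 1 ≤ a → a ≤ b →
    Real.log ((b : ℝ) / a) - CM ≤ HM a b ∧ HM a b ≤ Real.log ((b : ℝ) / a) + CM) := by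
  obtain ⟨C, hC, h⟩ := Pool.Agent.Erdos456.mertens_both
  refine ⟨2 * C, by positivity, fun a b ha hab => ?_⟩
  have h1 := abs_le.mp (h a ha)
  have h2 := abs_le.mp (h b (by omega))
  have ha' : (0 : ℝ) < a := by exact_mod_cast ha
  have hb' : (0 : ℝ) < b := by exact_mod_cast (show 0 < b by omega)
  rw [HM_eq hab, Real.log_div hb'.ne' ha'.ne']
  constructor <;> linarith [h1.1, h1.2, h2.1, h2.2]

theorem LE_nonneg (h : ℕ → ℝ) (a b : ℕ) : 0 ≤ LE h a b := by
  unfold LE
  exact Finset.sum_nonneg fun _ _ => by positivity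

/-- comparison of exposures in two windows -/
theorem LE_compare (h : ℕ → ℝ) (a0 b0 a1 b1 : ℕ) :
    LE h a0 b0 ≤ LE h a1 b1 + HM a0 a1 + HM b1 b0 := by
  classical
  unfold LE HM
  have hsub : (Finset.Ioc (2 ^ a0) (2 ^ b0)).filter (fun q => q.Prime ∧ h q = 0) ⊆
      ((Finset.Ioc (2 ^ a1) (2 ^ b1)).filter (fun q => q.Prime ∧ h q = 0) ∪
      (Finset.Ioc (2 ^ a0) (2 ^ a1)).filter Nat.Prime) ∪
      (Finset.Ioc (2 ^ b1) (2 ^ b0)).filter Nat.Prime := by
    intro q hq
    simp only [Finset.mem_filter, Finset.mem_Ioc, Finset.mem_union] at hq ⊢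
    obtain ⟨⟨h1, h2⟩, h3, h4⟩ := hq
    by_cases h5 : 2 ^ a1 < q
    · by_cases h6 : q ≤ 2 ^ b1
      · left; left; exact ⟨⟨h5, h6⟩, h3, h4⟩
      · right; exact ⟨⟨by omega, h2⟩, h3⟩
    · left; right; exact ⟨⟨h1, by omega⟩, h3⟩
  calc _ ≤ ∑ q ∈ ((Finset.Ioc (2 ^ a1) (2 ^ b1)).filter (fun q => q.Prime ∧ h q = 0) ∪
      (Finset.Ioc (2 ^ a0) (2 ^ a1)).filter Nat.Prime) ∪
      (Finset.Ioc (2 ^ b1) (2 ^ b0)).filter Nat.Prime, (1 : ℝ) / q :=
        Finset.sum_le_sum_of_subset_of_nonneg hsub fun _ _ _ => by positivity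
    _ ≤ ∑ q ∈ ((Finset.Ioc (2 ^ a1) (2 ^ b1)).filter (fun q => q.Prime ∧ h q = 0) ∪
      (Finset.Ioc (2 ^ a0) (2 ^ a1)).filter Nat.Prime), (1 : ℝ) / q +
      ∑ q ∈ (Finset.Ioc (2 ^ b1) (2 ^ b0)).filter Nat.Prime, (1 : ℝ) / q := by
        rw [← Finset.sum_union_inter]
        have : 0 ≤ ∑ x ∈ ((Finset.Ioc (2 ^ a1) (2 ^ b1)).filter (fun q => q.Prime ∧ h q = 0) ∪
          (Finset.Ioc (2 ^ a0) (2 ^ a1)).filter Nat.Prime) ∩
          (Finset.Ioc (2 ^ b1) (2 ^ b0)).filter Nat.Prime, (1 : ℝ) / x :=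
          Finset.sum_nonneg fun _ _ => by positivity
        linarith
    _ ≤ _ := by
        have h2 : ∑ q ∈ ((Finset.Ioc (2 ^ a1) (2 ^ b1)).filter (fun q => q.Prime ∧ h q = 0) ∪
          (Finset.Ioc (2 ^ a0) (2 ^ a1)).filter Nat.Prime), (1 : ℝ) / q ≤
          ∑ q ∈ (Finset.Ioc (2 ^ a1) (2 ^ b1)).filter (fun q => q.Prime ∧ h q = 0), (1 : ℝ) / q +
          ∑ q ∈ (Finset.Ioc (2 ^ a0) (2 ^ a1)).filter Nat.Prime, (1 : ℝ) / q := by
          rw [← Finset.sum_union_inter]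
          have : 0 ≤ ∑ x ∈ ((Finset.Ioc (2 ^ a1) (2 ^ b1)).filter (fun q => q.Prime ∧ h q = 0) ∩
            (Finset.Ioc (2 ^ a0) (2 ^ a1)).filter Nat.Prime), (1 : ℝ) / x :=
            Finset.sum_nonneg fun _ _ => by positivity
          linarith
        linarith

/-- the two exposures cover all primes -/
theorem LE_add (h g : ℕ → ℝ) (hhg : ∀ q : ℕ, q.Prime → h q = 0 ∨ g q = 0) (a b : ℕ) :
    HM a b ≤ LE h a b + LE g a b := by
  classical
  unfold LE HM
  rw [← Finset.sum_union_inter]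
  have hsub : (Finset.Ioc (2 ^ a) (2 ^ b)).filter Nat.Prime ⊆
      (Finset.Ioc (2 ^ a) (2 ^ b)).filter (fun q => q.Prime ∧ h q = 0) ∪
      (Finset.Ioc (2 ^ a) (2 ^ b)).filter (fun q => q.Prime ∧ g q = 0) := by
    intro q hq
    simp only [Finset.mem_filter, Finset.mem_Ioc, Finset.mem_union] at hq ⊢
    rcases hhg q hq.2 with h1 | h1
    · left; exact ⟨hq.1, hq.2, h1⟩
    · right; exact ⟨hq.1, hq.2, h1⟩
  have h1 : ∑ q ∈ (Finset.Ioc (2 ^ a) (2 ^ b)).filter Nat.Prime, (1 : ℝ) / q ≤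
      ∑ q ∈ (Finset.Ioc (2 ^ a) (2 ^ b)).filter (fun q => q.Prime ∧ h q = 0) ∪
      (Finset.Ioc (2 ^ a) (2 ^ b)).filter (fun q => q.Prime ∧ g q = 0), (1 : ℝ) / q :=
    Finset.sum_le_sum_of_subset_of_nonneg hsub fun _ _ _ => by positivity
  have h2 : 0 ≤ ∑ x ∈ (Finset.Ioc (2 ^ a) (2 ^ b)).filter (fun q => q.Prime ∧ h q = 0) ∩
      (Finset.Ioc (2 ^ a) (2 ^ b)).filter (fun q => q.Prime ∧ g q = 0), (1 : ℝ) / x :=
    Finset.sum_nonneg fun _ _ => by positivity
  linarith

/-- number of primes in a block -/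
theorem blk_card : ∃ C : ℝ, 0 < C ∧ ∀ J : ℕ, 1 ≤ J → (J : ℝ) / 2 ^ J * (blk J).card ≤ C := by
  obtain ⟨C, hC, h⟩ := Pool.Agent.Erdos456.cheb_dyadic
  refine ⟨C + 1, by positivity, fun J hJ => ?_⟩
  rcases Nat.lt_or_ge J 2 with hJ2 | hJ2
  · have : J = 1 := by omega
    subst this
    have h1 : (blk 1).card ≤ 1 := by
      unfold blk
      refine (Finset.card_filter_le _ _).trans ?_
      simp
    have h2 : ((blk 1).card : ℝ) ≤ 1 := by exact_mod_cast h1
    norm_num
    linarith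
  · obtain ⟨i, rfl⟩ : ∃ i, J = i + 1 := ⟨J - 1, by omega⟩
    have h1 := h i (by omega)
    unfold blk
    rw [Nat.add_sub_cancel]
    have hi : (1 : ℝ) ≤ i := by exact_mod_cast (show 1 ≤ i by omega)
    have h2 : ((i + 1 : ℕ) : ℝ) / 2 ^ (i + 1) * ((Finset.Ioc (2 ^ i) (2 ^ (i + 1))).filter Nat.Prime).card ≤
        ((i + 1 : ℕ) : ℝ) / 2 ^ (i + 1) * (C * 2 ^ i / i) := by
      gcongr
    refine h2.trans ?_
    push_cast
    rw [pow_succ]
    have : ((i : ℝ) + 1) / (2 ^ i * 2) * (C * 2 ^ i / i) = C * ((i + 1) / (2 * i)) := by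
      field_simp
    rw [this]
    have h3 : ((i : ℝ) + 1) / (2 * i) ≤ 1 := by
      rw [div_le_one (by positivity)]; linarith
    nlinarith

theorem NN_nonneg {h : ℕ → ℝ} (hh : Adm h) (k J : ℕ) : 0 ≤ NN h k J := by
  unfold NN
  have : 0 ≤ ∑ p ∈ blk J, h p ^ k := Finset.sum_nonneg fun p _ => pow_nonneg (hh.nonneg p) _
  positivity

theorem NN_le : ∃ C : ℝ, 0 < C ∧ ∀ h : ℕ → ℝ, Adm h → ∀ k J : ℕ, 1 ≤ J → NN h k J ≤ C * 2 ^ k := by
  obtain ⟨C, hC, h⟩ := blk_card
  refine ⟨C, hC, fun g hg k J hJ => ?_⟩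
  unfold NN
  have h1 : ∑ p ∈ blk J, g p ^ k ≤ (blk J).card * 2 ^ k := by
    rw [← nsmul_eq_mul]
    apply Finset.sum_le_card_nsmul
    intro p _
    exact pow_le_pow_left₀ (hg.nonneg p) (hg.le_two p) _
  have h2 := h J hJ
  calc ((J : ℝ) / 2 ^ J) * ∑ p ∈ blk J, g p ^ k ≤ ((J : ℝ) / 2 ^ J) * ((blk J).card * 2 ^ k) := by gcongr
    _ = ((J : ℝ) / 2 ^ J * (blk J).card) * 2 ^ k := by ring
    _ ≤ C * 2 ^ k := by gcongr

end Ctr

open Ctr

/-- discounted maximum of the block moments -/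
noncomputable def Env (h : ℕ → ℝ) (k lam J : ℕ) : ℝ :=
  (Finset.Icc 1 J).fold max 0 (fun j => NN h k j * ((j : ℝ) / J) ^ lam)

theorem Env_nonneg (h : ℕ → ℝ) (k lam J : ℕ) : 0 ≤ Env h k lam J := by
  unfold Env
  rw [Finset.le_fold_max]
  left; exact le_rfl

theorem Env_le {h : ℕ → ℝ} {k lam J : ℕ} {c : ℝ} (hc : 0 ≤ c)
    (hj : ∀ j, 1 ≤ j → j ≤ J → NN h k j * ((j : ℝ) / J) ^ lam ≤ c) : Env h k lam J ≤ c := by
  unfold Env
  rw [Finset.fold_max_le]
  refine ⟨hc, fun j hj' => ?_⟩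
  rw [Finset.mem_Icc] at hj'
  exact hj j hj'.1 hj'.2

theorem le_Env (h : ℕ → ℝ) (k lam J j : ℕ) (h1 : 1 ≤ j) (h2 : j ≤ J) :
    NN h k j * ((j : ℝ) / J) ^ lam ≤ Env h k lam J := by
  unfold Env
  rw [Finset.le_fold_max]
  right
  exact ⟨j, Finset.mem_Icc.mpr ⟨h1, h2⟩, le_rfl⟩

theorem NN_le_Env (h : ℕ → ℝ) (k lam J j : ℕ) (h1 : 1 ≤ j) (h2 : j ≤ J) :
    NN h k j ≤ Env h k lam J * ((J : ℝ) / j) ^ lam := by
  have h3 := le_Env h k lam J j h1 h2
  have hj : (0 : ℝ) < j := by exact_mod_cast h1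
  have hJ : (0 : ℝ) < J := by exact_mod_cast (show 0 < J by omega)
  have h4 : NN h k j = NN h k j * ((j : ℝ) / J) ^ lam * ((J : ℝ) / j) ^ lam := by
    rw [mul_assoc, ← mul_pow]
    have : (j : ℝ) / J * (J / j) = 1 := by field_simp
    rw [this]; simp
  rw [h4]
  gcongr

/-- contraction of the product of the two discounted moments -/
theorem contraction (hRI : S_RI) : ∃ (k lam ρ J1 : ℕ) (K : ℝ), 1 ≤ k ∧ 1 ≤ lam ∧ 2 ≤ ρ ∧ 0 < K ∧
    (∀ J : ℕ, 1 ≤ J → 1 ≤ HM J (ρ * J)) ∧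
    ∀ h g : ℕ → ℝ, Adm h → Adm g → (∀ q : ℕ, q.Prime → h q = 0 ∨ g q = 0) → ∀ J : ℕ, J1 ≤ J →
      Env h k lam (ρ * J) * Env g k lam (ρ * J) ≤
        (1 / 2) * (Env h k lam J * Env g k lam J) + K * (J : ℝ) ^ (-(1 / 8) : ℝ) := by
  obtain ⟨C6', hC6', hRI1⟩ := hRI 1 le_rfl
  set C6 : ℝ := max C6' 1 with hC6
  have hC61 : 1 ≤ C6 := le_max_right _ _
  set c : ℕ := ⌈2 * C6⌉₊ with hc
  have hc1 : 2 * C6 ≤ c := Nat.le_ceil _
  have hc2 : 1 ≤ c := by
    have : (1 : ℝ) ≤ c := by linarith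
    exact_mod_cast this
  set lam : ℕ := 2 * c with hlam
  have hlam1 : 1 ≤ lam := by omega
  have hlam1' : (1 : ℝ) ≤ lam := by exact_mod_cast hlam1
  obtain ⟨C9', hC9', hRI2⟩ := hRI lam hlam1'
  set C9 : ℝ := max C9' 1 with hC9
  have hC91 : 1 ≤ C9 := le_max_right _ _
  obtain ⟨CM, hCM, hM⟩ := mert
  obtain ⟨Cb, hCb, hNle⟩ := NN_le
  set ρ : ℕ := ⌈12 * C6 * (lam : ℝ) ^ lam + Real.exp (CM + 1)⌉₊ with hρ
  have hρ1 : 12 * C6 * (lam : ℝ) ^ lam + Real.exp (CM + 1) ≤ ρ := Nat.le_ceil _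
  have hlamlam : 1 ≤ (lam : ℝ) ^ lam := one_le_pow₀ hlam1'
  have hρ2 : 12 * C6 * (lam : ℝ) ^ lam ≤ ρ := by
    have := Real.exp_pos (CM + 1); linarith
  have hρ3 : Real.exp (CM + 1) ≤ ρ := by
    have : 0 ≤ 12 * C6 * (lam : ℝ) ^ lam := by positivity
    linarith
  have hρ12 : (12 : ℝ) ≤ ρ := by nlinarith
  have hρn : 2 ≤ ρ := by
    have : (2 : ℝ) ≤ ρ := by linarith
    exact_mod_cast this
  have hρpos : (0 : ℝ) < ρ := by linarith
  set A : ℝ := 16 * C9 with hA
  have hA0 : 0 < A := by linarith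
  -- choice of k
  set K0 : ℝ := 3 * (Real.log 2 + CM) + 3 * (Real.log (2 * ρ) + Real.log A + 2 * CM +
    Real.log (16 * C9) / (39 / 100)) with hK0
  obtain ⟨k, hk⟩ : ∃ k : ℕ, Real.exp K0 ≤ k ∧ 2 * lam ≤ k ∧ 2 ≤ k := by
    refine ⟨max ⌈Real.exp K0⌉₊ (2 * lam + 2), ?_, ?_, ?_⟩
    · have := Nat.le_ceil (Real.exp K0)
      push_cast
      exact this.trans (le_max_left _ _)
    · exact le_trans (by omega) (le_max_right _ _)
    · exact le_trans (by omega) (le_max_right _ _)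
  obtain ⟨hk1, hk2, hk3⟩ := hk
  have hkpos : (0 : ℝ) < k := by exact_mod_cast (show 0 < k by omega)
  have hlogk : K0 ≤ Real.log k := by
    rw [← Real.log_exp K0]
    exact Real.log_le_log (Real.exp_pos _) hk1
  have hlog2ρ : 0 ≤ Real.log (2 * ρ) := Real.log_nonneg (by linarith)
  have hlogA : 0 ≤ Real.log A := Real.log_nonneg (by rw [hA]; linarith)
  have hlog16 : 0 ≤ Real.log (16 * C9) := Real.log_nonneg (by linarith)
  have hlog2 : 0 < Real.log 2 := Real.log_pos (by norm_num)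
  have hlogk1 : 3 * (Real.log 2 + CM) ≤ Real.log k := by
    have : 0 ≤ Real.log (16 * C9) / (39 / 100) := by positivity
    linarith
  have hlogk2 : 3 * (Real.log (2 * ρ) + Real.log A + 2 * CM +
      Real.log (16 * C9) / (39 / 100)) ≤ Real.log k := by linarith
  obtain ⟨C1', hC1', J1a, hJ1a⟩ := hRI1 k hk3
  obtain ⟨C2', hC2', J1b, hJ1b⟩ := hRI2 k hk3
  set Ce : ℝ := max C1' C2' with hCe
  have hCe0 : 0 < Ce := lt_of_lt_of_le hC1' (le_max_left _ _)
  set Am : ℝ := Cb * 2 ^ k with hAm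
  have hAm0 : 0 < Am := by positivity
  set K : ℝ := 2 * Am * Ce + 12 * C6 * (lam : ℝ) ^ lam * (ρ : ℝ) ^ c * Am * Ce +
    4 * (ρ : ℝ) ^ c * Ce ^ 2 with hK
  have hK0' : 0 < K := by positivity
  refine ⟨k, lam, ρ, max (max J1a J1b) (max k (⌈16 * C9⌉₊)), K, by omega, hlam1, hρn, hK0', ?_, ?_⟩
  · intro J hJ
    have h1 := (hM J (ρ * J) hJ (Nat.le_mul_of_pos_left J (by omega))).1
    have hJ' : (0 : ℝ) < J := by exact_mod_cast hJ
    have h2 : (((ρ * J : ℕ) : ℝ) / J) = ρ := by push_cast; field_simp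
    rw [h2] at h1
    have h3 : CM + 1 ≤ Real.log ρ := by
      rw [← Real.log_exp (CM + 1)]
      exact Real.log_le_log (Real.exp_pos _) hρ3
    linarith
  -- the one sided statement
  have key : ∀ h g : ℕ → ℝ, Adm h → Adm g → ∀ J0 : ℕ,
      max (max J1a J1b) (max k (⌈16 * C9⌉₊)) ≤ J0 → Real.log k / 3 ≤ LE h (J0 / k + 1) J0 →
      Env h k lam (ρ * J0) * Env g k lam (ρ * J0) ≤
        (1 / 2) * (Env h k lam J0 * Env g k lam J0) + K * (J0 : ℝ) ^ (-(1 / 8) : ℝ) := by
    intro h g hh hg J0 hJ0 hexp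
    have hJ0a : J1a ≤ J0 := le_trans (le_trans (le_max_left _ _) (le_max_left _ _)) hJ0
    have hJ0b : J1b ≤ J0 := le_trans (le_trans (le_max_right _ _) (le_max_left _ _)) hJ0
    have hJ0k : k ≤ J0 := le_trans (le_trans (le_max_left _ _) (le_max_right _ _)) hJ0
    have hJ0c : ⌈16 * C9⌉₊ ≤ J0 := le_trans (le_trans (le_max_right _ _) (le_max_right _ _)) hJ0
    have hJ0c' : 16 * C9 ≤ J0 := (Nat.le_ceil _).trans (by exact_mod_cast hJ0c)
    have hJ0pos : 1 ≤ J0 := by omega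
    have hJ0r : (0 : ℝ) < J0 := by exact_mod_cast hJ0pos
    have hJ0r1 : (1 : ℝ) ≤ J0 := by exact_mod_cast hJ0pos
    set a := Env h k lam J0 with ha
    set b := Env g k lam J0 with hb
    have ha0 : 0 ≤ a := Env_nonneg _ _ _ _
    have hb0 : 0 ≤ b := Env_nonneg _ _ _ _
    have hEle : ∀ f : ℕ → ℝ, Adm f → Env f k lam J0 ≤ Am := by
      intro f hf
      apply Env_le hAm0.le
      intro j hj1 hj2
      have h1 := hNle f hf k j hj1
      have h2 : ((j : ℝ) / J0) ^ lam ≤ 1 := by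
        apply pow_le_one₀ (by positivity)
        rw [div_le_one hJ0r]; exact_mod_cast hj2
      have h3 := NN_nonneg hf k j
      have h4 : 0 ≤ ((j : ℝ) / J0) ^ lam := by positivity
      nlinarith
    have haA : a ≤ Am := hEle h hh
    have hbA : b ≤ Am := hEle g hg
    set t : ℝ := (J0 : ℝ) ^ (-(1 / 8) : ℝ) with ht
    have ht0 : 0 < t := by positivity
    have ht1 : t ≤ 1 := Real.rpow_le_one_of_one_le_of_nonpos hJ0r1 (by norm_num)
    set E : ℝ := Ce * t with hE
    have hE0 : 0 < E := by positivity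
    have hEJ : ∀ J : ℕ, J0 < J → Ce * (J : ℝ) ^ (-(1 / 8) : ℝ) ≤ E := by
      intro J hJ
      have : (J : ℝ) ^ (-(1 / 8) : ℝ) ≤ t := by
        apply Real.rpow_le_rpow_of_nonpos hJ0r (by exact_mod_cast hJ.le) (by norm_num)
      rw [hE]; gcongr
    -- creeping of g
    have hcreep : ∀ J, J0 < J → NN g k J ≤ (6 * C6 * (lam : ℝ) ^ lam * b + 2 * E) * ((J : ℝ) / J0) ^ c := by
      apply creep C6 hC61 c lam k J0 hc1 hlam1 hk2 hJ0pos (NN g k) b E hb0 hE0.le
      · intro j hj1 hj2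
        exact NN_le_Env g k lam J0 j hj1 hj2
      · intro J hJ
        have h1 := hJ1a (lam : ℝ) (lam : ℝ) hlam1' (by linarith) (by linarith)
          (by exact_mod_cast hk2) g hg J (by omega)
        refine h1.trans ?_
        have h2 : ∑ j ∈ Finset.Ico 1 J, ((ell lam lam k J j)⁻¹) ^ (k - 1) * NN g k j *
            Real.exp (-(39 / 100) * LE g (J / k + 1) (J - j)) ≤
            ∑ j ∈ Finset.Ico 1 J, ((ell lam lam k J j)⁻¹) ^ (k - 1) * NN g k j := by
          apply Finset.sum_le_sum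
          intro j _
          have h3 : Real.exp (-(39 / 100) * LE g (J / k + 1) (J - j)) ≤ 1 := by
            rw [Real.exp_le_one_iff]
            have := LE_nonneg g (J / k + 1) (J - j)
            linarith
          have h4 : 0 ≤ ((ell lam lam k J j)⁻¹) ^ (k - 1) * NN g k j := by
            have := Sq.ell_pos (lam : ℝ) lam k J j
            have := NN_nonneg hg k j
            positivity
          nlinarith
        have h5 : 0 ≤ ∑ j ∈ Finset.Ico 1 J, ((ell lam lam k J j)⁻¹) ^ (k - 1) * NN g k j := by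
          apply Finset.sum_nonneg
          intro j _
          have := Sq.ell_pos (lam : ℝ) lam k J j
          have := NN_nonneg hg k j
          positivity
        have h6 : C1' * (J : ℝ) ^ (-(1 / 8) : ℝ) ≤ E := by
          refine le_trans ?_ (hEJ J hJ)
          have : C1' ≤ Ce := le_max_left _ _
          gcongr
        have h7 : C6' ≤ C6 := le_max_left _ _
        have h8 : C6' * (1 / (J : ℝ)) * ∑ j ∈ Finset.Ico 1 J, ((ell lam lam k J j)⁻¹) ^ (k - 1) * NN g k j *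
            Real.exp (-(39 / 100) * LE g (J / k + 1) (J - j)) ≤
            C6 * (1 / (J : ℝ)) * ∑ j ∈ Finset.Ico 1 J, ((ell lam lam k J j)⁻¹) ^ (k - 1) * NN g k j := by
          calc _ ≤ C6' * (1 / (J : ℝ)) * ∑ j ∈ Finset.Ico 1 J, ((ell lam lam k J j)⁻¹) ^ (k - 1) * NN g k j := by
                gcongr
            _ ≤ _ := by gcongr
        linarith
    -- receding of h
    have hrec : ∀ J, 1 ≤ J → J ≤ ρ * J0 → NN h k J ≤
        (a + 2 * (ρ : ℝ) ^ lam * E) * ((J0 : ℝ) / J) ^ lam := by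
      apply recede C9 hC91 lam k J0 ρ hk2 (by omega) hJ0pos (by omega) (NN h k) a E
        (1 / (16 * C9)) A ha0 hE0.le (by positivity) le_rfl hA hJ0c'
        (fun J j => Real.exp (-(39 / 100) * LE h (J / k + 1) (J - j)))
      · intro J j; exact (Real.exp_pos _).le
      · intro J j
        rw [Real.exp_le_one_iff]
        have := LE_nonneg h (J / k + 1) (J - j)
        linarith
      · intro J hJ hJρ j hj1 hj2
        have hJr : (0 : ℝ) < J := by exact_mod_cast (show 0 < J by omega)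
        -- window comparison
        have hcmp := LE_compare h (J0 / k + 1) J0 (J / k + 1) (J - j)
        have hjJ : j ≤ J := by
          have : (j : ℝ) ≤ J := by
            refine hj2.trans ?_
            have : 0 ≤ 1 / A := by positivity
            nlinarith
          exact_mod_cast this
        have hJj : (J : ℝ) / A ≤ ((J - j : ℕ) : ℝ) := by
          rw [Nat.cast_sub hjJ]
          have : (1 - 1 / A) * (J : ℝ) = J - J / A := by ring
          linarith
        have hJj1 : 1 ≤ J - j := by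
          have : (0 : ℝ) < ((J - j : ℕ) : ℝ) := lt_of_lt_of_le (by positivity) hJj
          exact_mod_cast this
        -- first comparison term
        have hw1 : HM (J0 / k + 1) (J / k + 1) ≤ Real.log (2 * ρ) + CM := by
          have hle : J0 / k + 1 ≤ J / k + 1 := by
            have := Nat.div_le_div_right (c := k) hJ.le
            omega
          have h1 := (hM (J0 / k + 1) (J / k + 1) (Nat.le_add_left 1 _) hle).2
          refine h1.trans ?_
          have hden : (J0 : ℝ) / k ≤ ((J0 / k + 1 : ℕ) : ℝ) := by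
            rw [div_le_iff₀ hkpos]
            have := Nat.lt_mul_div_succ J0 (show 0 < k by omega)
            have h2 : J0 ≤ (J0 / k + 1) * k := by nlinarith
            exact_mod_cast h2
          have hnum : ((J / k + 1 : ℕ) : ℝ) ≤ (2 * ρ) * (J0 / k) := by
            have h2 : ((J / k : ℕ) : ℝ) ≤ (J : ℝ) / k := Nat.cast_div_le
            have h3 : (J : ℝ) ≤ ρ * J0 := by exact_mod_cast hJρ
            have h4 : (J : ℝ) / k ≤ ρ * (J0 / k) := by
              rw [← mul_div_assoc]; gcongr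
            have h5 : (1 : ℝ) ≤ J0 / k := by
              rw [one_le_div hkpos]; exact_mod_cast hJ0k
            push_cast
            nlinarith
          have hpos : (0 : ℝ) < ((J0 / k + 1 : ℕ) : ℝ) := by positivity
          have : Real.log (((J / k + 1 : ℕ) : ℝ) / ((J0 / k + 1 : ℕ) : ℝ)) ≤ Real.log (2 * ρ) := by
            apply Real.log_le_log (by positivity)
            rw [div_le_iff₀ hpos]
            calc ((J / k + 1 : ℕ) : ℝ) ≤ (2 * ρ) * (J0 / k) := hnum
              _ ≤ _ := by gcongr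
          linarith
        have hw2 : HM (J - j) J0 ≤ Real.log A + CM := by
          rcases le_or_gt J0 (J - j) with hcase | hcase
          · rw [HM_eq_zero hcase]; linarith
          · have h1 := (hM (J - j) J0 hJj1 hcase.le).2
            refine h1.trans ?_
            have hpos : (0 : ℝ) < ((J - j : ℕ) : ℝ) := by exact_mod_cast hJj1
            have : Real.log ((J0 : ℝ) / ((J - j : ℕ) : ℝ)) ≤ Real.log A := by
              apply Real.log_le_log (by positivity)
              rw [div_le_iff₀ hpos]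
              have h2 : (J0 : ℝ) ≤ J := by exact_mod_cast hJ.le
              have h3 : A * (J / A) ≤ A * ((J - j : ℕ) : ℝ) := by gcongr
              have h4 : A * ((J : ℝ) / A) = J := by field_simp
              linarith
            linarith
        have hLE : Real.log (16 * C9) / (39 / 100) ≤ LE h (J / k + 1) (J - j) := by
          linarith
        have : Real.exp (-(39 / 100) * LE h (J / k + 1) (J - j)) ≤ Real.exp (-Real.log (16 * C9)) := by
          rw [Real.exp_le_exp]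
          have h5 := mul_le_mul_of_nonneg_left hLE (show (0:ℝ) ≤ 39 / 100 by norm_num)
          rw [mul_div_cancel₀ _ (by norm_num)] at h5
          linarith
        refine this.trans (le_of_eq ?_)
        rw [Real.exp_neg, Real.exp_log (by positivity), one_div]
      · intro j hj1 hj2
        exact NN_le_Env h k lam J0 j hj1 hj2
      · intro J hJ _
        have h1 := hJ1b (lam : ℝ) 1 le_rfl (by linarith) (by linarith)
          (by exact_mod_cast hk2) h hh J (by omega)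
        refine h1.trans ?_
        have h6 : C2' * (J : ℝ) ^ (-(1 / 8) : ℝ) ≤ E := by
          refine le_trans ?_ (hEJ J hJ)
          have : C2' ≤ Ce := le_max_right _ _
          gcongr
        have h7 : C9' ≤ C9 := le_max_left _ _
        have h5 : 0 ≤ ∑ j ∈ Finset.Ico 1 J, ((ell lam 1 k J j)⁻¹) ^ (k - 1) * NN h k j *
            Real.exp (-(39 / 100) * LE h (J / k + 1) (J - j)) := by
          apply Finset.sum_nonneg
          intro j _
          have := Sq.ell_pos (lam : ℝ) 1 k J j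
          have := NN_nonneg hh k j
          positivity
        have h8 : C9' * (1 / (J : ℝ)) * ∑ j ∈ Finset.Ico 1 J, ((ell lam 1 k J j)⁻¹) ^ (k - 1) * NN h k j *
            Real.exp (-(39 / 100) * LE h (J / k + 1) (J - j)) ≤
            C9 * (1 / (J : ℝ)) * ∑ j ∈ Finset.Ico 1 J, ((ell lam 1 k J j)⁻¹) ^ (k - 1) * NN h k j *
            Real.exp (-(39 / 100) * LE h (J / k + 1) (J - j)) := by gcongr
        linarith
    -- bounds for the envelopes
    have hρJ : (0 : ℝ) < ((ρ * J0 : ℕ) : ℝ) := by push_cast; positivity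
    have hEh : Env h k lam (ρ * J0) ≤ (a + 2 * (ρ : ℝ) ^ lam * E) / (ρ : ℝ) ^ lam := by
      apply Env_le (by positivity)
      intro j hj1 hj2
      have hjr : (0 : ℝ) < j := by exact_mod_cast hj1
      have h1 := hrec j hj1 hj2
      calc NN h k j * ((j : ℝ) / ((ρ * J0 : ℕ) : ℝ)) ^ lam
          ≤ (a + 2 * (ρ : ℝ) ^ lam * E) * ((J0 : ℝ) / j) ^ lam * ((j : ℝ) / ((ρ * J0 : ℕ) : ℝ)) ^ lam := by
            gcongr
        _ = (a + 2 * (ρ : ℝ) ^ lam * E) / (ρ : ℝ) ^ lam := by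
            rw [mul_assoc, ← mul_pow]
            have : (J0 : ℝ) / j * (j / ((ρ * J0 : ℕ) : ℝ)) = 1 / ρ := by
              push_cast; field_simp
            rw [this, one_div, inv_pow]; rfl
    have hEg : Env g k lam (ρ * J0) ≤ (6 * C6 * (lam : ℝ) ^ lam * b + 2 * E) * (ρ : ℝ) ^ c := by
      apply Env_le (by positivity)
      intro j hj1 hj2
      have hjr : (0 : ℝ) < j := by exact_mod_cast hj1
      have hj2' : (j : ℝ) ≤ ((ρ * J0 : ℕ) : ℝ) := by exact_mod_cast hj2
      have hρc : 1 ≤ (ρ : ℝ) ^ c := one_le_pow₀ (by linarith)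
      rcases le_or_gt j J0 with hjJ | hjJ
      · have h1 := NN_le_Env g k lam J0 j hj1 hjJ
        rw [← hb] at h1
        calc NN g k j * ((j : ℝ) / ((ρ * J0 : ℕ) : ℝ)) ^ lam
            ≤ b * ((J0 : ℝ) / j) ^ lam * ((j : ℝ) / ((ρ * J0 : ℕ) : ℝ)) ^ lam := by gcongr
          _ = b * (1 / ρ) ^ lam := by
              rw [mul_assoc, ← mul_pow]
              have : (J0 : ℝ) / j * (j / ((ρ * J0 : ℕ) : ℝ)) = 1 / ρ := by
                push_cast; field_simp
              rw [this]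
          _ ≤ b * 1 := by
              gcongr
              apply pow_le_one₀ (by positivity)
              rw [div_le_one hρpos]; linarith
          _ ≤ (6 * C6 * (lam : ℝ) ^ lam * b + 2 * E) * 1 := by
              have : b ≤ 6 * C6 * (lam : ℝ) ^ lam * b := by
                have h2 : 1 ≤ 6 * C6 * (lam : ℝ) ^ lam := by nlinarith
                nlinarith
              linarith
          _ ≤ _ := by gcongr
      · have h1 := hcreep j hjJ
        have h2 : ((j : ℝ) / ((ρ * J0 : ℕ) : ℝ)) ^ lam ≤ 1 := by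
          apply pow_le_one₀ (by positivity)
          rw [div_le_one hρJ]; exact hj2'
        have h3 : ((j : ℝ) / J0) ^ c ≤ (ρ : ℝ) ^ c := by
          gcongr
          rw [div_le_iff₀ hJ0r]; exact_mod_cast hj2
        have h4 := NN_nonneg hg k j
        calc NN g k j * ((j : ℝ) / ((ρ * J0 : ℕ) : ℝ)) ^ lam ≤ NN g k j * 1 := by gcongr
          _ = NN g k j := mul_one _
          _ ≤ (6 * C6 * (lam : ℝ) ^ lam * b + 2 * E) * ((j : ℝ) / J0) ^ c := h1
          _ ≤ _ := by gcongr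
    have hEh0 := Env_nonneg h k lam (ρ * J0)
    have hEg0 := Env_nonneg g k lam (ρ * J0)
    have hρlam : (ρ : ℝ) ^ lam = (ρ : ℝ) ^ c * (ρ : ℝ) ^ c := by
      rw [hlam, two_mul, pow_add]
    have hρc : 12 * C6 * (lam : ℝ) ^ lam ≤ (ρ : ℝ) ^ c := by
      refine hρ2.trans ?_
      exact le_self_pow₀ (by linarith) (by omega)
    set P : ℝ := (ρ : ℝ) ^ c with hP
    have hP0 : 0 < P := by positivity
    have hP1 : 1 ≤ P := one_le_pow₀ (by linarith)
    set Q : ℝ := 6 * C6 * (lam : ℝ) ^ lam with hQ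
    have hQ0 : 0 < Q := by positivity
    have hQP : 2 * Q ≤ P := by rw [hQ]; linarith
    calc Env h k lam (ρ * J0) * Env g k lam (ρ * J0)
        ≤ ((a + 2 * (ρ : ℝ) ^ lam * E) / (ρ : ℝ) ^ lam) * ((Q * b + 2 * E) * P) := by
          apply mul_le_mul hEh hEg hEg0 (by positivity)
      _ = (a / P + 2 * P * E) * (Q * b + 2 * E) := by
          rw [hρlam]; field_simp
      _ = (Q / P) * (a * b) + (a / P) * (2 * E) + 2 * P * E * Q * b + 4 * P * E ^ 2 := by ring
      _ ≤ (1 / 2) * (a * b) + Am * (2 * E) + 2 * P * E * Q * Am + 4 * P * (E * Ce) := by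
          have h1 : Q / P ≤ 1 / 2 := by
            rw [div_le_div_iff₀ hP0 (by norm_num)]; linarith
          have h2 : a / P ≤ Am := by
            rw [div_le_iff₀ hP0]; nlinarith
          have h3 : E ^ 2 ≤ E * Ce := by
            rw [sq]
            apply mul_le_mul_of_nonneg_left _ hE0.le
            rw [hE]; nlinarith
          have h4 : 0 ≤ a * b := by positivity
          gcongr
      _ = (1 / 2) * (a * b) + K * t := by
          rw [hK, hE, hQ, hP]; ring
  intro h g hh hg hhg J hJ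
  have hJk : k ≤ J := le_trans (le_trans (le_max_left _ _) (le_max_right _ _)) hJ
  have hJpos : 1 ≤ J := by omega
  have hJr : (0 : ℝ) < J := by exact_mod_cast hJpos
  have hcov := LE_add h g hhg (J / k + 1) J
  have hle1 : J / k + 1 ≤ J := by
    have h1 : J / k ≤ J / 2 := Nat.div_le_div_left hk3 (by norm_num)
    omega
  have htot := (hM (J / k + 1) J (Nat.le_add_left 1 _) hle1).1
  have hratio : Real.log k - Real.log 2 ≤ Real.log ((J : ℝ) / ((J / k + 1 : ℕ) : ℝ)) := by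
    rw [← Real.log_div hkpos.ne' (by norm_num)]
    apply Real.log_le_log (by positivity)
    rw [div_le_div_iff₀ (by norm_num) (by positivity)]
    have h2 : ((J / k : ℕ) : ℝ) ≤ (J : ℝ) / k := Nat.cast_div_le
    have h5 : (k : ℝ) ≤ J := by exact_mod_cast hJk
    push_cast
    have h6 : (k : ℝ) * ((J : ℝ) / k) = J := by field_simp
    nlinarith
  have htot2 : 2 * (Real.log k / 3) ≤ HM (J / k + 1) J := by linarith
  rcases le_or_gt (Real.log k / 3) (LE h (J / k + 1) J) with hcase | hcase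
  · exact key h g hh hg J hJ hcase
  · have h1 : Real.log k / 3 ≤ LE g (J / k + 1) J := by linarith
    have h2 := key g h hg hh J hJ h1
    rw [mul_comm (Env h k lam (ρ * J)), mul_comm (Env h k lam J)]
    exact h2

end Pool.Agent.N907.EG
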