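import Mathlib

/-!
Project EG (helper907): unconditional proof that the number of iterations of the totient has
normal order `α log n` (question of Erdős, Granville, Pomerance and Spiro).
Definitions and the statements of the independent parts, as propositions.
-/

set_option autoImplicit false

open Finset

namespace Pool.Agent.N907.EG

/-- primes in `(2^(J-1), 2^J]` -/
def blk (J : ℕ) : Finset ℕ := (Finset.Ioc (2 ^ (J - 1)) (2 ^ J)).filter Nat.Prime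

/-- the cut-off exponent `⌈J^(7/8)⌉` -/
noncomputable def iJ (J : ℕ) : ℕ := ⌈(J : ℝ) ^ (7 / 8 : ℝ)⌉₊

/-- all prime factors of `D` exceed `2^i` -/
def Rough (i D : ℕ) : Prop := ∀ q : ℕ, q.Prime → q ∣ D → 2 ^ i < q

/-- logarithm of the part of `n` not carried by simple prime factors exceeding `2^i` -/
noncomputable def Bsm (i n : ℕ) : ℝ :=
  ∑ q ∈ n.primeFactors, (n.factorization q : ℝ) * Real.log q -
    ∑ q ∈ n.primeFactors with 2 ^ i < q, Real.log q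

open Classical in
/-- (T1) type II upper bound sieve with arbitrary bounded coefficients -/
def S_TypeII : Prop :=
  ∃ C : ℝ, 0 < C ∧ ∃ B J1 : ℕ, ∀ J : ℕ, J1 ≤ J → ∀ i : ℕ, i < J → J ^ B ≤ 2 ^ (J - i) →
    ∀ α : ℕ → ℝ, (∀ D, 0 ≤ α D) → (∀ D, α D ≤ 1) → (∀ D, α D ≠ 0 → Rough (iJ J) D) →
      ∑ D ∈ Finset.Ioc (2 ^ i) (2 ^ (i + 1)), α D *
          (((Finset.Icc 1 (2 ^ (J - i))).filter
            (fun m => (D * m + 1).Prime ∧ 2 ^ (J - 1) < D * m + 1)).card : ℝ) ≤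
        C * ((2 : ℝ) ^ (J - i) / J) * ∑ D ∈ Finset.Ioc (2 ^ i) (2 ^ (i + 1)), α D +
          (2 : ℝ) ^ J / (J : ℝ) ^ 4

open Classical in
/-- (T2) few primes `p = Dm+1` with `m` tiny and `D` rough -/
def S_Cof : Prop :=
  ∀ B : ℕ, ∃ C : ℝ, 0 < C ∧ ∃ J1 : ℕ, ∀ J : ℕ, J1 ≤ J →
    ∑ m ∈ Finset.Icc 1 (J ^ B), (((Finset.Icc 2 (2 ^ J)).filter
        (fun D => Rough (iJ J) D ∧ (D * m + 1).Prime ∧ 2 ^ (J - 1) < D * m + 1 ∧
          D * m + 1 ≤ 2 ^ J)).card : ℝ) ≤ C * (2 : ℝ) ^ J / (J : ℝ) ^ (3 / 2 : ℝ)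

/-- (T3) the smooth part of shifted primes -/
def S_Small : Prop :=
  ∃ C : ℝ, 0 < C ∧ ∃ J1 : ℕ, ∀ J : ℕ, J1 ≤ J →
    ∑ p ∈ blk J, Bsm (iJ J) (p - 1) ≤ C * (2 : ℝ) ^ J * (iJ J) / J

/-- (T5) mean values of strongly multiplicative functions -/
def S_MV : Prop :=
  ∀ F0 : ℝ, 1 ≤ F0 → ∃ C : ℝ, 0 < C ∧ ∀ g : ℕ → ℝ, (∀ q, 0 ≤ g q) → (∀ q, g q ≤ F0) →
    ∀ Y : ℕ, 1 ≤ Y →
      ∑ m ∈ Finset.Icc 1 Y, ∏ q ∈ m.primeFactors, g q ≤
        C * Y * Real.exp (∑ q ∈ (Finset.Icc 1 Y).filter Nat.Prime, (g q - 1) / q)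

/-- (T10a) the completely additive function behind the totient iteration -/
def S_Tot : Prop :=
  ∃ F : ℕ → ℝ, F 1 = 0 ∧ (∀ m n : ℕ, 1 ≤ m → 1 ≤ n → F (m * n) = F m + F n) ∧
    (∀ p : ℕ, p.Prime → 3 ≤ p → F p = F (p - 1)) ∧
    (∀ n : ℕ, 1 ≤ n → Real.log n / 2 ≤ F n ∧ F n ≤ 2 * Real.log n) ∧
    (∀ n : ℕ, 2 ≤ n → F n ≤ ((sInf {k : ℕ | Nat.totient^[k] n = 1} : ℕ) : ℝ) ∧
      ((sInf {k : ℕ | Nat.totient^[k] n = 1} : ℕ) : ℝ) ≤ F n + 1)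

open Classical in
/-- (T10b) from primes to integers -/
def S_Int : Prop :=
  ∀ F : ℕ → ℝ, F 1 = 0 → (∀ m n : ℕ, 1 ≤ m → 1 ≤ n → F (m * n) = F m + F n) →
    (∀ n : ℕ, 1 ≤ n → 0 ≤ F n ∧ F n ≤ 2 * Real.log n) → ∀ α : ℝ,
    Filter.Tendsto (fun J : ℕ => ((J : ℝ) / 2 ^ J) * ∑ p ∈ blk J, |F p / Real.log p - α|)
      Filter.atTop (nhds 0) →
    ∀ ε : ℝ, 0 < ε → Filter.Tendsto (fun N : ℕ =>
      (((Finset.range N).filter (fun n : ℕ => ε * Real.log n < |F n - α * Real.log n|)).card : ℝ) / N)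
      Filter.atTop (nhds 0)

/-! ### parts of (T1) -/

/-- (T1a) Selberg weights `ν` (coefficients of the square), all small primes -/
def S_Nu : Prop :=
  ∀ R : ℕ, 2 ≤ R → ∃ ν : ℕ → ℝ,
    (∀ e, ν e ≠ 0 → e ∣ primorial R ∧ e ≤ R ^ 2) ∧
    (∀ e, |ν e| ≤ ((Nat.divisors e).card : ℝ) ^ 2) ∧
    (∀ n : ℕ, 0 ≤ ∑ e ∈ (Nat.divisors (primorial R)).filter (fun e => e ∣ n), ν e) ∧
    (∀ n : ℕ, n.Prime → R < n →
      ∑ e ∈ (Nat.divisors (primorial R)).filter (fun e => e ∣ n), ν e = 1) ∧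
    ∑ e ∈ Nat.divisors (primorial R), ν e / e ≤ 1 / Real.log R

/-- deviation of the number of `m ≤ M` with `e ∣ Dm+1` -/
noncomputable def bb (M e D : ℕ) : ℝ :=
  (((Finset.Icc 1 M).filter (fun m => e ∣ D * m + 1)).card : ℝ) -
    if Nat.Coprime D e then (M : ℝ) / e else 0

/-- (T1b) covariance bound -/
def S_Cov : Prop :=
  ∀ e e' Y M : ℕ, Squarefree e → Squarefree e' →
    |∑ D ∈ Finset.Ioc Y (2 * Y), bb M e D * bb M e' D| ≤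
      4 * (Nat.divisors e).card * (Nat.divisors e').card *
        ((Y : ℝ) * M / (Nat.lcm e e' : ℝ) + (M : ℝ) ^ 2)

/-! ### admissible functions, block moments, domination -/

/-- functions on primes satisfying the recursion inequality of the totient iteration -/
structure Adm (h : ℕ → ℝ) : Prop where
  nonneg : ∀ n, 0 ≤ h n
  le_two : ∀ n, h n ≤ 2
  recur : ∀ p : ℕ, p.Prime → 3 ≤ p → h p * Real.log p ≤
    ∑ q ∈ (p - 1).primeFactors, ((p - 1).factorization q : ℝ) * Real.log q * h q + 4 / p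

/-- normalised `k`-th moment over the block `J` -/
noncomputable def NN (h : ℕ → ℝ) (k J : ℕ) : ℝ := ((J : ℝ) / 2 ^ J) * ∑ p ∈ blk J, h p ^ k

/-- the additive function on integers up to `2^J` -/
noncomputable def WW (h : ℕ → ℝ) (J n : ℕ) : ℝ :=
  ∑ q ∈ n.primeFactors with 2 ^ (iJ J) < q ∧ q ≤ 2 ^ (J - 1),
    (Real.log q / (J * Real.log 2)) * h q

/-- (T4) domination of the moments of shifted primes by those of integers; the constant `C`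
does not depend on `k` -/
def S_Dom : Prop :=
  ∃ C : ℝ, 0 < C ∧ ∀ k : ℕ, 1 ≤ k → ∃ C' : ℝ, 0 < C' ∧ ∃ J1 : ℕ, ∀ h : ℕ → ℝ, Adm h →
    ∀ J : ℕ, J1 ≤ J →
      NN h k J ≤ C * ((1 / (2 : ℝ) ^ J) * ∑ n ∈ Finset.Icc 1 (2 ^ J), (WW h J n) ^ k) +
        C' * (J : ℝ) ^ (-(1 / 8) : ℝ)

/-- weights in the inequality of Hölder -/
noncomputable def ell (lam θ : ℝ) (k J j : ℕ) : ℝ :=
  max 1 (((J : ℝ) / (θ * j)) ^ (lam / k))

open Classical in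
/-- harmonic measure of the primes in `(2^a, 2^b]` at which `h` vanishes -/
noncomputable def LE (h : ℕ → ℝ) (a b : ℕ) : ℝ :=
  ∑ q ∈ (Finset.Ioc (2 ^ a) (2 ^ b)).filter (fun q => q.Prime ∧ h q = 0), (1 : ℝ) / q

/-- (T6) the recursion inequality for block moments -/
def S_RI : Prop :=
  ∀ A0 : ℝ, 1 ≤ A0 → ∃ C : ℝ, 0 < C ∧ ∀ k : ℕ, 2 ≤ k → ∃ C' : ℝ, 0 < C' ∧ ∃ J1 : ℕ,
    ∀ lam θ : ℝ, 1 ≤ θ → 0 < lam → lam ≤ A0 * θ → 2 * lam ≤ k → ∀ h : ℕ → ℝ, Adm h →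
    ∀ J : ℕ, J1 ≤ J →
      NN h k J ≤ C * (1 / (J : ℝ)) * ∑ j ∈ Finset.Ico 1 J,
        ((ell lam θ k J j)⁻¹) ^ (k - 1) * NN h k j *
          Real.exp (-(39 / 100) * LE h (J / k + 1) (J - j)) + C' * (J : ℝ) ^ (-(1 / 8) : ℝ)

open Classical in
/-- (T9) conclusion for primes -/
def S_Primes : Prop :=
  ∀ F : ℕ → ℝ, F 1 = 0 → (∀ m n : ℕ, 1 ≤ m → 1 ≤ n → F (m * n) = F m + F n) →
    (∀ p : ℕ, p.Prime → 3 ≤ p → F p = F (p - 1)) →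
    (∀ n : ℕ, 1 ≤ n → 0 ≤ F n ∧ F n ≤ 2 * Real.log n) →
    ∃ α : ℝ, Filter.Tendsto
      (fun J : ℕ => ((J : ℝ) / 2 ^ J) * ∑ p ∈ blk J, |F p / Real.log p - α|)
      Filter.atTop (nhds 0)

end Pool.Agent.N907.EG
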