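import Pool.Agent.N907.EG.Def

/-!
Project EG, part T4: domination of the block moments of shifted primes by moments on integers.
-/

set_option autoImplicit false

open Finset

namespace Pool.Agent.N907.EG

namespace Dom

lemma mem_blk {J p : ℕ} : p ∈ blk J ↔ (2 ^ (J - 1) < p ∧ p ≤ 2 ^ J) ∧ p.Prime := by
  simp [blk, Finset.mem_filter, Finset.mem_Ioc]

/-! ### elementary inequalities -/

lemma one_add_pow_le_three {k : ℕ} (hk : 1 ≤ k) : (1 + 1 / (k : ℝ)) ^ k ≤ 3 := by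
  have hk0 : (0 : ℝ) < k := by exact_mod_cast hk
  have h1 : (1 + 1 / (k : ℝ)) ≤ Real.exp (1 / k) := by
    have := Real.add_one_le_exp (1 / (k : ℝ))
    linarith
  have h2 : (1 + 1 / (k : ℝ)) ^ k ≤ (Real.exp (1 / k)) ^ k :=
    pow_le_pow_left₀ (by positivity) h1 k
  rw [← Real.exp_nat_mul, mul_one_div_cancel hk0.ne'] at h2
  have h3 := Real.exp_one_lt_d9
  linarith

/-- the constant in front of `a ^ k` is absolute -/
lemma add_pow_le {k : ℕ} (hk : 1 ≤ k) {a b : ℝ} (ha : 0 ≤ a) (hb : 0 ≤ b) :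
    (a + b) ^ k ≤ 3 * a ^ k + ((k : ℝ) + 1) ^ k * b ^ k := by
  have hk0 : (0 : ℝ) < k := by exact_mod_cast hk
  rcases le_total b (a / k) with h | h
  · have h1 : a + b ≤ (1 + 1 / (k : ℝ)) * a := by
      have : (1 + 1 / (k : ℝ)) * a = a + a / k := by ring
      rw [this]; linarith
    have h2 : (a + b) ^ k ≤ ((1 + 1 / (k : ℝ)) * a) ^ k :=
      pow_le_pow_left₀ (by positivity) h1 k
    rw [mul_pow] at h2
    have h3 := mul_le_mul_of_nonneg_right (one_add_pow_le_three hk) (pow_nonneg ha k)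
    have h4 : 0 ≤ ((k : ℝ) + 1) ^ k * b ^ k := by positivity
    linarith
  · have h1 : a + b ≤ ((k : ℝ) + 1) * b := by
      have : a ≤ k * b := by
        rw [div_le_iff₀ hk0] at h
        linarith
      linarith
    have h2 : (a + b) ^ k ≤ (((k : ℝ) + 1) * b) ^ k :=
      pow_le_pow_left₀ (by positivity) h1 k
    rw [mul_pow] at h2
    have h4 : 0 ≤ 3 * a ^ k := by positivity
    linarith

lemma ratio_pow_le_two {k J : ℕ} (hJ : 2 * k + 2 ≤ J) :
    ((J : ℝ) / ((J : ℝ) - 1)) ^ k ≤ 2 := by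
  have hJ' : (2 * (k : ℝ) + 2) ≤ J := by exact_mod_cast hJ
  have hk0 : (0 : ℝ) ≤ k := Nat.cast_nonneg k
  have h0 : (0 : ℝ) < (J : ℝ) - 1 := by linarith
  have h1 : (J : ℝ) / ((J : ℝ) - 1) ≤ Real.exp (1 / ((J : ℝ) - 1)) := by
    have h2 := Real.add_one_le_exp (1 / ((J : ℝ) - 1))
    have h3 : (J : ℝ) / ((J : ℝ) - 1) = 1 / ((J : ℝ) - 1) + 1 := by
      field_simp
      ring
    rw [h3]; exact h2
  have h2 : ((J : ℝ) / ((J : ℝ) - 1)) ^ k ≤ (Real.exp (1 / ((J : ℝ) - 1))) ^ k :=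
    pow_le_pow_left₀ (by positivity) h1 k
  rw [← Real.exp_nat_mul] at h2
  have h3 : (k : ℝ) * (1 / ((J : ℝ) - 1)) ≤ 1 / 2 := by
    rw [mul_one_div, div_le_div_iff₀ h0 (by norm_num)]
    linarith
  have h4 : Real.exp ((k : ℝ) * (1 / ((J : ℝ) - 1))) ≤ Real.exp (1 / 2) := Real.exp_le_exp.mpr h3
  have h5 : Real.exp (1 / 2) ≤ 2 := by
    have h6 : Real.exp (1 / 2) ^ 2 ≤ 2 ^ 2 := by
      rw [← Real.exp_nat_mul]
      have := Real.exp_one_lt_d9
      norm_num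
      linarith
    exact le_of_sq_le_sq h6 (by norm_num)
  linarith
where
  le_of_sq_le_sq {x y : ℝ} (h : x ^ 2 ≤ y ^ 2) (hy : 0 ≤ y) : x ≤ y := by
    exact (abs_le_of_sq_le_sq' h hy).2

/-! ### logarithms -/

lemma sum_log_le {n : ℕ} (hn : n ≠ 0) {S : Finset ℕ} (hS : S ⊆ n.primeFactors) :
    ∑ q ∈ S, Real.log q ≤ Real.log n := by
  have h1 : ∑ q ∈ S, Real.log (q : ℝ) = Real.log (((∏ q ∈ S, q : ℕ) : ℝ)) := by
    rw [Nat.cast_prod, Real.log_prod]
    intro q hq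
    have := Nat.prime_of_mem_primeFactors (hS hq)
    exact_mod_cast this.ne_zero
  rw [h1]
  have h2 : (∏ q ∈ S, q) ∣ n :=
    (Finset.prod_dvd_prod_of_subset _ _ _ hS).trans (Nat.prod_primeFactors_dvd n)
  have h3 : (∏ q ∈ S, q) ≤ n := Nat.le_of_dvd (Nat.pos_of_ne_zero hn) h2
  have h4 : 0 < ∏ q ∈ S, q := Nat.pos_of_dvd_of_pos h2 (Nat.pos_of_ne_zero hn)
  exact Real.log_le_log (by exact_mod_cast h4) (by exact_mod_cast h3)

lemma Bsm_eq (i n : ℕ) : Bsm i n =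
    ∑ q ∈ n.primeFactors, ((n.factorization q : ℝ) - if 2 ^ i < q then 1 else 0) * Real.log q := by
  unfold Bsm
  rw [Finset.sum_filter, ← Finset.sum_sub_distrib]
  apply Finset.sum_congr rfl
  intro q _
  split_ifs <;> ring

lemma one_le_fact {n q : ℕ} (hq : q ∈ n.primeFactors) : (1 : ℝ) ≤ n.factorization q := by
  have h1 := Nat.mem_primeFactors.mp hq
  have := (Nat.Prime.dvd_iff_one_le_factorization h1.1 h1.2.2).mp h1.2.1
  exact_mod_cast this

lemma coef_nonneg {i n q : ℕ} (hq : q ∈ n.primeFactors) :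
    0 ≤ ((n.factorization q : ℝ) - if 2 ^ i < q then 1 else 0) := by
  have := one_le_fact hq
  split_ifs <;> linarith

lemma Bsm_nonneg (i n : ℕ) : 0 ≤ Bsm i n := by
  rw [Bsm_eq]
  apply Finset.sum_nonneg
  intro q hq
  exact mul_nonneg (coef_nonneg hq) (Real.log_natCast_nonneg q)

lemma log_eq {n : ℕ} (hn : n ≠ 0) :
    Real.log n = ∑ q ∈ n.primeFactors, (n.factorization q : ℝ) * Real.log q := by
  conv_lhs => rw [← Nat.prod_factorization_pow_eq_self hn]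
  rw [Finsupp.prod, Nat.cast_prod, Real.log_prod]
  · rw [Nat.support_factorization]
    apply Finset.sum_congr rfl
    intro q _
    rw [Nat.cast_pow, Real.log_pow]
  · intro q hq
    rw [Nat.support_factorization] at hq
    have := Nat.prime_of_mem_primeFactors hq
    exact_mod_cast (pow_pos this.pos _).ne'

lemma Bsm_le (i : ℕ) {n : ℕ} (hn : n ≠ 0) : Bsm i n ≤ Real.log n := by
  rw [log_eq hn]
  unfold Bsm
  have : 0 ≤ ∑ q ∈ n.primeFactors with 2 ^ i < q, Real.log (q : ℝ) :=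
    Finset.sum_nonneg fun q _ => Real.log_natCast_nonneg q
  linarith

/-! ### the weights -/

/-- the primes used -/
noncomputable def PP (J : ℕ) : Finset ℕ := (Finset.Ioc (2 ^ iJ J) (2 ^ (J - 1))).filter Nat.Prime

/-- the weights -/
noncomputable def wt (h : ℕ → ℝ) (J q : ℕ) : ℝ := (Real.log q / (J * Real.log 2)) * h q

lemma mem_PP {J q : ℕ} : q ∈ PP J ↔ (2 ^ iJ J < q ∧ q ≤ 2 ^ (J - 1)) ∧ q.Prime := by
  simp [PP, Finset.mem_filter, Finset.mem_Ioc]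

lemma wt_nonneg {h : ℕ → ℝ} (h0 : ∀ n, 0 ≤ h n) (J q : ℕ) : 0 ≤ wt h J q := by
  unfold wt
  have := Real.log_natCast_nonneg q
  have := h0 q
  have : 0 < Real.log 2 := Real.log_pos (by norm_num)
  positivity

lemma WW_eq (h : ℕ → ℝ) (J : ℕ) {n : ℕ} (hn : n ≠ 0) :
    WW h J n = ∑ q ∈ PP J, if q ∣ n then wt h J q else 0 := by
  rw [← Finset.sum_filter]
  unfold WW wt
  apply Finset.sum_congr _ (fun _ _ => rfl)
  ext q
  simp only [Finset.mem_filter, mem_PP, Nat.mem_primeFactors]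
  tauto

lemma WW_nonneg {h : ℕ → ℝ} (h0 : ∀ n, 0 ≤ h n) (J n : ℕ) : 0 ≤ WW h J n := by
  unfold WW
  exact Finset.sum_nonneg fun q _ => wt_nonneg h0 J q

lemma WW_le_two {h : ℕ → ℝ} (h2 : ∀ n, h n ≤ 2) {J n : ℕ} (hJ : 1 ≤ J)
    (hn : n ≠ 0) (hn' : n ≤ 2 ^ J) : WW h J n ≤ 2 := by
  have hl2 : 0 < Real.log 2 := Real.log_pos (by norm_num)
  have hJ0 : (0 : ℝ) < J := by exact_mod_cast hJ
  have hL : 0 < (J : ℝ) * Real.log 2 := by positivity
  have h3 : WW h J n ≤ ∑ q ∈ n.primeFactors with 2 ^ (iJ J) < q ∧ q ≤ 2 ^ (J - 1),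
      (Real.log q / (J * Real.log 2)) * 2 := by
    unfold WW
    apply Finset.sum_le_sum
    intro q _
    apply mul_le_mul_of_nonneg_left (h2 q)
    have := Real.log_natCast_nonneg q
    positivity
  have h4 : ∑ q ∈ n.primeFactors with 2 ^ (iJ J) < q ∧ q ≤ 2 ^ (J - 1),
      (Real.log q / (J * Real.log 2)) * 2 = 2 / (J * Real.log 2) *
      ∑ q ∈ n.primeFactors with 2 ^ (iJ J) < q ∧ q ≤ 2 ^ (J - 1), Real.log q := by
    rw [Finset.mul_sum]
    apply Finset.sum_congr rfl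
    intro q _
    ring
  have h5 := sum_log_le hn (Finset.filter_subset
    (fun q => 2 ^ (iJ J) < q ∧ q ≤ 2 ^ (J - 1)) n.primeFactors)
  have h6 : Real.log n ≤ J * Real.log 2 := by
    rw [← Real.log_pow]
    apply Real.log_le_log
    · exact_mod_cast Nat.pos_of_ne_zero hn
    · exact_mod_cast hn'
  have h7 : 2 / (J * Real.log 2) *
      ∑ q ∈ n.primeFactors with 2 ^ (iJ J) < q ∧ q ≤ 2 ^ (J - 1), Real.log q ≤
      2 / (J * Real.log 2) * (J * Real.log 2) :=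
    mul_le_mul_of_nonneg_left (h5.trans h6) (by positivity)
  have h8 : 2 / (J * Real.log 2) * (J * Real.log 2) = 2 := by
    field_simp
  linarith

/-! ### step A -/

lemma prime_factor_le {J p q : ℕ} (hJ : 3 ≤ J) (hp : p ∈ blk J) (hq : q ∈ (p - 1).primeFactors) :
    q ≤ 2 ^ (J - 1) := by
  obtain ⟨⟨h1, h2⟩, h3⟩ := mem_blk.mp hp
  obtain ⟨hqp, hqd, hne⟩ := Nat.mem_primeFactors.mp hq
  have h8 : 2 ^ 2 ≤ 2 ^ (J - 1) := Nat.pow_le_pow_right (by norm_num) (by omega)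
  have hp5 : 5 ≤ p := by omega
  obtain ⟨c, hc⟩ := hqd
  have hc0 : c ≠ 0 := by
    rintro rfl
    omega
  have hc1 : c ≠ 1 := by
    rintro rfl
    rw [mul_one] at hc
    have hodd : p % 2 = 1 := (Nat.Prime.eq_two_or_odd h3).resolve_left (by omega)
    have hq2 : q % 2 = 0 := by omega
    have : q = 2 := (Nat.Prime.eq_two_or_odd hqp).resolve_right (by omega)
    omega
  have hc2 : 2 ≤ c := by omega
  have h5 : q * 2 ≤ q * c := Nat.mul_le_mul_left q hc2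
  have h6 : 2 ^ J = 2 * 2 ^ (J - 1) := by
    rw [← pow_succ']
    congr 1
    omega
  omega

lemma recur_le {h : ℕ → ℝ} (hh : Adm h) {J p : ℕ} (hJ : 3 ≤ J) (hp : p ∈ blk J) :
    h p * Real.log p ≤ J * Real.log 2 * WW h J (p - 1) + 2 * Bsm (iJ J) (p - 1) + 4 / p := by
  obtain ⟨⟨h1, h2⟩, h3⟩ := mem_blk.mp hp
  have h8 : 2 ^ 2 ≤ 2 ^ (J - 1) := Nat.pow_le_pow_right (by norm_num) (by omega)
  have hp5 : 5 ≤ p := by omega
  have hl2 : 0 < Real.log 2 := Real.log_pos (by norm_num)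
  have hJ0 : (0 : ℝ) < J := by exact_mod_cast (by omega : 0 < J)
  have hr := hh.recur p h3 (by omega)
  have hW : J * Real.log 2 * WW h J (p - 1) =
      ∑ q ∈ (p - 1).primeFactors, (if 2 ^ (iJ J) < q then 1 else 0) * Real.log q * h q := by
    unfold WW
    have e1 : ((p - 1).primeFactors.filter (fun q => 2 ^ (iJ J) < q ∧ q ≤ 2 ^ (J - 1))) =
        (p - 1).primeFactors.filter (fun q => 2 ^ (iJ J) < q) := by
      apply Finset.filter_congr
      intro q hq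
      simp [prime_factor_le hJ hp hq]
    rw [e1, Finset.mul_sum, Finset.sum_filter]
    apply Finset.sum_congr rfl
    intro q _
    split_ifs
    · field_simp
    · ring
  have hB : ∑ q ∈ (p - 1).primeFactors, ((p - 1).factorization q : ℝ) * Real.log q * h q ≤
      J * Real.log 2 * WW h J (p - 1) + 2 * Bsm (iJ J) (p - 1) := by
    rw [hW, Bsm_eq, Finset.mul_sum, ← Finset.sum_add_distrib]
    apply Finset.sum_le_sum
    intro q hq
    have e2 := coef_nonneg (i := iJ J) hq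
    have e3 := Real.log_natCast_nonneg q
    have e4 := hh.le_two q
    have e5 := mul_le_mul_of_nonneg_left e4 (mul_nonneg e2 e3)
    have e6 : ((p - 1).factorization q : ℝ) * Real.log q * h q =
      (if 2 ^ (iJ J) < q then 1 else 0) * Real.log q * h q +
      (((p - 1).factorization q : ℝ) - if 2 ^ (iJ J) < q then 1 else 0) * Real.log q * h q := by
      ring
    rw [e6]
    linarith
  linarith

/-- the error term -/
noncomputable def bt (J p : ℕ) : ℝ :=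
  (2 * Bsm (iJ J) (p - 1) + 4 / p) / (J * Real.log 2)

lemma bt_nonneg (J p : ℕ) : 0 ≤ bt J p := by
  unfold bt
  have := Bsm_nonneg (iJ J) (p - 1)
  have hl2 : 0 < Real.log 2 := Real.log_pos (by norm_num)
  positivity

lemma bt_le {J p : ℕ} (hJ : 3 ≤ J) (hp : p ∈ blk J) : bt J p ≤ 3 := by
  obtain ⟨⟨h1, h2⟩, h3⟩ := mem_blk.mp hp
  have h8 : 2 ^ 2 ≤ 2 ^ (J - 1) := Nat.pow_le_pow_right (by norm_num) (by omega)
  have hp5 : 5 ≤ p := by omega
  have hl2 : 0.69 < Real.log 2 := by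
    have := Real.log_two_gt_d9
    linarith
  have hJ0 : (3 : ℝ) ≤ J := by exact_mod_cast hJ
  have hL : 1 ≤ (J : ℝ) * Real.log 2 := by nlinarith
  have hB := Bsm_le (iJ J) (n := p - 1) (by omega)
  have h6 : Real.log ((p - 1 : ℕ) : ℝ) ≤ J * Real.log 2 := by
    rw [← Real.log_pow]
    apply Real.log_le_log
    · exact_mod_cast (by omega : 0 < p - 1)
    · exact_mod_cast (by omega : p - 1 ≤ 2 ^ J)
  have h7 : (4 : ℝ) / p ≤ 1 := by
    rw [div_le_one (by positivity)]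
    exact_mod_cast (by omega : 4 ≤ p)
  unfold bt
  rw [div_le_iff₀ (by linarith)]
  linarith

lemma pow_le_A {h : ℕ → ℝ} (hh : Adm h) {k J p : ℕ} (hk : 1 ≤ k) (hJ : 3 ≤ J)
    (hJk : 2 * k + 2 ≤ J) (hp : p ∈ blk J) :
    h p ^ k ≤ 6 * WW h J (p - 1) ^ k + 2 * (((k : ℝ) + 1) ^ k * 3 ^ (k - 1)) * bt J p := by
  obtain ⟨⟨h1, h2⟩, h3⟩ := mem_blk.mp hp
  have hl2 : 0 < Real.log 2 := Real.log_pos (by norm_num)
  have hJ0 : (3 : ℝ) ≤ J := by exact_mod_cast hJ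
  have hL : 0 < (J : ℝ) * Real.log 2 := by positivity
  have hlogp : ((J : ℝ) - 1) * Real.log 2 ≤ Real.log p := by
    have e1 : ((J : ℝ) - 1) = ((J - 1 : ℕ) : ℝ) := by
      rw [Nat.cast_sub (by omega)]
      simp
    rw [e1, ← Real.log_pow]
    apply Real.log_le_log (by positivity)
    exact_mod_cast h1.le
  have hJ1 : 0 < (J : ℝ) - 1 := by linarith
  have hlp : 0 < Real.log p := lt_of_lt_of_le (by positivity) hlogp
  have hW0 := WW_nonneg hh.nonneg J (p - 1)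
  have hb0 := bt_nonneg J p
  have key : h p ≤ (J / ((J : ℝ) - 1)) * (WW h J (p - 1) + bt J p) := by
    have e1 := recur_le hh hJ hp
    have e2 : J * Real.log 2 * WW h J (p - 1) + 2 * Bsm (iJ J) (p - 1) + 4 / p =
        (J * Real.log 2) * (WW h J (p - 1) + bt J p) := by
      unfold bt
      field_simp
      ring
    rw [e2] at e1
    have e3 : h p ≤ (J * Real.log 2) * (WW h J (p - 1) + bt J p) / Real.log p := by
      rw [le_div_iff₀ hlp]
      exact e1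
    have e4 : (J * Real.log 2) * (WW h J (p - 1) + bt J p) / Real.log p ≤
        (J * Real.log 2) * (WW h J (p - 1) + bt J p) / (((J : ℝ) - 1) * Real.log 2) := by
      apply div_le_div_of_nonneg_left _ (by positivity) hlogp
      positivity
    have e5 : (J * Real.log 2) * (WW h J (p - 1) + bt J p) / (((J : ℝ) - 1) * Real.log 2) =
        (J / ((J : ℝ) - 1)) * (WW h J (p - 1) + bt J p) := by
      field_simp
    linarith
  have s1 : h p ^ k ≤ ((J / ((J : ℝ) - 1)) * (WW h J (p - 1) + bt J p)) ^ k :=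
    pow_le_pow_left₀ (hh.nonneg p) key k
  rw [mul_pow] at s1
  have s2 := ratio_pow_le_two hJk
  have s3 := add_pow_le hk hW0 hb0
  have s4 : 0 ≤ (WW h J (p - 1) + bt J p) ^ k := by positivity
  have s5 := mul_le_mul_of_nonneg_right s2 s4
  have s6 : bt J p ^ k ≤ 3 ^ (k - 1) * bt J p := by
    obtain ⟨j, rfl⟩ : ∃ j, k = j + 1 := ⟨k - 1, by omega⟩
    rw [pow_succ, Nat.add_sub_cancel]
    exact mul_le_mul_of_nonneg_right (pow_le_pow_left₀ hb0 (bt_le hJ hp) j) hb0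
  have s7 : ((k : ℝ) + 1) ^ k * bt J p ^ k ≤ ((k : ℝ) + 1) ^ k * (3 ^ (k - 1) * bt J p) :=
    mul_le_mul_of_nonneg_left s6 (by positivity)
  linarith

/-! ### powers of `J` -/

lemma iJ_div_le {J : ℕ} (hJ : 1 ≤ J) : (iJ J : ℝ) / J ≤ 2 * (J : ℝ) ^ (-(1 / 8) : ℝ) := by
  have hJ1 : (1 : ℝ) ≤ J := by exact_mod_cast hJ
  have hJ0 : (0 : ℝ) < J := by linarith
  have h1 : (iJ J : ℝ) ≤ (J : ℝ) ^ (7 / 8 : ℝ) + 1 := (Nat.ceil_lt_add_one (by positivity)).le
  have h2 : (1 : ℝ) ≤ (J : ℝ) ^ (7 / 8 : ℝ) := Real.one_le_rpow hJ1 (by norm_num)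
  have h3 : (J : ℝ) ^ (-(1 / 8) : ℝ) = (J : ℝ) ^ (7 / 8 : ℝ) / J := by
    rw [show (-(1 / 8) : ℝ) = 7 / 8 - 1 by norm_num, Real.rpow_sub hJ0, Real.rpow_one]
  rw [h3, ← mul_div_assoc]
  apply div_le_div_of_nonneg_right _ hJ0.le
  linarith

lemma inv_le_rpow {J : ℕ} (hJ : 1 ≤ J) : 1 / (J : ℝ) ≤ (J : ℝ) ^ (-(1 / 8) : ℝ) := by
  have hJ1 : (1 : ℝ) ≤ J := by exact_mod_cast hJ
  have : 1 / (J : ℝ) = (J : ℝ) ^ (-1 : ℝ) := by
    rw [Real.rpow_neg_one, one_div]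
  rw [this]
  exact Real.rpow_le_rpow_of_exponent_le hJ1 (by norm_num)

lemma two_pow_inv_le {J : ℕ} (hJ : 1 ≤ J) : 1 / (2 : ℝ) ^ J ≤ (J : ℝ) ^ (-(1 / 8) : ℝ) := by
  have hJ0 : (0 : ℝ) < J := by exact_mod_cast hJ
  have h1 : (J : ℝ) ≤ 2 ^ J := by exact_mod_cast (Nat.lt_two_pow_self (n := J)).le
  exact (one_div_le_one_div_of_le hJ0 h1).trans (inv_le_rpow hJ)

/-! ### step A, summed -/

lemma sum_inv_le {J : ℕ} (hJ : 1 ≤ J) : ∑ p ∈ blk J, (1 : ℝ) / p ≤ 1 := by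
  have h1 : ∑ p ∈ blk J, (1 : ℝ) / p ≤ ∑ _p ∈ blk J, 1 / (2 : ℝ) ^ (J - 1) := by
    apply Finset.sum_le_sum
    intro p hp
    obtain ⟨⟨h1, h2⟩, h3⟩ := mem_blk.mp hp
    apply one_div_le_one_div_of_le (by positivity)
    exact_mod_cast h1.le
  have h2 : ((blk J).card : ℝ) ≤ 2 ^ (J - 1) := by
    have h3 : (blk J).card ≤ (Finset.Ioc (2 ^ (J - 1)) (2 ^ J)).card :=
      Finset.card_le_card (Finset.filter_subset _ _)
    rw [Nat.card_Ioc] at h3
    have h6 : 2 ^ J = 2 * 2 ^ (J - 1) := by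
      rw [← pow_succ']
      congr 1
      omega
    have h7 : (blk J).card ≤ 2 ^ (J - 1) := by omega
    exact_mod_cast h7
  rw [Finset.sum_const, nsmul_eq_mul] at h1
  have h3 : ((blk J).card : ℝ) * (1 / (2 : ℝ) ^ (J - 1)) ≤
      2 ^ (J - 1) * (1 / (2 : ℝ) ^ (J - 1)) :=
    mul_le_mul_of_nonneg_right h2 (by positivity)
  have h4 : (2 : ℝ) ^ (J - 1) * (1 / (2 : ℝ) ^ (J - 1)) = 1 := by
    field_simp
  linarith

lemma sum_bt_le {C : ℝ} (hC : 0 < C) {J : ℕ} (hJ : 1 ≤ J)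
    (h3 : ∑ p ∈ blk J, Bsm (iJ J) (p - 1) ≤ C * (2 : ℝ) ^ J * (iJ J) / J) :
    ((J : ℝ) / 2 ^ J) * ∑ p ∈ blk J, bt J p ≤ (8 * C + 8) * (J : ℝ) ^ (-(1 / 8) : ℝ) := by
  have hJ0 : (0 : ℝ) < J := by exact_mod_cast hJ
  have hl2 : 0.69 < Real.log 2 := by
    have := Real.log_two_gt_d9
    linarith
  have e1 : ∑ p ∈ blk J, bt J p = (2 / (J * Real.log 2)) * ∑ p ∈ blk J, Bsm (iJ J) (p - 1) +
      (4 / (J * Real.log 2)) * ∑ p ∈ blk J, (1 : ℝ) / p := by
    rw [Finset.mul_sum, Finset.mul_sum, ← Finset.sum_add_distrib]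
    apply Finset.sum_congr rfl
    intro p _
    unfold bt
    field_simp
  have e2 : (2 / (J * Real.log 2)) * ∑ p ∈ blk J, Bsm (iJ J) (p - 1) ≤
      (2 / (J * Real.log 2)) * (C * (2 : ℝ) ^ J * (iJ J) / J) :=
    mul_le_mul_of_nonneg_left h3 (by positivity)
  have e3 : (4 / (J * Real.log 2)) * ∑ p ∈ blk J, (1 : ℝ) / p ≤ (4 / (J * Real.log 2)) * 1 :=
    mul_le_mul_of_nonneg_left (sum_inv_le hJ) (by positivity)
  have e4 : ((J : ℝ) / 2 ^ J) * ∑ p ∈ blk J, bt J p ≤ ((J : ℝ) / 2 ^ J) *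
      ((2 / (J * Real.log 2)) * (C * (2 : ℝ) ^ J * (iJ J) / J) + (4 / (J * Real.log 2)) * 1) := by
    apply mul_le_mul_of_nonneg_left _ (by positivity)
    rw [e1]
    linarith
  have e5 : ((J : ℝ) / 2 ^ J) *
      ((2 / (J * Real.log 2)) * (C * (2 : ℝ) ^ J * (iJ J) / J) + (4 / (J * Real.log 2)) * 1) =
      (2 * C / Real.log 2) * ((iJ J : ℝ) / J) + (4 / Real.log 2) * (1 / 2 ^ J) := by
    field_simp
  have e6 : (2 * C / Real.log 2) * ((iJ J : ℝ) / J) ≤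
      (4 * C) * (2 * (J : ℝ) ^ (-(1 / 8) : ℝ)) := by
    apply mul_le_mul _ (iJ_div_le hJ) (by positivity) (by positivity)
    rw [div_le_iff₀ (by linarith)]
    nlinarith
  have e7 : (4 / Real.log 2) * (1 / (2 : ℝ) ^ J) ≤ 8 * (J : ℝ) ^ (-(1 / 8) : ℝ) := by
    apply mul_le_mul _ (two_pow_inv_le hJ) (by positivity) (by positivity)
    rw [div_le_iff₀ (by linarith)]
    linarith
  linarith

lemma NN_le {C : ℝ} (hC : 0 < C) {h : ℕ → ℝ} (hh : Adm h) {k J : ℕ} (hk : 1 ≤ k) (hJ : 3 ≤ J)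
    (hJk : 2 * k + 2 ≤ J)
    (h3 : ∑ p ∈ blk J, Bsm (iJ J) (p - 1) ≤ C * (2 : ℝ) ^ J * (iJ J) / J) :
    NN h k J ≤ 6 * (((J : ℝ) / 2 ^ J) * ∑ p ∈ blk J, WW h J (p - 1) ^ k) +
      2 * (((k : ℝ) + 1) ^ k * 3 ^ (k - 1)) * (8 * C + 8) * (J : ℝ) ^ (-(1 / 8) : ℝ) := by
  have e1 : ∑ p ∈ blk J, h p ^ k ≤ ∑ p ∈ blk J,
      (6 * WW h J (p - 1) ^ k + 2 * (((k : ℝ) + 1) ^ k * 3 ^ (k - 1)) * bt J p) :=
    Finset.sum_le_sum fun p hp => pow_le_A hh hk hJ hJk hp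
  rw [Finset.sum_add_distrib, ← Finset.mul_sum, ← Finset.mul_sum] at e1
  have e2 := mul_le_mul_of_nonneg_left e1 (by positivity : 0 ≤ (J : ℝ) / 2 ^ J)
  have e3 := mul_le_mul_of_nonneg_left (sum_bt_le hC (by omega : 1 ≤ J) h3)
    (by positivity : 0 ≤ 2 * (((k : ℝ) + 1) ^ k * 3 ^ (k - 1)))
  unfold NN
  calc ((J : ℝ) / 2 ^ J) * ∑ p ∈ blk J, h p ^ k ≤ _ := e2
    _ = 6 * (((J : ℝ) / 2 ^ J) * ∑ p ∈ blk J, WW h J (p - 1) ^ k) +
        2 * (((k : ℝ) + 1) ^ k * 3 ^ (k - 1)) * (((J : ℝ) / 2 ^ J) * ∑ p ∈ blk J, bt J p) := by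
      ring
    _ ≤ _ := by linarith

/-! ### step B: expansion of the powers -/

/-- maps from `Fin k` to the primes -/
noncomputable def TT (k J : ℕ) : Finset (Fin k → ℕ) := Fintype.piFinset (fun _ : Fin k => PP J)

/-- product of the distinct values -/
def DD {k : ℕ} (t : Fin k → ℕ) : ℕ := ∏ q ∈ Finset.univ.image t, q

/-- the coefficients -/
noncomputable def aa (h : ℕ → ℝ) (k J D : ℕ) : ℝ :=
  ∑ t ∈ (TT k J).filter (fun t => DD t = D), ∏ i, wt h J (t i)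

lemma DD_dvd_iff {k J : ℕ} {t : Fin k → ℕ} (ht : t ∈ TT k J) (n : ℕ) :
    DD t ∣ n ↔ ∀ i, t i ∣ n := by
  unfold TT at ht
  rw [Fintype.mem_piFinset] at ht
  constructor
  · intro h i
    exact (Finset.dvd_prod_of_mem (fun q => q) (Finset.mem_image_of_mem t (Finset.mem_univ i))).trans h
  · intro h
    unfold DD
    apply Finset.prod_primes_dvd
    · intro q hq
      obtain ⟨i, _, rfl⟩ := Finset.mem_image.mp hq
      exact ((mem_PP.mp (ht i)).2).prime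
    · intro q hq
      obtain ⟨i, _, rfl⟩ := Finset.mem_image.mp hq
      exact h i

lemma WW_pow (h : ℕ → ℝ) (k J : ℕ) {n : ℕ} (hn : n ≠ 0) :
    WW h J n ^ k = ∑ t ∈ TT k J, if DD t ∣ n then ∏ i, wt h J (t i) else 0 := by
  rw [WW_eq h J hn]
  have e1 : (∑ q ∈ PP J, if q ∣ n then wt h J q else 0) ^ k =
      ∏ _i : Fin k, ∑ q ∈ PP J, if q ∣ n then wt h J q else 0 := by
    rw [Finset.prod_const, Finset.card_univ, Fintype.card_fin]
  rw [e1, Finset.prod_univ_sum]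
  apply Finset.sum_congr rfl
  intro t ht
  rw [Finset.prod_ite_zero]
  have : (∀ i ∈ (Finset.univ : Finset (Fin k)), t i ∣ n) ↔ DD t ∣ n := by
    rw [DD_dvd_iff ht]
    simp
  simp only [this]

lemma DD_pos {k J : ℕ} {t : Fin k → ℕ} (ht : t ∈ TT k J) : 0 < DD t := by
  unfold TT at ht
  rw [Fintype.mem_piFinset] at ht
  unfold DD
  apply Finset.prod_pos
  intro q hq
  obtain ⟨i, _, rfl⟩ := Finset.mem_image.mp hq
  exact (mem_PP.mp (ht i)).2.pos

lemma WW_pow_eq_sum (h : ℕ → ℝ) (k J : ℕ) {n N : ℕ} (hn : n ≠ 0) (hN : n ≤ N) :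
    WW h J n ^ k = ∑ D ∈ Finset.Icc 1 N, if D ∣ n then aa h k J D else 0 := by
  rw [WW_pow h k J hn]
  have e1 : ∀ D ∈ Finset.Icc 1 N, (if D ∣ n then aa h k J D else 0) =
      ∑ t ∈ TT k J, if DD t = D then (if DD t ∣ n then ∏ i, wt h J (t i) else 0) else 0 := by
    intro D _
    unfold aa
    rw [Finset.sum_filter]
    split_ifs with hD
    · apply Finset.sum_congr rfl
      intro t _
      split_ifs with h1 h2
      · rfl
      · exact absurd (h1 ▸ hD) h2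
      · rfl
    · symm
      apply Finset.sum_eq_zero
      intro t _
      split_ifs with h1 h2
      · exact absurd (h1 ▸ h2) hD
      · rfl
      · rfl
  rw [Finset.sum_congr rfl e1, Finset.sum_comm]
  apply Finset.sum_congr rfl
  intro t ht
  rw [Finset.sum_ite_eq]
  split_ifs with h1 h2
  · rfl
  · exfalso
    apply h2
    rw [Finset.mem_Icc]
    exact ⟨DD_pos ht, (Nat.le_of_dvd (Nat.pos_of_ne_zero hn) h1).trans hN⟩
  · rfl
  · rfl

lemma aa_nonneg {h : ℕ → ℝ} (h0 : ∀ n, 0 ≤ h n) (k J D : ℕ) : 0 ≤ aa h k J D :=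
  Finset.sum_nonneg fun _ _ => Finset.prod_nonneg fun _ _ => wt_nonneg h0 _ _

lemma aa_ne_zero {h : ℕ → ℝ} {k J D : ℕ} (hk : 1 ≤ k) (hD : aa h k J D ≠ 0) :
    Rough (iJ J) D ∧ 2 ≤ D := by
  unfold aa at hD
  obtain ⟨t, ht, _⟩ := Finset.exists_ne_zero_of_sum_ne_zero hD
  rw [Finset.mem_filter] at ht
  obtain ⟨ht, rfl⟩ := ht
  have hpos := DD_pos ht
  have ht' := ht
  unfold TT at ht'
  rw [Fintype.mem_piFinset] at ht'
  constructor
  · intro q hq hqd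
    unfold DD at hqd
    obtain ⟨r, hr, hqr⟩ := (hq.prime.dvd_finsetProd_iff _).mp hqd
    obtain ⟨i, _, rfl⟩ := Finset.mem_image.mp hr
    have h1 := mem_PP.mp (ht' i)
    have h2 : q = t i := (Nat.prime_dvd_prime_iff_eq hq h1.2).mp hqr
    rw [h2]
    exact h1.1.1
  · have h1 := (DD_dvd_iff ht (DD t)).mp dvd_rfl ⟨0, hk⟩
    have h2 := (mem_PP.mp (ht' ⟨0, hk⟩)).2.two_le
    exact h2.trans (Nat.le_of_dvd hpos h1)

lemma aa_le {h : ℕ → ℝ} (h0 : ∀ n, 0 ≤ h n) (h2 : ∀ n, h n ≤ 2) {k J D : ℕ} (hJ : 1 ≤ J)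
    (hD : 1 ≤ D) (hD' : D ≤ 2 ^ J) : aa h k J D ≤ 2 ^ k := by
  have e1 := WW_pow_eq_sum h k J (n := D) (N := D) (by omega) le_rfl
  have e2 : aa h k J D ≤ WW h J D ^ k := by
    rw [e1]
    have := Finset.single_le_sum (s := Finset.Icc 1 D)
      (f := fun D' => if D' ∣ D then aa h k J D' else 0) (fun D' _ => by
        split_ifs
        · exact aa_nonneg h0 k J D'
        · exact le_rfl) (Finset.mem_Icc.mpr ⟨hD, le_rfl⟩)
    simpa using this
  exact e2.trans (pow_le_pow_left₀ (WW_nonneg h0 J D) (WW_le_two h2 hJ (by omega) hD') k)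

/-! ### step C: the sum over shifted primes -/

/-- number of primes of the block congruent to 1 mod `D` -/
def EE (J D : ℕ) : ℕ := ((blk J).filter (fun p => D ∣ p - 1)).card

open Classical in
/-- the cofactors -/
noncomputable def MM (J D M : ℕ) : Finset ℕ := (Finset.Icc 1 M).filter
  (fun m => (D * m + 1).Prime ∧ 2 ^ (J - 1) < D * m + 1 ∧ D * m + 1 ≤ 2 ^ J)

lemma sum_blk_eq (h : ℕ → ℝ) (k J : ℕ) (hJ : 3 ≤ J) :
    ∑ p ∈ blk J, WW h J (p - 1) ^ k =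
      ∑ D ∈ Finset.Icc 1 (2 ^ J), aa h k J D * (EE J D : ℝ) := by
  have e1 : ∀ p ∈ blk J, WW h J (p - 1) ^ k =
      ∑ D ∈ Finset.Icc 1 (2 ^ J), if D ∣ p - 1 then aa h k J D else 0 := by
    intro p hp
    obtain ⟨⟨h1, h2⟩, h3⟩ := mem_blk.mp hp
    have h8 : 2 ^ 2 ≤ 2 ^ (J - 1) := Nat.pow_le_pow_right (by norm_num) (by omega)
    exact WW_pow_eq_sum h k J (by omega) (by omega)
  rw [Finset.sum_congr rfl e1, Finset.sum_comm]
  apply Finset.sum_congr rfl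
  intro D _
  rw [← Finset.sum_filter, Finset.sum_const, nsmul_eq_mul, mul_comm]
  rfl

lemma EE_le {J D M i : ℕ} (hJ : 3 ≤ J) (hi : i ≤ J) (hD : 2 ^ i < D) (hM : 2 ^ (J - i) ≤ M) :
    EE J D ≤ (MM J D M).card := by
  unfold EE
  apply Finset.card_le_card_of_injOn (fun p => (p - 1) / D)
  · intro p hp
    simp only [Finset.coe_filter, Set.mem_ofPred_eq] at hp
    obtain ⟨hp, hDp⟩ := hp
    obtain ⟨⟨h1, h2⟩, h3⟩ := mem_blk.mp hp
    have h8 : 2 ^ 2 ≤ 2 ^ (J - 1) := Nat.pow_le_pow_right (by norm_num) (by omega)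
    have h9 : D * ((p - 1) / D) = p - 1 := Nat.mul_div_cancel' hDp
    have h10 : D * ((p - 1) / D) + 1 = p := by omega
    simp only [MM, Finset.coe_filter, Set.mem_ofPred_eq, Finset.mem_Icc]
    rw [h10]
    refine ⟨⟨?_, ?_⟩, h3, h1, h2⟩
    · rw [Nat.one_le_iff_ne_zero]
      intro h0
      rw [h0] at h9
      omega
    · refine le_trans ?_ hM
      by_contra hcon
      rw [not_le] at hcon
      have h11 : 2 ^ i * 2 ^ (J - i) = 2 ^ J := by
        rw [← pow_add]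
        congr 1
        omega
      have h12 : 2 ^ i * 2 ^ (J - i) ≤ D * ((p - 1) / D) := Nat.mul_le_mul hD.le hcon.le
      omega
  · intro p hp p' hp' hpp
    simp only [Finset.coe_filter, Set.mem_ofPred_eq] at hp hp'
    have h1 := (mem_blk.mp hp.1).2.two_le
    have h2 := (mem_blk.mp hp'.1).2.two_le
    have h3 : D * ((p - 1) / D) = p - 1 := Nat.mul_div_cancel' hp.2
    have h4 : D * ((p' - 1) / D) = p' - 1 := Nat.mul_div_cancel' hp'.2
    have h5 : (p - 1) / D = (p' - 1) / D := hpp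
    rw [h5, h4] at h3
    omega

lemma sum_Ioc_dyadic (f : ℕ → ℝ) (J : ℕ) :
    ∑ i ∈ Finset.range J, ∑ D ∈ Finset.Ioc (2 ^ i) (2 ^ (i + 1)), f D =
      ∑ D ∈ Finset.Ioc 1 (2 ^ J), f D := by
  induction J with
  | zero => simp
  | succ J ih =>
    rw [Finset.sum_range_succ, ih]
    exact Finset.sum_Ioc_consecutive f Nat.one_le_two_pow (Nat.pow_le_pow_right (by norm_num) (by omega))

open Classical in
/-- number of small cofactors of a rough number -/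
noncomputable def GG (J B D : ℕ) : ℝ := if Rough (iJ J) D then ((MM J D (J ^ B)).card : ℝ) else 0

lemma GG_nonneg (J B D : ℕ) : 0 ≤ GG J B D := by
  unfold GG
  split_ifs
  · exact Nat.cast_nonneg _
  · exact le_rfl

open Classical in
lemma sum_GG (J B : ℕ) :
    ∑ D ∈ Finset.Ioc 1 (2 ^ J), GG J B D =
      ∑ m ∈ Finset.Icc 1 (J ^ B), (((Finset.Icc 2 (2 ^ J)).filter
        (fun D => Rough (iJ J) D ∧ (D * m + 1).Prime ∧ 2 ^ (J - 1) < D * m + 1 ∧
          D * m + 1 ≤ 2 ^ J)).card : ℝ) := by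
  have e1 : Finset.Ioc 1 (2 ^ J) = Finset.Icc 2 (2 ^ J) := by
    ext D
    simp only [Finset.mem_Ioc, Finset.mem_Icc]
    omega
  have e2 : ∀ D ∈ Finset.Icc 2 (2 ^ J), GG J B D = ∑ m ∈ Finset.Icc 1 (J ^ B),
      if (Rough (iJ J) D ∧ (D * m + 1).Prime ∧ 2 ^ (J - 1) < D * m + 1 ∧
          D * m + 1 ≤ 2 ^ J) then (1 : ℝ) else 0 := by
    intro D _
    unfold GG MM
    split_ifs with hR
    · rw [← Finset.sum_filter, Finset.sum_const, nsmul_eq_mul, mul_one]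
      congr 2
      apply Finset.filter_congr
      intro m _
      simp [hR]
    · symm
      apply Finset.sum_eq_zero
      intro m _
      rw [if_neg]
      intro hc
      exact hR hc.1
  have e3 : ∀ m ∈ Finset.Icc 1 (J ^ B), (((Finset.Icc 2 (2 ^ J)).filter
        (fun D => Rough (iJ J) D ∧ (D * m + 1).Prime ∧ 2 ^ (J - 1) < D * m + 1 ∧
          D * m + 1 ≤ 2 ^ J)).card : ℝ) = ∑ D ∈ Finset.Icc 2 (2 ^ J),
      if (Rough (iJ J) D ∧ (D * m + 1).Prime ∧ 2 ^ (J - 1) < D * m + 1 ∧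
          D * m + 1 ≤ 2 ^ J) then (1 : ℝ) else 0 := by
    intro m _
    rw [← Finset.sum_filter, Finset.sum_const, nsmul_eq_mul, mul_one]
  rw [e1, Finset.sum_congr rfl e2, Finset.sum_congr rfl e3, Finset.sum_comm]

/-- the estimate of one dyadic range of `D` -/
lemma range_le {C : ℝ} (hC : 0 < C) {B : ℕ} {h : ℕ → ℝ} (hh : Adm h) {k J i : ℕ} (hk : 1 ≤ k)
    (hJ : 3 ≤ J) (hi : i < J)
    (h1 : J ^ B ≤ 2 ^ (J - i) →
      ∀ α : ℕ → ℝ, (∀ D, 0 ≤ α D) → (∀ D, α D ≤ 1) → (∀ D, α D ≠ 0 → Rough (iJ J) D) →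
      ∑ D ∈ Finset.Ioc (2 ^ i) (2 ^ (i + 1)), α D *
          (((Finset.Icc 1 (2 ^ (J - i))).filter
            (fun m => (D * m + 1).Prime ∧ 2 ^ (J - 1) < D * m + 1)).card : ℝ) ≤
        C * ((2 : ℝ) ^ (J - i) / J) * ∑ D ∈ Finset.Ioc (2 ^ i) (2 ^ (i + 1)), α D +
          (2 : ℝ) ^ J / (J : ℝ) ^ 4) :
    ∑ D ∈ Finset.Ioc (2 ^ i) (2 ^ (i + 1)), aa h k J D * (EE J D : ℝ) ≤
      2 * C * ((2 : ℝ) ^ J / J) * ∑ D ∈ Finset.Ioc (2 ^ i) (2 ^ (i + 1)), aa h k J D / D +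
        2 ^ k * ((2 : ℝ) ^ J / (J : ℝ) ^ 4) +
        2 ^ k * ∑ D ∈ Finset.Ioc (2 ^ i) (2 ^ (i + 1)), GG J B D := by
  have hJ0 : (0 : ℝ) < J := by exact_mod_cast (by omega : 0 < J)
  have hD2 : ∀ D ∈ Finset.Ioc (2 ^ i) (2 ^ (i + 1)), 1 ≤ D ∧ D ≤ 2 ^ J := by
    intro D hD
    rw [Finset.mem_Ioc] at hD
    exact ⟨by omega, hD.2.trans (Nat.pow_le_pow_right (by norm_num) (by omega))⟩
  have haa : ∀ D ∈ Finset.Ioc (2 ^ i) (2 ^ (i + 1)), aa h k J D ≤ 2 ^ k := fun D hD =>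
    aa_le hh.nonneg hh.le_two (by omega) (hD2 D hD).1 (hD2 D hD).2
  have ha0 : ∀ D, 0 ≤ aa h k J D := fun D => aa_nonneg hh.nonneg k J D
  have pos1 : 0 ≤ 2 * C * ((2 : ℝ) ^ J / J) *
      ∑ D ∈ Finset.Ioc (2 ^ i) (2 ^ (i + 1)), aa h k J D / D := by
    apply mul_nonneg (by positivity)
    apply Finset.sum_nonneg
    intro D _
    have := ha0 D
    positivity
  have pos2 : 0 ≤ (2 : ℝ) ^ k * ∑ D ∈ Finset.Ioc (2 ^ i) (2 ^ (i + 1)), GG J B D := by
    apply mul_nonneg (by positivity)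
    exact Finset.sum_nonneg fun D _ => GG_nonneg J B D
  have pos3 : 0 ≤ (2 : ℝ) ^ k * ((2 : ℝ) ^ J / (J : ℝ) ^ 4) := by positivity
  rcases le_or_gt (J ^ B) (2 ^ (J - i)) with hB | hB
  · let α : ℕ → ℝ := fun D => if D ∈ Finset.Ioc (2 ^ i) (2 ^ (i + 1)) then aa h k J D / 2 ^ k else 0
    have hα : ∀ D ∈ Finset.Ioc (2 ^ i) (2 ^ (i + 1)), α D = aa h k J D / 2 ^ k := by
      intro D hD
      exact if_pos hD
    have e1 := h1 hB α (by
        intro D
        change 0 ≤ (if D ∈ Finset.Ioc (2 ^ i) (2 ^ (i + 1)) then aa h k J D / 2 ^ k else 0)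
        split_ifs
        · have := ha0 D
          positivity
        · exact le_rfl) (by
        intro D
        change (if D ∈ Finset.Ioc (2 ^ i) (2 ^ (i + 1)) then aa h k J D / 2 ^ k else 0) ≤ 1
        split_ifs with hD
        · rw [div_le_one (by positivity)]
          exact haa D hD
        · exact zero_le_one) (by
        intro D hD
        have hD' : (if D ∈ Finset.Ioc (2 ^ i) (2 ^ (i + 1)) then aa h k J D / 2 ^ k else 0) ≠ 0 := hD
        split_ifs at hD' with hDD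
        · apply (aa_ne_zero (h := h) (k := k) hk _).1
          intro h0
          rw [h0, zero_div] at hD'
          exact hD' rfl
        · exact absurd rfl hD')
    have e2 : ∑ D ∈ Finset.Ioc (2 ^ i) (2 ^ (i + 1)), aa h k J D * (EE J D : ℝ) ≤
        2 ^ k * ∑ D ∈ Finset.Ioc (2 ^ i) (2 ^ (i + 1)), α D *
          (((Finset.Icc 1 (2 ^ (J - i))).filter
            (fun m => (D * m + 1).Prime ∧ 2 ^ (J - 1) < D * m + 1)).card : ℝ) := by
      rw [Finset.mul_sum]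
      apply Finset.sum_le_sum
      intro D hD
      rw [hα D hD]
      have e3 : 2 ^ k * (aa h k J D / 2 ^ k * (((Finset.Icc 1 (2 ^ (J - i))).filter
            (fun m => (D * m + 1).Prime ∧ 2 ^ (J - 1) < D * m + 1)).card : ℝ)) =
          aa h k J D * (((Finset.Icc 1 (2 ^ (J - i))).filter
            (fun m => (D * m + 1).Prime ∧ 2 ^ (J - 1) < D * m + 1)).card : ℝ) := by
        field_simp
      rw [e3]
      apply mul_le_mul_of_nonneg_left _ (ha0 D)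
      have e4 := EE_le hJ hi.le (Finset.mem_Ioc.mp hD).1 (le_refl (2 ^ (J - i)))
      have e5 : (MM J D (2 ^ (J - i))).card ≤ ((Finset.Icc 1 (2 ^ (J - i))).filter
            (fun m => (D * m + 1).Prime ∧ 2 ^ (J - 1) < D * m + 1)).card := by
        apply Finset.card_le_card
        intro m hm
        simp only [MM, Finset.mem_filter] at hm ⊢
        exact ⟨hm.1, hm.2.1, hm.2.2.1⟩
      exact_mod_cast e4.trans e5
    have e6 : 2 ^ k * (C * ((2 : ℝ) ^ (J - i) / J) * ∑ D ∈ Finset.Ioc (2 ^ i) (2 ^ (i + 1)), α D) ≤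
        2 * C * ((2 : ℝ) ^ J / J) * ∑ D ∈ Finset.Ioc (2 ^ i) (2 ^ (i + 1)), aa h k J D / D := by
      have e7 : 2 ^ k * (C * ((2 : ℝ) ^ (J - i) / J) *
          ∑ D ∈ Finset.Ioc (2 ^ i) (2 ^ (i + 1)), α D) =
          ∑ D ∈ Finset.Ioc (2 ^ i) (2 ^ (i + 1)), (C / J) * ((2 : ℝ) ^ (J - i) * aa h k J D) := by
        rw [Finset.mul_sum, Finset.mul_sum]
        apply Finset.sum_congr rfl
        intro D hD
        rw [hα D hD]
        field_simp
      have e8 : 2 * C * ((2 : ℝ) ^ J / J) *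
          ∑ D ∈ Finset.Ioc (2 ^ i) (2 ^ (i + 1)), aa h k J D / D =
          ∑ D ∈ Finset.Ioc (2 ^ i) (2 ^ (i + 1)), (C / J) * (2 * (2 : ℝ) ^ J * (aa h k J D / D)) := by
        rw [Finset.mul_sum]
        apply Finset.sum_congr rfl
        intro D hD
        field_simp
      rw [e7, e8]
      apply Finset.sum_le_sum
      intro D hD
      apply mul_le_mul_of_nonneg_left _ (by positivity)
      have hDpos : (0 : ℝ) < D := by exact_mod_cast (hD2 D hD).1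
      have hDle : (D : ℝ) ≤ 2 * 2 ^ i := by
        have := (Finset.mem_Ioc.mp hD).2
        rw [pow_succ] at this
        have h' : (D : ℝ) ≤ 2 ^ i * 2 := by exact_mod_cast this
        linarith
      have h11 : (2 : ℝ) ^ J = 2 ^ i * 2 ^ (J - i) := by
        rw [← pow_add]
        congr 1
        omega
      rw [h11, ← mul_div_assoc, le_div_iff₀ hDpos]
      have h12 := mul_le_mul_of_nonneg_left hDle
        (mul_nonneg (by positivity : (0 : ℝ) ≤ 2 ^ (J - i)) (ha0 D))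
      linarith
    have e9 := mul_le_mul_of_nonneg_left e1 (by positivity : (0 : ℝ) ≤ 2 ^ k)
    rw [mul_add] at e9
    linarith
  · have e2 : ∑ D ∈ Finset.Ioc (2 ^ i) (2 ^ (i + 1)), aa h k J D * (EE J D : ℝ) ≤
        2 ^ k * ∑ D ∈ Finset.Ioc (2 ^ i) (2 ^ (i + 1)), GG J B D := by
      rw [Finset.mul_sum]
      apply Finset.sum_le_sum
      intro D hD
      by_cases h0 : aa h k J D = 0
      · rw [h0, zero_mul]
        exact mul_nonneg (by positivity) (GG_nonneg J B D)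
      · have hR := (aa_ne_zero hk h0).1
        have e3 : GG J B D = ((MM J D (J ^ B)).card : ℝ) := by
          unfold GG
          rw [if_pos hR]
        rw [e3]
        have e4 := EE_le hJ hi.le (Finset.mem_Ioc.mp hD).1 hB.le
        exact mul_le_mul (haa D hD) (by exact_mod_cast e4) (Nat.cast_nonneg _) (by positivity)
    linarith

/-! ### step D: integers -/

lemma sum_int_ge {h : ℕ → ℝ} (h0 : ∀ n, 0 ≤ h n) (k J : ℕ) :
    ∑ D ∈ Finset.Ioc 1 (2 ^ J), aa h k J D / D ≤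
      2 * ((1 / (2 : ℝ) ^ J) * ∑ n ∈ Finset.Icc 1 (2 ^ J), WW h J n ^ k) := by
  have e1 : ∑ n ∈ Finset.Icc 1 (2 ^ J), WW h J n ^ k =
      ∑ D ∈ Finset.Icc 1 (2 ^ J), aa h k J D * ((2 ^ J / D : ℕ) : ℝ) := by
    have e2 : ∀ n ∈ Finset.Icc 1 (2 ^ J), WW h J n ^ k =
        ∑ D ∈ Finset.Icc 1 (2 ^ J), if D ∣ n then aa h k J D else 0 := by
      intro n hn
      rw [Finset.mem_Icc] at hn
      exact WW_pow_eq_sum h k J (by omega) hn.2
    rw [Finset.sum_congr rfl e2, Finset.sum_comm]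
    apply Finset.sum_congr rfl
    intro D _
    rw [← Finset.sum_filter, Finset.sum_const, nsmul_eq_mul, mul_comm]
    congr 2
    exact Nat.Ioc_filter_dvd_card_eq_div (2 ^ J) D
  rw [e1, ← mul_assoc, Finset.mul_sum]
  have e3 : ∑ D ∈ Finset.Ioc 1 (2 ^ J), aa h k J D / D ≤
      ∑ D ∈ Finset.Icc 1 (2 ^ J), aa h k J D / D := by
    apply Finset.sum_le_sum_of_subset_of_nonneg
    · intro D hD
      rw [Finset.mem_Ioc] at hD
      rw [Finset.mem_Icc]
      omega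
    · intro D _ _
      have := aa_nonneg h0 k J D
      positivity
  refine e3.trans (Finset.sum_le_sum ?_)
  intro D hD
  rw [Finset.mem_Icc] at hD
  have hDpos : (0 : ℝ) < D := by exact_mod_cast hD.1
  have e4 : (2 : ℝ) ^ J ≤ 2 * (D * ((2 ^ J / D : ℕ) : ℝ)) := by
    have h5 : 1 ≤ 2 ^ J / D := (Nat.one_le_div_iff (by omega)).mpr hD.2
    have h6 : 2 ^ J < D * (2 ^ J / D + 1) := Nat.lt_mul_div_succ (2 ^ J) (by omega)
    have h7 : D * (2 ^ J / D + 1) ≤ 2 * (D * (2 ^ J / D)) := by nlinarith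
    exact_mod_cast h6.le.trans h7
  have e5 := aa_nonneg h0 k J D
  have e6 : 2 * (1 / (2 : ℝ) ^ J) * (aa h k J D * ((2 ^ J / D : ℕ) : ℝ)) =
      (aa h k J D / D) * ((2 * (D * ((2 ^ J / D : ℕ) : ℝ))) / 2 ^ J) := by
    field_simp
  rw [e6]
  apply le_mul_of_one_le_right (by positivity)
  rw [one_le_div (by positivity)]
  exact e4

end Dom

open Dom in
theorem s_dom (h1 : S_TypeII) (h2 : S_Cof) (h3 : S_Small) : S_Dom := by
  obtain ⟨C1, hC1, B, J1, h1⟩ := h1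
  obtain ⟨C2, hC2, J2, h2⟩ := h2 B
  obtain ⟨C3, hC3, J3, h3⟩ := h3
  refine ⟨24 * C1, by positivity, fun k hk => ?_⟩
  refine ⟨6 * 2 ^ k * (1 + C2) + 2 * (((k : ℝ) + 1) ^ k * 3 ^ (k - 1)) * (8 * C3 + 8),
    by positivity, max (max J1 J2) (max J3 (2 * k + 2)), ?_⟩
  intro h hh J hJ
  have hJ1 : J1 ≤ J := (le_max_left _ _).trans ((le_max_left _ _).trans hJ)
  have hJ2 : J2 ≤ J := (le_max_right _ _).trans ((le_max_left _ _).trans hJ)
  have hJ3 : J3 ≤ J := (le_max_left _ _).trans ((le_max_right _ _).trans hJ)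
  have hJk : 2 * k + 2 ≤ J := (le_max_right _ _).trans ((le_max_right _ _).trans hJ)
  have hJ4 : 3 ≤ J := by omega
  have hJ0 : (1 : ℝ) ≤ J := by exact_mod_cast (by omega : 1 ≤ J)
  have A := NN_le hC3 hh hk hJ4 hJk (h3 J hJ3)
  have E := sum_int_ge hh.nonneg k J
  -- the sum over the shifted primes
  have S1 : ∑ p ∈ blk J, WW h J (p - 1) ^ k ≤
      2 * C1 * ((2 : ℝ) ^ J / J) * ∑ D ∈ Finset.Ioc 1 (2 ^ J), aa h k J D / D +
        2 ^ k * (J * ((2 : ℝ) ^ J / (J : ℝ) ^ 4)) +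
        2 ^ k * (C2 * (2 : ℝ) ^ J / (J : ℝ) ^ (3 / 2 : ℝ)) := by
    have e1 : ∑ D ∈ Finset.Icc 1 (2 ^ J), aa h k J D * (EE J D : ℝ) =
        ∑ D ∈ Finset.Ioc 1 (2 ^ J), aa h k J D * (EE J D : ℝ) := by
      symm
      apply Finset.sum_subset
      · intro D hD
        rw [Finset.mem_Ioc] at hD
        rw [Finset.mem_Icc]
        omega
      · intro D hD hD'
        rw [Finset.mem_Icc] at hD
        rw [Finset.mem_Ioc] at hD'
        have : D = 1 := by omega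
        subst this
        by_contra hne
        have h0 : aa h k J 1 ≠ 0 := by
          intro h0
          rw [h0, zero_mul] at hne
          exact hne rfl
        have := (aa_ne_zero hk h0).2
        omega
    rw [sum_blk_eq h k J hJ4, e1]
    have e2 : ∑ i ∈ Finset.range J, ∑ D ∈ Finset.Ioc (2 ^ i) (2 ^ (i + 1)),
        aa h k J D * (EE J D : ℝ) ≤ ∑ i ∈ Finset.range J,
        (2 * C1 * ((2 : ℝ) ^ J / J) * ∑ D ∈ Finset.Ioc (2 ^ i) (2 ^ (i + 1)), aa h k J D / D +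
        2 ^ k * ((2 : ℝ) ^ J / (J : ℝ) ^ 4) +
        2 ^ k * ∑ D ∈ Finset.Ioc (2 ^ i) (2 ^ (i + 1)), GG J B D) := by
      apply Finset.sum_le_sum
      intro i hi
      rw [Finset.mem_range] at hi
      exact range_le hC1 hh hk hJ4 hi (h1 J hJ1 i hi)
    rw [Finset.sum_add_distrib, Finset.sum_add_distrib, ← Finset.mul_sum, ← Finset.mul_sum,
      sum_Ioc_dyadic, sum_Ioc_dyadic, Finset.sum_const, Finset.card_range, nsmul_eq_mul,
      ← Finset.mul_sum, sum_Ioc_dyadic, sum_GG] at e2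
    have e3 := mul_le_mul_of_nonneg_left (h2 J hJ2) (by positivity : (0 : ℝ) ≤ 2 ^ k)
    linarith
  have S2 := mul_le_mul_of_nonneg_left S1 (by positivity : (0 : ℝ) ≤ (J : ℝ) / 2 ^ J)
  have Jp : (0 : ℝ) < J := by linarith
  have P1 : ((J : ℝ) / 2 ^ J) * (2 * C1 * ((2 : ℝ) ^ J / J) *
      ∑ D ∈ Finset.Ioc 1 (2 ^ J), aa h k J D / D + 2 ^ k * (J * ((2 : ℝ) ^ J / (J : ℝ) ^ 4)) +
        2 ^ k * (C2 * (2 : ℝ) ^ J / (J : ℝ) ^ (3 / 2 : ℝ))) =
      2 * C1 * ∑ D ∈ Finset.Ioc 1 (2 ^ J), aa h k J D / D + 2 ^ k * (1 / (J : ℝ) ^ 2) +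
        2 ^ k * C2 * (J / (J : ℝ) ^ (3 / 2 : ℝ)) := by
    field_simp
  have P2 : 1 / (J : ℝ) ^ 2 ≤ (J : ℝ) ^ (-(1 / 8) : ℝ) := by
    refine le_trans ?_ (inv_le_rpow (by omega : 1 ≤ J))
    apply one_div_le_one_div_of_le Jp
    nlinarith
  have P3 : (J : ℝ) / (J : ℝ) ^ (3 / 2 : ℝ) ≤ (J : ℝ) ^ (-(1 / 8) : ℝ) := by
    have e1 : (J : ℝ) / (J : ℝ) ^ (3 / 2 : ℝ) = (J : ℝ) ^ (1 - 3 / 2 : ℝ) := by
      rw [Real.rpow_sub Jp, Real.rpow_one]
    rw [e1]
    exact Real.rpow_le_rpow_of_exponent_le hJ0 (by norm_num)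
  rw [P1] at S2
  have P4 := mul_le_mul_of_nonneg_left P2 (by positivity : (0 : ℝ) ≤ 2 ^ k)
  have P5 := mul_le_mul_of_nonneg_left P3 (by positivity : (0 : ℝ) ≤ 2 ^ k * C2)
  have P6 := mul_le_mul_of_nonneg_left E (by positivity : (0 : ℝ) ≤ 2 * C1)
  have P7 : ((J : ℝ) / 2 ^ J) * ∑ p ∈ blk J, WW h J (p - 1) ^ k ≤
      4 * C1 * ((1 / (2 : ℝ) ^ J) * ∑ n ∈ Finset.Icc 1 (2 ^ J), WW h J n ^ k) +
      2 ^ k * (1 + C2) * (J : ℝ) ^ (-(1 / 8) : ℝ) := by
    linarith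
  linarith

end Pool.Agent.N907.EG
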