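import Pool.Agent.N907.EG.Contr

/-!
The end of the argument: the types of the primes concentrate at one constant.
-/

set_option autoImplicit false

open Finset

namespace Pool.Agent.N907.EG

namespace Fin9

/-- upper excess -/
noncomputable def hB (F : ℕ → ℝ) (β : ℝ) (n : ℕ) : ℝ :=
  open Classical in if n.Prime then max 0 (F n / Real.log n - β) else 0

/-- lower excess -/
noncomputable def gB (F : ℕ → ℝ) (β : ℝ) (n : ℕ) : ℝ :=
  open Classical in if n.Prime then max 0 (β - F n / Real.log n) else 0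

theorem log_pos_of_prime {p : ℕ} (hp : p.Prime) : 0 < Real.log p :=
  Real.log_pos (by exact_mod_cast hp.one_lt)

/-- complete additivity in terms of the factorization -/
theorem additive_sum {F : ℕ → ℝ} (h1 : F 1 = 0)
    (hadd : ∀ m n : ℕ, 1 ≤ m → 1 ≤ n → F (m * n) = F m + F n) {n : ℕ} (hn : 1 ≤ n) :
    F n = ∑ q ∈ n.primeFactors, (n.factorization q : ℝ) * F q := by
  have hpow : ∀ q a : ℕ, 1 ≤ q → F (q ^ a) = a * F q := by
    intro q a hq
    induction a with
    | zero => simp [h1]
    | succ a ih =>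
      rw [pow_succ, hadd _ _ (Nat.one_le_pow _ _ hq) hq, ih]; push_cast; ring
  have hprod : ∀ s : Finset ℕ, ∀ f : ℕ → ℕ, (∀ q ∈ s, 1 ≤ f q) →
      F (∏ q ∈ s, f q) = ∑ q ∈ s, F (f q) := by
    intro s f
    induction s using Finset.induction_on with
    | empty => intro _; simp [h1]
    | insert a s ha ih =>
      intro hf
      rw [Finset.prod_insert ha, Finset.sum_insert ha, hadd, ih]
      · intro q hq; exact hf q (Finset.mem_insert_of_mem hq)
      · exact hf a (Finset.mem_insert_self _ _)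
      · exact Finset.one_le_prod' fun q hq => hf q (Finset.mem_insert_of_mem hq)
  have hn0 : n ≠ 0 := by omega
  conv_lhs => rw [← Nat.factorization_prod_pow_eq_self hn0]
  rw [Finsupp.prod, Nat.support_factorization, hprod]
  · apply Finset.sum_congr rfl
    intro q hq
    exact hpow q _ (Nat.prime_of_mem_primeFactors hq).one_lt.le
  · intro q hq
    exact Nat.one_le_pow _ _ (Nat.prime_of_mem_primeFactors hq).pos

theorem log_sum {n : ℕ} (hn : 1 ≤ n) :
    Real.log n = ∑ q ∈ n.primeFactors, (n.factorization q : ℝ) * Real.log q := by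
  have := additive_sum (F := fun n : ℕ => Real.log n) (by simp)
    (fun m n hm hn => by
      push_cast
      rw [Real.log_mul]
      · have : (0:ℝ) < m := by exact_mod_cast hm
        exact this.ne'
      · have : (0:ℝ) < n := by exact_mod_cast hn
        exact this.ne') hn
  exact this

section

variable {F : ℕ → ℝ} (h1 : F 1 = 0) (hadd : ∀ m n : ℕ, 1 ≤ m → 1 ≤ n → F (m * n) = F m + F n)
  (hrec : ∀ p : ℕ, p.Prime → 3 ≤ p → F p = F (p - 1))
  (hbd : ∀ n : ℕ, 1 ≤ n → 0 ≤ F n ∧ F n ≤ 2 * Real.log n)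

include hbd in
theorem G_bd {p : ℕ} (hp : p.Prime) : 0 ≤ F p / Real.log p ∧ F p / Real.log p ≤ 2 := by
  have h := hbd p hp.one_lt.le
  have hl := log_pos_of_prime hp
  refine ⟨div_nonneg h.1 hl.le, ?_⟩
  rw [div_le_iff₀ hl]; exact h.2

include h1 hadd hrec hbd in
theorem adm_h {β : ℝ} (hβ : 0 ≤ β) : Adm (hB F β) := by
  classical
  refine ⟨?_, ?_, ?_⟩
  · intro n; unfold hB; split_ifs
    · exact le_max_left _ _
    · exact le_rfl
  · intro n; unfold hB; split_ifs with hp
    · have := (G_bd hbd hp).2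
      apply max_le <;> linarith
    · norm_num
  · intro p hp hp3
    have hl := log_pos_of_prime hp
    have hp1 : 1 ≤ p - 1 := by omega
    have e1 : hB F β p * Real.log p = max 0 (F p - β * Real.log p) := by
      unfold hB
      rw [if_pos hp, max_mul_of_nonneg _ _ hl.le, zero_mul]
      congr 1
      field_simp
    rw [e1]
    have hterm : ∀ q ∈ (p - 1).primeFactors, ((p - 1).factorization q : ℝ) * F q -
        β * (((p - 1).factorization q : ℝ) * Real.log q) ≤
        ((p - 1).factorization q : ℝ) * Real.log q * hB F β q := by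
      intro q hq
      have hq' := Nat.prime_of_mem_primeFactors hq
      have hlq := log_pos_of_prime hq'
      have e2 : F q - β * Real.log q ≤ Real.log q * hB F β q := by
        unfold hB
        rw [if_pos hq']
        have := le_max_right 0 (F q / Real.log q - β)
        have h3 := mul_le_mul_of_nonneg_left this hlq.le
        have h4 : Real.log q * (F q / Real.log q - β) = F q - β * Real.log q := by field_simp
        linarith
      have hv : (0 : ℝ) ≤ ((p - 1).factorization q : ℝ) := Nat.cast_nonneg _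
      nlinarith
    have hnn : ∀ q ∈ (p - 1).primeFactors, 0 ≤ ((p - 1).factorization q : ℝ) * Real.log q * hB F β q := by
      intro q hq
      have hq' := Nat.prime_of_mem_primeFactors hq
      have hlq := log_pos_of_prime hq'
      have : 0 ≤ hB F β q := by
        unfold hB; rw [if_pos hq']; exact le_max_left _ _
      positivity
    have hsum := Finset.sum_le_sum hterm
    rw [Finset.sum_sub_distrib, ← Finset.mul_sum, ← additive_sum h1 hadd hp1, ← log_sum hp1,
      ← hrec p hp hp3] at hsum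
    have hlog : Real.log ((p - 1 : ℕ) : ℝ) ≤ Real.log p := by
      apply Real.log_le_log
      · exact_mod_cast hp1
      · exact_mod_cast Nat.sub_le _ _
    have h4p : (0 : ℝ) ≤ 4 / p := by positivity
    apply max_le
    · have := Finset.sum_nonneg hnn
      linarith
    · have := mul_le_mul_of_nonneg_left hlog hβ
      linarith

include h1 hadd hrec hbd in
theorem adm_g {β : ℝ} (hβ : 0 ≤ β) (hβ2 : β ≤ 2) : Adm (gB F β) := by
  classical
  refine ⟨?_, ?_, ?_⟩
  · intro n; unfold gB; split_ifs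
    · exact le_max_left _ _
    · exact le_rfl
  · intro n; unfold gB; split_ifs with hp
    · have := (G_bd hbd hp).1
      apply max_le <;> linarith
    · norm_num
  · intro p hp hp3
    have hl := log_pos_of_prime hp
    have hp1 : 1 ≤ p - 1 := by omega
    have e1 : gB F β p * Real.log p = max 0 (β * Real.log p - F p) := by
      unfold gB
      rw [if_pos hp, max_mul_of_nonneg _ _ hl.le, zero_mul]
      congr 1
      field_simp
    rw [e1]
    have hterm : ∀ q ∈ (p - 1).primeFactors, β * (((p - 1).factorization q : ℝ) * Real.log q) -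
        ((p - 1).factorization q : ℝ) * F q ≤
        ((p - 1).factorization q : ℝ) * Real.log q * gB F β q := by
      intro q hq
      have hq' := Nat.prime_of_mem_primeFactors hq
      have hlq := log_pos_of_prime hq'
      have e2 : β * Real.log q - F q ≤ Real.log q * gB F β q := by
        unfold gB
        rw [if_pos hq']
        have := le_max_right 0 (β - F q / Real.log q)
        have h3 := mul_le_mul_of_nonneg_left this hlq.le
        have h4 : Real.log q * (β - F q / Real.log q) = β * Real.log q - F q := by field_simp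
        linarith
      have hv : (0 : ℝ) ≤ ((p - 1).factorization q : ℝ) := Nat.cast_nonneg _
      nlinarith
    have hnn : ∀ q ∈ (p - 1).primeFactors, 0 ≤ ((p - 1).factorization q : ℝ) * Real.log q * gB F β q := by
      intro q hq
      have hq' := Nat.prime_of_mem_primeFactors hq
      have hlq := log_pos_of_prime hq'
      have : 0 ≤ gB F β q := by
        unfold gB; rw [if_pos hq']; exact le_max_left _ _
      positivity
    have hsum := Finset.sum_le_sum hterm
    rw [Finset.sum_sub_distrib, ← Finset.mul_sum, ← additive_sum h1 hadd hp1, ← log_sum hp1,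
      ← hrec p hp hp3] at hsum
    have hp1' : (0 : ℝ) < ((p - 1 : ℕ) : ℝ) := by exact_mod_cast hp1
    have hpr : (3 : ℝ) ≤ p := by exact_mod_cast hp3
    have hcast : ((p - 1 : ℕ) : ℝ) = p - 1 := by
      rw [Nat.cast_sub (by omega)]; simp
    have hlog : Real.log p - Real.log ((p - 1 : ℕ) : ℝ) ≤ 2 / p := by
      rw [← Real.log_div (by positivity) hp1'.ne']
      have h5 := Real.log_le_sub_one_of_pos (show 0 < (p : ℝ) / ((p - 1 : ℕ) : ℝ) by positivity)
      refine h5.trans ?_
      rw [hcast]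
      have : (p : ℝ) / (p - 1) - 1 = 1 / (p - 1) := by
        have : (p : ℝ) - 1 ≠ 0 := by linarith
        field_simp; ring
      rw [this, div_le_div_iff₀ (by linarith) (by linarith)]
      linarith
    have h4p : (0 : ℝ) ≤ 4 / p := by positivity
    apply max_le
    · have := Finset.sum_nonneg hnn
      linarith
    · have h6 := mul_le_mul_of_nonneg_left hlog hβ
      have h7 : β * (2 / p) ≤ 4 / p := by
        rw [← mul_div_assoc]
        gcongr
        linarith
      linarith

theorem hg_zero (F : ℕ → ℝ) (β : ℝ) (q : ℕ) (_hq : q.Prime) : hB F β q = 0 ∨ gB F β q = 0 := by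
  unfold hB gB
  rcases le_total (F q / Real.log q) β with h | h
  · left
    rw [if_pos _hq, max_eq_left]; linarith
  · right
    rw [if_pos _hq, max_eq_left]; linarith

theorem hB_anti (F : ℕ → ℝ) {β β' : ℝ} (h : β ≤ β') (n : ℕ) : hB F β' n ≤ hB F β n := by
  unfold hB
  split_ifs
  · apply max_le_max le_rfl; linarith
  · exact le_rfl

theorem gB_mono (F : ℕ → ℝ) {β β' : ℝ} (h : β ≤ β') (n : ℕ) : gB F β n ≤ gB F β' n := by
  unfold gB
  split_ifs
  · apply max_le_max le_rfl; linarith
  · exact le_rfl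

theorem hB_nonneg (F : ℕ → ℝ) (β : ℝ) (n : ℕ) : 0 ≤ hB F β n := by
  unfold hB; split_ifs
  · exact le_max_left _ _
  · exact le_rfl

theorem gB_nonneg (F : ℕ → ℝ) (β : ℝ) (n : ℕ) : 0 ≤ gB F β n := by
  unfold gB; split_ifs
  · exact le_max_left _ _
  · exact le_rfl

include hbd in
theorem hB_two {β : ℝ} (hβ : 2 ≤ β) (n : ℕ) : hB F β n = 0 := by
  unfold hB
  split_ifs with hp
  · rw [max_eq_left]
    have := (G_bd hbd hp).2; linarith
  · rfl

include hbd in
theorem gB_zero {β : ℝ} (hβ : β ≤ 0) (n : ℕ) : gB F β n = 0 := by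
  unfold gB
  split_ifs with hp
  · rw [max_eq_left]
    have := (G_bd hbd hp).1; linarith
  · rfl

end

theorem NN_mono {h g : ℕ → ℝ} (h0 : ∀ n, 0 ≤ h n) (hg : ∀ n, h n ≤ g n) (k J : ℕ) :
    NN h k J ≤ NN g k J := by
  unfold NN
  apply mul_le_mul_of_nonneg_left _ (by positivity)
  apply Finset.sum_le_sum
  intro p _
  exact pow_le_pow_left₀ (h0 p) (hg p) _

theorem Env_mono {h g : ℕ → ℝ} (h0 : ∀ n, 0 ≤ h n) (hg : ∀ n, h n ≤ g n) (k lam J : ℕ) :
    Env h k lam J ≤ Env g k lam J := by
  apply Env_le (Env_nonneg _ _ _ _)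
  intro j hj1 hj2
  refine le_trans ?_ (le_Env g k lam J j hj1 hj2)
  apply mul_le_mul_of_nonneg_right (NN_mono h0 hg k j) (by positivity)

theorem NN_zero {h : ℕ → ℝ} (h0 : ∀ n, h n = 0) {k : ℕ} (hk : 1 ≤ k) (J : ℕ) : NN h k J = 0 := by
  unfold NN
  rw [Finset.sum_eq_zero, mul_zero]
  intro p _
  rw [h0 p, zero_pow (by omega)]

theorem Env_zero {h : ℕ → ℝ} (h0 : ∀ n, h n = 0) {k : ℕ} (hk : 1 ≤ k) (lam J : ℕ) :
    Env h k lam J = 0 := by
  apply le_antisymm _ (Env_nonneg _ _ _ _)
  apply Env_le le_rfl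
  intro j _ _
  rw [NN_zero h0 hk, zero_mul]

/-- separation: two levels with small excesses are close -/
theorem sep {F : ℕ → ℝ} {β β' e : ℝ} {k ρ J : ℕ} (_hk : 1 ≤ k) (hρ : 2 ≤ ρ) (hJ : 1 ≤ J)
    (hM : 1 ≤ Ctr.HM J (ρ * J)) (hββ : β ≤ β')
    (h1 : ∀ j, J < j → j ≤ ρ * J → NN (hB F β) k j ≤ e)
    (h2 : ∀ j, J < j → j ≤ ρ * J → NN (gB F β') k j ≤ e) (he : 0 ≤ e) :
    ((β' - β) / 2) ^ k ≤ 4 * ρ * e := by
  classical
  have hJr : (0 : ℝ) < J := by exact_mod_cast hJ
  set d : ℝ := ((β' - β) / 2) ^ k with hd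
  have hd0 : 0 ≤ d := pow_nonneg (by linarith) _
  -- per block
  have hblk : ∀ j, J < j → j ≤ ρ * J → ∑ q ∈ blk j, (1 : ℝ) / q * d ≤ 4 * e / J := by
    intro j hj1 hj2
    have hjr : (0 : ℝ) < j := by exact_mod_cast (show 0 < j by omega)
    have hjJ : (J : ℝ) ≤ j := by exact_mod_cast hj1.le
    have hpt : ∀ q ∈ blk j, (1 : ℝ) / q * d ≤
        2 / 2 ^ j * (hB F β q ^ k + gB F β' q ^ k) := by
      intro q hq
      unfold blk at hq
      rw [Finset.mem_filter, Finset.mem_Ioc] at hq
      obtain ⟨⟨hq1, hq2⟩, hqp⟩ := hq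
      have hq1' : (2 : ℝ) ^ (j - 1) < q := by exact_mod_cast hq1
      have hqpos : (0 : ℝ) < q := by exact_mod_cast hqp.pos
      have e1 : (1 : ℝ) / q ≤ 2 / 2 ^ j := by
        rw [div_le_div_iff₀ hqpos (by positivity)]
        have : (2 : ℝ) ^ j = 2 * 2 ^ (j - 1) := by
          rw [← pow_succ']; congr 1; omega
        linarith
      have e2 : d ≤ hB F β q ^ k + gB F β' q ^ k := by
        have e3 : β' - β ≤ hB F β q + gB F β' q := by
          unfold hB gB
          rw [if_pos hqp, if_pos hqp]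
          have a1 := le_max_right 0 (F q / Real.log q - β)
          have a2 := le_max_right 0 (β' - F q / Real.log q)
          linarith
        have n1 := hB_nonneg F β q
        have n2 := gB_nonneg F β' q
        rcases le_total (hB F β q) (gB F β' q) with hle | hle
        · have : (β' - β) / 2 ≤ gB F β' q := by linarith
          have := pow_le_pow_left₀ (by linarith) this k
          have := pow_nonneg n1 k
          linarith
        · have : (β' - β) / 2 ≤ hB F β q := by linarith
          have := pow_le_pow_left₀ (by linarith) this k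
          have := pow_nonneg n2 k
          linarith
      have n1 := pow_nonneg (hB_nonneg F β q) k
      have n2 := pow_nonneg (gB_nonneg F β' q) k
      calc (1 : ℝ) / q * d ≤ 2 / 2 ^ j * d := by gcongr
        _ ≤ _ := by gcongr
    refine (Finset.sum_le_sum hpt).trans ?_
    rw [← Finset.mul_sum, Finset.sum_add_distrib]
    have n1 := h1 j hj1 hj2
    have n2 := h2 j hj1 hj2
    unfold NN at n1 n2
    have e4 : (2 : ℝ) / 2 ^ j * (∑ i ∈ blk j, hB F β i ^ k + ∑ i ∈ blk j, gB F β' i ^ k) =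
        2 / j * ((j : ℝ) / 2 ^ j * ∑ i ∈ blk j, hB F β i ^ k + (j : ℝ) / 2 ^ j * ∑ i ∈ blk j, gB F β' i ^ k) := by
      field_simp
    rw [e4]
    calc 2 / (j : ℝ) * ((j : ℝ) / 2 ^ j * ∑ i ∈ blk j, hB F β i ^ k + (j : ℝ) / 2 ^ j * ∑ i ∈ blk j, gB F β' i ^ k)
        ≤ 2 / (j : ℝ) * (e + e) := by gcongr
      _ ≤ 2 / (J : ℝ) * (e + e) := by gcongr
      _ = _ := by ring
  -- decomposition of the window
  have hdec : Ctr.HM J (ρ * J) * d ≤ ∑ j ∈ Finset.Ioc J (ρ * J), ∑ q ∈ blk j, (1 : ℝ) / q * d := by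
    unfold Ctr.HM
    rw [Finset.sum_mul]
    have hsub : (Finset.Ioc (2 ^ J) (2 ^ (ρ * J))).filter Nat.Prime ⊆
        (Finset.Ioc J (ρ * J)).biUnion blk := by
      intro q hq
      rw [Finset.mem_filter, Finset.mem_Ioc] at hq
      obtain ⟨⟨hq1, hq2⟩, hqp⟩ := hq
      rw [Finset.mem_biUnion]
      refine ⟨Nat.clog 2 q, ?_, ?_⟩
      · rw [Finset.mem_Ioc]
        constructor
        · by_contra hcon
          have := (Nat.clog_le_iff_le_pow (by norm_num)).mp (not_lt.mp hcon)
          omega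
        · exact (Nat.clog_le_iff_le_pow (by norm_num)).mpr hq2
      · unfold blk
        rw [Finset.mem_filter, Finset.mem_Ioc]
        refine ⟨⟨?_, Nat.le_pow_clog (by norm_num) q⟩, hqp⟩
        exact Nat.pow_pred_clog_lt_self (by norm_num) hqp.one_lt
    calc ∑ i ∈ (Finset.Ioc (2 ^ J) (2 ^ (ρ * J))).filter Nat.Prime, (1 : ℝ) / i * d
        ≤ ∑ i ∈ (Finset.Ioc J (ρ * J)).biUnion blk, (1 : ℝ) / i * d :=
          Finset.sum_le_sum_of_subset_of_nonneg hsub fun _ _ _ => by positivity
      _ ≤ _ := by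
          rw [Finset.sum_biUnion]
          intro a _ b _ hab
          rw [Function.onFun, Finset.disjoint_left]
          intro q hqa hqb
          unfold blk at hqa hqb
          rw [Finset.mem_filter, Finset.mem_Ioc] at hqa hqb
          apply hab
          have l1 : ∀ x y : ℕ, q ≤ 2 ^ x → 2 ^ (y - 1) < q → y ≤ x := by
            intro x y hx hy
            have := lt_of_lt_of_le hy hx
            have := (Nat.pow_lt_pow_iff_right (by norm_num : 1 < 2)).mp this
            omega
          have := l1 a b hqa.1.2 hqb.1.1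
          have := l1 b a hqb.1.2 hqa.1.1
          omega
  have hfin : ∑ j ∈ Finset.Ioc J (ρ * J), ∑ q ∈ blk j, (1 : ℝ) / q * d ≤ 4 * ρ * e := by
    calc _ ≤ ∑ j ∈ Finset.Ioc J (ρ * J), 4 * e / J := by
          apply Finset.sum_le_sum
          intro j hj
          rw [Finset.mem_Ioc] at hj
          exact hblk j hj.1 hj.2
      _ = ((ρ * J - J : ℕ) : ℝ) * (4 * e / J) := by
          rw [Finset.sum_const, Nat.card_Ioc, nsmul_eq_mul]
      _ ≤ ((ρ * J : ℕ) : ℝ) * (4 * e / J) := by
          gcongr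
          exact Nat.sub_le _ _
      _ = _ := by push_cast; field_simp
  nlinarith

end Fin9

open Fin9

/-- **conclusion for primes** -/
theorem s_primes (hRI : S_RI) : S_Primes := by
  classical
  intro F h1 hadd hrec hbd
  obtain ⟨k, lam, ρ, J1, K, hk, hlam, hρ, hK, hHM, hctr⟩ := contraction hRI
  obtain ⟨Cb, hCb, hblk⟩ := Ctr.blk_card
  obtain ⟨Cn, hCn, hNle⟩ := Ctr.NN_le
  have hρr : (2 : ℝ) ≤ ρ := by exact_mod_cast hρ
  set Js : ℕ := max J1 1 with hJs
  have hJs1 : 1 ≤ Js := le_max_right _ _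
  set Jn : ℕ → ℕ := fun n => ρ ^ n * Js with hJn
  have hJn1 : ∀ n, 1 ≤ Jn n := fun n => Nat.mul_pos (Nat.pos_of_ne_zero (by positivity)) hJs1
  have hJnJ1 : ∀ n, J1 ≤ Jn n := fun n => by
    have h2 : Js ≤ Jn n := Nat.le_mul_of_pos_left Js (by positivity)
    exact le_trans (le_max_left _ _) h2
  have hJsucc : ∀ n, Jn (n + 1) = ρ * Jn n := fun n => by
    simp only [hJn, pow_succ]; ring
  set r : ℝ := max (3 / 4) ((ρ : ℝ) ^ (-(1 / 8) : ℝ)) with hr
  have hr34 : 3 / 4 ≤ r := le_max_left _ _
  have hr1 : r < 1 := by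
    rw [hr]
    apply max_lt (by norm_num)
    exact Real.rpow_lt_one_of_one_lt_of_neg (by linarith) (by norm_num)
  have hr0 : 0 < r := by linarith
  set Am : ℝ := Cn * 2 ^ k with hAm
  have hAm0 : 0 < Am := by positivity
  set K2 : ℝ := max (Am ^ 2) (4 * K) with hK2
  have hK20 : 0 < K2 := lt_of_lt_of_le (by positivity) (le_max_left _ _)
  -- bound for the envelopes
  have hEA : ∀ f : ℕ → ℝ, Adm f → ∀ J, 1 ≤ J → Env f k lam J ≤ Am := by
    intro f hf J hJ
    have hJr : (0 : ℝ) < J := by exact_mod_cast hJ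
    apply Env_le hAm0.le
    intro j hj1 hj2
    have e1 := hNle f hf k j hj1
    have e2 : ((j : ℝ) / J) ^ lam ≤ 1 := by
      apply pow_le_one₀ (by positivity)
      rw [div_le_one hJr]; exact_mod_cast hj2
    have e3 := Ctr.NN_nonneg hf k j
    have e4 : 0 ≤ ((j : ℝ) / J) ^ lam := by positivity
    nlinarith
  -- geometric decay of the product
  have hPsi : ∀ β : ℝ, 0 ≤ β → β ≤ 2 → ∀ n,
      Env (hB F β) k lam (Jn n) * Env (gB F β) k lam (Jn n) ≤ K2 * r ^ n := by
    intro β hβ hβ2 n
    have ah := adm_h h1 hadd hrec hbd hβ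
    have ag := adm_g h1 hadd hrec hbd hβ hβ2
    induction n with
    | zero =>
      have e1 := hEA _ ah (Jn 0) (hJn1 0)
      have e2 := hEA _ ag (Jn 0) (hJn1 0)
      have e3 := Env_nonneg (hB F β) k lam (Jn 0)
      have e4 := Env_nonneg (gB F β) k lam (Jn 0)
      rw [pow_zero, mul_one]
      refine le_trans ?_ (le_max_left _ _)
      nlinarith
    | succ n ih =>
      have e1 := hctr _ _ ah ag (fun q hq => hg_zero F β q hq) (Jn n) (hJnJ1 n)
      rw [← hJsucc] at e1
      have e2 : ((Jn n : ℕ) : ℝ) ^ (-(1 / 8) : ℝ) ≤ r ^ n := by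
        have e3 : ((Jn n : ℕ) : ℝ) ^ (-(1 / 8) : ℝ) ≤ ((ρ : ℝ) ^ n) ^ (-(1 / 8) : ℝ) := by
          apply Real.rpow_le_rpow_of_nonpos (by positivity) _ (by norm_num)
          simp only [hJn]
          rw [Nat.cast_mul, Nat.cast_pow]
          have h7 : (1 : ℝ) ≤ (Js : ℝ) := by exact_mod_cast hJs1
          have h0 : (0:ℝ) ≤ (ρ : ℝ) ^ n := by positivity
          nlinarith
        refine e3.trans ?_
        have e4 : ((ρ : ℝ) ^ n) ^ (-(1 / 8) : ℝ) = ((ρ : ℝ) ^ (-(1 / 8) : ℝ)) ^ n := by
          rw [← Real.rpow_natCast, ← Real.rpow_natCast, ← Real.rpow_mul (by positivity),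
            ← Real.rpow_mul (by positivity), mul_comm]
        rw [e4]
        exact pow_le_pow_left₀ (by positivity) (le_max_right _ _) _
      have e5 : 4 * K ≤ K2 := le_max_right _ _
      have e6 : 0 < r ^ n := by positivity
      calc _ ≤ _ := e1
        _ ≤ (1 / 2) * (K2 * r ^ n) + K * r ^ n := by gcongr
        _ ≤ (1 / 2) * (K2 * r ^ n) + (K2 / 4) * r ^ n := by gcongr; linarith
        _ = K2 * (3 / 4) * r ^ n := by ring
        _ ≤ K2 * r * r ^ n := by gcongr
        _ = _ := by rw [pow_succ]; ring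
  set ε : ℕ → ℝ := fun n => Real.sqrt (K2 * r ^ n) with hε
  have hεpos : ∀ n, 0 < ε n := fun n => Real.sqrt_pos.mpr (by positivity)
  have hεsq : ∀ n, ε n ^ 2 = K2 * r ^ n := fun n => Real.sq_sqrt (by positivity)
  have hεanti : ∀ n, ε (n + 1) ≤ ε n := by
    intro n
    apply Real.sqrt_le_sqrt
    rw [pow_succ]
    have : 0 < K2 * r ^ n := by positivity
    nlinarith
  set Bs : ℕ → Set ℝ := fun n => {β | 0 ≤ β ∧ β ≤ 2 ∧ Env (hB F β) k lam (Jn n) ≤ ε n} with hBs
  have hBne : ∀ n, (2 : ℝ) ∈ Bs n := by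
    intro n
    refine ⟨by norm_num, le_rfl, ?_⟩
    rw [Env_zero (fun m => hB_two hbd le_rfl m) hk]
    exact (hεpos n).le
  have hBbdd : ∀ n, BddBelow (Bs n) := fun n => ⟨0, fun β hβ => hβ.1⟩
  set b : ℕ → ℝ := fun n => sInf (Bs n) with hb
  have hb0 : ∀ n, 0 ≤ b n := fun n => le_csInf ⟨2, hBne n⟩ fun β hβ => hβ.1
  have hb2 : ∀ n, b n ≤ 2 := fun n => csInf_le (hBbdd n) (hBne n)
  have hup : ∀ n β, b n < β → β ≤ 2 → Env (hB F β) k lam (Jn n) ≤ ε n := by
    intro n β hβ hβ2
    obtain ⟨β', hβ', hlt⟩ := exists_lt_of_csInf_lt ⟨2, hBne n⟩ hβ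
    exact (Env_mono (hB_nonneg F β) (hB_anti F hlt.le) k lam (Jn n)).trans hβ'.2.2
  have hdown : ∀ n β, 0 ≤ β → β < b n → Env (gB F β) k lam (Jn n) ≤ ε n := by
    intro n β hβ0 hβ
    by_contra hcon
    rw [not_le] at hcon
    have h2 : β ≤ 2 := hβ.le.trans (hb2 n)
    have h3 : ε n < Env (hB F β) k lam (Jn n) := by
      by_contra h4
      have : β ∈ Bs n := ⟨hβ0, h2, not_lt.mp h4⟩
      exact absurd (csInf_le (hBbdd n) this) (not_le.mpr hβ)
    have h5 := hPsi β hβ0 h2 n
    rw [← hεsq] at h5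
    have h6 := hεpos n
    nlinarith
  -- bounds for block moments out of the envelopes
  have hNup : ∀ n β, b n < β → ∀ j, 1 ≤ j → j ≤ Jn n → NN (hB F β) k j ≤ ε n * ((Jn n : ℝ) / j) ^ lam := by
    intro n β hβ j hj1 hj2
    have hjr : (0 : ℝ) < j := by exact_mod_cast hj1
    rcases le_or_gt β 2 with h2 | h2
    · refine (NN_le_Env _ k lam (Jn n) j hj1 hj2).trans ?_
      have := hup n β hβ h2
      gcongr
    · rw [NN_zero (fun m => hB_two hbd h2.le m) hk]
      have := hεpos n
      positivity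
  have hNdown : ∀ n β, β < b n → ∀ j, 1 ≤ j → j ≤ Jn n → NN (gB F β) k j ≤ ε n * ((Jn n : ℝ) / j) ^ lam := by
    intro n β hβ j hj1 hj2
    have hjr : (0 : ℝ) < j := by exact_mod_cast hj1
    rcases le_or_gt 0 β with h2 | h2
    · refine (NN_le_Env _ k lam (Jn n) j hj1 hj2).trans ?_
      have := hdown n β h2 hβ
      gcongr
    · rw [NN_zero (fun m => gB_zero hbd h2.le m) hk]
      have := hεpos n
      positivity
  set C4 : ℝ := 4 * ρ * (ρ : ℝ) ^ (2 * lam) with hC4
  have hC40 : 0 < C4 := by positivity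
  -- separation of consecutive levels
  have hstep : ∀ n, |b (n + 2) - b (n + 1)| ≤ 2 * (C4 * ε (n + 1)) ^ (1 / k : ℝ) := by
    intro n
    have hJn0 : (0 : ℝ) < Jn n := by exact_mod_cast hJn1 n
    -- for t > 0 : generic pair of levels
    have hgen : ∀ β β' : ℝ, β ≤ β' →
        (∀ j, 1 ≤ j → j ≤ Jn (n + 1) → NN (hB F β) k j ≤ ε (n + 1) * ((Jn (n + 2) : ℝ) / j) ^ lam) →
        (∀ j, 1 ≤ j → j ≤ Jn (n + 1) → NN (gB F β') k j ≤ ε (n + 1) * ((Jn (n + 2) : ℝ) / j) ^ lam) →
        β' - β ≤ 2 * (C4 * ε (n + 1)) ^ (1 / k : ℝ) := by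
      intro β β' hββ hh hg
      have hwin : ∀ j, Jn n < j → j ≤ ρ * Jn n →
          ε (n + 1) * ((Jn (n + 2) : ℝ) / j) ^ lam ≤ ε (n + 1) * (ρ : ℝ) ^ (2 * lam) := by
        intro j hj1 hj2
        have hjr : (Jn n : ℝ) < j := by exact_mod_cast hj1
        have := (hεpos (n + 1)).le
        have e1 : ((Jn (n + 2) : ℝ) / j) ≤ (ρ : ℝ) ^ 2 := by
          rw [div_le_iff₀ (hJn0.trans hjr), hJsucc (n + 1), hJsucc n]
          push_cast
          nlinarith [sq_nonneg (ρ : ℝ)]
        rw [pow_mul]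
        gcongr
      have hs := sep (F := F) (β := β) (β' := β') (e := ε (n + 1) * (ρ : ℝ) ^ (2 * lam)) (k := k)
        (ρ := ρ) (J := Jn n) hk hρ (hJn1 n) (hHM (Jn n) (hJn1 n)) hββ
        (fun j hj1 hj2 => (hh j (by omega) (by rw [hJsucc]; exact hj2)).trans (hwin j hj1 hj2))
        (fun j hj1 hj2 => (hg j (by omega) (by rw [hJsucc]; exact hj2)).trans (hwin j hj1 hj2))
        (by have := (hεpos (n + 1)).le; positivity)
      have e2 : 4 * (ρ : ℝ) * (ε (n + 1) * (ρ : ℝ) ^ (2 * lam)) = C4 * ε (n + 1) := by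
        rw [hC4]; ring
      rw [e2] at hs
      have hkr : (k : ℝ) ≠ 0 := by positivity
      have e3 : (β' - β) / 2 ≤ (C4 * ε (n + 1)) ^ (1 / k : ℝ) := by
        have h0 : 0 ≤ (β' - β) / 2 := by linarith
        calc (β' - β) / 2 = (((β' - β) / 2) ^ k) ^ (1 / k : ℝ) := by
              rw [← Real.rpow_natCast, ← Real.rpow_mul h0, mul_one_div_cancel hkr, Real.rpow_one]
          _ ≤ _ := by
              apply Real.rpow_le_rpow (pow_nonneg h0 _) hs (by positivity)
      linarith
    have hratio : ∀ j : ℕ, 1 ≤ j → ((Jn (n + 1) : ℝ) / j) ^ lam ≤ ((Jn (n + 2) : ℝ) / j) ^ lam := by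
      intro j hj
      have hjr : (0 : ℝ) < j := by exact_mod_cast hj
      apply pow_le_pow_left₀ (by positivity)
      rw [div_le_div_iff_of_pos_right hjr, hJsucc (n + 1)]
      push_cast
      have : (0 : ℝ) ≤ Jn (n + 1) := by positivity
      nlinarith
    rw [abs_le]
    constructor
    · -- b (n+2) ≥ b (n+1) - ...
      have : b (n + 1) - b (n + 2) ≤ 2 * (C4 * ε (n + 1)) ^ (1 / k : ℝ) := by
        by_contra hcon
        rw [not_le] at hcon
        have hp : 0 < (C4 * ε (n + 1)) ^ (1 / k : ℝ) := by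
          have := hεpos (n + 1)
          positivity
        set t := (b (n + 1) - b (n + 2) - 2 * (C4 * ε (n + 1)) ^ (1 / k : ℝ)) / 3 with ht
        have ht0 : 0 < t := by rw [ht]; linarith
        have hle : b (n + 2) + t ≤ b (n + 1) - t := by
          have : 2 * t ≤ b (n + 1) - b (n + 2) := by rw [ht]; linarith
          linarith
        have := hgen (b (n + 2) + t) (b (n + 1) - t) hle
          (fun j hj1 hj2 => by
            have e1 := hNup (n + 2) (b (n + 2) + t) (by linarith) j hj1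
              (hj2.trans (by rw [hJsucc (n + 1)]; exact Nat.le_mul_of_pos_left _ (by omega)))
            refine e1.trans ?_
            have := hεanti (n + 1)
            have hjr : (0 : ℝ) < j := by exact_mod_cast hj1
            gcongr)
          (fun j hj1 hj2 => by
            have e1 := hNdown (n + 1) (b (n + 1) - t) (by linarith) j hj1 hj2
            refine e1.trans ?_
            have := (hεpos (n + 1)).le
            have := hratio j hj1
            gcongr)
        linarith
      linarith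
    · have : b (n + 2) - b (n + 1) ≤ 2 * (C4 * ε (n + 1)) ^ (1 / k : ℝ) := by
        by_contra hcon
        rw [not_le] at hcon
        have hp : 0 < (C4 * ε (n + 1)) ^ (1 / k : ℝ) := by
          have := hεpos (n + 1)
          positivity
        set t := (b (n + 2) - b (n + 1) - 2 * (C4 * ε (n + 1)) ^ (1 / k : ℝ)) / 3 with ht
        have ht0 : 0 < t := by rw [ht]; linarith
        have hle : b (n + 1) + t ≤ b (n + 2) - t := by
          have : 2 * t ≤ b (n + 2) - b (n + 1) := by rw [ht]; linarith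
          linarith
        have := hgen (b (n + 1) + t) (b (n + 2) - t) hle
          (fun j hj1 hj2 => by
            have e1 := hNup (n + 1) (b (n + 1) + t) (by linarith) j hj1 hj2
            refine e1.trans ?_
            have := (hεpos (n + 1)).le
            have := hratio j hj1
            gcongr)
          (fun j hj1 hj2 => by
            have e1 := hNdown (n + 2) (b (n + 2) - t) (by linarith) j hj1
              (hj2.trans (by rw [hJsucc (n + 1)]; exact Nat.le_mul_of_pos_left _ (by omega)))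
            refine e1.trans ?_
            have := hεanti (n + 1)
            have hjr : (0 : ℝ) < j := by exact_mod_cast hj1
            gcongr)
        linarith
      exact this
  -- convergence
  set s : ℝ := (Real.sqrt r) ^ (1 / k : ℝ) with hs
  have hkr0 : (0 : ℝ) < k := by exact_mod_cast hk
  have hs0 : 0 < s := by
    have := Real.sqrt_pos.mpr hr0
    positivity
  have hs1 : s < 1 := by
    apply Real.rpow_lt_one (Real.sqrt_nonneg _) _ (by positivity)
    rw [Real.sqrt_lt' (by norm_num)]; linarith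
  set C5 : ℝ := 2 * (C4 * Real.sqrt K2) ^ (1 / k : ℝ) with hC5
  have hεr : ∀ n, 2 * (C4 * ε n) ^ (1 / k : ℝ) = C5 * s ^ n := by
    intro n
    have e1 : ε n = Real.sqrt K2 * (Real.sqrt r) ^ n := by
      simp only [hε]
      rw [Real.sqrt_mul hK20.le]
      congr 1
      rw [Real.sqrt_eq_iff_mul_self_eq (by positivity) (by positivity), ← pow_two, ← pow_mul,
        mul_comm n 2, pow_mul, Real.sq_sqrt hr0.le]
    have e2 : ((Real.sqrt r) ^ n) ^ (1 / k : ℝ) = s ^ n := by
      rw [hs, ← Real.rpow_natCast, ← Real.rpow_natCast, ← Real.rpow_mul (Real.sqrt_nonneg _),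
        ← Real.rpow_mul (Real.sqrt_nonneg _), mul_comm]
    rw [e1, ← mul_assoc, Real.mul_rpow (by positivity) (by positivity), e2, hC5]
    ring
  have hcau : CauchySeq (fun n => b (n + 1)) := by
    apply cauchySeq_of_le_geometric s (C5 * s) hs1
    intro n
    rw [Real.dist_eq, abs_sub_comm]
    have := hstep n
    rw [hεr] at this
    refine this.trans (le_of_eq ?_)
    rw [pow_succ]; ring
  obtain ⟨α, hα⟩ := cauchySeq_tendsto_of_complete hcau
  have hα' : Filter.Tendsto b Filter.atTop (nhds α) := (Filter.tendsto_add_atTop_iff_nat 1).mp hα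
  refine ⟨α, ?_⟩
  have hεlim : Filter.Tendsto ε Filter.atTop (nhds 0) := by
    have h2 : Filter.Tendsto (fun n => K2 * r ^ n) Filter.atTop (nhds (K2 * 0)) :=
      (tendsto_pow_atTop_nhds_zero_of_lt_one hr0.le hr1).const_mul _
    rw [mul_zero] at h2
    have h3 := h2.sqrt
    rwa [Real.sqrt_zero] at h3
  rw [Metric.tendsto_atTop]
  intro δ hδ
  set η : ℝ := δ / (6 * (Cb + 1)) with hη
  have hη0 : 0 < η := by positivity
  -- n large
  obtain ⟨n1, hn1⟩ := Metric.tendsto_atTop.mp hα' η hη0
  obtain ⟨n2, hn2⟩ := Metric.tendsto_atTop.mp hεlim (δ * η ^ (k - 1) / (8 * (ρ : ℝ) ^ lam)) (by positivity)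
  set n0 := max n1 n2 with hn0
  refine ⟨Jn n0 + 1, fun J hJ => ?_⟩
  -- the stage of J
  obtain ⟨n, hnn, hJl, hJu⟩ : ∃ n, n0 ≤ n ∧ Jn n < J ∧ J ≤ Jn (n + 1) := by
    have hex : ∃ m, J ≤ Jn m := by
      refine ⟨J, ?_⟩
      have h2 : J < ρ ^ J := Nat.lt_pow_self (by omega)
      exact h2.le.trans (Nat.le_mul_of_pos_right _ hJs1)
    set m := Nat.find hex with hm
    have hm1 := Nat.find_spec hex
    have hm2 : n0 < m := by
      by_contra hcon
      rw [not_lt] at hcon
      have hmono : Jn m ≤ Jn n0 := by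
        simp only [hJn]
        exact Nat.mul_le_mul_right _ (Nat.pow_le_pow_right (by omega) hcon)
      have : J ≤ Jn n0 := hm1.trans hmono
      omega
    refine ⟨m - 1, by omega, ?_, ?_⟩
    · have := Nat.find_min hex (show m - 1 < m by omega)
      exact not_le.mp this
    · rw [show m - 1 + 1 = m by omega]; exact hm1
  have hJ1' : 1 ≤ J := by omega
  have hJr : (0 : ℝ) < J := by exact_mod_cast hJ1'
  have hbn := hn1 (n + 1) (le_trans (le_max_left n1 n2) (by omega))
  have hεn := hn2 (n + 1) (le_trans (le_max_right n1 n2) (by omega))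
  rw [Real.dist_eq, abs_lt] at hbn
  rw [Real.dist_eq, sub_zero, abs_of_pos (hεpos _)] at hεn
  have hrat : ((Jn (n + 1) : ℝ) / J) ^ lam ≤ (ρ : ℝ) ^ lam := by
    apply pow_le_pow_left₀ (by positivity)
    rw [div_le_iff₀ hJr, hJsucc]
    push_cast
    have : (Jn n : ℝ) ≤ J := by exact_mod_cast hJl.le
    nlinarith
  have hNh : NN (hB F (α + η)) k J ≤ δ * η ^ (k - 1) / 8 := by
    have e1 := hNup (n + 1) (α + η) (by linarith [hbn.2]) J hJ1' hJu
    refine e1.trans ?_
    calc ε (n + 1) * ((Jn (n + 1) : ℝ) / J) ^ lam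
        ≤ (δ * η ^ (k - 1) / (8 * (ρ : ℝ) ^ lam)) * (ρ : ℝ) ^ lam := by gcongr
      _ = _ := by field_simp
  have hNg : NN (gB F (α - η)) k J ≤ δ * η ^ (k - 1) / 8 := by
    have e1 := hNdown (n + 1) (α - η) (by linarith [hbn.1]) J hJ1' hJu
    refine e1.trans ?_
    calc ε (n + 1) * ((Jn (n + 1) : ℝ) / J) ^ lam
        ≤ (δ * η ^ (k - 1) / (8 * (ρ : ℝ) ^ lam)) * (ρ : ℝ) ^ lam := by gcongr
      _ = _ := by field_simp
  -- pointwise bound
  have hyoung : ∀ x : ℝ, 0 ≤ x → x ≤ η + x ^ k / η ^ (k - 1) := by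
    intro x hx
    rcases le_or_gt x η with h | h
    · have : 0 ≤ x ^ k / η ^ (k - 1) := by positivity
      linarith
    · have : x ≤ x ^ k / η ^ (k - 1) := by
        rw [le_div_iff₀ (by positivity)]
        calc x * η ^ (k - 1) ≤ x * x ^ (k - 1) := by gcongr
          _ = x ^ k := by
            rw [← pow_succ']; congr 1; omega
      linarith
  have hpt : ∀ p ∈ blk J, |F p / Real.log p - α| ≤
      3 * η + hB F (α + η) p ^ k / η ^ (k - 1) + gB F (α - η) p ^ k / η ^ (k - 1) := by
    intro p hp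
    have hpp : p.Prime := by
      unfold blk at hp; exact (Finset.mem_filter.mp hp).2
    have e1 : |F p / Real.log p - α| ≤ hB F (α + η) p + gB F (α - η) p + η := by
      unfold hB gB
      rw [if_pos hpp, if_pos hpp]
      have a1 := le_max_left 0 (F p / Real.log p - (α + η))
      have a2 := le_max_right 0 (F p / Real.log p - (α + η))
      have a3 := le_max_left 0 (α - η - F p / Real.log p)
      have a4 := le_max_right 0 (α - η - F p / Real.log p)
      rw [abs_le]; constructor <;> linarith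
    have e2 := hyoung _ (hB_nonneg F (α + η) p)
    have e3 := hyoung _ (gB_nonneg F (α - η) p)
    linarith
  rw [Real.dist_eq, sub_zero, abs_of_nonneg (by positivity)]
  have hcard := hblk J hJ1'
  have hsum : ((J : ℝ) / 2 ^ J) * ∑ p ∈ blk J, |F p / Real.log p - α| ≤
      3 * η * ((J : ℝ) / 2 ^ J * (blk J).card) +
        (NN (hB F (α + η)) k J + NN (gB F (α - η)) k J) / η ^ (k - 1) := by
    calc ((J : ℝ) / 2 ^ J) * ∑ p ∈ blk J, |F p / Real.log p - α|
        ≤ ((J : ℝ) / 2 ^ J) * ∑ p ∈ blk J, (3 * η + hB F (α + η) p ^ k / η ^ (k - 1) +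
          gB F (α - η) p ^ k / η ^ (k - 1)) := by
          apply mul_le_mul_of_nonneg_left (Finset.sum_le_sum hpt) (by positivity)
      _ = _ := by
          rw [Finset.sum_add_distrib, Finset.sum_add_distrib, Finset.sum_const, nsmul_eq_mul,
            ← Finset.sum_div, ← Finset.sum_div]
          unfold NN
          ring
  have hfin : (NN (hB F (α + η)) k J + NN (gB F (α - η)) k J) / η ^ (k - 1) ≤ δ / 4 := by
    rw [div_le_iff₀ (by positivity)]
    have : δ * η ^ (k - 1) / 8 + δ * η ^ (k - 1) / 8 = δ / 4 * η ^ (k - 1) := by ring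
    linarith
  have h3η : 3 * η * ((J : ℝ) / 2 ^ J * (blk J).card) ≤ δ / 2 := by
    calc 3 * η * ((J : ℝ) / 2 ^ J * (blk J).card) ≤ 3 * η * Cb := by gcongr
      _ ≤ 3 * η * (Cb + 1) := by gcongr; linarith
      _ = δ / 2 := by rw [hη]; field_simp; ring
  linarith

end Pool.Agent.N907.EG
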