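import Pool.Agent.N907.EG.End

/-!
Quantitative form of the concentration for primes.
-/

set_option autoImplicit false

open Finset

namespace Pool.Agent.N907.EG

open Fin9

/-- **conclusion for primes**, with a rate -/
theorem s_primesQ (hRI : S_RI) (F : ℕ → ℝ) (h1 : F 1 = 0)
    (hadd : ∀ m n : ℕ, 1 ≤ m → 1 ≤ n → F (m * n) = F m + F n)
    (hrec : ∀ p : ℕ, p.Prime → 3 ≤ p → F p = F (p - 1))
    (hbd : ∀ n : ℕ, 1 ≤ n → 0 ≤ F n ∧ F n ≤ 2 * Real.log n) :
    ∃ α c C : ℝ, 0 ≤ α ∧ α ≤ 2 ∧ 0 < c ∧ 0 < C ∧ ∀ J : ℕ, 1 ≤ J →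
      ((J : ℝ) / 2 ^ J) * ∑ p ∈ blk J, |F p / Real.log p - α| ≤ C * (J : ℝ) ^ (-c) := by
  classical
  obtain ⟨k, lam, ρ, J1, K, hk, hlam, hρ, hK, hHM, hctr⟩ := contraction hRI
  obtain ⟨Cb, hCb, hblk⟩ := Ctr.blk_card
  obtain ⟨Cn, hCn, hNle⟩ := Ctr.NN_le
  have hρr : (2 : ℝ) ≤ ρ := by exact_mod_cast hρ
  set Js : ℕ := max J1 1 with hJs
  have hJs1 : 1 ≤ Js := le_max_right _ _
  set Jn : ℕ → ℕ := fun n => ρ ^ n * Js with hJn
  have hJn1 : ∀ n, 1 ≤ Jn n := fun n => Nat.mul_pos (Nat.pos_of_ne_zero (by positivity)) hJs1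
  have hJnJ1 : ∀ n, J1 ≤ Jn n := fun n => by
    have h2 : Js ≤ Jn n := Nat.le_mul_of_pos_left Js (by positivity)
    exact le_trans (le_max_left _ _) h2
  have hJsucc : ∀ n, Jn (n + 1) = ρ * Jn n := fun n => by
    simp only [hJn, pow_succ]; ring
  set r : ℝ := max (3 / 4) ((ρ : ℝ) ^ (-(1 / 8) : ℝ)) with hr
  have hr34 : 3 / 4 ≤ r := le_max_left _ _
  have hr1 : r < 1 := by
    rw [hr]
    apply max_lt (by norm_num)
    exact Real.rpow_lt_one_of_one_lt_of_neg (by linarith) (by norm_num)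
  have hr0 : 0 < r := by linarith
  set Am : ℝ := Cn * 2 ^ k with hAm
  have hAm0 : 0 < Am := by positivity
  set K2 : ℝ := max (Am ^ 2) (4 * K) with hK2
  have hK20 : 0 < K2 := lt_of_lt_of_le (by positivity) (le_max_left _ _)
  -- bound for the envelopes
  have hEA : ∀ f : ℕ → ℝ, Adm f → ∀ J, 1 ≤ J → Env f k lam J ≤ Am := by
    intro f hf J hJ
    have hJr : (0 : ℝ) < J := by exact_mod_cast hJ
    apply Env_le hAm0.le
    intro j hj1 hj2
    have e1 := hNle f hf k j hj1
    have e2 : ((j : ℝ) / J) ^ lam ≤ 1 := by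
      apply pow_le_one₀ (by positivity)
      rw [div_le_one hJr]; exact_mod_cast hj2
    have e3 := Ctr.NN_nonneg hf k j
    have e4 : 0 ≤ ((j : ℝ) / J) ^ lam := by positivity
    nlinarith
  -- geometric decay of the product
  have hPsi : ∀ β : ℝ, 0 ≤ β → β ≤ 2 → ∀ n,
      Env (hB F β) k lam (Jn n) * Env (gB F β) k lam (Jn n) ≤ K2 * r ^ n := by
    intro β hβ hβ2 n
    have ah := adm_h h1 hadd hrec hbd hβ
    have ag := adm_g h1 hadd hrec hbd hβ hβ2
    induction n with
    | zero =>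
      have e1 := hEA _ ah (Jn 0) (hJn1 0)
      have e2 := hEA _ ag (Jn 0) (hJn1 0)
      have e3 := Env_nonneg (hB F β) k lam (Jn 0)
      have e4 := Env_nonneg (gB F β) k lam (Jn 0)
      rw [pow_zero, mul_one]
      refine le_trans ?_ (le_max_left _ _)
      nlinarith
    | succ n ih =>
      have e1 := hctr _ _ ah ag (fun q hq => hg_zero F β q hq) (Jn n) (hJnJ1 n)
      rw [← hJsucc] at e1
      have e2 : ((Jn n : ℕ) : ℝ) ^ (-(1 / 8) : ℝ) ≤ r ^ n := by
        have e3 : ((Jn n : ℕ) : ℝ) ^ (-(1 / 8) : ℝ) ≤ ((ρ : ℝ) ^ n) ^ (-(1 / 8) : ℝ) := by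
          apply Real.rpow_le_rpow_of_nonpos (by positivity) _ (by norm_num)
          simp only [hJn]
          rw [Nat.cast_mul, Nat.cast_pow]
          have h7 : (1 : ℝ) ≤ (Js : ℝ) := by exact_mod_cast hJs1
          have h0 : (0:ℝ) ≤ (ρ : ℝ) ^ n := by positivity
          nlinarith
        refine e3.trans ?_
        have e4 : ((ρ : ℝ) ^ n) ^ (-(1 / 8) : ℝ) = ((ρ : ℝ) ^ (-(1 / 8) : ℝ)) ^ n := by
          rw [← Real.rpow_natCast, ← Real.rpow_natCast, ← Real.rpow_mul (by positivity),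
            ← Real.rpow_mul (by positivity), mul_comm]
        rw [e4]
        exact pow_le_pow_left₀ (by positivity) (le_max_right _ _) _
      have e5 : 4 * K ≤ K2 := le_max_right _ _
      have e6 : 0 < r ^ n := by positivity
      calc _ ≤ _ := e1
        _ ≤ (1 / 2) * (K2 * r ^ n) + K * r ^ n := by gcongr
        _ ≤ (1 / 2) * (K2 * r ^ n) + (K2 / 4) * r ^ n := by gcongr; linarith
        _ = K2 * (3 / 4) * r ^ n := by ring
        _ ≤ K2 * r * r ^ n := by gcongr
        _ = _ := by rw [pow_succ]; ring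
  set ε : ℕ → ℝ := fun n => Real.sqrt (K2 * r ^ n) with hε
  have hεpos : ∀ n, 0 < ε n := fun n => Real.sqrt_pos.mpr (by positivity)
  have hεsq : ∀ n, ε n ^ 2 = K2 * r ^ n := fun n => Real.sq_sqrt (by positivity)
  have hεanti : ∀ n, ε (n + 1) ≤ ε n := by
    intro n
    apply Real.sqrt_le_sqrt
    rw [pow_succ]
    have : 0 < K2 * r ^ n := by positivity
    nlinarith
  set Bs : ℕ → Set ℝ := fun n => {β | 0 ≤ β ∧ β ≤ 2 ∧ Env (hB F β) k lam (Jn n) ≤ ε n} with hBs
  have hBne : ∀ n, (2 : ℝ) ∈ Bs n := by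
    intro n
    refine ⟨by norm_num, le_rfl, ?_⟩
    rw [Env_zero (fun m => hB_two hbd le_rfl m) hk]
    exact (hεpos n).le
  have hBbdd : ∀ n, BddBelow (Bs n) := fun n => ⟨0, fun β hβ => hβ.1⟩
  set b : ℕ → ℝ := fun n => sInf (Bs n) with hb
  have hb0 : ∀ n, 0 ≤ b n := fun n => le_csInf ⟨2, hBne n⟩ fun β hβ => hβ.1
  have hb2 : ∀ n, b n ≤ 2 := fun n => csInf_le (hBbdd n) (hBne n)
  have hup : ∀ n β, b n < β → β ≤ 2 → Env (hB F β) k lam (Jn n) ≤ ε n := by
    intro n β hβ hβ2
    obtain ⟨β', hβ', hlt⟩ := exists_lt_of_csInf_lt ⟨2, hBne n⟩ hβ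
    exact (Env_mono (hB_nonneg F β) (hB_anti F hlt.le) k lam (Jn n)).trans hβ'.2.2
  have hdown : ∀ n β, 0 ≤ β → β < b n → Env (gB F β) k lam (Jn n) ≤ ε n := by
    intro n β hβ0 hβ
    by_contra hcon
    rw [not_le] at hcon
    have h2 : β ≤ 2 := hβ.le.trans (hb2 n)
    have h3 : ε n < Env (hB F β) k lam (Jn n) := by
      by_contra h4
      have : β ∈ Bs n := ⟨hβ0, h2, not_lt.mp h4⟩
      exact absurd (csInf_le (hBbdd n) this) (not_le.mpr hβ)
    have h5 := hPsi β hβ0 h2 n
    rw [← hεsq] at h5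
    have h6 := hεpos n
    nlinarith
  -- bounds for block moments out of the envelopes
  have hNup : ∀ n β, b n < β → ∀ j, 1 ≤ j → j ≤ Jn n → NN (hB F β) k j ≤ ε n * ((Jn n : ℝ) / j) ^ lam := by
    intro n β hβ j hj1 hj2
    have hjr : (0 : ℝ) < j := by exact_mod_cast hj1
    rcases le_or_gt β 2 with h2 | h2
    · refine (NN_le_Env _ k lam (Jn n) j hj1 hj2).trans ?_
      have := hup n β hβ h2
      gcongr
    · rw [NN_zero (fun m => hB_two hbd h2.le m) hk]
      have := hεpos n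
      positivity
  have hNdown : ∀ n β, β < b n → ∀ j, 1 ≤ j → j ≤ Jn n → NN (gB F β) k j ≤ ε n * ((Jn n : ℝ) / j) ^ lam := by
    intro n β hβ j hj1 hj2
    have hjr : (0 : ℝ) < j := by exact_mod_cast hj1
    rcases le_or_gt 0 β with h2 | h2
    · refine (NN_le_Env _ k lam (Jn n) j hj1 hj2).trans ?_
      have := hdown n β h2 hβ
      gcongr
    · rw [NN_zero (fun m => gB_zero hbd h2.le m) hk]
      have := hεpos n
      positivity
  set C4 : ℝ := 4 * ρ * (ρ : ℝ) ^ (2 * lam) with hC4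
  have hC40 : 0 < C4 := by positivity
  -- separation of consecutive levels
  have hstep : ∀ n, |b (n + 2) - b (n + 1)| ≤ 2 * (C4 * ε (n + 1)) ^ (1 / k : ℝ) := by
    intro n
    have hJn0 : (0 : ℝ) < Jn n := by exact_mod_cast hJn1 n
    -- for t > 0 : generic pair of levels
    have hgen : ∀ β β' : ℝ, β ≤ β' →
        (∀ j, 1 ≤ j → j ≤ Jn (n + 1) → NN (hB F β) k j ≤ ε (n + 1) * ((Jn (n + 2) : ℝ) / j) ^ lam) →
        (∀ j, 1 ≤ j → j ≤ Jn (n + 1) → NN (gB F β') k j ≤ ε (n + 1) * ((Jn (n + 2) : ℝ) / j) ^ lam) →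
        β' - β ≤ 2 * (C4 * ε (n + 1)) ^ (1 / k : ℝ) := by
      intro β β' hββ hh hg
      have hwin : ∀ j, Jn n < j → j ≤ ρ * Jn n →
          ε (n + 1) * ((Jn (n + 2) : ℝ) / j) ^ lam ≤ ε (n + 1) * (ρ : ℝ) ^ (2 * lam) := by
        intro j hj1 hj2
        have hjr : (Jn n : ℝ) < j := by exact_mod_cast hj1
        have := (hεpos (n + 1)).le
        have e1 : ((Jn (n + 2) : ℝ) / j) ≤ (ρ : ℝ) ^ 2 := by
          rw [div_le_iff₀ (hJn0.trans hjr), hJsucc (n + 1), hJsucc n]
          push_cast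
          nlinarith [sq_nonneg (ρ : ℝ)]
        rw [pow_mul]
        gcongr
      have hs := sep (F := F) (β := β) (β' := β') (e := ε (n + 1) * (ρ : ℝ) ^ (2 * lam)) (k := k)
        (ρ := ρ) (J := Jn n) hk hρ (hJn1 n) (hHM (Jn n) (hJn1 n)) hββ
        (fun j hj1 hj2 => (hh j (by omega) (by rw [hJsucc]; exact hj2)).trans (hwin j hj1 hj2))
        (fun j hj1 hj2 => (hg j (by omega) (by rw [hJsucc]; exact hj2)).trans (hwin j hj1 hj2))
        (by have := (hεpos (n + 1)).le; positivity)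
      have e2 : 4 * (ρ : ℝ) * (ε (n + 1) * (ρ : ℝ) ^ (2 * lam)) = C4 * ε (n + 1) := by
        rw [hC4]; ring
      rw [e2] at hs
      have hkr : (k : ℝ) ≠ 0 := by positivity
      have e3 : (β' - β) / 2 ≤ (C4 * ε (n + 1)) ^ (1 / k : ℝ) := by
        have h0 : 0 ≤ (β' - β) / 2 := by linarith
        calc (β' - β) / 2 = (((β' - β) / 2) ^ k) ^ (1 / k : ℝ) := by
              rw [← Real.rpow_natCast, ← Real.rpow_mul h0, mul_one_div_cancel hkr, Real.rpow_one]
          _ ≤ _ := by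
              apply Real.rpow_le_rpow (pow_nonneg h0 _) hs (by positivity)
      linarith
    have hratio : ∀ j : ℕ, 1 ≤ j → ((Jn (n + 1) : ℝ) / j) ^ lam ≤ ((Jn (n + 2) : ℝ) / j) ^ lam := by
      intro j hj
      have hjr : (0 : ℝ) < j := by exact_mod_cast hj
      apply pow_le_pow_left₀ (by positivity)
      rw [div_le_div_iff_of_pos_right hjr, hJsucc (n + 1)]
      push_cast
      have : (0 : ℝ) ≤ Jn (n + 1) := by positivity
      nlinarith
    rw [abs_le]
    constructor
    · -- b (n+2) ≥ b (n+1) - ...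
      have : b (n + 1) - b (n + 2) ≤ 2 * (C4 * ε (n + 1)) ^ (1 / k : ℝ) := by
        by_contra hcon
        rw [not_le] at hcon
        have hp : 0 < (C4 * ε (n + 1)) ^ (1 / k : ℝ) := by
          have := hεpos (n + 1)
          positivity
        set t := (b (n + 1) - b (n + 2) - 2 * (C4 * ε (n + 1)) ^ (1 / k : ℝ)) / 3 with ht
        have ht0 : 0 < t := by rw [ht]; linarith
        have hle : b (n + 2) + t ≤ b (n + 1) - t := by
          have : 2 * t ≤ b (n + 1) - b (n + 2) := by rw [ht]; linarith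
          linarith
        have := hgen (b (n + 2) + t) (b (n + 1) - t) hle
          (fun j hj1 hj2 => by
            have e1 := hNup (n + 2) (b (n + 2) + t) (by linarith) j hj1
              (hj2.trans (by rw [hJsucc (n + 1)]; exact Nat.le_mul_of_pos_left _ (by omega)))
            refine e1.trans ?_
            have := hεanti (n + 1)
            have hjr : (0 : ℝ) < j := by exact_mod_cast hj1
            gcongr)
          (fun j hj1 hj2 => by
            have e1 := hNdown (n + 1) (b (n + 1) - t) (by linarith) j hj1 hj2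
            refine e1.trans ?_
            have := (hεpos (n + 1)).le
            have := hratio j hj1
            gcongr)
        linarith
      linarith
    · have : b (n + 2) - b (n + 1) ≤ 2 * (C4 * ε (n + 1)) ^ (1 / k : ℝ) := by
        by_contra hcon
        rw [not_le] at hcon
        have hp : 0 < (C4 * ε (n + 1)) ^ (1 / k : ℝ) := by
          have := hεpos (n + 1)
          positivity
        set t := (b (n + 2) - b (n + 1) - 2 * (C4 * ε (n + 1)) ^ (1 / k : ℝ)) / 3 with ht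
        have ht0 : 0 < t := by rw [ht]; linarith
        have hle : b (n + 1) + t ≤ b (n + 2) - t := by
          have : 2 * t ≤ b (n + 2) - b (n + 1) := by rw [ht]; linarith
          linarith
        have := hgen (b (n + 1) + t) (b (n + 2) - t) hle
          (fun j hj1 hj2 => by
            have e1 := hNup (n + 1) (b (n + 1) + t) (by linarith) j hj1 hj2
            refine e1.trans ?_
            have := (hεpos (n + 1)).le
            have := hratio j hj1
            gcongr)
          (fun j hj1 hj2 => by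
            have e1 := hNdown (n + 2) (b (n + 2) - t) (by linarith) j hj1
              (hj2.trans (by rw [hJsucc (n + 1)]; exact Nat.le_mul_of_pos_left _ (by omega)))
            refine e1.trans ?_
            have := hεanti (n + 1)
            have hjr : (0 : ℝ) < j := by exact_mod_cast hj1
            gcongr)
        linarith
      exact this
  -- convergence
  set s : ℝ := (Real.sqrt r) ^ (1 / k : ℝ) with hs
  have hkr0 : (0 : ℝ) < k := by exact_mod_cast hk
  have hs0 : 0 < s := by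
    have := Real.sqrt_pos.mpr hr0
    positivity
  have hs1 : s < 1 := by
    apply Real.rpow_lt_one (Real.sqrt_nonneg _) _ (by positivity)
    rw [Real.sqrt_lt' (by norm_num)]; linarith
  set C5 : ℝ := 2 * (C4 * Real.sqrt K2) ^ (1 / k : ℝ) with hC5
  have hεr : ∀ n, 2 * (C4 * ε n) ^ (1 / k : ℝ) = C5 * s ^ n := by
    intro n
    have e1 : ε n = Real.sqrt K2 * (Real.sqrt r) ^ n := by
      simp only [hε]
      rw [Real.sqrt_mul hK20.le]
      congr 1
      rw [Real.sqrt_eq_iff_mul_self_eq (by positivity) (by positivity), ← pow_two, ← pow_mul,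
        mul_comm n 2, pow_mul, Real.sq_sqrt hr0.le]
    have e2 : ((Real.sqrt r) ^ n) ^ (1 / k : ℝ) = s ^ n := by
      rw [hs, ← Real.rpow_natCast, ← Real.rpow_natCast, ← Real.rpow_mul (Real.sqrt_nonneg _),
        ← Real.rpow_mul (Real.sqrt_nonneg _), mul_comm]
    rw [e1, ← mul_assoc, Real.mul_rpow (by positivity) (by positivity), e2, hC5]
    ring
  have hcau : CauchySeq (fun n => b (n + 1)) := by
    apply cauchySeq_of_le_geometric s (C5 * s) hs1
    intro n
    rw [Real.dist_eq, abs_sub_comm]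
    have := hstep n
    rw [hεr] at this
    refine this.trans (le_of_eq ?_)
    rw [pow_succ]; ring
  obtain ⟨α, hα⟩ := cauchySeq_tendsto_of_complete hcau
  have hα' : Filter.Tendsto b Filter.atTop (nhds α) := (Filter.tendsto_add_atTop_iff_nat 1).mp hα
  have hα0 : 0 ≤ α := ge_of_tendsto' hα' hb0
  have hα2 : α ≤ 2 := le_of_tendsto' hα' hb2
  have hdist : ∀ n, |b (n + 1) - α| ≤ C5 * s * s ^ n / (1 - s) := by
    intro n
    have hd : ∀ n, dist (b (n + 1)) (b (n + 1 + 1)) ≤ C5 * s * s ^ n := by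
      intro n
      rw [Real.dist_eq, abs_sub_comm]
      have := hstep n
      rw [hεr] at this
      refine this.trans (le_of_eq ?_)
      rw [pow_succ]; ring
    have := dist_le_of_le_geometric_of_tendsto s (C5 * s) hs1 hd hα n
    rwa [Real.dist_eq] at this
  set C6 : ℝ := C5 * s / (1 - s) with hC6
  have hC50 : 0 < C5 := by
    rw [hC5]
    have := Real.sqrt_pos.mpr hK20
    positivity
  have h1s : 0 < 1 - s := by linarith
  have hC60 : 0 < C6 := by positivity
  -- exponent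
  have hlogρ : 0 < Real.log ρ := Real.log_pos (by linarith)
  have hlogs : Real.log s < 0 := Real.log_neg hs0 hs1
  set c : ℝ := -Real.log s / Real.log ρ with hc
  have hc0 : 0 < c := div_pos (by linarith) hlogρ
  have hρc : (ρ : ℝ) ^ (-c) = s := by
    rw [Real.rpow_def_of_pos (by linarith), hc]
    have : Real.log ρ * -(-Real.log s / Real.log ρ) = Real.log s := by field_simp
    rw [this, Real.exp_log hs0]
  have hJs0 : (0 : ℝ) < Js := by exact_mod_cast hJs1
  set C7 : ℝ := 3 * (C6 + 1) * Cb + 2 * Real.sqrt K2 * (ρ : ℝ) ^ lam with hC7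
  have hC70 : 0 < C7 := by positivity
  set C8 : ℝ := C7 / s * (Js : ℝ) ^ c + (2 + α) * Cb * (Js : ℝ) ^ c with hC8
  have hC80 : 0 < C8 := by positivity
  refine ⟨α, c, C8, hα0, hα2, hc0, hC80, fun J hJ1' => ?_⟩
  have hJr : (0 : ℝ) < J := by exact_mod_cast hJ1'
  have hcard := hblk J hJ1'
  rcases le_or_gt J Js with hJle | hJgt
  · -- small J
    have e1 : ((J : ℝ) / 2 ^ J) * ∑ p ∈ blk J, |F p / Real.log p - α| ≤ (2 + α) * Cb := by
      have hpt : ∀ p ∈ blk J, |F p / Real.log p - α| ≤ 2 + α := by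
        intro p hp
        have hpp : p.Prime := by
          unfold blk at hp; exact (Finset.mem_filter.mp hp).2
        have hG := G_bd hbd hpp
        rw [abs_le]; constructor <;> linarith [hG.1, hG.2]
      calc ((J : ℝ) / 2 ^ J) * ∑ p ∈ blk J, |F p / Real.log p - α|
          ≤ ((J : ℝ) / 2 ^ J) * ∑ _p ∈ blk J, (2 + α) := by
            apply mul_le_mul_of_nonneg_left (Finset.sum_le_sum hpt) (by positivity)
        _ = (2 + α) * ((J : ℝ) / 2 ^ J * (blk J).card) := by
            rw [Finset.sum_const, nsmul_eq_mul]; ring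
        _ ≤ (2 + α) * Cb := by gcongr
    have e2 : (Js : ℝ) ^ (-c) ≤ (J : ℝ) ^ (-c) :=
      Real.rpow_le_rpow_of_nonpos hJr (by exact_mod_cast hJle) (by linarith)
    have e3 : (Js : ℝ) ^ c * (Js : ℝ) ^ (-c) = 1 := by
      rw [← Real.rpow_add hJs0]; simp
    calc ((J : ℝ) / 2 ^ J) * ∑ p ∈ blk J, |F p / Real.log p - α|
        ≤ (2 + α) * Cb := e1
      _ = (2 + α) * Cb * ((Js : ℝ) ^ c * (Js : ℝ) ^ (-c)) := by rw [e3, mul_one]
      _ ≤ (2 + α) * Cb * ((Js : ℝ) ^ c * (J : ℝ) ^ (-c)) := by gcongr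
      _ = ((2 + α) * Cb * (Js : ℝ) ^ c) * (J : ℝ) ^ (-c) := by ring
      _ ≤ C8 * (J : ℝ) ^ (-c) := by
          gcongr
          rw [hC8]
          have : 0 ≤ C7 / s * (Js : ℝ) ^ c := by positivity
          linarith
  -- the stage of J
  obtain ⟨n, hJl, hJu⟩ : ∃ n, Jn n < J ∧ J ≤ Jn (n + 1) := by
    have hex : ∃ m, J ≤ Jn m := by
      refine ⟨J, ?_⟩
      have h2 : J < ρ ^ J := Nat.lt_pow_self (by omega)
      exact h2.le.trans (Nat.le_mul_of_pos_right _ hJs1)
    set m := Nat.find hex with hm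
    have hm1 := Nat.find_spec hex
    have hm2 : 0 < m := by
      by_contra hcon
      have hm0 : m = 0 := by omega
      rw [← hm, hm0] at hm1
      have : Jn 0 = Js := by simp [hJn]
      omega
    refine ⟨m - 1, ?_, ?_⟩
    · have := Nat.find_min hex (show m - 1 < m by omega)
      exact not_le.mp this
    · rw [show m - 1 + 1 = m by omega]; exact hm1
  set η : ℝ := (C6 + 1) * s ^ n with hη
  have hsn : 0 < s ^ n := by positivity
  have hη0 : 0 < η := by positivity
  have hbn : |b (n + 1) - α| < η := by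
    refine (hdist n).trans_lt ?_
    have : C5 * s * s ^ n / (1 - s) = C6 * s ^ n := by rw [hC6]; ring
    rw [this, hη]
    nlinarith
  rw [abs_lt] at hbn
  have hrat : ((Jn (n + 1) : ℝ) / J) ^ lam ≤ (ρ : ℝ) ^ lam := by
    apply pow_le_pow_left₀ (by positivity)
    rw [div_le_iff₀ hJr, hJsucc]
    push_cast
    have : (Jn n : ℝ) ≤ J := by exact_mod_cast hJl.le
    nlinarith
  have hNh : NN (hB F (α + η)) k J ≤ ε (n + 1) * (ρ : ℝ) ^ lam := by
    have e1 := hNup (n + 1) (α + η) (by linarith [hbn.2]) J hJ1' hJu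
    refine e1.trans ?_
    have := (hεpos (n + 1)).le
    gcongr
  have hNg : NN (gB F (α - η)) k J ≤ ε (n + 1) * (ρ : ℝ) ^ lam := by
    have e1 := hNdown (n + 1) (α - η) (by linarith [hbn.1]) J hJ1' hJu
    refine e1.trans ?_
    have := (hεpos (n + 1)).le
    gcongr
  -- pointwise bound
  have hyoung : ∀ x : ℝ, 0 ≤ x → x ≤ η + x ^ k / η ^ (k - 1) := by
    intro x hx
    rcases le_or_gt x η with h | h
    · have : 0 ≤ x ^ k / η ^ (k - 1) := by positivity
      linarith
    · have : x ≤ x ^ k / η ^ (k - 1) := by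
        rw [le_div_iff₀ (by positivity)]
        calc x * η ^ (k - 1) ≤ x * x ^ (k - 1) := by gcongr
          _ = x ^ k := by
            rw [← pow_succ']; congr 1; omega
      linarith
  have hpt : ∀ p ∈ blk J, |F p / Real.log p - α| ≤
      3 * η + hB F (α + η) p ^ k / η ^ (k - 1) + gB F (α - η) p ^ k / η ^ (k - 1) := by
    intro p hp
    have hpp : p.Prime := by
      unfold blk at hp; exact (Finset.mem_filter.mp hp).2
    have e1 : |F p / Real.log p - α| ≤ hB F (α + η) p + gB F (α - η) p + η := by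
      unfold hB gB
      rw [if_pos hpp, if_pos hpp]
      have a1 := le_max_left 0 (F p / Real.log p - (α + η))
      have a2 := le_max_right 0 (F p / Real.log p - (α + η))
      have a3 := le_max_left 0 (α - η - F p / Real.log p)
      have a4 := le_max_right 0 (α - η - F p / Real.log p)
      rw [abs_le]; constructor <;> linarith
    have e2 := hyoung _ (hB_nonneg F (α + η) p)
    have e3 := hyoung _ (gB_nonneg F (α - η) p)
    linarith
  have hsum : ((J : ℝ) / 2 ^ J) * ∑ p ∈ blk J, |F p / Real.log p - α| ≤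
      3 * η * ((J : ℝ) / 2 ^ J * (blk J).card) +
        (NN (hB F (α + η)) k J + NN (gB F (α - η)) k J) / η ^ (k - 1) := by
    calc ((J : ℝ) / 2 ^ J) * ∑ p ∈ blk J, |F p / Real.log p - α|
        ≤ ((J : ℝ) / 2 ^ J) * ∑ p ∈ blk J, (3 * η + hB F (α + η) p ^ k / η ^ (k - 1) +
          gB F (α - η) p ^ k / η ^ (k - 1)) := by
          apply mul_le_mul_of_nonneg_left (Finset.sum_le_sum hpt) (by positivity)
      _ = _ := by
          rw [Finset.sum_add_distrib, Finset.sum_add_distrib, Finset.sum_const, nsmul_eq_mul,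
            ← Finset.sum_div, ← Finset.sum_div]
          unfold NN
          ring
  -- size of ε
  have hsk : s ^ k = Real.sqrt r := by
    rw [hs, ← Real.rpow_natCast, ← Real.rpow_mul (Real.sqrt_nonneg _), one_div,
      inv_mul_cancel₀ hkr0.ne', Real.rpow_one]
  have hεs : ε (n + 1) ≤ Real.sqrt K2 * (s ^ n) ^ k := by
    have e1 : ε (n + 1) = Real.sqrt K2 * (Real.sqrt r) ^ (n + 1) := by
      simp only [hε]
      rw [Real.sqrt_mul hK20.le]
      congr 1
      rw [Real.sqrt_eq_iff_mul_self_eq (by positivity) (by positivity), ← pow_two, ← pow_mul,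
        mul_comm (n + 1) 2, pow_mul, Real.sq_sqrt hr0.le]
    rw [e1, ← hsk, ← pow_mul, ← pow_mul, mul_comm n k]
    apply mul_le_mul_of_nonneg_left _ (Real.sqrt_nonneg _)
    apply pow_le_pow_of_le_one hs0.le hs1.le
    exact Nat.mul_le_mul_left k (by omega)
  have hfin : (NN (hB F (α + η)) k J + NN (gB F (α - η)) k J) / η ^ (k - 1) ≤
      2 * Real.sqrt K2 * (ρ : ℝ) ^ lam * s ^ n := by
    rw [div_le_iff₀ (by positivity)]
    have e1 : (s ^ n) ^ (k - 1) ≤ η ^ (k - 1) := by
      apply pow_le_pow_left₀ hsn.le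
      rw [hη]; nlinarith
    have e2 : (s ^ n) ^ k = s ^ n * (s ^ n) ^ (k - 1) := by
      rw [← pow_succ']; congr 1; omega
    calc NN (hB F (α + η)) k J + NN (gB F (α - η)) k J
        ≤ ε (n + 1) * (ρ : ℝ) ^ lam + ε (n + 1) * (ρ : ℝ) ^ lam := add_le_add hNh hNg
      _ = 2 * (ρ : ℝ) ^ lam * ε (n + 1) := by ring
      _ ≤ 2 * (ρ : ℝ) ^ lam * (Real.sqrt K2 * (s ^ n) ^ k) := by gcongr
      _ = 2 * Real.sqrt K2 * (ρ : ℝ) ^ lam * s ^ n * (s ^ n) ^ (k - 1) := by rw [e2]; ring
      _ ≤ _ := by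
          have := Real.sqrt_nonneg K2
          gcongr
  have h3η : 3 * η * ((J : ℝ) / 2 ^ J * (blk J).card) ≤ 3 * (C6 + 1) * Cb * s ^ n := by
    calc 3 * η * ((J : ℝ) / 2 ^ J * (blk J).card) ≤ 3 * η * Cb := by gcongr
      _ = _ := by rw [hη]; ring
  have htot : ((J : ℝ) / 2 ^ J) * ∑ p ∈ blk J, |F p / Real.log p - α| ≤ C7 * s ^ n := by
    rw [hC7]
    have : (3 * (C6 + 1) * Cb + 2 * Real.sqrt K2 * (ρ : ℝ) ^ lam) * s ^ n =
      3 * (C6 + 1) * Cb * s ^ n + 2 * Real.sqrt K2 * (ρ : ℝ) ^ lam * s ^ n := by ring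
    rw [this]
    linarith
  have hsJ : s ^ n ≤ (Js : ℝ) ^ c / s * (J : ℝ) ^ (-c) := by
    have e1 : ((Jn (n + 1) : ℕ) : ℝ) ^ (-c) ≤ (J : ℝ) ^ (-c) :=
      Real.rpow_le_rpow_of_nonpos hJr (by exact_mod_cast hJu) (by linarith)
    have e2 : ((Jn (n + 1) : ℕ) : ℝ) ^ (-c) = s ^ (n + 1) * (Js : ℝ) ^ (-c) := by
      simp only [hJn]
      rw [Nat.cast_mul, Nat.cast_pow, Real.mul_rpow (by positivity) (by positivity)]
      congr 1
      rw [← hρc, ← Real.rpow_natCast, ← Real.rpow_natCast, ← Real.rpow_mul (by positivity),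
        ← Real.rpow_mul (by positivity), mul_comm]
    have e3 : (Js : ℝ) ^ c * (Js : ℝ) ^ (-c) = 1 := by
      rw [← Real.rpow_add hJs0]; simp
    have e4 : s ^ n = (Js : ℝ) ^ c / s * (s ^ (n + 1) * (Js : ℝ) ^ (-c)) := by
      have : (Js : ℝ) ^ c / s * (s ^ (n + 1) * (Js : ℝ) ^ (-c)) =
          ((Js : ℝ) ^ c * (Js : ℝ) ^ (-c)) * (s ^ (n + 1) / s) := by ring
      rw [this, e3, one_mul, pow_succ]
      field_simp
    rw [e4, ← e2]
    gcongr
  calc ((J : ℝ) / 2 ^ J) * ∑ p ∈ blk J, |F p / Real.log p - α| ≤ C7 * s ^ n := htot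
    _ ≤ C7 * ((Js : ℝ) ^ c / s * (J : ℝ) ^ (-c)) := by gcongr
    _ = C7 / s * (Js : ℝ) ^ c * (J : ℝ) ^ (-c) := by ring
    _ ≤ C8 * (J : ℝ) ^ (-c) := by
        gcongr
        rw [hC8]
        have : 0 ≤ (2 + α) * Cb * (Js : ℝ) ^ c := by positivity
        linarith

end Pool.Agent.N907.EG
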