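import Pool.Agent.N907.EG.Def

/-!
Project EG, part T10b: from primes to integers (`S_Int`).
-/

set_option autoImplicit false

open Finset

namespace Pool.Agent.N907.EG

namespace IntPart

/-- the completely additive function with prescribed values at primes -/
noncomputable def Gad (g : ℕ → ℝ) (n : ℕ) : ℝ := n.factorization.sum (fun q v => (v : ℝ) * g q)

theorem Gad_mul (g : ℕ → ℝ) {m n : ℕ} (hm : m ≠ 0) (hn : n ≠ 0) :
    Gad g (m * n) = Gad g m + Gad g n := by
  unfold Gad
  rw [Nat.factorization_mul hm hn]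
  rw [Finsupp.sum_add_index']
  · intro a; simp
  · intro a b c; push_cast; ring

theorem Gad_one (g : ℕ → ℝ) : Gad g 1 = 0 := by
  simp [Gad]

theorem Gad_prime (g : ℕ → ℝ) {p : ℕ} (hp : p.Prime) : Gad g p = g p := by
  simp [Gad, hp.factorization]

theorem eq_Gad (F : ℕ → ℝ) (h1 : F 1 = 0) (hm : ∀ m n : ℕ, 1 ≤ m → 1 ≤ n → F (m * n) = F m + F n)
    (n : ℕ) (hn : n ≠ 0) : F n = Gad F n := by
  induction n using Nat.recOnMul with
  | zero => exact absurd rfl hn
  | one => rw [h1, Gad_one]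
  | prime p hp => rw [Gad_prime F hp]
  | mul a b ha hb =>
    have ha0 : a ≠ 0 := fun h => hn (by simp [h])
    have hb0 : b ≠ 0 := fun h => hn (by simp [h])
    rw [hm a b (Nat.one_le_iff_ne_zero.mpr ha0) (Nat.one_le_iff_ne_zero.mpr hb0), ha ha0, hb hb0,
      Gad_mul F ha0 hb0]

theorem log_eq_Gad (n : ℕ) (hn : n ≠ 0) :
    Real.log n = Gad (fun q => Real.log q) n := by
  refine eq_Gad (fun n : ℕ => Real.log n) (by simp) ?_ n hn
  intro a b ha hb
  have ha' : (a : ℝ) ≠ 0 := by positivity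
  have hb' : (b : ℝ) ≠ 0 := by positivity
  push_cast
  exact Real.log_mul ha' hb'

theorem Gad_nonneg (g : ℕ → ℝ) (hg : ∀ q, 0 ≤ g q) (n : ℕ) : 0 ≤ Gad g n := by
  unfold Gad Finsupp.sum
  exact Finset.sum_nonneg fun q _ => mul_nonneg (Nat.cast_nonneg _) (hg q)

theorem abs_le_Gad (F : ℕ → ℝ) (h1 : F 1 = 0)
    (hm : ∀ m n : ℕ, 1 ≤ m → 1 ≤ n → F (m * n) = F m + F n) (α : ℝ)
    (n : ℕ) (hn : n ≠ 0) :
    |F n - α * Real.log n| ≤ Gad (fun q => Real.log q * |F q / Real.log q - α|) n := by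
  rw [eq_Gad F h1 hm n hn, log_eq_Gad n hn]
  unfold Gad Finsupp.sum
  rw [Finset.mul_sum, ← Finset.sum_sub_distrib]
  refine (Finset.abs_sum_le_sum_abs _ _).trans (Finset.sum_le_sum fun q hq => ?_)
  have hqp : q.Prime := Nat.prime_of_mem_primeFactors (by simpa using hq)
  have hlog : 0 < Real.log q := Real.log_pos (by exact_mod_cast hqp.one_lt)
  have : (n.factorization q : ℝ) * F q - α * ((n.factorization q : ℝ) * Real.log q)
      = (n.factorization q : ℝ) * (Real.log q * (F q / Real.log q - α)) := by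
    field_simp
  rw [this, abs_mul, abs_mul, abs_of_nonneg (Nat.cast_nonneg _ : (0 : ℝ) ≤ _),
    abs_of_pos hlog]

theorem sum_Gad (g : ℕ → ℝ) (N : ℕ) : ∑ n ∈ Finset.Icc 1 N, Gad g n = Gad g (N.factorial) := by
  induction N with
  | zero => simp [Gad_one]
  | succ N ih =>
    rw [Finset.sum_Icc_succ_top (by omega), ih, Nat.factorial_succ,
      Gad_mul g (by omega) (Nat.factorial_ne_zero N), add_comm]

theorem val_factorial_le (N q : ℕ) (hq : q.Prime) :
    ((N.factorial.factorization q : ℕ) : ℝ) ≤ 2 * N / q := by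
  have : Fact q.Prime := ⟨hq⟩
  have h := sub_one_mul_padicValNat_factorial (p := q) N
  have h2 : (q - 1) * padicValNat q N.factorial ≤ N := by
    rw [h]; exact Nat.sub_le _ _
  rw [Nat.factorization_def _ hq]
  have hq2 : 2 ≤ q := hq.two_le
  have hq0 : (0 : ℝ) < q := by positivity
  rw [le_div_iff₀ hq0]
  have h3 : ((q : ℝ) - 1) * (padicValNat q N.factorial : ℝ) ≤ N := by
    have := (Nat.cast_le (α := ℝ)).mpr h2
    rw [Nat.cast_mul, Nat.cast_sub (by omega)] at this
    simpa using this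
  have hq2' : (2 : ℝ) ≤ q := by exact_mod_cast hq2
  have hv : (0 : ℝ) ≤ (padicValNat q N.factorial : ℝ) := Nat.cast_nonneg _
  nlinarith

theorem Gad_factorial_le (g : ℕ → ℝ) (hg : ∀ q, 0 ≤ g q) (N : ℕ) :
    Gad g N.factorial ≤ 2 * N * ∑ q ∈ (Finset.Icc 1 N).filter Nat.Prime, g q / q := by
  unfold Gad Finsupp.sum
  rw [Finset.mul_sum]
  have hsub : N.factorial.factorization.support ⊆ (Finset.Icc 1 N).filter Nat.Prime := by
    intro q hq
    have hq' : q ∈ N.factorial.primeFactors := by simpa using hq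
    have hp := Nat.prime_of_mem_primeFactors hq'
    rw [Finset.mem_filter, Finset.mem_Icc]
    exact ⟨⟨hp.one_lt.le, (hp.dvd_factorial).mp (Nat.dvd_of_mem_primeFactors hq')⟩, hp⟩
  refine (Finset.sum_le_sum_of_subset_of_nonneg hsub ?_).trans (Finset.sum_le_sum ?_)
  · intro q _ _
    exact mul_nonneg (Nat.cast_nonneg _) (hg q)
  · intro q hq
    rw [Finset.mem_filter] at hq
    have := val_factorial_le N q hq.2
    calc ((N.factorial.factorization q : ℕ) : ℝ) * g q ≤ (2 * N / q) * g q :=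
          mul_le_mul_of_nonneg_right this (hg q)
      _ = 2 * N * (g q / q) := by ring

theorem sum_blocks (h : ℕ → ℝ) (K : ℕ) :
    ∑ q ∈ (Finset.Icc 1 (2 ^ K)).filter Nat.Prime, h q =
      ∑ J ∈ Finset.range (K + 1), ∑ q ∈ blk J, h q := by
  induction K with
  | zero =>
    have h1 : (Finset.Icc 1 (2 ^ 0)).filter Nat.Prime = ∅ := by
      ext q
      simp only [pow_zero, Finset.mem_filter, Finset.mem_Icc, Finset.notMem_empty, iff_false]
      rintro ⟨⟨_, h2⟩, h3⟩
      exact absurd h3.two_le (by omega)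
    have h2 : blk 0 = ∅ := by
      unfold blk
      simp
    rw [h1]; simp [h2]
  | succ K ih =>
    rw [Finset.sum_range_succ, ← ih]
    have : (Finset.Icc 1 (2 ^ (K + 1))).filter Nat.Prime =
        (Finset.Icc 1 (2 ^ K)).filter Nat.Prime ∪ blk (K + 1) := by
      ext q
      simp only [blk, Finset.mem_filter, Finset.mem_Icc, Finset.mem_union, Finset.mem_Ioc,
        Nat.add_sub_cancel]
      have : 2 ^ K ≤ 2 ^ (K + 1) := Nat.pow_le_pow_right (by norm_num) (by omega)
      have h0 : 0 < 2 ^ K := by positivity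
      constructor
      · rintro ⟨⟨h1, h2⟩, h3⟩
        by_cases hq : q ≤ 2 ^ K
        · exact Or.inl ⟨⟨h1, hq⟩, h3⟩
        · exact Or.inr ⟨⟨by omega, h2⟩, h3⟩
      · rintro (⟨⟨h1, h2⟩, h3⟩ | ⟨⟨h1, h2⟩, h3⟩)
        · exact ⟨⟨h1, by omega⟩, h3⟩
        · exact ⟨⟨by omega, h2⟩, h3⟩
    rw [this, Finset.sum_union]
    rw [Finset.disjoint_left]
    intro q hq hq'
    simp only [blk, Finset.mem_filter, Finset.mem_Icc, Finset.mem_Ioc, Nat.add_sub_cancel] at hq hq'
    omega

theorem blk_bound (f : ℕ → ℝ) (hf : ∀ q, 0 ≤ f q) (J : ℕ) :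
    ∑ q ∈ blk J, (Real.log q * f q) / q ≤
      2 * Real.log 2 * (((J : ℝ) / 2 ^ J) * ∑ q ∈ blk J, f q) := by
  rw [Finset.mul_sum, Finset.mul_sum]
  refine Finset.sum_le_sum fun q hq => ?_
  simp only [blk, Finset.mem_filter, Finset.mem_Ioc] at hq
  obtain ⟨⟨h1, h2⟩, h3⟩ := hq
  have hq0 : (0 : ℝ) < q := by exact_mod_cast h3.pos
  rcases Nat.eq_zero_or_pos J with rfl | hJ
  · simp at h1 h2; omega
  have hlog : Real.log q ≤ J * Real.log 2 := by
    rw [← Real.log_pow]
    exact Real.log_le_log hq0 (by exact_mod_cast h2)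
  have hlow : (2 : ℝ) ^ J / 2 ≤ q := by
    have : (2 : ℝ) ^ J = 2 * 2 ^ (J - 1) := by
      rw [← pow_succ']; congr 1; omega
    rw [this]
    have h4 : ((2 ^ (J - 1) : ℕ) : ℝ) ≤ q := by exact_mod_cast h1.le
    push_cast at h4
    linarith
  have hlq : 0 ≤ Real.log q := Real.log_nonneg (by exact_mod_cast h3.one_lt.le)
  have hpow : (0 : ℝ) < 2 ^ J := by positivity
  have : 1 / (q : ℝ) ≤ 2 / 2 ^ J := by
    rw [div_le_div_iff₀ hq0 hpow]; linarith
  calc Real.log q * f q / q = (Real.log q * f q) * (1 / q) := by ring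
    _ ≤ (J * Real.log 2 * f q) * (2 / 2 ^ J) := by
        apply mul_le_mul (mul_le_mul_of_nonneg_right hlog (hf q)) this (by positivity)
        exact mul_nonneg (mul_nonneg (Nat.cast_nonneg _) (Real.log_nonneg (by norm_num))) (hf q)
    _ = 2 * Real.log 2 * ((J : ℝ) / 2 ^ J * f q) := by ring

end IntPart

open IntPart in
theorem s_int : S_Int := by
  classical
  intro F hF1 hFm hFb α hlim ε hε
  set f : ℕ → ℝ := fun q => |F q / Real.log q - α| with hf
  have hf0 : ∀ q, 0 ≤ f q := fun q => abs_nonneg _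
  set a : ℕ → ℝ := fun J => ((J : ℝ) / 2 ^ J) * ∑ p ∈ blk J, f p with ha
  have ha0 : ∀ J, 0 ≤ a J := fun J =>
    mul_nonneg (by positivity) (Finset.sum_nonneg fun q _ => hf0 q)
  have hces : Filter.Tendsto (fun n : ℕ => ((n : ℝ)⁻¹) * ∑ i ∈ Finset.range n, a i)
      Filter.atTop (nhds 0) := Filter.Tendsto.cesaro hlim
  -- the sum S(N)
  have hS : ∀ N K : ℕ, N ≤ 2 ^ K → ∑ n ∈ Finset.Icc 1 N, |F n - α * Real.log n| ≤
      2 * N * (2 * Real.log 2 * ∑ i ∈ Finset.range (K + 1), a i) := by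
    intro N K hNK
    calc ∑ n ∈ Finset.Icc 1 N, |F n - α * Real.log n|
        ≤ ∑ n ∈ Finset.Icc 1 N, Gad (fun q => Real.log q * f q) n := by
          refine Finset.sum_le_sum fun n hn => ?_
          rw [Finset.mem_Icc] at hn
          exact abs_le_Gad F hF1 hFm α n (by omega)
      _ = Gad (fun q => Real.log q * f q) N.factorial := sum_Gad _ N
      _ ≤ 2 * N * ∑ q ∈ (Finset.Icc 1 N).filter Nat.Prime, (Real.log q * f q) / q := by
          refine Gad_factorial_le _ (fun q => mul_nonneg ?_ (hf0 q)) N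
          exact Real.log_natCast_nonneg q
      _ ≤ 2 * N * ∑ q ∈ (Finset.Icc 1 (2 ^ K)).filter Nat.Prime, (Real.log q * f q) / q := by
          refine mul_le_mul_of_nonneg_left ?_ (by positivity)
          refine Finset.sum_le_sum_of_subset_of_nonneg ?_ ?_
          · intro q hq
            rw [Finset.mem_filter, Finset.mem_Icc] at hq ⊢
            exact ⟨⟨hq.1.1, hq.1.2.trans hNK⟩, hq.2⟩
          · intro q _ _
            exact div_nonneg (mul_nonneg (Real.log_natCast_nonneg q) (hf0 q)) (Nat.cast_nonneg _)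
      _ ≤ 2 * N * (2 * Real.log 2 * ∑ i ∈ Finset.range (K + 1), a i) := by
          refine mul_le_mul_of_nonneg_left ?_ (by positivity)
          rw [sum_blocks, Finset.mul_sum]
          exact Finset.sum_le_sum fun J _ => blk_bound f hf0 J
  -- S(N) = o(N log N)
  have hSo : ∀ δ : ℝ, 0 < δ → ∃ N0 : ℕ, ∀ N : ℕ, N0 ≤ N →
      ∑ n ∈ Finset.Icc 1 N, |F n - α * Real.log n| ≤ δ * (N * Real.log N) := by
    intro δ hδ
    have hl2 : 0 < Real.log 2 := Real.log_pos (by norm_num)
    -- choose η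
    set η : ℝ := δ / 16 with hη
    have hη0 : 0 < η := by positivity
    have h1 := (Metric.tendsto_atTop.mp hces) η hη0
    obtain ⟨n0, hn0⟩ := h1
    refine ⟨2 ^ (n0 + 2), fun N hN => ?_⟩
    set K := Nat.clog 2 N with hK
    have hNK : N ≤ 2 ^ K := Nat.le_pow_clog (by norm_num) N
    have hNpos : 2 ^ 2 ≤ N := by
      refine le_trans ?_ hN
      exact Nat.pow_le_pow_right (by norm_num) (by omega)
    have hKn : n0 + 2 ≤ K := by
      have := Nat.clog_mono_right 2 hN
      rwa [Nat.clog_pow 2 _ (by norm_num)] at this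
    have h2 := hn0 (K + 1) (by omega)
    rw [Real.dist_eq, sub_zero, abs_of_nonneg] at h2
    swap
    · exact mul_nonneg (by positivity) (Finset.sum_nonneg fun i _ => ha0 i)
    have hK1 : (0 : ℝ) < ((K + 1 : ℕ) : ℝ) := by positivity
    rw [inv_mul_lt_iff₀ hK1] at h2
    -- K + 1 ≤ 4 log_2 N
    have hKlt : 2 ^ (K - 1) < N := Nat.pow_pred_clog_lt_self (by norm_num) (by omega)
    have hKlog : ((K : ℝ) - 1) * Real.log 2 ≤ Real.log N := by
      have h3 : (((2 : ℕ) ^ (K - 1) : ℕ) : ℝ) ≤ N := by exact_mod_cast hKlt.le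
      have h4 := Real.log_le_log (by positivity) h3
      push_cast at h4
      rw [Real.log_pow, Nat.cast_sub (by omega)] at h4
      simpa using h4
    have hKge : (2 : ℝ) ≤ K := by exact_mod_cast (by omega : 2 ≤ K)
    have hKb : ((K : ℝ) + 1) * Real.log 2 ≤ 4 * Real.log N := by
      have : ((K : ℝ) + 1) ≤ 4 * ((K : ℝ) - 1) := by linarith
      nlinarith
    have hmain := hS N K hNK
    refine hmain.trans ?_
    have hN0 : (0 : ℝ) ≤ N := Nat.cast_nonneg _
    have h5 : 2 * Real.log 2 * ∑ i ∈ Finset.range (K + 1), a i ≤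
        2 * Real.log 2 * (((K + 1 : ℕ) : ℝ) * η) :=
      mul_le_mul_of_nonneg_left h2.le (by positivity)
    have h6 : 2 * Real.log 2 * (((K + 1 : ℕ) : ℝ) * η) ≤ 8 * η * Real.log N := by
      push_cast
      nlinarith
    have h7 : 2 * Real.log 2 * ∑ i ∈ Finset.range (K + 1), a i ≤ (δ / 2) * Real.log N := by
      refine h5.trans (h6.trans (le_of_eq ?_))
      rw [hη]; ring
    calc 2 * (N : ℝ) * (2 * Real.log 2 * ∑ i ∈ Finset.range (K + 1), a i)
        ≤ 2 * N * ((δ / 2) * Real.log N) := mul_le_mul_of_nonneg_left h7 (by positivity)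
      _ = δ * (N * Real.log N) := by ring
  -- conclusion
  rw [Metric.tendsto_atTop]
  intro η hη
  obtain ⟨N0, hN0⟩ := hSo (ε * η / 8) (by positivity)
  obtain ⟨N1, hN1⟩ := exists_nat_gt ((16 / η) ^ 2 + 16 / η)
  refine ⟨max (max N0 N1) 4, fun N hN => ?_⟩
  have hNN0 : N0 ≤ N := by omega
  have hNN1 : N1 ≤ N := by omega
  have hN4 : 4 ≤ N := by omega
  have hNpos : (0 : ℝ) < N := by positivity
  have hlogN : 0 < Real.log N := Real.log_pos (by exact_mod_cast (by omega : 1 < N))
  rw [Real.dist_eq, sub_zero, abs_of_nonneg (by positivity)]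
  -- split the set
  set A := (Finset.range N).filter (fun n : ℕ => ε * Real.log n < |F n - α * Real.log n|) with hA
  set s := Nat.sqrt N with hs
  set B := (Finset.Icc 1 N).filter (fun n : ℕ => (ε / 2) * Real.log N ≤ |F n - α * Real.log n|)
    with hB
  have hsub : A ⊆ Finset.range (s + 1) ∪ B := by
    intro n hn
    rw [hA, Finset.mem_filter, Finset.mem_range] at hn
    rw [Finset.mem_union, Finset.mem_range]
    by_cases hns : n < s + 1
    · exact Or.inl hns
    · refine Or.inr ?_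
      rw [hB, Finset.mem_filter, Finset.mem_Icc]
      refine ⟨⟨by omega, by omega⟩, ?_⟩
      refine le_trans ?_ hn.2.le
      have h1 : N < (s + 1) * (s + 1) := Nat.lt_succ_sqrt N
      have h2 : N ≤ n * n := by
        have : s + 1 ≤ n := by omega
        have := Nat.mul_le_mul this this
        omega
      have h3 : Real.log N ≤ 2 * Real.log n := by
        have h4 : (N : ℝ) ≤ (n : ℝ) ^ 2 := by
          rw [pow_two]; exact_mod_cast h2
        have := Real.log_le_log hNpos h4
        rwa [Real.log_pow] at this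
      nlinarith
  have hcard : (A.card : ℝ) ≤ (s : ℝ) + 1 + B.card := by
    have := (Finset.card_le_card hsub).trans (Finset.card_union_le _ _)
    rw [Finset.card_range] at this
    exact_mod_cast this
  have hBcard : (B.card : ℝ) * ((ε / 2) * Real.log N) ≤ (ε * η / 8) * (N * Real.log N) := by
    refine le_trans ?_ (hN0 N hNN0)
    calc (B.card : ℝ) * ((ε / 2) * Real.log N) = ∑ n ∈ B, (ε / 2) * Real.log N := by
          rw [Finset.sum_const, nsmul_eq_mul]
      _ ≤ ∑ n ∈ B, |F n - α * Real.log n| := by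
          refine Finset.sum_le_sum fun n hn => ?_
          rw [hB, Finset.mem_filter] at hn
          exact hn.2
      _ ≤ ∑ n ∈ Finset.Icc 1 N, |F n - α * Real.log n| :=
          Finset.sum_le_sum_of_subset_of_nonneg (Finset.filter_subset _ _)
            (fun n _ _ => abs_nonneg _)
  have hB2 : (B.card : ℝ) ≤ (η / 4) * N := by
    have h1 : 0 < (ε / 2) * Real.log N := by positivity
    rw [← mul_le_mul_iff_left₀ h1]
    refine hBcard.trans (le_of_eq ?_)
    ring
  have hs2 : (s : ℝ) ≤ (η / 8) * N := by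
    have h1 : (s : ℝ) ^ 2 ≤ N := by
      have : s * s ≤ N := Nat.sqrt_le N
      rw [pow_two]; exact_mod_cast this
    have h2 : (16 / η) ^ 2 + 16 / η < N := lt_of_lt_of_le hN1 (by exact_mod_cast hNN1)
    have h3 : (16 / η) ^ 2 < N := lt_of_le_of_lt (by linarith [div_pos (by norm_num : (0:ℝ) < 16) hη]) h2
    -- s ≤ sqrt N, sqrt N * 16/η < N
    by_contra hcon
    push Not at hcon
    have h4 : (η / 8 * N) ^ 2 < (s : ℝ) ^ 2 := by
      apply pow_lt_pow_left₀ hcon (by positivity) (by norm_num)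
    have h5 : (η / 8 * N) ^ 2 < N := lt_of_lt_of_le h4 h1
    have h6 : (η / 8) ^ 2 * N < 1 := by
      have : (η / 8 * N) ^ 2 = ((η / 8) ^ 2 * N) * N := by ring
      rw [this] at h5
      by_contra h7
      push Not at h7
      nlinarith
    have h7 : (16 / η) ^ 2 * (η / 8) ^ 2 = 4 := by
      field_simp
      norm_num
    have h8 : (0 : ℝ) < (η / 8) ^ 2 := by positivity
    nlinarith
  have hs3 : (1 : ℝ) ≤ (η / 16) * N := by
    have h2 : (16 / η) ^ 2 + 16 / η < N := lt_of_lt_of_le hN1 (by exact_mod_cast hNN1)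
    have h3 : 16 / η < N := by
      have : 0 ≤ (16 / η) ^ 2 := by positivity
      linarith
    rw [div_lt_iff₀ hη] at h3
    linarith
  rw [div_lt_iff₀ hNpos]
  nlinarith [mul_pos hη hNpos]

end Pool.Agent.N907.EG
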