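import Pool.Agent.N907.EG.Def
import Pool.Agent.Erdos456.Mertens

/-!
Project EG, part (T5): mean values of strongly multiplicative functions.
-/

set_option autoImplicit false

open Finset

namespace Pool.Agent.N907.EG

namespace MV

/-- the strongly multiplicative function -/
def ff (g : ℕ → ℝ) (m : ℕ) : ℝ := ∏ q ∈ m.primeFactors, g q

lemma ff_nonneg {g : ℕ → ℝ} (hg : ∀ q, 0 ≤ g q) (m : ℕ) : 0 ≤ ff g m :=
  prod_nonneg fun q _ => hg q

lemma ff_one (g : ℕ → ℝ) : ff g 1 = 1 := by simp [ff]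

lemma ff_mul (g : ℕ → ℝ) {m n : ℕ} (h : Nat.Coprime m n) : ff g (m * n) = ff g m * ff g n := by
  unfold ff
  rw [h.primeFactors_mul, prod_union h.disjoint_primeFactors]

lemma ff_pow (g : ℕ → ℝ) {p : ℕ} (hp : p.Prime) (n : ℕ) : ff g (p ^ (n + 1)) = g p := by
  unfold ff
  rw [Nat.primeFactors_prime_pow (Nat.succ_ne_zero n) hp, prod_singleton]

/-- the effect of a prime power -/
lemma ff_pow_mul {g : ℕ → ℝ} {F0 : ℝ} (hF : 1 ≤ F0) (hg : ∀ q, 0 ≤ g q) (hgF : ∀ q, g q ≤ F0)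
    {p : ℕ} (hp : p.Prime) {k : ℕ} (hk : k ≠ 0) {m : ℕ} (hm : m ≠ 0) :
    ff g (p ^ k * m) ≤ F0 * ff g m := by
  have h1 : (p ^ k * m).primeFactors = insert p m.primeFactors := by
    rw [Nat.primeFactors_mul (pow_ne_zero _ hp.ne_zero) hm, Nat.primeFactors_prime_pow hk hp]
    rfl
  unfold ff
  rw [h1]
  by_cases hpm : p ∈ m.primeFactors
  · rw [insert_eq_of_mem hpm]
    have := ff_nonneg hg m
    unfold ff at this
    nlinarith
  · rw [prod_insert hpm]
    exact mul_le_mul_of_nonneg_right (hgF p) (prod_nonneg fun q _ => hg q)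

/-- the local factor -/
lemma hasSum_local (g : ℕ → ℝ) {p : ℕ} (hp : p.Prime) :
    HasSum (fun n : ℕ => ff g (p ^ n) / ((p ^ n : ℕ) : ℝ)) (1 + g p / ((p : ℝ) - 1)) := by
  have hp1 : (1 : ℝ) < p := by exact_mod_cast hp.one_lt
  have h0 : (0 : ℝ) < p := by linarith
  have hge : HasSum (fun n : ℕ => ((p : ℝ)⁻¹) ^ n) (1 - (p : ℝ)⁻¹)⁻¹ :=
    hasSum_geometric_of_lt_one (by positivity) (inv_lt_one_of_one_lt₀ hp1)
  have h1 : HasSum (fun n : ℕ => ff g (p ^ (n + 1)) / ((p ^ (n + 1) : ℕ) : ℝ))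
      (g p / ((p : ℝ) - 1)) := by
    have h2 := hge.mul_left (g p * (p : ℝ)⁻¹)
    have e1 : (fun n : ℕ => ff g (p ^ (n + 1)) / ((p ^ (n + 1) : ℕ) : ℝ)) =
        fun n : ℕ => g p * (p : ℝ)⁻¹ * ((p : ℝ)⁻¹) ^ n := by
      funext n
      rw [ff_pow g hp]
      push_cast
      rw [pow_succ, inv_pow]
      field_simp
    have e2 : g p / ((p : ℝ) - 1) = g p * (p : ℝ)⁻¹ * (1 - (p : ℝ)⁻¹)⁻¹ := by
      have : (p : ℝ) - 1 ≠ 0 := by linarith
      have h3 : 1 - (p : ℝ)⁻¹ = ((p : ℝ) - 1) / p := by field_simp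
      rw [h3, inv_div]
      field_simp
    rw [e1, e2]
    exact h2
  have h3 := (hasSum_nat_add_iff (f := fun n : ℕ => ff g (p ^ n) / ((p ^ n : ℕ) : ℝ))
    (g := g p / ((p : ℝ) - 1)) 1).1 h1
  have e3 : g p / ((p : ℝ) - 1) + ∑ i ∈ range 1, ff g (p ^ i) / ((p ^ i : ℕ) : ℝ) =
      1 + g p / ((p : ℝ) - 1) := by
    rw [sum_range_one, pow_zero, ff_one]
    push_cast
    ring
  rw [e3] at h3
  exact h3

/-- the Euler product bound -/
lemma sum_div_le {g : ℕ → ℝ} (hg : ∀ q, 0 ≤ g q) (Y : ℕ) :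
    ∑ m ∈ Icc 1 Y, ff g m / m ≤ ∏ p ∈ (Icc 1 Y).filter Nat.Prime, (1 + g p / ((p : ℝ) - 1)) := by
  have hmul : ∀ {m n : ℕ}, Nat.Coprime m n →
      ff g (m * n) / ((m * n : ℕ) : ℝ) = ff g m / (m : ℝ) * (ff g n / (n : ℝ)) := by
    intro m n h
    rw [ff_mul g h]
    push_cast
    rw [mul_div_mul_comm]
  have hE := EulerProduct.summable_and_hasSum_factoredNumbers_prod_filter_prime_tsum
    (f := fun m : ℕ => ff g m / (m : ℝ)) (by simp [ff_one]) (fun {m n} h => hmul h)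
    (fun {p} hp => by
      have h1 := (hasSum_local g hp).summable
      refine h1.congr fun n => ?_
      rw [Real.norm_eq_abs, abs_of_nonneg]
      exact div_nonneg (ff_nonneg hg _) (Nat.cast_nonneg _)) (Icc 1 Y)
  have h2 := hE.2
  have h3 : ∏ p ∈ Icc 1 Y with p.Prime, ∑' n : ℕ, ff g (p ^ n) / ((p ^ n : ℕ) : ℝ) =
      ∏ p ∈ (Icc 1 Y).filter Nat.Prime, (1 + g p / ((p : ℝ) - 1)) := by
    refine prod_congr rfl fun p hp => ?_
    rw [mem_filter] at hp
    exact (hasSum_local g hp.2).tsum_eq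
  rw [h3] at h2
  classical
  have hmem : ∀ m ∈ Icc 1 Y, m ∈ Nat.factoredNumbers (Icc 1 Y) := by
    intro m hm
    rw [mem_Icc] at hm
    rw [Nat.mem_factoredNumbers]
    refine ⟨by omega, fun p hp => ?_⟩
    have h4 := Nat.prime_of_mem_primeFactorsList hp
    have h5 := Nat.le_of_mem_primeFactorsList hp
    rw [mem_Icc]
    have := h4.pos
    omega
  have h4 : ∑ m ∈ (Icc 1 Y).attach, (fun x : Nat.factoredNumbers (Icc 1 Y) =>
      ff g (x : ℕ) / ((x : ℕ) : ℝ)) ⟨m.1, hmem m.1 m.2⟩ ≤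
      ∏ p ∈ (Icc 1 Y).filter Nat.Prime, (1 + g p / ((p : ℝ) - 1)) := by
    have h5 := sum_le_hasSum ((Icc 1 Y).attach.image
      (fun m => (⟨m.1, hmem m.1 m.2⟩ : Nat.factoredNumbers (Icc 1 Y))))
      (fun i _ => div_nonneg (ff_nonneg hg _) (Nat.cast_nonneg _)) h2
    rw [sum_image] at h5
    · exact h5
    · intro a _ b _ hab
      have : (a : ℕ) = b := by
        have := congrArg Subtype.val hab
        exact this
      exact Subtype.ext this
  rw [← sum_attach (Icc 1 Y) (fun m => ff g m / (m : ℝ))]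
  exact h4

/-- the sum of `1/(n(n-1))` -/
lemma sum_tele (Y : ℕ) : ∑ n ∈ Icc 2 Y, (1 : ℝ) / (n * ((n : ℝ) - 1)) ≤ 1 := by
  rcases Nat.lt_or_ge Y 2 with h | h
  · rw [Icc_eq_empty (by omega)]; simp
  · have : ∀ Y : ℕ, 2 ≤ Y → ∑ n ∈ Icc 2 Y, (1 : ℝ) / (n * ((n : ℝ) - 1)) = 1 - 1 / (Y : ℝ) := by
      intro Y hY
      induction Y, hY using Nat.le_induction with
      | base => norm_num
      | succ n hn ih =>
        rw [sum_Icc_succ_top (by omega), ih]
        have h1 : (0 : ℝ) < n := by exact_mod_cast (by omega : 0 < n)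
        have h2 : ((n + 1 : ℕ) : ℝ) - 1 = n := by push_cast; ring
        rw [h2]
        push_cast
        field_simp
        ring
    rw [this Y h]
    have : (0 : ℝ) ≤ 1 / (Y : ℝ) := by positivity
    linarith

lemma prod_le_exp {g : ℕ → ℝ} {F0 : ℝ} (hF : 1 ≤ F0) (hg : ∀ q, 0 ≤ g q) (hgF : ∀ q, g q ≤ F0)
    (Y : ℕ) : ∏ p ∈ (Icc 1 Y).filter Nat.Prime, (1 + g p / ((p : ℝ) - 1)) ≤
      Real.exp (∑ p ∈ (Icc 1 Y).filter Nat.Prime, g p / p + F0) := by
  have h1 : ∏ p ∈ (Icc 1 Y).filter Nat.Prime, (1 + g p / ((p : ℝ) - 1)) ≤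
      ∏ p ∈ (Icc 1 Y).filter Nat.Prime, Real.exp (g p / ((p : ℝ) - 1)) := by
    refine prod_le_prod (fun p hp => ?_) fun p hp => ?_
    · rw [mem_filter] at hp
      have : (1 : ℝ) < p := by exact_mod_cast hp.2.one_lt
      have := div_nonneg (hg p) (by linarith : (0 : ℝ) ≤ (p : ℝ) - 1)
      linarith
    · rw [add_comm]
      exact Real.add_one_le_exp _
  refine h1.trans ?_
  rw [← Real.exp_sum, Real.exp_le_exp]
  have h2 : ∑ p ∈ (Icc 1 Y).filter Nat.Prime, g p / ((p : ℝ) - 1) ≤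
      ∑ p ∈ (Icc 1 Y).filter Nat.Prime, (g p / p + F0 * (1 / (p * ((p : ℝ) - 1)))) := by
    refine sum_le_sum fun p hp => ?_
    rw [mem_filter] at hp
    have h3 : (1 : ℝ) < p := by exact_mod_cast hp.2.one_lt
    have h4 : g p / ((p : ℝ) - 1) = g p / p + g p * (1 / (p * ((p : ℝ) - 1))) := by
      have : (p : ℝ) - 1 ≠ 0 := by linarith
      field_simp
      ring
    rw [h4]
    have h5 : (0 : ℝ) ≤ 1 / (p * ((p : ℝ) - 1)) := by
      apply div_nonneg zero_le_one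
      apply mul_nonneg <;> linarith
    have := mul_le_mul_of_nonneg_right (hgF p) h5
    linarith
  refine h2.trans ?_
  rw [sum_add_distrib, ← mul_sum]
  have h6 : ∑ p ∈ (Icc 1 Y).filter Nat.Prime, (1 : ℝ) / (p * ((p : ℝ) - 1)) ≤
      ∑ n ∈ Icc 2 Y, (1 : ℝ) / (n * ((n : ℝ) - 1)) := by
    refine sum_le_sum_of_subset_of_nonneg ?_ ?_
    · intro p hp
      rw [mem_filter, mem_Icc] at hp
      rw [mem_Icc]
      exact ⟨hp.2.two_le, hp.1.2⟩
    · intro n hn _
      rw [mem_Icc] at hn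
      have : (2 : ℝ) ≤ n := by exact_mod_cast hn.1
      apply div_nonneg zero_le_one
      apply mul_nonneg <;> linarith
  have h7 := h6.trans (sum_tele Y)
  have : F0 * ∑ p ∈ (Icc 1 Y).filter Nat.Prime, (1 : ℝ) / (p * ((p : ℝ) - 1)) ≤ F0 * 1 :=
    mul_le_mul_of_nonneg_left h7 (by linarith)
  linarith

/-- rearranging a double sum over divisors -/
lemma sum_antidiag (Y : ℕ) (t : ℕ → ℕ → ℝ) :
    ∑ m ∈ Icc 1 Y, ∑ x ∈ m.divisorsAntidiagonal, t x.1 x.2 =
      ∑ m ∈ Icc 1 Y, ∑ d ∈ Icc 1 (Y / m), t d m := by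
  rw [sum_sigma', sum_sigma']
  refine sum_bij' (fun x _ => ⟨x.2.2, x.2.1⟩) (fun x _ => ⟨x.2 * x.1, (x.2, x.1)⟩) ?_ ?_ ?_ ?_ ?_
  · rintro ⟨m, d, e⟩ h
    simp only [mem_sigma, mem_Icc, Nat.mem_divisorsAntidiagonal] at h ⊢
    obtain ⟨⟨h1, h2⟩, h3, h4⟩ := h
    subst h3
    have hd : 0 < d := Nat.pos_of_ne_zero fun h => h4 (by rw [h]; simp)
    have he : 0 < e := Nat.pos_of_ne_zero fun h => h4 (by rw [h]; simp)
    refine ⟨⟨he, ?_⟩, hd, ?_⟩
    · exact (Nat.le_mul_of_pos_left e hd).trans h2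
    · rw [Nat.le_div_iff_mul_le he]
      exact h2
  · rintro ⟨m, d⟩ h
    simp only [mem_sigma, mem_Icc, Nat.mem_divisorsAntidiagonal] at h ⊢
    obtain ⟨⟨h1, h2⟩, h3, h4⟩ := h
    rw [Nat.le_div_iff_mul_le (by omega)] at h4
    have h5 : 0 < d * m := Nat.mul_pos (by omega) (by omega)
    exact ⟨⟨h5, h4⟩, trivial, h5.ne'⟩
  · rintro ⟨m, d, e⟩ h
    simp only [mem_sigma, mem_Icc, Nat.mem_divisorsAntidiagonal] at h
    obtain ⟨_, h3, _⟩ := h
    simp [h3]
  · rintro ⟨m, d⟩ h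
    rfl
  · rintro ⟨m, d, e⟩ h
    rfl

lemma sum_log_le {g : ℕ → ℝ} {F0 : ℝ} (hF : 1 ≤ F0) (hg : ∀ q, 0 ≤ g q) (hgF : ∀ q, g q ≤ F0)
    (Y : ℕ) : ∑ m ∈ Icc 1 Y, ff g m * Real.log m ≤
      F0 * (Real.log 4 + 4) * Y * ∑ m ∈ Icc 1 Y, ff g m / m := by
  have h1 : ∑ m ∈ Icc 1 Y, ff g m * Real.log m ≤
      ∑ m ∈ Icc 1 Y, ∑ x ∈ m.divisorsAntidiagonal,
        F0 * (ArithmeticFunction.vonMangoldt x.1 * ff g x.2) := by
    refine sum_le_sum fun m hm => ?_
    rw [mem_Icc] at hm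
    have h2 : Real.log m = ∑ x ∈ m.divisorsAntidiagonal, ArithmeticFunction.vonMangoldt x.1 := by
      rw [Nat.sum_divisorsAntidiagonal (fun i _ => ArithmeticFunction.vonMangoldt i),
        ArithmeticFunction.vonMangoldt_sum]
    rw [h2, mul_sum]
    refine sum_le_sum fun x hx => ?_
    rw [Nat.mem_divisorsAntidiagonal] at hx
    obtain ⟨h3, h4⟩ := hx
    by_cases h5 : IsPrimePow x.1
    · obtain ⟨p, k, hp, hk, hpk⟩ := h5
      have hp' : p.Prime := hp.nat_prime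
      have hx2 : x.2 ≠ 0 := by
        intro h
        rw [h, mul_zero] at h3
        omega
      have h6 : ff g m ≤ F0 * ff g x.2 := by
        rw [← h3, ← hpk]
        exact ff_pow_mul hF hg hgF hp' hk.ne' hx2
      have h7 : 0 ≤ ArithmeticFunction.vonMangoldt x.1 := ArithmeticFunction.vonMangoldt_nonneg
      calc ff g m * ArithmeticFunction.vonMangoldt x.1
          ≤ (F0 * ff g x.2) * ArithmeticFunction.vonMangoldt x.1 :=
            mul_le_mul_of_nonneg_right h6 h7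
        _ = _ := by ring
    · rw [ArithmeticFunction.vonMangoldt_eq_zero_iff.2 h5]
      simp
  refine h1.trans ?_
  rw [sum_antidiag Y (fun d m => F0 * (ArithmeticFunction.vonMangoldt d * ff g m)), mul_sum]
  refine sum_le_sum fun m hm => ?_
  rw [mem_Icc] at hm
  have hm0 : (0 : ℝ) < m := by exact_mod_cast (by omega : 0 < m)
  have h2 : ∑ d ∈ Icc 1 (Y / m), F0 * (ArithmeticFunction.vonMangoldt d * ff g m) =
      F0 * ff g m * ∑ d ∈ Icc 1 (Y / m), ArithmeticFunction.vonMangoldt d := by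
    rw [mul_sum]
    refine sum_congr rfl fun d _ => by ring
  rw [h2]
  have h3 : ∑ d ∈ Icc 1 (Y / m), ArithmeticFunction.vonMangoldt d ≤
      (Real.log 4 + 4) * ((Y : ℝ) / m) := by
    have h4 := Chebyshev.psi_le_const_mul_self (x := (Y : ℝ) / m) (by positivity)
    refine le_trans (le_of_eq ?_) h4
    unfold Chebyshev.psi
    rw [Nat.floor_div_eq_div]
    rfl
  have h5 : 0 ≤ F0 * ff g m := mul_nonneg (by linarith) (ff_nonneg hg m)
  calc F0 * ff g m * ∑ d ∈ Icc 1 (Y / m), ArithmeticFunction.vonMangoldt d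
      ≤ F0 * ff g m * ((Real.log 4 + 4) * ((Y : ℝ) / m)) := mul_le_mul_of_nonneg_left h3 h5
    _ = _ := by ring

lemma sum_mul_log_le {g : ℕ → ℝ} {F0 : ℝ} (hF : 1 ≤ F0) (hg : ∀ q, 0 ≤ g q)
    (hgF : ∀ q, g q ≤ F0) (Y : ℕ) (hY : 1 ≤ Y) :
    (∑ m ∈ Icc 1 Y, ff g m) * Real.log Y ≤
      (F0 * (Real.log 4 + 4) + 1) * Y * ∑ m ∈ Icc 1 Y, ff g m / m := by
  have hY0 : (0 : ℝ) < Y := by exact_mod_cast (by omega : 0 < Y)
  have h1 : (∑ m ∈ Icc 1 Y, ff g m) * Real.log Y ≤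
      ∑ m ∈ Icc 1 Y, ff g m * Real.log m + ∑ m ∈ Icc 1 Y, Y * (ff g m / m) := by
    rw [sum_mul, ← sum_add_distrib]
    refine sum_le_sum fun m hm => ?_
    rw [mem_Icc] at hm
    have hm0 : (0 : ℝ) < m := by exact_mod_cast (by omega : 0 < m)
    have h2 : Real.log Y = Real.log m + Real.log (Y / m) := by
      rw [Real.log_div hY0.ne' hm0.ne']
      ring
    have h3 : Real.log (Y / m) ≤ (Y : ℝ) / m := by
      have := Real.log_le_sub_one_of_pos (x := (Y : ℝ) / m) (by positivity)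
      linarith
    rw [h2, mul_add]
    have := mul_le_mul_of_nonneg_left h3 (ff_nonneg hg m)
    have e : ff g m * ((Y : ℝ) / m) = Y * (ff g m / m) := by ring
    linarith
  have h4 := sum_log_le hF hg hgF Y
  rw [← mul_sum] at h1
  linarith

end MV

open MV in
theorem s_mv : S_MV := by
  intro F0 hF
  obtain ⟨C2, hC2⟩ := Pool.Agent.Erdos456.Mert.mertens_inv
  have hC20 : 0 ≤ C2 := (abs_nonneg _).trans (hC2 3 le_rfl)
  have hl4 : (0 : ℝ) < Real.log 4 := Real.log_pos (by norm_num)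
  set K : ℝ := (F0 * (Real.log 4 + 4) + 1) * Real.exp (F0 + C2) with hK
  have hK0 : 0 ≤ K := by positivity
  refine ⟨2 * (1 + F0) + K, by positivity, fun g hg hgF Y hY => ?_⟩
  set P := (Icc 1 Y).filter Nat.Prime with hP
  have hsum : ∑ q ∈ P, (g q - 1) / q = ∑ q ∈ P, g q / q - ∑ q ∈ P, (1 : ℝ) / q := by
    rw [← sum_sub_distrib]
    exact sum_congr rfl fun q _ => by ring
  show ∑ m ∈ Icc 1 Y, ff g m ≤ _
  have hY0 : (0 : ℝ) < Y := by exact_mod_cast (by omega : 0 < Y)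
  rcases Nat.lt_or_ge Y 3 with h3 | h3
  · -- small `Y`
    have hexp : (1 : ℝ) / 2 ≤ Real.exp (∑ q ∈ P, (g q - 1) / q) := by
      have h4 : (-1 / 2 : ℝ) ≤ ∑ q ∈ P, (g q - 1) / q := by
        have hsub : P ⊆ {2} := by
          intro q hq
          rw [hP, mem_filter, mem_Icc] at hq
          rw [mem_singleton]
          have := hq.2.two_le
          omega
        have h5 : ∑ q ∈ P, (-1 / 2 : ℝ) ≤ ∑ q ∈ P, (g q - 1) / q := by
          refine sum_le_sum fun q hq => ?_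
          have := hsub hq
          rw [mem_singleton] at this
          subst this
          have := hg 2
          push_cast
          linarith
        have h6 : (P.card : ℝ) ≤ 1 := by
          have := card_le_card hsub
          rw [card_singleton] at this
          exact_mod_cast this
        rw [sum_const, nsmul_eq_mul] at h5
        linarith
      have h7 := Real.add_one_le_exp (-1 / 2 : ℝ)
      have h8 := Real.exp_le_exp.2 h4
      linarith
    have hs : ∑ m ∈ Icc 1 Y, ff g m ≤ (1 + F0) * Y := by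
      have h4 : ∀ m ∈ Icc 1 Y, ff g m ≤ 1 + F0 := by
        intro m hm
        rw [mem_Icc] at hm
        have : m = 1 ∨ m = 2 := by omega
        rcases this with rfl | rfl
        · rw [ff_one]; linarith
        · have : ff g 2 = g 2 := by
            have := ff_pow g Nat.prime_two 0
            simpa using this
          rw [this]
          have := hgF 2
          linarith
      have h5 := sum_le_sum h4
      rw [sum_const, nsmul_eq_mul, Nat.card_Icc] at h5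
      simp only [Nat.add_sub_cancel] at h5
      linarith
    have h9 : (1 + F0) * Y ≤ (2 * (1 + F0) + K) * Y * (1 / 2) := by
      have : 0 ≤ K * Y := by positivity
      nlinarith
    have h10 : (2 * (1 + F0) + K) * Y * (1 / 2) ≤
        (2 * (1 + F0) + K) * Y * Real.exp (∑ q ∈ P, (g q - 1) / q) :=
      mul_le_mul_of_nonneg_left hexp (by positivity)
    linarith
  · have hM := hC2 Y h3
    have hYr : (3 : ℝ) ≤ Y := by exact_mod_cast h3
    have hlog : 0 < Real.log Y := Real.log_pos (by linarith)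
    have h1 := sum_mul_log_le hF hg hgF Y hY
    have h2 := (sum_div_le hg Y).trans (prod_le_exp hF hg hgF Y)
    have h4 : ∑ p ∈ P, (1 : ℝ) / p ≤ Real.log (Real.log Y) + C2 := by
      have := (abs_le.1 hM).2
      linarith
    have h5 : (Real.log Y)⁻¹ ≤ Real.exp (C2 - ∑ p ∈ P, (1 : ℝ) / p) := by
      have : (Real.log Y)⁻¹ = Real.exp (-Real.log (Real.log Y)) := by
        rw [Real.exp_neg, Real.exp_log hlog]
      rw [this, Real.exp_le_exp]
      linarith
    have h6 : ∑ m ∈ Icc 1 Y, ff g m ≤ ((F0 * (Real.log 4 + 4) + 1) * Y *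
        Real.exp (∑ p ∈ P, g p / p + F0)) * (Real.log Y)⁻¹ := by
      rw [← div_eq_mul_inv, le_div_iff₀ hlog]
      exact h1.trans (mul_le_mul_of_nonneg_left h2 (by positivity))
    have h7 : ((F0 * (Real.log 4 + 4) + 1) * Y *
        Real.exp (∑ p ∈ P, g p / p + F0)) * (Real.log Y)⁻¹ ≤
        ((F0 * (Real.log 4 + 4) + 1) * Y *
        Real.exp (∑ p ∈ P, g p / p + F0)) * Real.exp (C2 - ∑ p ∈ P, (1 : ℝ) / p) :=
      mul_le_mul_of_nonneg_left h5 (by positivity)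
    have h8 : ((F0 * (Real.log 4 + 4) + 1) * Y *
        Real.exp (∑ p ∈ P, g p / p + F0)) * Real.exp (C2 - ∑ p ∈ P, (1 : ℝ) / p) =
        K * Y * Real.exp (∑ q ∈ P, (g q - 1) / q) := by
      rw [hsum, hK, mul_assoc, ← Real.exp_add]
      have : ∑ p ∈ P, g p / (p : ℝ) + F0 + (C2 - ∑ p ∈ P, (1 : ℝ) / p) =
          (F0 + C2) + (∑ p ∈ P, g p / (p : ℝ) - ∑ p ∈ P, (1 : ℝ) / p) := by ring
      rw [this, Real.exp_add (F0 + C2)]
      ring
    have h9 : K * Y * Real.exp (∑ q ∈ P, (g q - 1) / q) ≤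
        (2 * (1 + F0) + K) * Y * Real.exp (∑ q ∈ P, (g q - 1) / q) := by
      apply mul_le_mul_of_nonneg_right _ (Real.exp_nonneg _)
      apply mul_le_mul_of_nonneg_right _ hY0.le
      linarith
    linarith

end Pool.Agent.N907.EG
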