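import Pool.Agent.N907.EG.Def

/-!
Project EG (helper907), part T6: the recursion inequality for block moments.
-/

set_option autoImplicit false

open Finset

namespace Pool.Agent.N907.EG

namespace RI

/-! ### Elementary inequalities -/

theorem blk_clog {q j : ℕ} (h1 : 2 ^ (j - 1) < q) (h2 : q ≤ 2 ^ j) : Nat.clog 2 q = j := by
  have h3 : Nat.clog 2 q ≤ j := (Nat.clog_le_iff_le_pow Nat.one_lt_two).2 h2
  have h4 : j - 1 < Nat.clog 2 q := (Nat.lt_clog_iff_pow_lt Nat.one_lt_two).2 h1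
  omega

theorem clog_bd {q : ℕ} (hq : 2 ≤ q) : 2 ^ (Nat.clog 2 q - 1) < q ∧ q ≤ 2 ^ Nat.clog 2 q ∧
    1 ≤ Nat.clog 2 q := by
  have h1 : 1 ≤ Nat.clog 2 q := Nat.clog_pos Nat.one_lt_two hq
  refine ⟨?_, Nat.le_pow_clog Nat.one_lt_two q, h1⟩
  exact (Nat.lt_clog_iff_pow_lt Nat.one_lt_two).1 (by omega)

/-- Chebyshev's bound -/
theorem blk_recip (j : ℕ) (hj : 1 ≤ j) : ∑ r ∈ blk j, (1 : ℝ) / r ≤ 8 / j := by
  rcases Nat.lt_or_ge 1 j with h | h
  · have hl2 : 0 < Real.log 2 := Real.log_pos one_lt_two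
    have hj1 : (1 : ℝ) ≤ ((j - 1 : ℕ) : ℝ) := by exact_mod_cast (by omega : 1 ≤ j - 1)
    have hj2 : (2 : ℝ) ≤ (j : ℝ) := by exact_mod_cast h
    have hjc : ((j - 1 : ℕ) : ℝ) = (j : ℝ) - 1 := by
      rw [Nat.cast_sub hj, Nat.cast_one]
    have h1 : ((j - 1 : ℕ) : ℝ) * Real.log 2 * ((blk j).card : ℝ) ≤ Real.log 4 * 2 ^ j := by
      have h2 : ∑ r ∈ blk j, ((j - 1 : ℕ) : ℝ) * Real.log 2 ≤ ∑ r ∈ blk j, Real.log r := by
        refine Finset.sum_le_sum fun r hr => ?_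
        rw [blk, mem_filter, mem_Ioc] at hr
        rw [← Real.log_pow]
        refine Real.log_le_log (by positivity) ?_
        exact_mod_cast hr.1.1.le
      rw [Finset.sum_const, nsmul_eq_mul] at h2
      have h3 : ∑ r ∈ blk j, Real.log r ≤ Chebyshev.theta (2 ^ j : ℝ) := by
        rw [Chebyshev.theta_eq_sum_Icc]
        refine Finset.sum_le_sum_of_subset_of_nonneg ?_ ?_
        · intro r hr
          rw [blk, mem_filter, mem_Ioc] at hr
          have h4 : ⌊(2 ^ j : ℝ)⌋₊ = 2 ^ j := by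
            have : ((2 ^ j : ℕ) : ℝ) = (2 ^ j : ℝ) := by push_cast; ring
            rw [← this, Nat.floor_natCast]
          rw [mem_filter, mem_Icc, h4]
          exact ⟨⟨Nat.zero_le _, hr.1.2⟩, hr.2⟩
        · intro r hr _
          rw [mem_filter] at hr
          exact Real.log_nonneg (by exact_mod_cast hr.2.one_le)
      have h5 := Chebyshev.theta_le_log4_mul_x (x := (2 ^ j : ℝ)) (by positivity)
      linarith
    have hl4 : Real.log 4 = 2 * Real.log 2 := by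
      rw [show (4 : ℝ) = 2 ^ 2 by norm_num, Real.log_pow]
      push_cast
      ring
    rw [hl4] at h1
    have h6 : ((j - 1 : ℕ) : ℝ) * ((blk j).card : ℝ) ≤ 2 * 2 ^ j := by
      have : Real.log 2 * (((j - 1 : ℕ) : ℝ) * ((blk j).card : ℝ)) ≤
          Real.log 2 * (2 * 2 ^ j) := by linarith
      exact le_of_mul_le_mul_left this hl2
    have h7 : (j : ℝ) * ((blk j).card : ℝ) ≤ 4 * 2 ^ j := by
      rw [hjc] at h6
      have h8 : (0 : ℝ) ≤ ((blk j).card : ℝ) := Nat.cast_nonneg _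
      nlinarith
    have h9 : ∑ r ∈ blk j, (1 : ℝ) / r ≤ ∑ r ∈ blk j, (2 : ℝ) / 2 ^ j := by
      refine Finset.sum_le_sum fun r hr => ?_
      rw [blk, mem_filter, mem_Ioc] at hr
      have h10 : (2 : ℝ) ^ (j - 1) ≤ r := by exact_mod_cast hr.1.1.le
      have h11 : (2 : ℝ) ^ j = 2 * 2 ^ (j - 1) := by
        rw [← pow_succ']
        congr 1
        omega
      rw [h11, div_le_div_iff₀ (lt_of_lt_of_le (by positivity) h10) (by positivity)]
      linarith
    refine h9.trans ?_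
    rw [Finset.sum_const, nsmul_eq_mul, mul_div_assoc', div_le_div_iff₀ (by positivity)
      (by linarith)]
    linarith
  · have h1 : j = 1 := by omega
    subst h1
    have h2 : blk 1 ⊆ {2} := by
      intro r hr
      rw [blk, mem_filter, mem_Ioc] at hr
      rw [mem_singleton]
      have := hr.1.2
      have h3 := hr.2.two_le
      omega
    refine (Finset.sum_le_sum_of_subset_of_nonneg h2 fun r _ _ => by positivity).trans ?_
    rw [Finset.sum_singleton]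
    norm_num

/-- `∑ j^(-3/4) ≤ 4 n^(1/4)` -/
theorem sum_rpow (n : ℕ) : ∑ j ∈ Icc 1 n, (j : ℝ) ^ (-(3 / 4) : ℝ) ≤ 4 * (n : ℝ) ^ (1 / 4 : ℝ) := by
  induction n with
  | zero =>
    simp
  | succ n ih =>
    rw [Finset.sum_Icc_succ_top (by omega)]
    have hm : (0 : ℝ) < (n : ℝ) + 1 := by positivity
    have h1 : (n : ℝ) ^ (1 / 4 : ℝ) ≤ ((n : ℝ) + 1) ^ (1 / 4 : ℝ) * (1 + 1 / 4 * (-(1 / ((n : ℝ) + 1)))) := by
      have h2 : (n : ℝ) = ((n : ℝ) + 1) * (1 + -(1 / ((n : ℝ) + 1))) := by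
        field_simp
        ring
      have h3 : -1 ≤ -(1 / ((n : ℝ) + 1)) := by
        rw [neg_le_neg_iff, div_le_one hm]
        linarith [Nat.cast_nonneg (α := ℝ) n]
      have h4 := rpow_one_add_le_one_add_mul_self h3 (p := 1 / 4) (by norm_num) (by norm_num)
      calc (n : ℝ) ^ (1 / 4 : ℝ) = (((n : ℝ) + 1) * (1 + -(1 / ((n : ℝ) + 1)))) ^ (1 / 4 : ℝ) := by
            rw [← h2]
        _ = ((n : ℝ) + 1) ^ (1 / 4 : ℝ) * (1 + -(1 / ((n : ℝ) + 1))) ^ (1 / 4 : ℝ) :=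
            Real.mul_rpow hm.le (by linarith)
        _ ≤ _ := mul_le_mul_of_nonneg_left h4 (by positivity)
    have h5 : ((n : ℝ) + 1) ^ (-(3 / 4) : ℝ) = ((n : ℝ) + 1) ^ (1 / 4 : ℝ) * (1 / ((n : ℝ) + 1)) := by
      have e1 : 1 / ((n : ℝ) + 1) = ((n : ℝ) + 1) ^ (-1 : ℝ) := by
        rw [Real.rpow_neg_one, one_div]
      rw [e1, ← Real.rpow_add hm]
      norm_num
    push_cast
    rw [h5]
    nlinarith

theorem exp_sub_one_le {y : ℝ} : Real.exp y - 1 ≤ y * Real.exp y := by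
  have h1 := Real.add_one_le_exp (-y)
  have h2 := mul_le_mul_of_nonneg_right h1 (Real.exp_pos y).le
  rw [← Real.exp_add, neg_add_cancel, Real.exp_zero] at h2
  linarith

/-- the exponents -/
noncomputable def cc (lam θ : ℝ) (k J j : ℕ) : ℝ := ((k : ℝ) - 1) * (j / J) * (ell lam θ k J j - 1)

section

variable {A0 lam θ : ℝ} {k J : ℕ}

theorem ell_ge (j : ℕ) : 1 ≤ ell lam θ k J j := le_max_left _ _

theorem cc_nonneg (hk : 2 ≤ k) (j : ℕ) : 0 ≤ cc lam θ k J j := by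
  have h1 : (2 : ℝ) ≤ k := by exact_mod_cast hk
  have h2 := ell_ge (lam := lam) (θ := θ) (k := k) (J := J) j
  unfold cc
  exact mul_nonneg (mul_nonneg (by linarith) (by positivity)) (by linarith)

theorem cc_zero (hθ : 1 ≤ θ) (hlam : 0 < lam) {j : ℕ} (hj : 1 ≤ j)
    (h : (J : ℝ) ≤ θ * j) : cc lam θ k J j = 0 := by
  have hj0 : (0 : ℝ) < j := by exact_mod_cast hj
  have h1 : ((J : ℝ) / (θ * j)) ^ (lam / k) ≤ 1 := by
    refine Real.rpow_le_one (by positivity) ?_ (by positivity)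
    rw [div_le_one (by positivity)]
    exact h
  unfold cc ell
  rw [max_eq_left h1, sub_self, mul_zero]

theorem cc_le (hk : 2 ≤ k) (hθ : 1 ≤ θ) (hlam : 0 < lam) (h2 : 2 * lam ≤ k) {j : ℕ} (hj : 1 ≤ j)
    (h : θ * j < J) : cc lam θ k J j ≤ 4 * (lam / θ) * ((θ / J) ^ (1 / 4 : ℝ) * (j : ℝ) ^ (1 / 4 : ℝ)) := by
  have hj0 : (0 : ℝ) < j := by exact_mod_cast hj
  have hk0 : (0 : ℝ) < k := by exact_mod_cast (by omega : 0 < k)
  have hθ0 : 0 < θ := by linarith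
  have hJ0 : (0 : ℝ) < J := lt_trans (by positivity) h
  obtain ⟨v, hv⟩ : ∃ v : ℝ, v = (J : ℝ) / (θ * j) := ⟨_, rfl⟩
  have hv1 : 1 < v := by rw [hv, one_lt_div (by positivity)]; exact h
  have hv0 : 0 < v := by linarith
  obtain ⟨x, hx⟩ : ∃ x : ℝ, x = Real.log v := ⟨_, rfl⟩
  have hx0 : 0 ≤ x := by rw [hx]; exact Real.log_nonneg hv1.le
  have hkap : lam / k ≤ 1 / 2 := by rw [div_le_div_iff₀ hk0 two_pos]; linarith
  have hkap0 : 0 < lam / k := by positivity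
  have e1 : v ^ (lam / k) = Real.exp (lam / k * x) := by
    rw [hx, Real.rpow_def_of_pos hv0, mul_comm]
  have h3 : v ^ (lam / k) - 1 ≤ 4 * (lam / k) * Real.exp (3 / 4 * x) := by
    rw [e1]
    refine exp_sub_one_le.trans ?_
    have h4 : x ≤ 4 * Real.exp (1 / 4 * x) := by
      have := Real.add_one_le_exp (1 / 4 * x)
      linarith
    have h5 : Real.exp (lam / k * x) ≤ Real.exp (1 / 2 * x) :=
      Real.exp_le_exp.2 (mul_le_mul_of_nonneg_right hkap hx0)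
    have h6 : x * Real.exp (lam / k * x) ≤ 4 * Real.exp (1 / 4 * x) * Real.exp (1 / 2 * x) :=
      mul_le_mul h4 h5 (Real.exp_pos _).le (by positivity)
    have h7 : Real.exp (3 / 4 * x) = Real.exp (1 / 4 * x) * Real.exp (1 / 2 * x) := by
      rw [← Real.exp_add]
      congr 1
      ring
    rw [h7]
    nlinarith
  have e2 : Real.exp (3 / 4 * x) = v ^ (3 / 4 : ℝ) := by
    rw [hx, Real.rpow_def_of_pos hv0, mul_comm]
  have h8 : ell lam θ k J j - 1 ≤ 4 * (lam / k) * v ^ (3 / 4 : ℝ) := by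
    unfold ell
    rw [← hv, max_eq_right (Real.one_le_rpow hv1.le hkap0.le), ← e2]
    exact h3
  unfold cc
  have h9 : ((k : ℝ) - 1) * (j / J) ≤ k * (j / J) := by
    apply mul_le_mul_of_nonneg_right _ (by positivity)
    linarith
  have h10 : 0 ≤ ell lam θ k J j - 1 := by
    have := ell_ge (lam := lam) (θ := θ) (k := k) (J := J) j
    linarith
  have h11 : ((k : ℝ) - 1) * (j / J) * (ell lam θ k J j - 1) ≤
      k * (j / J) * (4 * (lam / k) * v ^ (3 / 4 : ℝ)) :=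
    mul_le_mul h9 h8 h10 (by positivity)
  refine h11.trans (le_of_eq ?_)
  have e3 : (k : ℝ) * (j / J) * (4 * (lam / k) * v ^ (3 / 4 : ℝ)) =
      4 * (lam / θ) * (v⁻¹ * v ^ (3 / 4 : ℝ)) := by
    rw [hv]
    field_simp
  rw [e3]
  congr 1
  have e4 : v⁻¹ * v ^ (3 / 4 : ℝ) = v⁻¹ ^ (1 / 4 : ℝ) := by
    rw [← Real.rpow_neg_one v, ← Real.rpow_add hv0, ← Real.rpow_mul hv0.le]
    norm_num
  rw [e4, ← Real.mul_rpow (by positivity) (by positivity), hv]
  congr 1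
  field_simp

theorem cc_le' (hk : 2 ≤ k) (hθ : 1 ≤ θ) (hlam : 0 < lam) (hA : lam ≤ A0 * θ) (h2 : 2 * lam ≤ k)
    {j : ℕ} (hj : 1 ≤ j) : cc lam θ k J j ≤ 4 * A0 := by
  have hθ0 : 0 < θ := by linarith
  have hA' : lam / θ ≤ A0 := by rw [div_le_iff₀ hθ0]; exact hA
  have hj0 : (0 : ℝ) < j := by exact_mod_cast hj
  have hlt : 0 < lam / θ := by positivity
  rcases le_or_gt (J : ℝ) (θ * j) with h | h
  · rw [cc_zero hθ hlam hj h]
    linarith
  · have hJ0 : (0 : ℝ) < J := lt_trans (by positivity) h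
    refine (cc_le hk hθ hlam h2 hj h).trans ?_
    have h1 : (θ / J) ^ (1 / 4 : ℝ) * (j : ℝ) ^ (1 / 4 : ℝ) ≤ 1 := by
      rw [← Real.mul_rpow (by positivity) (by positivity)]
      refine Real.rpow_le_one (by positivity) ?_ (by norm_num)
      rw [div_mul_eq_mul_div, div_le_one hJ0]
      exact h.le
    calc 4 * (lam / θ) * ((θ / J) ^ (1 / 4 : ℝ) * (j : ℝ) ^ (1 / 4 : ℝ)) ≤ 4 * (lam / θ) * 1 :=
          mul_le_mul_of_nonneg_left h1 (by positivity)
      _ ≤ 4 * A0 := by linarith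

theorem cc_sum (hk : 2 ≤ k) (hθ : 1 ≤ θ) (hlam : 0 < lam) (hA : lam ≤ A0 * θ) (h2 : 2 * lam ≤ k)
    (hJ : 1 ≤ J) : ∑ j ∈ Ico 1 J, cc lam θ k J j / j ≤ 16 * A0 := by
  have hθ0 : 0 < θ := by linarith
  have hA' : lam / θ ≤ A0 := by rw [div_le_iff₀ hθ0]; exact hA
  have hJ0 : (0 : ℝ) < J := by exact_mod_cast hJ
  have hlt : 0 < lam / θ := by positivity
  obtain ⟨t, ht⟩ : ∃ t : ℝ, t = (J : ℝ) / θ := ⟨_, rfl⟩
  have ht0 : 0 < t := by rw [ht]; positivity
  have h1 : ∑ j ∈ Ico 1 J, cc lam θ k J j / j ≤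
      ∑ j ∈ Icc 1 ⌊t⌋₊, 4 * (lam / θ) * ((θ / J) ^ (1 / 4 : ℝ) * (j : ℝ) ^ (-(3 / 4) : ℝ)) := by
    have h3 : ∑ j ∈ Ico 1 J, cc lam θ k J j / j =
        ∑ j ∈ (Ico 1 J).filter (fun j : ℕ => θ * j < J), cc lam θ k J j / j := by
      rw [Finset.sum_filter]
      refine Finset.sum_congr rfl fun j hj => ?_
      rw [mem_Ico] at hj
      split_ifs with h
      · rfl
      · rw [cc_zero hθ hlam hj.1 (not_lt.1 h), zero_div]
    rw [h3]
    have h4 : (Ico 1 J).filter (fun j : ℕ => θ * j < J) ⊆ Icc 1 ⌊t⌋₊ := by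
      intro j hj
      rw [mem_filter, mem_Ico] at hj
      rw [mem_Icc]
      refine ⟨hj.1.1, Nat.le_floor ?_⟩
      rw [ht, le_div_iff₀ hθ0]
      linarith [hj.2]
    refine le_trans (Finset.sum_le_sum fun j hj => ?_)
      (Finset.sum_le_sum_of_subset_of_nonneg h4 fun j _ _ => by positivity)
    rw [mem_filter, mem_Ico] at hj
    have hj0 : (0 : ℝ) < j := by exact_mod_cast hj.1.1
    have h5 := cc_le hk hθ hlam h2 hj.1.1 hj.2
    rw [div_le_iff₀ hj0]
    refine h5.trans (le_of_eq ?_)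
    have e : (j : ℝ) ^ (-(3 / 4) : ℝ) * j = (j : ℝ) ^ (1 / 4 : ℝ) := by
      nth_rewrite 2 [← Real.rpow_one (j : ℝ)]
      rw [← Real.rpow_add hj0]
      norm_num
    rw [← e]
    ring
  refine h1.trans ?_
  rw [← Finset.mul_sum, ← Finset.mul_sum]
  have h6 : (θ / J) ^ (1 / 4 : ℝ) * ∑ j ∈ Icc 1 ⌊t⌋₊, (j : ℝ) ^ (-(3 / 4) : ℝ) ≤ 4 := by
    have h7 := sum_rpow ⌊t⌋₊
    have h8 : ((⌊t⌋₊ : ℕ) : ℝ) ^ (1 / 4 : ℝ) ≤ t ^ (1 / 4 : ℝ) :=
      Real.rpow_le_rpow (Nat.cast_nonneg _) (Nat.floor_le ht0.le) (by norm_num)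
    have h9 : (θ / J) ^ (1 / 4 : ℝ) * t ^ (1 / 4 : ℝ) = 1 := by
      rw [← Real.mul_rpow (by positivity) ht0.le, ht]
      have : θ / J * (J / θ) = 1 := by field_simp
      rw [this, Real.one_rpow]
    have h10 : 0 ≤ (θ / J : ℝ) ^ (1 / 4 : ℝ) := by positivity
    nlinarith
  calc 4 * (lam / θ) * ((θ / J) ^ (1 / 4 : ℝ) * ∑ j ∈ Icc 1 ⌊t⌋₊, (j : ℝ) ^ (-(3 / 4) : ℝ)) ≤
        4 * (lam / θ) * 4 := mul_le_mul_of_nonneg_left h6 (by positivity)
    _ ≤ 16 * A0 := by linarith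

end

/-- the inequality of Hölder -/
theorem hoelder (s : Finset ℕ) (a b : ℕ → ℝ) (ha : ∀ i ∈ s, 0 ≤ a i) (hb : ∀ i ∈ s, 0 ≤ b i)
    {k : ℕ} (hk : 1 ≤ k) : (∑ i ∈ s, a i * b i) ^ k ≤ (∑ i ∈ s, a i) ^ (k - 1) *
      ∑ i ∈ s, a i * b i ^ k := by
  obtain ⟨A, hA⟩ : ∃ A : ℝ, A = ∑ i ∈ s, a i := ⟨_, rfl⟩
  have hA0 : 0 ≤ A := by rw [hA]; exact Finset.sum_nonneg ha
  rw [← hA]
  rcases hA0.eq_or_lt with h | h
  · have h1 : ∀ i ∈ s, a i = 0 := by
      have h2 : ∑ i ∈ s, a i = 0 := by rw [← hA, ← h]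
      exact (Finset.sum_eq_zero_iff_of_nonneg ha).1 h2
    have h3 : ∑ i ∈ s, a i * b i = 0 := Finset.sum_eq_zero fun i hi => by rw [h1 i hi, zero_mul]
    rw [h3, zero_pow (by omega)]
    have h4 : ∑ i ∈ s, a i * b i ^ k = 0 :=
      Finset.sum_eq_zero fun i hi => by rw [h1 i hi, zero_mul]
    rw [h4, mul_zero]
  · have h1 := Real.pow_arith_mean_le_arith_mean_pow s (fun i => a i / A) b
      (fun i hi => div_nonneg (ha i hi) hA0) (by
        rw [← Finset.sum_div, ← hA, div_self h.ne']) hb k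
    have e1 : ∑ i ∈ s, a i * b i = A * ∑ i ∈ s, a i / A * b i := by
      rw [Finset.mul_sum]
      refine Finset.sum_congr rfl fun i _ => ?_
      field_simp
    have e2 : ∑ i ∈ s, a i * b i ^ k = A * ∑ i ∈ s, a i / A * b i ^ k := by
      rw [Finset.mul_sum]
      refine Finset.sum_congr rfl fun i _ => ?_
      field_simp
    rw [e1, e2, mul_pow]
    have e3 : A ^ k = A ^ (k - 1) * A := by
      rw [← pow_succ]
      congr 1
      omega
    rw [e3, mul_assoc]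
    exact mul_le_mul_of_nonneg_left (mul_le_mul_of_nonneg_left h1 hA0) (by positivity)

/-! ### The weights -/

/-- the range of the primes -/
noncomputable def PP (J : ℕ) : Finset ℕ := (Finset.Ioc (2 ^ iJ J) (2 ^ (J - 1))).filter Nat.Prime

/-- the weight of a prime -/
noncomputable def wq (J q : ℕ) : ℝ := Real.log q / (J * Real.log 2)

open Classical in
/-- the strongly multiplicative function -/
noncomputable def gg (lam θ : ℝ) (k J : ℕ) (h : ℕ → ℝ) (q : ℕ) : ℝ :=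
  if 2 ^ iJ J < q ∧ q ≤ 2 ^ (J - 1) then Real.exp (((k : ℝ) - 1) *
    (wq J q * (ell lam θ k J (Nat.clog 2 q) - 1 - if h q = 0 then 1 else 0))) else 1

/-- the coefficients after the inequality of Hölder -/
noncomputable def vq (lam θ : ℝ) (k J : ℕ) (h : ℕ → ℝ) (q : ℕ) : ℝ :=
  wq J q * ((ell lam θ k J (Nat.clog 2 q))⁻¹) ^ (k - 1) * h q ^ k

theorem wq_nonneg (J q : ℕ) : 0 ≤ wq J q := by
  have hl2 : 0 < Real.log 2 := Real.log_pos one_lt_two
  exact div_nonneg (Real.log_natCast_nonneg q) (by positivity)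

theorem wq_le {J q j : ℕ} (hJ : 1 ≤ J) (hq : 1 ≤ q) (h : q ≤ 2 ^ j) : wq J q ≤ j / J := by
  have hl2 : 0 < Real.log 2 := Real.log_pos one_lt_two
  have hJ0 : (0 : ℝ) < J := by exact_mod_cast hJ
  have hq0 : (0 : ℝ) < q := by exact_mod_cast hq
  have h1 : Real.log q ≤ j * Real.log 2 := by
    rw [← Real.log_pow]
    exact Real.log_le_log hq0 (by exact_mod_cast h)
  unfold wq
  rw [div_le_div_iff₀ (by positivity) hJ0]
  nlinarith

theorem wq_clog {J q : ℕ} (hJ : 1 ≤ J) (hq : 1 ≤ q) : wq J q ≤ (Nat.clog 2 q : ℕ) / J :=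
  wq_le hJ hq (Nat.le_pow_clog Nat.one_lt_two q)

theorem wq_ge {J q j : ℕ} (hJ : 1 ≤ J) (h : 2 ^ j ≤ q) : (j : ℝ) / J ≤ wq J q := by
  have hl2 : 0 < Real.log 2 := Real.log_pos one_lt_two
  have hJ0 : (0 : ℝ) < J := by exact_mod_cast hJ
  have h1 : j * Real.log 2 ≤ Real.log q := by
    rw [← Real.log_pow]
    exact Real.log_le_log (by positivity) (by exact_mod_cast h)
  unfold wq
  rw [div_le_div_iff₀ hJ0 (by positivity)]
  nlinarith

theorem wq_sum {J n : ℕ} (hJ : 1 ≤ J) (hn : 1 ≤ n) (hn2 : n ≤ 2 ^ J) :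
    ∑ q ∈ n.primeFactors, wq J q ≤ 1 := by
  have hl2 : 0 < Real.log 2 := Real.log_pos one_lt_two
  have hJ0 : (0 : ℝ) < J := by exact_mod_cast hJ
  unfold wq
  rw [← Finset.sum_div, div_le_one (by positivity)]
  have h1 : ∏ p ∈ n.primeFactors, p ≤ 2 ^ J :=
    (Nat.le_of_dvd hn (Nat.prod_primeFactors_dvd n)).trans hn2
  have h2 : ∑ q ∈ n.primeFactors, Real.log q = Real.log (∏ q ∈ n.primeFactors, (q : ℝ)) := by
    rw [Real.log_prod]
    intro q hq
    have := (Nat.prime_of_mem_primeFactors hq).pos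
    positivity
  rw [h2, ← Real.log_pow]
  refine Real.log_le_log ?_ ?_
  · refine Finset.prod_pos fun q hq => ?_
    have := (Nat.prime_of_mem_primeFactors hq).pos
    positivity
  · have h3 : (∏ q ∈ n.primeFactors, (q : ℝ)) = ((∏ p ∈ n.primeFactors, p : ℕ) : ℝ) := by
      push_cast
      rfl
    rw [h3]
    have h4 : ((∏ p ∈ n.primeFactors, p : ℕ) : ℝ) ≤ ((2 ^ J : ℕ) : ℝ) := Nat.cast_le.2 h1
    refine h4.trans (le_of_eq ?_)
    push_cast
    ring

section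

variable {A0 lam θ : ℝ} {k J : ℕ} {h : ℕ → ℝ}

theorem vq_nonneg (hh : Adm h) (q : ℕ) : 0 ≤ vq lam θ k J h q := by
  have h1 := ell_ge (lam := lam) (θ := θ) (k := k) (J := J) (Nat.clog 2 q)
  unfold vq
  have h2 := wq_nonneg J q
  have h3 := hh.nonneg q
  have h4 : 0 ≤ (ell lam θ k J (Nat.clog 2 q))⁻¹ := inv_nonneg.2 (by linarith)
  positivity

theorem gg_nonneg (q : ℕ) : 0 ≤ gg lam θ k J h q := by
  unfold gg
  split_ifs <;> positivity

theorem bexp (hk : 2 ≤ k) (hJ : 1 ≤ J) {q : ℕ} (hq : 1 ≤ q) :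
    0 ≤ ((k : ℝ) - 1) * (wq J q * (ell lam θ k J (Nat.clog 2 q) - 1)) ∧
      ((k : ℝ) - 1) * (wq J q * (ell lam θ k J (Nat.clog 2 q) - 1)) ≤
        cc lam θ k J (Nat.clog 2 q) := by
  have hk1 : (2 : ℝ) ≤ k := by exact_mod_cast hk
  have h1 := ell_ge (lam := lam) (θ := θ) (k := k) (J := J) (Nat.clog 2 q)
  have h2 := wq_nonneg J q
  have h3 := wq_clog hJ hq
  have h0 : 0 ≤ ell lam θ k J (Nat.clog 2 q) - 1 := by linarith
  constructor
  · exact mul_nonneg (by linarith) (mul_nonneg h2 h0)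
  · unfold cc
    rw [mul_assoc ((k : ℝ) - 1)]
    exact mul_le_mul_of_nonneg_left (mul_le_mul_of_nonneg_right h3 h0) (by linarith)

theorem gg_le (hA0 : 1 ≤ A0) (hk : 2 ≤ k) (hJ : 1 ≤ J) (hθ : 1 ≤ θ) (hlam : 0 < lam)
    (hA : lam ≤ A0 * θ) (h2 : 2 * lam ≤ k) (q : ℕ) : gg lam θ k J h q ≤ Real.exp (4 * A0) := by
  unfold gg
  split_ifs with h1 h3
  · have hq : 2 ≤ q := by
      have := Nat.one_le_two_pow (n := iJ J)
      omega
    apply Real.exp_le_exp.2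
    have b1 := bexp (lam := lam) (θ := θ) hk hJ (by omega : 1 ≤ q)
    have b2 := cc_le' (J := J) hk hθ hlam hA h2 (clog_bd hq).2.2
    have hk1 : (2 : ℝ) ≤ k := by exact_mod_cast hk
    have b3 : 0 ≤ ((k : ℝ) - 1) * wq J q := mul_nonneg (by linarith) (wq_nonneg J q)
    have e : ((k : ℝ) - 1) * (wq J q * (ell lam θ k J (Nat.clog 2 q) - 1 - 1)) =
      ((k : ℝ) - 1) * (wq J q * (ell lam θ k J (Nat.clog 2 q) - 1)) - ((k : ℝ) - 1) * wq J q := by
      ring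
    rw [e]
    linarith [b1.2]
  · have hq : 2 ≤ q := by
      have := Nat.one_le_two_pow (n := iJ J)
      omega
    apply Real.exp_le_exp.2
    have b1 := bexp (lam := lam) (θ := θ) hk hJ (by omega : 1 ≤ q)
    have b2 := cc_le' (J := J) hk hθ hlam hA h2 (clog_bd hq).2.2
    rw [sub_zero]
    exact b1.2.trans b2
  · exact Real.one_le_exp (by linarith)

/-- steps (1): the inequality of Hölder for one integer -/
theorem step1 (hh : Adm h) (hk : 2 ≤ k) (hJ : 1 ≤ J) {n : ℕ} (hn : 1 ≤ n)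
    (hn2 : n ≤ 2 ^ J) : WW h J n ^ k ≤ (∏ r ∈ n.primeFactors, gg lam θ k J h r) *
      ∑ q ∈ n.primeFactors with 2 ^ (iJ J) < q ∧ q ≤ 2 ^ (J - 1), vq lam θ k J h q := by
  classical
  obtain ⟨S, hS⟩ : ∃ S : Finset ℕ, S = n.primeFactors.filter
    (fun q => 2 ^ (iJ J) < q ∧ q ≤ 2 ^ (J - 1)) := ⟨_, rfl⟩
  obtain ⟨Lm, hLm⟩ : ∃ Lm : ℕ → ℝ, Lm = fun q => ell lam θ k J (Nat.clog 2 q) := ⟨_, rfl⟩
  have hL1 : ∀ q, 1 ≤ Lm q := fun q => by rw [hLm]; exact ell_ge _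
  have hk1 : (2 : ℝ) ≤ k := by exact_mod_cast hk
  have hw := fun q => wq_nonneg J q
  -- Hölder
  have e1 : WW h J n = ∑ q ∈ S.filter (fun q => h q ≠ 0), (wq J q * Lm q) * (h q / Lm q) := by
    have e2 : WW h J n = ∑ q ∈ S, wq J q * h q := by rw [hS]; rfl
    rw [e2, Finset.sum_filter]
    refine Finset.sum_congr rfl fun q _ => ?_
    have := hL1 q
    split_ifs with h1
    · have h2 : Lm q ≠ 0 := by linarith
      field_simp
    · rw [not_not.1 h1, mul_zero]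
  have e3 := hoelder (S.filter (fun q => h q ≠ 0)) (fun q => wq J q * Lm q) (fun q => h q / Lm q)
    (fun q _ => mul_nonneg (hw q) (by linarith [hL1 q]))
    (fun q _ => div_nonneg (hh.nonneg q) (by linarith [hL1 q])) (k := k) (by omega)
  rw [← e1] at e3
  -- the second factor
  have e4 : ∑ q ∈ S.filter (fun q => h q ≠ 0), (wq J q * Lm q) * (h q / Lm q) ^ k ≤
      ∑ q ∈ S, vq lam θ k J h q := by
    refine le_trans (le_of_eq ?_) (Finset.sum_le_sum_of_subset_of_nonneg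
      (Finset.filter_subset (fun q => h q ≠ 0) S) fun q _ _ => vq_nonneg hh q)
    refine Finset.sum_congr rfl fun q _ => ?_
    have h2 : Lm q ≠ 0 := by linarith [hL1 q]
    have h3 : vq lam θ k J h q = wq J q * ((Lm q)⁻¹) ^ (k - 1) * h q ^ k := by
      rw [hLm]; rfl
    rw [h3, div_pow, inv_pow]
    have h4 : Lm q ^ k = Lm q ^ (k - 1) * Lm q := by
      rw [← pow_succ]
      congr 1
      omega
    rw [h4]
    field_simp
  -- the first factor
  obtain ⟨T, hT⟩ : ∃ T : ℝ, T = ∑ q ∈ S, wq J q * (Lm q - 1 - if h q = 0 then 1 else 0) := ⟨_, rfl⟩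
  have hsum : ∑ q ∈ S, wq J q ≤ 1 := by
    refine le_trans (Finset.sum_le_sum_of_subset_of_nonneg ?_ fun q _ _ => hw q)
      (wq_sum hJ hn hn2)
    rw [hS]
    exact Finset.filter_subset _ _
  have e5 : ∑ q ∈ S.filter (fun q => h q ≠ 0), wq J q * Lm q ≤ Real.exp T := by
    refine le_trans ?_ (Real.add_one_le_exp T)
    have e6 : ∑ q ∈ S.filter (fun q => h q ≠ 0), wq J q * Lm q ≤ T + ∑ q ∈ S, wq J q := by
      rw [hT, ← Finset.sum_add_distrib, Finset.sum_filter]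
      refine Finset.sum_le_sum fun q _ => ?_
      have h1 := hL1 q
      have h2 := hw q
      by_cases h3 : h q = 0
      · rw [if_neg (by simpa using h3), if_pos h3]
        nlinarith
      · rw [if_pos h3, if_neg h3]
        linarith
    linarith
  have e7 : 0 ≤ ∑ q ∈ S.filter (fun q => h q ≠ 0), wq J q * Lm q :=
    Finset.sum_nonneg fun q _ => mul_nonneg (hw q) (by linarith [hL1 q])
  have e8 : (∑ q ∈ S.filter (fun q => h q ≠ 0), wq J q * Lm q) ^ (k - 1) ≤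
      ∏ r ∈ n.primeFactors, gg lam θ k J h r := by
    refine (pow_le_pow_left₀ e7 e5 _).trans (le_of_eq ?_)
    rw [← Real.exp_nat_mul, hT, Finset.mul_sum, Real.exp_sum, hS, Finset.prod_filter]
    refine Finset.prod_congr rfl fun q _ => ?_
    unfold gg
    rw [hLm]
    have hkc : ((k - 1 : ℕ) : ℝ) = (k : ℝ) - 1 := by
      rw [Nat.cast_sub (by omega), Nat.cast_one]
    rw [hkc]
  rw [← hS]
  refine e3.trans ?_
  refine mul_le_mul e8 e4 ?_ (Finset.prod_nonneg fun q _ => gg_nonneg q)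
  exact Finset.sum_nonneg fun q _ => mul_nonneg (mul_nonneg (hw q) (by linarith [hL1 q]))
    (pow_nonneg (div_nonneg (hh.nonneg q) (by linarith [hL1 q])) _)

/-- the integers divisible by a prime -/
theorem step3 {g : ℕ → ℝ} {F0 : ℝ} (hF : 1 ≤ F0) (hg : ∀ q, 0 ≤ g q) (hg2 : ∀ q, g q ≤ F0)
    {q : ℕ} (hq : q.Prime) (X : ℕ) :
    ∑ n ∈ (Icc 1 X).filter (fun n => q ∣ n), ∏ r ∈ n.primeFactors, g r ≤
      F0 * ∑ m ∈ Icc 1 (X / q), ∏ r ∈ m.primeFactors, g r := by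
  have h1 : (Icc 1 X).filter (fun n => q ∣ n) = (Icc 1 (X / q)).image (fun m => q * m) := by
    ext n
    rw [mem_filter, mem_Icc, mem_image]
    constructor
    · rintro ⟨⟨h1, h2⟩, m, rfl⟩
      refine ⟨m, ?_, rfl⟩
      rw [mem_Icc]
      refine ⟨?_, ?_⟩
      · rcases Nat.eq_zero_or_pos m with h3 | h3
        · rw [h3, mul_zero] at h1
          omega
        · exact h3
      · rw [Nat.le_div_iff_mul_le hq.pos, mul_comm]
        exact h2
    · rintro ⟨m, hm, rfl⟩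
      rw [mem_Icc, Nat.le_div_iff_mul_le hq.pos] at hm
      refine ⟨⟨Nat.mul_pos hq.pos hm.1, by rw [mul_comm]; exact hm.2⟩, Dvd.intro _ rfl⟩
  rw [h1, Finset.sum_image (fun a _ b _ hab => Nat.eq_of_mul_eq_mul_left hq.pos hab),
    Finset.mul_sum]
  refine Finset.sum_le_sum fun m hm => ?_
  rw [mem_Icc] at hm
  have hG : 0 ≤ ∏ r ∈ m.primeFactors, g r := Finset.prod_nonneg fun r _ => hg r
  have h2 : (q * m).primeFactors = insert q m.primeFactors := by
    rw [Nat.primeFactors_mul hq.ne_zero (by omega), hq.primeFactors]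
    rfl
  rw [h2]
  by_cases h3 : q ∈ m.primeFactors
  · rw [Finset.insert_eq_of_mem h3]
    nlinarith
  · rw [Finset.prod_insert h3]
    exact mul_le_mul_of_nonneg_right (hg2 q) hG

theorem PP_clog (hJ : 1 ≤ J) {r : ℕ} (hr : r ∈ PP J) : Nat.clog 2 r ∈ Ico 1 J := by
  rw [PP, mem_filter, mem_Ioc] at hr
  rw [mem_Ico]
  have h1 := clog_bd hr.2.two_le
  have h2 : Nat.clog 2 r ≤ J - 1 := (Nat.clog_le_iff_le_pow Nat.one_lt_two).2 hr.1.2
  omega

theorem PP_blk {r j : ℕ} (hr : r ∈ (PP J).filter (fun r => Nat.clog 2 r = j)) : r ∈ blk j := by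
  rw [mem_filter, PP, mem_filter] at hr
  rw [blk, mem_filter, mem_Ioc]
  have h1 := clog_bd hr.1.2.two_le
  rw [hr.2] at h1
  exact ⟨⟨h1.1, h1.2.1⟩, hr.1.2⟩

theorem PP_sum (hJ : 1 ≤ J) (f : ℕ → ℝ) : ∑ r ∈ PP J, f r =
    ∑ j ∈ Ico 1 J, ∑ r ∈ (PP J).filter (fun r => Nat.clog 2 r = j), f r :=
  (Finset.sum_fiberwise_of_maps_to (fun _ hr => PP_clog hJ hr) f).symm

theorem PP_cc (hk : 2 ≤ k) (hJ : 1 ≤ J) (hθ : 1 ≤ θ) (hlam : 0 < lam)
    (hA : lam ≤ A0 * θ) (h2 : 2 * lam ≤ k) :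
    ∑ r ∈ PP J, cc lam θ k J (Nat.clog 2 r) / r ≤ 128 * A0 := by
  rw [PP_sum hJ]
  have h1 : ∀ j ∈ Ico 1 J, ∑ r ∈ (PP J).filter (fun r => Nat.clog 2 r = j),
      cc lam θ k J (Nat.clog 2 r) / r ≤ 8 * (cc lam θ k J j / j) := by
    intro j hj
    rw [mem_Ico] at hj
    have h3 : ∑ r ∈ (PP J).filter (fun r => Nat.clog 2 r = j),
        cc lam θ k J (Nat.clog 2 r) / r ≤ ∑ r ∈ blk j, cc lam θ k J j * (1 / r) := by
      refine le_trans (b := ∑ r ∈ (PP J).filter (fun r => Nat.clog 2 r = j),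
        cc lam θ k J j * (1 / r)) (le_of_eq ?_) (Finset.sum_le_sum_of_subset_of_nonneg
        (fun r hr => PP_blk hr) fun r _ _ => ?_)
      · refine Finset.sum_congr rfl fun r hr => ?_
        rw [mem_filter] at hr
        rw [hr.2]
        ring
      · have := cc_nonneg (lam := lam) (θ := θ) (J := J) hk j
        positivity
    refine h3.trans ?_
    rw [← Finset.mul_sum]
    have h4 := mul_le_mul_of_nonneg_left (blk_recip j hj.1)
      (cc_nonneg (lam := lam) (θ := θ) (J := J) hk j)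
    refine h4.trans (le_of_eq ?_)
    ring
  refine (Finset.sum_le_sum h1).trans ?_
  rw [← Finset.mul_sum]
  have := cc_sum (J := J) hk hθ hlam hA h2 hJ
  linarith

theorem exp_half : Real.exp (-(1 / 2)) ≤ 61 / 100 := by
  have h1 := Real.sum_le_exp_of_nonneg (x := 1 / 2) (by norm_num) 4
  have h2 : (100 : ℝ) / 61 ≤ Real.exp (1 / 2) := by
    refine le_trans ?_ h1
    norm_num [Finset.sum_range_succ, Nat.factorial]
  rw [Real.exp_neg, inv_le_comm₀ (Real.exp_pos _) (by norm_num)]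
  refine le_trans (le_of_eq ?_) h2
  norm_num

open Classical in
/-- one prime in the exponent -/
theorem gg_prime (hk : 2 ≤ k) (hJ : 1 ≤ J) (hθ : 1 ≤ θ) (hlam : 0 < lam)
    (hA : lam ≤ A0 * θ) (h2 : 2 * lam ≤ k) {r : ℕ} (hr : r ∈ PP J) :
    gg lam θ k J h r - 1 ≤ Real.exp (4 * A0) * cc lam θ k J (Nat.clog 2 r) -
      if h r = 0 ∧ 2 ^ (J / k + 1) < r then 39 / 100 else 0 := by
  have hr' := hr
  rw [PP, mem_filter, mem_Ioc] at hr
  have hr2 := hr.2.two_le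
  have hk1 : (2 : ℝ) ≤ k := by exact_mod_cast hk
  have hJ0 : (0 : ℝ) < J := by exact_mod_cast hJ
  obtain ⟨b, hb⟩ : ∃ b : ℝ, b = ((k : ℝ) - 1) * (wq J r * (ell lam θ k J (Nat.clog 2 r) - 1)) :=
    ⟨_, rfl⟩
  have b1 := bexp (lam := lam) (θ := θ) hk hJ (by omega : 1 ≤ r)
  rw [← hb] at b1
  have b2 := cc_le' (J := J) hk hθ hlam hA h2 (clog_bd hr2).2.2
  have b3 : Real.exp b ≤ Real.exp (4 * A0) := Real.exp_le_exp.2 (b1.2.trans b2)
  have b4 : b * Real.exp b ≤ Real.exp (4 * A0) * cc lam θ k J (Nat.clog 2 r) := by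
    rw [mul_comm (Real.exp (4 * A0))]
    exact mul_le_mul b1.2 b3 (Real.exp_pos _).le (b1.1.trans b1.2)
  have b5 := exp_sub_one_le (y := b)
  have hw := wq_nonneg J r
  have b6 : 1 ≤ Real.exp b := Real.one_le_exp b1.1
  unfold gg
  rw [if_pos ⟨hr.1.1, hr.1.2⟩]
  by_cases h3 : h r = 0
  · rw [if_pos h3]
    have e1 : ((k : ℝ) - 1) * (wq J r * (ell lam θ k J (Nat.clog 2 r) - 1 - 1)) =
        b + -(((k : ℝ) - 1) * wq J r) := by
      rw [hb]; ring
    rw [e1, Real.exp_add]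
    obtain ⟨a, ha⟩ : ∃ a : ℝ, a = ((k : ℝ) - 1) * wq J r := ⟨_, rfl⟩
    have ha0 : 0 ≤ a := by rw [ha]; exact mul_nonneg (by linarith) hw
    rw [← ha]
    have c1 : Real.exp (-a) ≤ 1 := Real.exp_le_one_iff.2 (by linarith)
    by_cases h4 : 2 ^ (J / k + 1) < r
    · rw [if_pos ⟨h3, h4⟩]
      have c2 := wq_ge (j := J / k + 1) hJ h4.le
      have c3 : (1 : ℝ) / k ≤ ((J / k + 1 : ℕ) : ℝ) / J := by
        rw [div_le_div_iff₀ (by linarith) hJ0]
        have := Nat.lt_mul_div_succ J (by omega : 0 < k)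
        have c4 : (J : ℝ) ≤ ((k * (J / k + 1) : ℕ) : ℝ) := by exact_mod_cast this.le
        push_cast at c4 ⊢
        linarith
      have c5 : 1 / 2 ≤ a := by
        rw [ha]
        have c6 : (1 : ℝ) / k ≤ wq J r := c3.trans c2
        have c7 : ((k : ℝ) - 1) * (1 / k) ≤ (k - 1) * wq J r :=
          mul_le_mul_of_nonneg_left c6 (by linarith)
        have c8 : (1 : ℝ) / 2 ≤ (k - 1) * (1 / k) := by
          rw [mul_one_div, div_le_div_iff₀ two_pos (by linarith)]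
          linarith
        linarith
      have c9 : Real.exp (-a) ≤ 61 / 100 :=
        (Real.exp_le_exp.2 (by linarith)).trans exp_half
      nlinarith [mul_nonneg (by linarith : 0 ≤ Real.exp b - 1) (by linarith : 0 ≤ 1 - Real.exp (-a))]
    · rw [if_neg (by tauto)]
      nlinarith [mul_nonneg (by linarith : 0 ≤ Real.exp b - 1) (by linarith : 0 ≤ 1 - Real.exp (-a))]
  · rw [if_neg h3, if_neg (by tauto), sub_zero, sub_zero, ← hb]
    linarith

/-- step (4): the exponent -/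
theorem step4 (hk : 2 ≤ k) (hJ : 1 ≤ J) (hθ : 1 ≤ θ) (hlam : 0 < lam)
    (hA : lam ≤ A0 * θ) (h2 : 2 * lam ≤ k) (hi : iJ J ≤ J / k + 1) {j Y : ℕ} (hj : 1 ≤ j)
    (hY : 2 ^ (J - j) ≤ Y) : ∑ q ∈ (Icc 1 Y).filter Nat.Prime, (gg lam θ k J h q - 1) / q ≤
      Real.exp (4 * A0) * (128 * A0) - 39 / 100 * LE h (J / k + 1) (J - j) := by
  classical
  have h1 : ∑ q ∈ (Icc 1 Y).filter Nat.Prime, (gg lam θ k J h q - 1) / q =
      ∑ q ∈ (PP J).filter (fun q => q ≤ Y), (gg lam θ k J h q - 1) / q := by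
    symm
    refine Finset.sum_subset ?_ ?_
    · intro q hq
      rw [mem_filter, PP, mem_filter] at hq
      rw [mem_filter, mem_Icc]
      exact ⟨⟨hq.1.2.one_le, hq.2⟩, hq.1.2⟩
    · intro q hq hq2
      rw [mem_filter, mem_Icc] at hq
      have h3 : ¬ (2 ^ iJ J < q ∧ q ≤ 2 ^ (J - 1)) := by
        intro h4
        apply hq2
        rw [mem_filter, PP, mem_filter, mem_Ioc]
        exact ⟨⟨h4, hq.2⟩, hq.1.2⟩
      unfold gg
      rw [if_neg h3, sub_self, zero_div]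
  rw [h1]
  have h5 : ∑ q ∈ (PP J).filter (fun q => q ≤ Y), (gg lam θ k J h q - 1) / q ≤
      ∑ q ∈ (PP J).filter (fun q => q ≤ Y),
        (Real.exp (4 * A0) * (cc lam θ k J (Nat.clog 2 q) / q) -
          39 / 100 * (if h q = 0 ∧ 2 ^ (J / k + 1) < q then (1 : ℝ) / q else 0)) := by
    refine Finset.sum_le_sum fun q hq => ?_
    rw [mem_filter] at hq
    have h6 := gg_prime (h := h) hk hJ hθ hlam hA h2 hq.1
    have hq0 : (0 : ℝ) ≤ 1 / q := by positivity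
    have h7 := mul_le_mul_of_nonneg_right h6 hq0
    rw [div_eq_mul_one_div]
    refine h7.trans (le_of_eq ?_)
    split_ifs <;> ring
  refine h5.trans ?_
  rw [Finset.sum_sub_distrib, ← Finset.mul_sum, ← Finset.mul_sum]
  have h8 : ∑ q ∈ (PP J).filter (fun q => q ≤ Y), cc lam θ k J (Nat.clog 2 q) / q ≤ 128 * A0 := by
    refine le_trans (Finset.sum_le_sum_of_subset_of_nonneg (Finset.filter_subset _ _)
      fun q _ _ => ?_) (PP_cc hk hJ hθ hlam hA h2)
    exact div_nonneg (cc_nonneg hk _) (Nat.cast_nonneg _)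
  have h9 : LE h (J / k + 1) (J - j) ≤ ∑ q ∈ (PP J).filter (fun q => q ≤ Y),
      (if h q = 0 ∧ 2 ^ (J / k + 1) < q then (1 : ℝ) / q else 0) := by
    rw [← Finset.sum_filter]
    unfold LE
    refine Finset.sum_le_sum_of_subset_of_nonneg ?_ fun q _ _ => by positivity
    intro q hq
    rw [mem_filter, mem_Ioc] at hq
    rw [mem_filter, mem_filter, PP, mem_filter, mem_Ioc]
    refine ⟨⟨⟨⟨?_, ?_⟩, hq.2.1⟩, hq.1.2.trans hY⟩, hq.2.2, hq.1.1⟩
    · exact (Nat.pow_le_pow_right (by norm_num) hi).trans_lt hq.1.1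
    · exact hq.1.2.trans (Nat.pow_le_pow_right (by norm_num) (by omega))
  have h10 := mul_le_mul_of_nonneg_left h8 (Real.exp_pos (4 * A0)).le
  linarith

/-- step (5): the primes of one block -/
theorem step5 (hh : Adm h) (hJ : 1 ≤ J) {j : ℕ} :
    ∑ q ∈ (PP J).filter (fun r => Nat.clog 2 r = j), vq lam θ k J h q / q ≤
      2 / J * (((ell lam θ k J j)⁻¹) ^ (k - 1) * NN h k j) := by
  have hJ0 : (0 : ℝ) < J := by exact_mod_cast hJ
  have hl := ell_ge (lam := lam) (θ := θ) (k := k) (J := J) j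
  have hli : 0 ≤ (ell lam θ k J j)⁻¹ := inv_nonneg.2 (by linarith)
  have h1 : ∑ q ∈ (PP J).filter (fun r => Nat.clog 2 r = j), vq lam θ k J h q / q ≤
      ∑ q ∈ blk j, (j / J * ((ell lam θ k J j)⁻¹) ^ (k - 1) * (2 / 2 ^ j)) * h q ^ k := by
    refine le_trans (Finset.sum_le_sum (g := fun q =>
      (j / J * ((ell lam θ k J j)⁻¹) ^ (k - 1) * (2 / 2 ^ j)) * h q ^ k) fun q hq => ?_)
      (Finset.sum_le_sum_of_subset_of_nonneg (fun r hr => PP_blk hr) fun q _ _ => ?_)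
    · have hb := PP_blk hq
      rw [mem_filter] at hq
      rw [blk, mem_filter, mem_Ioc] at hb
      have hq0 : (0 : ℝ) < q := by exact_mod_cast hb.2.pos
      have hj1 : 1 ≤ j := by
        rw [← hq.2]
        exact (clog_bd hb.2.two_le).2.2
      have w1 := wq_le hJ hb.2.one_le hb.1.2
      have w2 : (1 : ℝ) / q ≤ 2 / 2 ^ j := by
        have h10 : (2 : ℝ) ^ (j - 1) ≤ q := by exact_mod_cast hb.1.1.le
        have h11 : (2 : ℝ) ^ j = 2 * 2 ^ (j - 1) := by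
          rw [← pow_succ']
          congr 1
          omega
        rw [h11, div_le_div_iff₀ hq0 (by positivity)]
        linarith
      unfold vq
      rw [hq.2]
      have h3 := hh.nonneg q
      have h4 : wq J q * ((ell lam θ k J j)⁻¹) ^ (k - 1) * h q ^ k / q =
          (wq J q * (1 / q)) * (((ell lam θ k J j)⁻¹) ^ (k - 1) * h q ^ k) := by ring
      have h5 : j / J * ((ell lam θ k J j)⁻¹) ^ (k - 1) * (2 / 2 ^ j) * h q ^ k =
          (j / J * (2 / 2 ^ j)) * (((ell lam θ k J j)⁻¹) ^ (k - 1) * h q ^ k) := by ring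
      rw [h4, h5]
      refine mul_le_mul_of_nonneg_right ?_ (by positivity)
      exact mul_le_mul w1 w2 (by positivity) (by positivity)
    · have := hh.nonneg q
      positivity
  refine h1.trans (le_of_eq ?_)
  rw [← Finset.mul_sum]
  unfold NN
  ring

end

end RI

open RI in
/-- (T6) the recursion inequality for block moments -/
theorem s_ri (h1 : S_Dom) (h2 : S_MV) : S_RI := by
  classical
  intro A0 hA0
  obtain ⟨Cd, hCd, hdom⟩ := h1
  obtain ⟨F0, hF0⟩ : ∃ F0 : ℝ, F0 = Real.exp (4 * A0) := ⟨_, rfl⟩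
  have hF1 : 1 ≤ F0 := by rw [hF0]; exact Real.one_le_exp (by linarith)
  obtain ⟨Cm, hCm, hmv⟩ := h2 F0 hF1
  obtain ⟨E, hE⟩ : ∃ E : ℝ, E = Real.exp (F0 * (128 * A0)) := ⟨_, rfl⟩
  have hE0 : 0 < E := by rw [hE]; exact Real.exp_pos _
  refine ⟨Cd * (F0 * Cm * E * 2), by positivity, ?_⟩
  intro k hk
  obtain ⟨C', hC', J1, hJ1⟩ := hdom k (by omega)
  refine ⟨C', hC', max J1 (k ^ 8), ?_⟩
  intro lam θ hθ hlam hA h2l h hh J hJ
  have hJa : J1 ≤ J := (le_max_left _ _).trans hJ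
  have hJb : k ^ 8 ≤ J := (le_max_right _ _).trans hJ
  have hJ1' : 1 ≤ J := le_trans (Nat.one_le_pow _ _ (by omega)) hJb
  have hJ0 : (0 : ℝ) < J := by exact_mod_cast hJ1'
  have hk0 : (0 : ℝ) < k := by exact_mod_cast (by omega : 0 < k)
  have hi : iJ J ≤ J / k + 1 := by
    unfold iJ
    rw [Nat.ceil_le]
    have a1 : (k : ℝ) ≤ (J : ℝ) ^ (1 / 8 : ℝ) := by
      have a2 : ((k : ℝ) ^ (8 : ℕ)) ≤ J := by exact_mod_cast hJb
      calc (k : ℝ) = ((k : ℝ) ^ (8 : ℕ)) ^ (1 / 8 : ℝ) := by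
            rw [← Real.rpow_natCast, ← Real.rpow_mul hk0.le]
            norm_num
        _ ≤ (J : ℝ) ^ (1 / 8 : ℝ) := Real.rpow_le_rpow (by positivity) a2 (by norm_num)
    have a3 : (k : ℝ) * (J : ℝ) ^ (7 / 8 : ℝ) ≤ J := by
      calc (k : ℝ) * (J : ℝ) ^ (7 / 8 : ℝ) ≤ (J : ℝ) ^ (1 / 8 : ℝ) * (J : ℝ) ^ (7 / 8 : ℝ) :=
            mul_le_mul_of_nonneg_right a1 (by positivity)
        _ = J := by
            rw [← Real.rpow_add hJ0]
            norm_num
    have a4 := Nat.lt_mul_div_succ J (by omega : 0 < k)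
    have a5 : (J : ℝ) ≤ k * ((J / k + 1 : ℕ) : ℝ) := by exact_mod_cast a4.le
    exact le_of_mul_le_mul_left (a3.trans a5) hk0
  refine (hJ1 h hh J hJa).trans ?_
  refine add_le_add_left ?_ _
  rw [mul_assoc, mul_assoc]
  refine mul_le_mul_of_nonneg_left ?_ hCd.le
  -- the sum over the integers
  obtain ⟨g, hg⟩ : ∃ g : ℕ → ℝ, g = gg lam θ k J h := ⟨_, rfl⟩
  have hg0 : ∀ q, 0 ≤ g q := fun q => by rw [hg]; exact gg_nonneg q
  have hgF : ∀ q, g q ≤ F0 := fun q => by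
    rw [hg, hF0]; exact gg_le hA0 hk hJ1' hθ hlam hA h2l q
  have s1 : ∑ n ∈ Icc 1 (2 ^ J), WW h J n ^ k ≤ ∑ q ∈ PP J, vq lam θ k J h q *
      ∑ n ∈ (Icc 1 (2 ^ J)).filter (fun n => q ∣ n), ∏ r ∈ n.primeFactors, g r := by
    have t1 : ∑ n ∈ Icc 1 (2 ^ J), WW h J n ^ k ≤ ∑ n ∈ Icc 1 (2 ^ J),
        ∑ q ∈ PP J, if q ∣ n then vq lam θ k J h q * ∏ r ∈ n.primeFactors, g r else 0 := by
      refine Finset.sum_le_sum fun n hn => ?_
      rw [mem_Icc] at hn
      have t2 := step1 (lam := lam) (θ := θ) hh hk hJ1' hn.1 hn.2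
      refine t2.trans (le_of_eq ?_)
      rw [← hg, mul_comm, Finset.sum_mul, ← Finset.sum_filter]
      refine Finset.sum_congr ?_ fun _ _ => rfl
      ext q
      rw [mem_filter, mem_filter, PP, mem_filter, mem_Ioc, Nat.mem_primeFactors]
      constructor
      · rintro ⟨⟨h1, h2, h3⟩, h4, h5⟩
        exact ⟨⟨⟨h4, h5⟩, h1⟩, h2⟩
      · rintro ⟨⟨⟨h4, h5⟩, h1⟩, h2⟩
        exact ⟨⟨h1, h2, by omega⟩, h4, h5⟩
    refine t1.trans (le_of_eq ?_)
    rw [Finset.sum_comm]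
    refine Finset.sum_congr rfl fun q _ => ?_
    rw [← Finset.sum_filter, Finset.mul_sum]
  have s2 : ∀ q ∈ PP J, vq lam θ k J h q *
      ∑ n ∈ (Icc 1 (2 ^ J)).filter (fun n => q ∣ n), ∏ r ∈ n.primeFactors, g r ≤
      (F0 * Cm * E * 2 ^ J) * (vq lam θ k J h q / q *
        Real.exp (-(39 / 100) * LE h (J / k + 1) (J - Nat.clog 2 q))) := by
    intro q hq
    have hq' := hq
    rw [PP, mem_filter, mem_Ioc] at hq'
    have hqp := hq'.2
    have hq0 : (0 : ℝ) < q := by exact_mod_cast hqp.pos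
    have hb := clog_bd hqp.two_le
    have hc := PP_clog hJ1' hq
    rw [mem_Ico] at hc
    have hY : 2 ^ (J - Nat.clog 2 q) ≤ 2 ^ J / q := by
      rw [Nat.le_div_iff_mul_le hqp.pos]
      calc 2 ^ (J - Nat.clog 2 q) * q ≤ 2 ^ (J - Nat.clog 2 q) * 2 ^ Nat.clog 2 q :=
            Nat.mul_le_mul_left _ hb.2.1
        _ = 2 ^ J := by
            rw [← pow_add]
            congr 1
            omega
    have hY1 : 1 ≤ 2 ^ J / q := le_trans Nat.one_le_two_pow hY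
    have u1 := step3 hF1 hg0 hgF hqp (2 ^ J)
    have u2 := hmv g hg0 hgF (2 ^ J / q) hY1
    have u3 : ∑ r ∈ (Icc 1 (2 ^ J / q)).filter Nat.Prime, (g r - 1) / r ≤
        F0 * (128 * A0) - 39 / 100 * LE h (J / k + 1) (J - Nat.clog 2 q) := by
      rw [hg, hF0]
      exact step4 hk hJ1' hθ hlam hA h2l hi hb.2.2 hY
    have u4 : ((2 ^ J / q : ℕ) : ℝ) ≤ 2 ^ J / q := by
      have := Nat.cast_div_le (α := ℝ) (m := 2 ^ J) (n := q)
      push_cast at this
      exact this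
    have u5 : Real.exp (∑ r ∈ (Icc 1 (2 ^ J / q)).filter Nat.Prime, (g r - 1) / r) ≤
        E * Real.exp (-(39 / 100) * LE h (J / k + 1) (J - Nat.clog 2 q)) := by
      rw [hE, ← Real.exp_add]
      apply Real.exp_le_exp.2
      linarith
    have u6 : ∑ n ∈ (Icc 1 (2 ^ J)).filter (fun n => q ∣ n), ∏ r ∈ n.primeFactors, g r ≤
        F0 * (Cm * (2 ^ J / q) *
          (E * Real.exp (-(39 / 100) * LE h (J / k + 1) (J - Nat.clog 2 q)))) := by
      refine u1.trans (mul_le_mul_of_nonneg_left (u2.trans ?_) (by linarith))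
      exact mul_le_mul (mul_le_mul_of_nonneg_left u4 hCm.le) u5 (Real.exp_pos _).le
        (by positivity)
    refine (mul_le_mul_of_nonneg_left u6 (vq_nonneg hh q)).trans (le_of_eq ?_)
    field_simp
  have s3 : ∑ q ∈ PP J, (vq lam θ k J h q / q *
        Real.exp (-(39 / 100) * LE h (J / k + 1) (J - Nat.clog 2 q))) ≤
      ∑ j ∈ Ico 1 J, 2 / J * (((ell lam θ k J j)⁻¹) ^ (k - 1) * NN h k j) *
        Real.exp (-(39 / 100) * LE h (J / k + 1) (J - j)) := by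
    rw [PP_sum hJ1']
    refine Finset.sum_le_sum fun j _ => ?_
    have v1 : ∑ q ∈ (PP J).filter (fun r => Nat.clog 2 r = j), (vq lam θ k J h q / q *
        Real.exp (-(39 / 100) * LE h (J / k + 1) (J - Nat.clog 2 q))) =
        (∑ q ∈ (PP J).filter (fun r => Nat.clog 2 r = j), vq lam θ k J h q / q) *
          Real.exp (-(39 / 100) * LE h (J / k + 1) (J - j)) := by
      rw [Finset.sum_mul]
      refine Finset.sum_congr rfl fun q hq => ?_
      rw [mem_filter] at hq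
      rw [hq.2]
    rw [v1]
    exact mul_le_mul_of_nonneg_right (step5 hh hJ1') (Real.exp_pos _).le
  have s4 : ∑ n ∈ Icc 1 (2 ^ J), WW h J n ^ k ≤ (F0 * Cm * E * 2 ^ J) *
      ∑ j ∈ Ico 1 J, 2 / J * (((ell lam θ k J j)⁻¹) ^ (k - 1) * NN h k j) *
        Real.exp (-(39 / 100) * LE h (J / k + 1) (J - j)) := by
    refine s1.trans ((Finset.sum_le_sum s2).trans ?_)
    rw [← Finset.mul_sum]
    exact mul_le_mul_of_nonneg_left s3 (by positivity)
  have h2J : (0 : ℝ) < 2 ^ J := by positivity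
  calc 1 / 2 ^ J * ∑ n ∈ Icc 1 (2 ^ J), WW h J n ^ k ≤ 1 / 2 ^ J * ((F0 * Cm * E * 2 ^ J) *
      ∑ j ∈ Ico 1 J, 2 / J * (((ell lam θ k J j)⁻¹) ^ (k - 1) * NN h k j) *
        Real.exp (-(39 / 100) * LE h (J / k + 1) (J - j))) :=
        mul_le_mul_of_nonneg_left s4 (by positivity)
    _ = F0 * Cm * E * 2 * (1 / J * ∑ j ∈ Ico 1 J, ((ell lam θ k J j)⁻¹) ^ (k - 1) * NN h k j *
        Real.exp (-(39 / 100) * LE h (J / k + 1) (J - j))) := by
        rw [Finset.mul_sum, Finset.mul_sum, Finset.mul_sum, Finset.mul_sum]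
        refine Finset.sum_congr rfl fun j _ => ?_
        field_simp

end Pool.Agent.N907.EG
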