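import Pool.Agent.N907.EG.Def

/-!
Project EG, part T10a: the completely additive function behind the totient iteration
(Pillai, Shapiro).
-/

set_option autoImplicit false

open Finset

namespace Pool.Agent.N907.EG

namespace Tot

/-- the completely additive function with `FF 2 = 1`, `FF p = FF (p - 1)` for odd primes `p` -/
def FF (n : ℕ) : ℕ :=
  ∑ q ∈ n.primeFactors.attach,
    n.factorization q.1 * (if q.1 = 2 then 1 else
      have : q.1 - 1 < n := by
        have h := Nat.mem_primeFactors.1 q.2
        have h1 : 0 < q.1 := h.1.pos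
        have h2 : q.1 ≤ n := Nat.le_of_dvd (Nat.pos_of_ne_zero h.2.2) h.2.1
        omega
      FF (q.1 - 1))
termination_by n

/-- values at primes -/
def ff (q : ℕ) : ℕ := if q = 2 then 1 else FF (q - 1)

theorem FF_eq (n : ℕ) : FF n = n.factorization.sum (fun q a => a * ff q) := by
  rw [FF, Finsupp.sum, Nat.support_factorization]
  rw [← Finset.sum_attach n.primeFactors (fun q => n.factorization q * ff q)]
  refine Finset.sum_congr rfl ?_
  intro q _
  simp only [ff]

theorem FF_one : FF 1 = 0 := by
  rw [FF_eq]; simp

theorem FF_mul {m n : ℕ} (hm : m ≠ 0) (hn : n ≠ 0) : FF (m * n) = FF m + FF n := by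
  rw [FF_eq, FF_eq, FF_eq, Nat.factorization_mul hm hn]
  rw [Finsupp.sum_add_index']
  · intro a; simp
  · intro a b c; ring

theorem FF_prime {p : ℕ} (hp : p.Prime) : FF p = ff p := by
  rw [FF_eq, hp.factorization, Finsupp.sum_single_index] <;> simp

theorem FF_two : FF 2 = 1 := by
  rw [FF_prime Nat.prime_two]; simp [ff]

theorem FF_odd_prime {p : ℕ} (hp : p.Prime) (h3 : p ≠ 2) : FF p = FF (p - 1) := by
  rw [FF_prime hp]; simp [ff, h3]

theorem FF_pow {m : ℕ} (hm : m ≠ 0) (k : ℕ) : FF (m ^ k) = k * FF m := by
  induction k with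
  | zero => simp [FF_one]
  | succ k ih => rw [pow_succ, FF_mul (pow_ne_zero _ hm) hm, ih]; ring

theorem FF_totient (n : ℕ) (hn : 0 < n) :
    FF (Nat.totient n) + (if Even n then 1 else 0) = FF n := by
  induction n using Nat.recOnPosPrimePosCoprime with
  | prime_pow p k hp hk =>
    obtain ⟨k, rfl⟩ : ∃ j, k = j + 1 := ⟨k - 1, by omega⟩
    rw [Nat.totient_prime_pow hp (by omega), FF_mul (pow_ne_zero _ hp.ne_zero) (by
      have := hp.two_le; omega), FF_pow hp.ne_zero, FF_pow hp.ne_zero]
    by_cases h2 : p = 2
    · subst h2
      have : Even (2 ^ (k + 1)) := by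
        rw [Nat.even_pow]; exact ⟨even_two, by omega⟩
      simp only [this, if_true, FF_two]
      norm_num [FF_one]
    · have hodd : ¬ Even (p ^ (k + 1)) := by
        rw [Nat.even_pow]
        rintro ⟨h, _⟩
        exact h2 ((hp.even_iff).1 h)
      simp only [hodd, if_false]
      rw [← FF_odd_prime hp h2]
      simp only [Nat.add_sub_cancel]
      ring
  | zero => omega
  | one => simp [FF_one]
  | coprime a b ha hb hab iha ihb =>
    have ha0 : 0 < a := by omega
    have hb0 : 0 < b := by omega
    have h1 := iha ha0
    have h2 := ihb hb0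
    rw [Nat.totient_mul hab, FF_mul (Nat.totient_pos.2 ha0).ne' (Nat.totient_pos.2 hb0).ne',
      FF_mul ha0.ne' hb0.ne']
    by_cases hea : Even a
    · have heb : ¬ Even b := by
        intro heb
        have := Nat.dvd_gcd hea.two_dvd heb.two_dvd
        rw [hab] at this
        omega
      have hab' : Even (a * b) := hea.mul_right b
      simp only [hea, heb, hab', if_true, if_false] at h1 h2 ⊢
      omega
    · by_cases heb : Even b
      · have hab' : Even (a * b) := heb.mul_left a
        simp only [hea, heb, hab', if_true, if_false] at h1 h2 ⊢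
        omega
      · have hab' : ¬ Even (a * b) := by
          rw [Nat.even_mul]; tauto
        simp only [hea, heb, hab', if_false] at h1 h2 ⊢
        omega

theorem bounds (n : ℕ) (hn : 0 < n) : 2 ^ FF n ≤ n ∧ n ≤ 3 ^ FF n := by
  induction n using Nat.strong_induction_on with
  | _ n ih =>
    by_cases h1 : n = 1
    · subst h1; simp [FF_one]
    have hn2 : 2 ≤ n := by omega
    by_cases hp : n.Prime
    · by_cases h2 : n = 2
      · subst h2; simp [FF_two]
      · have h3 : 3 ≤ n := by omega
        rw [FF_odd_prime hp h2]
        have hodd : n % 2 = 1 := by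
          rcases hp.eq_two_or_odd with h | h
          · exact absurd h h2
          · exact h
        obtain ⟨m, hm⟩ : ∃ m, n - 1 = 2 * m := ⟨(n - 1) / 2, by omega⟩
        have hm0 : 0 < m := by omega
        have hmn : m < n := by omega
        have e1 := ih (n - 1) (by omega) (by omega)
        have e2 := ih m hmn hm0
        refine ⟨le_trans e1.1 (by omega), ?_⟩
        have : FF (n - 1) = 1 + FF m := by
          rw [hm, FF_mul (by norm_num) hm0.ne', FF_two]
        rw [this, pow_add, pow_one]
        have := e2.2
        omega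
    · obtain ⟨a, b, ha, hb, hab⟩ : ∃ a b, 2 ≤ a ∧ 2 ≤ b ∧ n = a * b := by
        refine ⟨n.minFac, n / n.minFac, (Nat.minFac_prime h1).two_le, ?_, ?_⟩
        · have h := Nat.minFac_dvd n
          obtain ⟨c, hc⟩ := h
          have hmp := Nat.minFac_pos n
          have hdiv : n / n.minFac = c := by
            rw [Nat.div_eq_iff_eq_mul_right hmp (Nat.minFac_dvd n)]; exact hc
          rw [hdiv]
          by_contra hlt
          have hc' : c = 0 ∨ c = 1 := by omega
          rcases hc' with h | h
          · rw [h] at hc; omega
          · rw [h, mul_one] at hc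
            exact hp (by rw [hc]; exact Nat.minFac_prime h1)
        · exact (Nat.mul_div_cancel' (Nat.minFac_dvd n)).symm
      have han : a < n := by rw [hab]; nlinarith
      have hbn : b < n := by rw [hab]; nlinarith
      have e1 := ih a han (by omega)
      have e2 := ih b hbn (by omega)
      rw [hab, FF_mul (by omega) (by omega), pow_add, pow_add]
      exact ⟨Nat.mul_le_mul e1.1 e2.1, Nat.mul_le_mul e1.2 e2.2⟩

/-- the number of steps -/
theorem steps (n : ℕ) (hn : 0 < n) :
    (Nat.totient^[FF n + (if n = 1 ∨ Even n then 0 else 1)] n = 1) ∧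
    ∀ j < FF n + (if n = 1 ∨ Even n then 0 else 1), Nat.totient^[j] n ≠ 1 := by
  induction n using Nat.strong_induction_on with
  | _ n ih =>
    by_cases h1 : n = 1
    · subst h1; simp [FF_one]
    have hn2 : 2 ≤ n := by omega
    have htp : 0 < Nat.totient n := Nat.totient_pos.2 hn
    have hlt : Nat.totient n < n := Nat.totient_lt n (by omega)
    have e := ih (Nat.totient n) hlt htp
    have hF := FF_totient n hn
    -- the new exponent
    have key : FF n + (if n = 1 ∨ Even n then 0 else 1) =
        (FF (Nat.totient n) +
          (if Nat.totient n = 1 ∨ Even (Nat.totient n) then 0 else 1)) + 1 := by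
      have hor : Nat.totient n = 1 ∨ Even (Nat.totient n) := by
        by_cases h2 : n = 2
        · subst h2; left; simp
        · right; exact Nat.totient_even (by omega)
      simp only [hor, if_true, h1, false_or]
      by_cases hev : Even n
      · simp only [hev, if_true] at hF ⊢; omega
      · simp only [hev, if_false] at hF ⊢; omega
    rw [key]
    refine ⟨?_, ?_⟩
    · rw [Function.iterate_succ_apply]; exact e.1
    · intro j hj
      cases j with
      | zero => simpa using h1
      | succ j =>
        rw [Function.iterate_succ_apply]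
        exact e.2 j (by omega)

theorem sInf_eq (n : ℕ) (hn : 0 < n) :
    sInf {k : ℕ | Nat.totient^[k] n = 1} = FF n + (if n = 1 ∨ Even n then 0 else 1) := by
  have h := steps n hn
  apply le_antisymm
  · exact Nat.sInf_le h.1
  · have hmem : sInf {k : ℕ | Nat.totient^[k] n = 1} ∈ {k : ℕ | Nat.totient^[k] n = 1} :=
      Nat.sInf_mem ⟨_, h.1⟩
    by_contra hlt
    exact h.2 _ (by omega) hmem

end Tot

open Tot in
/-- (T10a) -/
theorem s_tot : S_Tot := by
  refine ⟨fun n => (FF n : ℝ), ?_, ?_, ?_, ?_, ?_⟩
  · simp [FF_one]
  · intro m n hm hn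
    simp only
    rw [FF_mul (by omega) (by omega)]
    push_cast; ring
  · intro p hp h3
    simp only
    rw [FF_odd_prime hp (by omega)]
  · intro n hn
    have hb := bounds n hn
    have hn0 : (0 : ℝ) < n := by exact_mod_cast hn
    have h2 : (2 : ℝ) ^ FF n ≤ n := by exact_mod_cast hb.1
    have h3 : (n : ℝ) ≤ 3 ^ FF n := by exact_mod_cast hb.2
    have l2 : (FF n : ℝ) * Real.log 2 ≤ Real.log n := by
      rw [← Real.log_pow]
      exact Real.log_le_log (by positivity) h2
    have l3 : Real.log n ≤ (FF n : ℝ) * Real.log 3 := by
      rw [← Real.log_pow]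
      exact Real.log_le_log hn0 h3
    have k2 : (1 / 2 : ℝ) ≤ Real.log 2 := by
      have := Real.log_two_gt_d9; linarith
    have k3 : Real.log 3 ≤ 2 := by
      have h : Real.log 3 ≤ 3 - 1 := Real.log_le_sub_one_of_pos (by norm_num)
      linarith
    have hF : (0 : ℝ) ≤ FF n := by positivity
    constructor
    · nlinarith
    · nlinarith
  · intro n hn
    rw [sInf_eq n (by omega)]
    push_cast
    split_ifs
    · constructor <;> simp
    · constructor <;> simp

end Pool.Agent.N907.EG
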