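import Pool.Agent.N907.EG.End
import Pool.Agent.N907.EG.Dom
import Pool.Agent.N907.EG.MV
import Pool.Agent.N907.EG.RI
import Pool.Agent.N907.EG.Tot
import Pool.Agent.N907.EG.Int
import Pool.Agent.N907.EG.Cof
import Pool.Agent.N907.EG.Small
import Pool.Agent.N907.EG.Cov
import Pool.Agent.N907.EG.TypeII
import Pool.Agent.N907.EG.NuB

/-!
Assembly: the class of `n` (number of totient iterations) has normal order `α log n`,
unconditionally.
-/

set_option autoImplicit false

open Finset Filter Topology

namespace Pool.Agent.N907.EG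

/-- number of iterations of the totient taking `n` to `1` -/
noncomputable def cls (n : ℕ) : ℕ := sInf {k : ℕ | Nat.totient^[k] n = 1}

theorem s_ri_holds : S_RI := s_ri (s_dom (s_typeII NuB.nuB s_cov) s_cof s_small) s_mv

open Classical in
/-- **Normal order of the class of `n`.** -/
theorem normal_order : ∃ α : ℝ, 1 / 2 ≤ α ∧ ∀ ε : ℝ, 0 < ε → Tendsto (fun N : ℕ =>
    (((Finset.range N).filter (fun n : ℕ =>
      ε * Real.log n < |(cls n : ℝ) - α * Real.log n|)).card : ℝ) / N) atTop (𝓝 0) := by
  obtain ⟨F, h1, hadd, hrec, hbd, hcls⟩ := s_tot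
  have hbd0 : ∀ n : ℕ, 1 ≤ n → 0 ≤ F n ∧ F n ≤ 2 * Real.log n := by
    intro n hn
    have := hbd n hn
    have hl : 0 ≤ Real.log n := Real.log_nonneg (by exact_mod_cast hn)
    exact ⟨by linarith, this.2⟩
  obtain ⟨α, hα⟩ := s_primes s_ri_holds F h1 hadd hrec hbd0
  have hint := s_int F h1 hadd hbd0 α hα
  -- α is not small
  have hα2 : 1 / 2 ≤ α := by
    by_contra hcon
    rw [not_le] at hcon
    have h2 := hint ((1 / 2 - α) / 2) (by linarith)
    have h3 : Tendsto (fun N : ℕ => ((N : ℝ) - 2) / N) atTop (𝓝 1) := by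
      have h4 : Tendsto (fun N : ℕ => 1 - 2 / (N : ℝ)) atTop (𝓝 (1 - 0)) :=
        tendsto_const_nhds.sub (tendsto_const_div_atTop_nhds_zero_nat 2)
      rw [sub_zero] at h4
      refine h4.congr' ?_
      filter_upwards [eventually_ge_atTop 1] with N hN
      have : (0 : ℝ) < N := by exact_mod_cast hN
      field_simp
    have h5 : (1 : ℝ) ≤ 0 := by
      refine le_of_tendsto_of_tendsto h3 h2 ?_
      filter_upwards [eventually_ge_atTop 2] with N hN
      have hNr : (0 : ℝ) < N := by exact_mod_cast (show 0 < N by omega)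
      apply div_le_div_of_nonneg_right _ hNr.le
      have hsub : Finset.Ico 2 N ⊆ (Finset.range N).filter (fun n : ℕ =>
          (1 / 2 - α) / 2 * Real.log n < |F n - α * Real.log n|) := by
        intro n hn
        rw [Finset.mem_Ico] at hn
        rw [Finset.mem_filter, Finset.mem_range]
        refine ⟨hn.2, ?_⟩
        have hl : 0 < Real.log n := Real.log_pos (by exact_mod_cast (show 1 < n by omega))
        have h6 := (hbd n (by omega)).1
        have h7 := le_abs_self (F n - α * Real.log n)
        nlinarith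
      have hc := Finset.card_le_card hsub
      rw [Nat.card_Ico] at hc
      have : ((N - 2 : ℕ) : ℝ) = N - 2 := by rw [Nat.cast_sub hN]; simp
      rw [← this]
      exact_mod_cast hc
    linarith
  refine ⟨α, hα2, fun ε hε => ?_⟩
  have h2 := hint (ε / 2) (by linarith)
  -- bounded difference: eventually absorbed
  obtain ⟨n0, hn0⟩ : ∃ n0 : ℕ, ∀ n : ℕ, n0 ≤ n → 1 ≤ ε / 2 * Real.log n := by
    have h3 : Tendsto (fun n : ℕ => ε / 2 * Real.log n) atTop atTop :=
      (Real.tendsto_log_atTop.comp tendsto_natCast_atTop_atTop).const_mul_atTop (by linarith)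
    obtain ⟨n0, h4⟩ := (h3.eventually_ge_atTop 1).exists_forall_of_atTop
    exact ⟨n0, h4⟩
  have h3 : Tendsto (fun N : ℕ => ((n0 + 2 : ℕ) : ℝ) / N + (((Finset.range N).filter (fun n : ℕ =>
      ε / 2 * Real.log n < |F n - α * Real.log n|)).card : ℝ) / N) atTop (𝓝 0) := by
    have := (tendsto_const_div_atTop_nhds_zero_nat ((n0 + 2 : ℕ) : ℝ)).add h2
    rwa [add_zero] at this
  refine squeeze_zero (fun N => by positivity) (fun N => ?_) h3
  rw [← add_div]
  apply div_le_div_of_nonneg_right _ (Nat.cast_nonneg N)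
  have hsub : (Finset.range N).filter (fun n : ℕ =>
      ε * Real.log n < |(cls n : ℝ) - α * Real.log n|) ⊆
      Finset.range (n0 + 2) ∪ (Finset.range N).filter (fun n : ℕ =>
        ε / 2 * Real.log n < |F n - α * Real.log n|) := by
    intro n hn
    rw [Finset.mem_filter, Finset.mem_range] at hn
    rw [Finset.mem_union, Finset.mem_range, Finset.mem_filter, Finset.mem_range]
    rcases Nat.lt_or_ge n (n0 + 2) with hlt | hge
    · left; exact hlt
    · right
      refine ⟨hn.1, ?_⟩
      have h4 := hn0 n (by omega)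
      have h5 := hcls n (by omega)
      have h6 : |(cls n : ℝ) - F n| ≤ 1 := by
        unfold cls
        rw [abs_le]; constructor <;> linarith [h5.1, h5.2]
      have h7 : |(cls n : ℝ) - α * Real.log n| ≤ |(cls n : ℝ) - F n| + |F n - α * Real.log n| :=
        abs_sub_le _ _ _
      linarith [hn.2]
  have hc := (Finset.card_le_card hsub).trans (Finset.card_union_le _ _)
  rw [Finset.card_range] at hc
  exact_mod_cast hc

/-- for `n ≥ 2` positive iteration numbers give the same minimum -/
theorem cls_pos (n : ℕ) (hn : 2 ≤ n) :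
    sInf {k : ℕ | 1 ≤ k ∧ Nat.totient^[k] n = 1} = cls n := by
  unfold cls
  congr 1
  ext k
  simp only [Set.mem_setOf_eq]
  constructor
  · exact fun h => h.2
  · intro h
    refine ⟨?_, h⟩
    by_contra hk
    have : k = 0 := by omega
    subst this
    simp at h
    omega

open Classical in
/-- the quotient form -/
theorem quotient_form : ∃ α : ℝ, 1 / 2 ≤ α ∧ ∀ ε : ℝ, 0 < ε → Tendsto (fun N : ℕ =>
    (((Finset.range N).filter (fun n : ℕ =>
      ε < |((sInf {k : ℕ | 1 ≤ k ∧ Nat.totient^[k] n = 1} : ℕ) : ℝ) / Real.log n - α|)).card : ℝ) / N)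
      atTop (𝓝 0) := by
  obtain ⟨α, hα, h⟩ := normal_order
  refine ⟨α, hα, fun ε hε => ?_⟩
  have h2 := h ε hε
  have h3 : Tendsto (fun N : ℕ => ((2 : ℕ) : ℝ) / N + (((Finset.range N).filter (fun n : ℕ =>
      ε * Real.log n < |(cls n : ℝ) - α * Real.log n|)).card : ℝ) / N) atTop (𝓝 0) := by
    have := (tendsto_const_div_atTop_nhds_zero_nat ((2 : ℕ) : ℝ)).add h2
    rwa [add_zero] at this
  refine squeeze_zero (fun N => by positivity) (fun N => ?_) h3
  rw [← add_div]
  apply div_le_div_of_nonneg_right _ (Nat.cast_nonneg N)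
  have hsub : (Finset.range N).filter (fun n : ℕ =>
      ε < |((sInf {k : ℕ | 1 ≤ k ∧ Nat.totient^[k] n = 1} : ℕ) : ℝ) / Real.log n - α|) ⊆
      Finset.range 2 ∪ (Finset.range N).filter (fun n : ℕ =>
        ε * Real.log n < |(cls n : ℝ) - α * Real.log n|) := by
    intro n hn
    rw [Finset.mem_filter, Finset.mem_range] at hn
    rw [Finset.mem_union, Finset.mem_range, Finset.mem_filter, Finset.mem_range]
    rcases Nat.lt_or_ge n 2 with hlt | hge
    · left; exact hlt
    · right
      refine ⟨hn.1, ?_⟩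
      have hl : 0 < Real.log n := Real.log_pos (by exact_mod_cast (show 1 < n by omega))
      have h4 := hn.2
      rw [cls_pos n hge] at h4
      have h5 : (cls n : ℝ) / Real.log n - α = ((cls n : ℝ) - α * Real.log n) / Real.log n := by
        field_simp
      rw [h5, abs_div, abs_of_pos hl, lt_div_iff₀ hl] at h4
      exact h4
  have hc := (Finset.card_le_card hsub).trans (Finset.card_union_le _ _)
  rw [Finset.card_range] at hc
  exact_mod_cast hc

end Pool.Agent.N907.EG
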