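import Pool.Agent.N907.EG.EndQ
import Pool.Agent.N907.EG.Main

/-!
Quantitative normal order of the number of totient iterations.
-/

set_option autoImplicit false

open Finset Filter Topology

namespace Pool.Agent.N907.EG

namespace Qn

/-- sum of negative powers -/
theorem sum_rpow_le (c : ℝ) (hc0 : 0 < c) (hc : c ≤ 1 / 2) (K : ℕ) :
    ∑ i ∈ Finset.Icc 1 K, (i : ℝ) ^ (-c) ≤ 2 * (K : ℝ) ^ (1 - c) := by
  induction K with
  | zero =>
    simp
    rw [Real.zero_rpow (by linarith)]
  | succ K ih =>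
    rw [Finset.sum_Icc_succ_top (by omega)]
    set x : ℝ := ((K + 1 : ℕ) : ℝ) with hx
    have hx0 : 0 < x := by rw [hx]; positivity
    have hx1 : 1 ≤ x := by rw [hx]; exact_mod_cast Nat.le_add_left 1 K
    have hK : (K : ℝ) = x * (1 + (-(1 / x))) := by
      rw [hx]; push_cast; field_simp; ring
    have hb := rpow_one_add_le_one_add_mul_self (s := -(1 / x))
      (by rw [neg_le_neg_iff, div_le_one hx0]; exact hx1) (p := 1 - c) (by linarith) (by linarith)
    have h1 : (K : ℝ) ^ (1 - c) ≤ x ^ (1 - c) * (1 + (1 - c) * (-(1 / x))) := by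
      rw [hK, Real.mul_rpow hx0.le]
      · gcongr
      · have : 1 / x ≤ 1 := by rw [div_le_one hx0]; exact hx1
        linarith
    have h2 : x ^ (1 - c) * (1 / x) = x ^ (-c) := by
      rw [show (1 - c : ℝ) = -c + 1 by ring, Real.rpow_add hx0, Real.rpow_one]
      field_simp
    have h3 : 0 < x ^ (-c) := by positivity
    have h4 : x ^ (1 - c) * (1 + (1 - c) * (-(1 / x))) = x ^ (1 - c) - (1 - c) * x ^ (-c) := by
      rw [← h2]; ring
    rw [h4] at h1
    nlinarith

end Qn

open Qn IntPart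

/-- mean deviation of the additive function -/
theorem mean_dev (F : ℕ → ℝ) (h1 : F 1 = 0)
    (hadd : ∀ m n : ℕ, 1 ≤ m → 1 ≤ n → F (m * n) = F m + F n)
    (hrec : ∀ p : ℕ, p.Prime → 3 ≤ p → F p = F (p - 1))
    (hbd : ∀ n : ℕ, 1 ≤ n → 0 ≤ F n ∧ F n ≤ 2 * Real.log n) :
    ∃ α c C : ℝ, 0 ≤ α ∧ α ≤ 2 ∧ 0 < c ∧ c ≤ 1 / 2 ∧ 0 < C ∧ ∀ N : ℕ, 2 ≤ N →
      ∑ n ∈ Finset.Icc 1 N, |F n - α * Real.log n| ≤ C * N * (Real.log N) ^ (1 - c) := by
  classical
  obtain ⟨α, c0, C0, hα0, hα2, hc0, hC0, hpr⟩ := s_primesQ s_ri_holds F h1 hadd hrec hbd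
  set c : ℝ := min c0 (1 / 2) with hc
  have hcpos : 0 < c := lt_min hc0 (by norm_num)
  have hc2 : c ≤ 1 / 2 := min_le_right _ _
  have hcc : c ≤ c0 := min_le_left _ _
  have hl2 : 0 < Real.log 2 := Real.log_pos (by norm_num)
  have hl21 : Real.log 2 ≤ 1 := by have := Real.log_two_lt_d9; linarith
  refine ⟨α, c, 2 * (2 * Real.log 2 * (C0 * 2)) * (4 / Real.log 2), hα0, hα2, hcpos, hc2, by positivity, ?_⟩
  intro N hN
  set f : ℕ → ℝ := fun q => |F q / Real.log q - α| with hf
  have hf0 : ∀ q, 0 ≤ f q := fun q => abs_nonneg _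
  set a : ℕ → ℝ := fun J => ((J : ℝ) / 2 ^ J) * ∑ p ∈ blk J, f p with ha
  set K := Nat.clog 2 N with hK
  have hNK : N ≤ 2 ^ K := Nat.le_pow_clog (by norm_num) N
  have hNr : (2 : ℝ) ≤ N := by exact_mod_cast hN
  have hlogN : Real.log 2 ≤ Real.log N := Real.log_le_log (by norm_num) hNr
  have hlogN0 : 0 < Real.log N := by linarith
  have hK1 : 1 ≤ K := by
    by_contra hcon
    have : K = 0 := by omega
    rw [this] at hNK
    simp at hNK; omega
  -- size of K
  have hKlt : 2 ^ (K - 1) < N := Nat.pow_pred_clog_lt_self (by norm_num) (by omega)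
  have hKb : (K : ℝ) ≤ 4 / Real.log 2 * Real.log N := by
    have h3 : (((2 : ℕ) ^ (K - 1) : ℕ) : ℝ) ≤ N := by exact_mod_cast hKlt.le
    have h4 := Real.log_le_log (by positivity) h3
    push_cast at h4
    rw [Real.log_pow, Nat.cast_sub hK1] at h4
    rw [div_mul_eq_mul_div, le_div_iff₀ hl2]
    push_cast at h4
    nlinarith
  have hS : ∑ n ∈ Finset.Icc 1 N, |F n - α * Real.log n| ≤
      2 * N * (2 * Real.log 2 * ∑ i ∈ Finset.range (K + 1), a i) := by
    calc ∑ n ∈ Finset.Icc 1 N, |F n - α * Real.log n|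
        ≤ ∑ n ∈ Finset.Icc 1 N, Gad (fun q => Real.log q * f q) n := by
          refine Finset.sum_le_sum fun n hn => ?_
          rw [Finset.mem_Icc] at hn
          exact abs_le_Gad F h1 hadd α n (by omega)
      _ = Gad (fun q => Real.log q * f q) N.factorial := sum_Gad _ N
      _ ≤ 2 * N * ∑ q ∈ (Finset.Icc 1 N).filter Nat.Prime, (Real.log q * f q) / q := by
          refine Gad_factorial_le _ (fun q => mul_nonneg ?_ (hf0 q)) N
          exact Real.log_natCast_nonneg q
      _ ≤ 2 * N * ∑ q ∈ (Finset.Icc 1 (2 ^ K)).filter Nat.Prime, (Real.log q * f q) / q := by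
          refine mul_le_mul_of_nonneg_left ?_ (by positivity)
          refine Finset.sum_le_sum_of_subset_of_nonneg ?_ ?_
          · intro q hq
            rw [Finset.mem_filter, Finset.mem_Icc] at hq ⊢
            exact ⟨⟨hq.1.1, hq.1.2.trans hNK⟩, hq.2⟩
          · intro q _ _
            exact div_nonneg (mul_nonneg (Real.log_natCast_nonneg q) (hf0 q)) (Nat.cast_nonneg _)
      _ ≤ 2 * N * (2 * Real.log 2 * ∑ i ∈ Finset.range (K + 1), a i) := by
          refine mul_le_mul_of_nonneg_left ?_ (by positivity)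
          rw [sum_blocks, Finset.mul_sum]
          exact Finset.sum_le_sum fun J _ => blk_bound f hf0 J
  have hsuma : ∑ i ∈ Finset.range (K + 1), a i ≤ C0 * (2 * (K : ℝ) ^ (1 - c)) := by
    have e1 : ∑ i ∈ Finset.range (K + 1), a i = a 0 + ∑ i ∈ Finset.Icc 1 K, a i := by
      rw [Finset.sum_range_succ', add_comm]
      congr 1
      rw [Finset.range_eq_Ico, Finset.sum_Ico_add' (fun i => a i) 0 K 1]
      apply Finset.sum_congr _ fun _ _ => rfl
      ext i; simp only [Finset.mem_Ico, Finset.mem_Icc]; omega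
    have e2 : a 0 = 0 := by simp [ha]
    rw [e1, e2, zero_add]
    calc ∑ i ∈ Finset.Icc 1 K, a i ≤ ∑ i ∈ Finset.Icc 1 K, C0 * (i : ℝ) ^ (-c) := by
          apply Finset.sum_le_sum
          intro i hi
          rw [Finset.mem_Icc] at hi
          refine (hpr i hi.1).trans ?_
          have : (i : ℝ) ^ (-c0) ≤ (i : ℝ) ^ (-c) :=
            Real.rpow_le_rpow_of_exponent_le (by exact_mod_cast hi.1) (by linarith)
          gcongr
      _ = C0 * ∑ i ∈ Finset.Icc 1 K, (i : ℝ) ^ (-c) := by rw [Finset.mul_sum]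
      _ ≤ _ := by
          gcongr
          exact sum_rpow_le c hcpos hc2 K
  have hKpow : (K : ℝ) ^ (1 - c) ≤ 4 / Real.log 2 * (Real.log N) ^ (1 - c) := by
    calc (K : ℝ) ^ (1 - c) ≤ (4 / Real.log 2 * Real.log N) ^ (1 - c) :=
          Real.rpow_le_rpow (by positivity) hKb (by linarith)
      _ = (4 / Real.log 2) ^ (1 - c) * (Real.log N) ^ (1 - c) :=
          Real.mul_rpow (by positivity) hlogN0.le
      _ ≤ (4 / Real.log 2) ^ (1 : ℝ) * (Real.log N) ^ (1 - c) := by
          gcongr
          · rw [le_div_iff₀ hl2]; linarith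
          · linarith
      _ = _ := by rw [Real.rpow_one]
  calc ∑ n ∈ Finset.Icc 1 N, |F n - α * Real.log n|
      ≤ 2 * N * (2 * Real.log 2 * ∑ i ∈ Finset.range (K + 1), a i) := hS
    _ ≤ 2 * N * (2 * Real.log 2 * (C0 * (2 * (K : ℝ) ^ (1 - c)))) := by gcongr
    _ ≤ 2 * N * (2 * Real.log 2 * (C0 * (2 * (4 / Real.log 2 * (Real.log N) ^ (1 - c))))) := by gcongr
    _ = _ := by ring

open Classical in
/-- **Quantitative normal order**: all but `C N (log N)^(-c)` of the `n ≤ N` satisfy
`|f(n)/log n - α| ≤ (log N)^(-c)`. -/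
theorem quant : ∃ α c C : ℝ, 1 / 2 ≤ α ∧ 0 < c ∧ 0 < C ∧ ∀ N : ℕ, 2 ≤ N →
    (((Finset.Icc 2 N).filter (fun n : ℕ => (Real.log N) ^ (-c) <
      |(cls n : ℝ) / Real.log n - α|)).card : ℝ) ≤ C * N * (Real.log N) ^ (-c) := by
  obtain ⟨F, h1, hadd, hrec, hbd, hcls⟩ := s_tot
  have hbd0 : ∀ n : ℕ, 1 ≤ n → 0 ≤ F n ∧ F n ≤ 2 * Real.log n := by
    intro n hn
    have := hbd n hn
    have hl : 0 ≤ Real.log n := Real.log_nonneg (by exact_mod_cast hn)
    exact ⟨by linarith, this.2⟩
  obtain ⟨α, c0, C0, hα0, hα2, hc0, hc02, hC0, hmd⟩ := mean_dev F h1 hadd hrec hbd0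
  have hl2 : 0 < Real.log 2 := Real.log_pos (by norm_num)
  have hl21 : Real.log 2 ≤ 1 := by have := Real.log_two_lt_d9; linarith
  set c : ℝ := c0 / 2 with hc
  have hcpos : 0 < c := by positivity
  -- the count, for the given α
  have hcount : ∀ N : ℕ, 2 ≤ N →
    (((Finset.Icc 2 N).filter (fun n : ℕ => (Real.log N) ^ (-c) <
      |(cls n : ℝ) / Real.log n - α|)).card : ℝ) ≤
      (4 * (C0 + 1 / Real.log 2) + 4) * N * (Real.log N) ^ (-c) := by
    intro N hN
    have hNr : (2 : ℝ) ≤ N := by exact_mod_cast hN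
    have hN0 : (0 : ℝ) < N := by linarith
    have hlogN : Real.log 2 ≤ Real.log N := Real.log_le_log (by norm_num) hNr
    have hlogN0 : 0 < Real.log N := by linarith
    set A := (Finset.Icc 2 N).filter (fun n : ℕ => (Real.log N) ^ (-c) <
      |(cls n : ℝ) / Real.log n - α|) with hA
    set s := Nat.sqrt N with hs
    set B := (Finset.Icc 2 N).filter (fun n : ℕ => (Real.log N) ^ (-c) * (Real.log N / 2) ≤
      |(cls n : ℝ) - α * Real.log n|) with hB
    have hsub : A ⊆ Finset.Icc 1 s ∪ B := by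
      intro n hn
      rw [hA, Finset.mem_filter, Finset.mem_Icc] at hn
      rw [Finset.mem_union, Finset.mem_Icc]
      by_cases hns : n ≤ s
      · exact Or.inl ⟨by omega, hns⟩
      · refine Or.inr ?_
        rw [hB, Finset.mem_filter, Finset.mem_Icc]
        refine ⟨hn.1, ?_⟩
        have hn0 : (1 : ℝ) < n := by exact_mod_cast (show 1 < n by omega)
        have hln : 0 < Real.log n := Real.log_pos hn0
        have h1 : N < (s + 1) * (s + 1) := Nat.lt_succ_sqrt N
        have h2 : N ≤ n * n := by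
          have : s + 1 ≤ n := by omega
          have := Nat.mul_le_mul this this
          omega
        have h3 : Real.log N ≤ 2 * Real.log n := by
          have h4 : (N : ℝ) ≤ (n : ℝ) ^ 2 := by
            rw [pow_two]; exact_mod_cast h2
          have := Real.log_le_log hN0 h4
          rwa [Real.log_pow] at this
        have h5 : (cls n : ℝ) / Real.log n - α = ((cls n : ℝ) - α * Real.log n) / Real.log n := by
          field_simp
        have h6 := hn.2
        rw [h5, abs_div, abs_of_pos hln, lt_div_iff₀ hln] at h6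
        refine le_trans ?_ h6.le
        have : 0 < (Real.log N) ^ (-c) := by positivity
        nlinarith
    have hcard : (A.card : ℝ) ≤ s + B.card := by
      have h7 := (Finset.card_le_card hsub).trans (Finset.card_union_le _ _)
      rw [Nat.card_Icc, Nat.add_sub_cancel] at h7
      exact_mod_cast h7
    have hsum : ∑ n ∈ Finset.Icc 2 N, |(cls n : ℝ) - α * Real.log n| ≤
        (C0 + 1 / Real.log 2) * N * (Real.log N) ^ (1 - c0) := by
      have e1 : ∀ n ∈ Finset.Icc 2 N, |(cls n : ℝ) - α * Real.log n| ≤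
          |F n - α * Real.log n| + 1 := by
        intro n hn
        rw [Finset.mem_Icc] at hn
        have h5 := hcls n hn.1
        have h6 : |(cls n : ℝ) - F n| ≤ 1 := by
          unfold cls
          rw [abs_le]; constructor <;> linarith [h5.1, h5.2]
        have h7 : |(cls n : ℝ) - α * Real.log n| ≤ |(cls n : ℝ) - F n| + |F n - α * Real.log n| :=
          abs_sub_le _ _ _
        linarith
      refine (Finset.sum_le_sum e1).trans ?_
      rw [Finset.sum_add_distrib]
      have e2 : ∑ n ∈ Finset.Icc 2 N, |F n - α * Real.log n| ≤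
          ∑ n ∈ Finset.Icc 1 N, |F n - α * Real.log n| := by
        apply Finset.sum_le_sum_of_subset_of_nonneg
        · intro n hn; rw [Finset.mem_Icc] at hn ⊢; omega
        · intro n _ _; exact abs_nonneg _
      have e3 : ∑ _n ∈ Finset.Icc 2 N, (1 : ℝ) ≤ N := by
        rw [Finset.sum_const, Nat.card_Icc, nsmul_eq_mul, mul_one]
        exact_mod_cast (by omega : N + 1 - 2 ≤ N)
      have e4 : (N : ℝ) ≤ 1 / Real.log 2 * N * (Real.log N) ^ (1 - c0) := by
        have e5 : Real.log 2 ≤ (Real.log N) ^ (1 - c0) := by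
          calc Real.log 2 = (Real.log 2) ^ (1 : ℝ) := (Real.rpow_one _).symm
            _ ≤ (Real.log 2) ^ (1 - c0) :=
                Real.rpow_le_rpow_of_exponent_ge hl2 hl21 (by linarith)
            _ ≤ _ := Real.rpow_le_rpow hl2.le hlogN (by linarith)
        calc (N : ℝ) = 1 / Real.log 2 * N * Real.log 2 := by field_simp
          _ ≤ _ := by gcongr
      have e6 := hmd N hN
      calc _ ≤ C0 * N * (Real.log N) ^ (1 - c0) + 1 / Real.log 2 * N * (Real.log N) ^ (1 - c0) := by
            linarith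
        _ = _ := by ring
    have hBc : (B.card : ℝ) * ((Real.log N) ^ (-c) * (Real.log N / 2)) ≤
        (C0 + 1 / Real.log 2) * N * (Real.log N) ^ (1 - c0) := by
      refine le_trans ?_ hsum
      calc (B.card : ℝ) * ((Real.log N) ^ (-c) * (Real.log N / 2)) =
            ∑ n ∈ B, (Real.log N) ^ (-c) * (Real.log N / 2) := by
            rw [Finset.sum_const, nsmul_eq_mul]
        _ ≤ ∑ n ∈ B, |(cls n : ℝ) - α * Real.log n| := by
            refine Finset.sum_le_sum fun n hn => ?_
            rw [hB, Finset.mem_filter] at hn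
            exact hn.2
        _ ≤ _ := Finset.sum_le_sum_of_subset_of_nonneg (Finset.filter_subset _ _)
              (fun n _ _ => abs_nonneg _)
    have hB2 : (B.card : ℝ) ≤ 2 * (C0 + 1 / Real.log 2) * N * (Real.log N) ^ (-c) := by
      have e1 : 0 < (Real.log N) ^ (-c) * (Real.log N / 2) := by positivity
      rw [← mul_le_mul_iff_left₀ e1]
      refine hBc.trans (le_of_eq ?_)
      have e2 : (Real.log N) ^ (1 - c0) = (Real.log N) ^ (-c) * (Real.log N) ^ (-c) * Real.log N := by
        rw [← Real.rpow_add hlogN0, ← Real.rpow_add_one hlogN0.ne']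
        congr 1
        rw [hc]; ring
      rw [e2]; ring
    have hs2 : (s : ℝ) ≤ 4 * N * (Real.log N) ^ (-c) := by
      have e1 : (s : ℝ) ≤ Real.sqrt N := Real.nat_sqrt_le_real_sqrt
      have e2 : Real.log N ≤ 2 * Real.sqrt N := by
        have := Real.log_le_sub_one_of_pos (show 0 < Real.sqrt N from Real.sqrt_pos.mpr hN0)
        rw [Real.log_sqrt hN0.le] at this
        linarith
      have e3 : (Real.log N) ^ c ≤ 4 * Real.sqrt N := by
        rcases le_total 1 (Real.log N) with h | h
        · calc (Real.log N) ^ c ≤ (Real.log N) ^ (1 : ℝ) :=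
                Real.rpow_le_rpow_of_exponent_le h (by rw [hc]; linarith)
            _ = Real.log N := Real.rpow_one _
            _ ≤ _ := by have := Real.sqrt_nonneg (N : ℝ); linarith
        · have : (Real.log N) ^ c ≤ 1 := Real.rpow_le_one hlogN0.le h hcpos.le
          have : 1 ≤ Real.sqrt N := by
            rw [Real.one_le_sqrt]; linarith
          linarith
      have e4 : (Real.log N) ^ (-c) * (Real.log N) ^ c = 1 := by
        rw [← Real.rpow_add hlogN0]; simp
      have e5 : 0 < (Real.log N) ^ (-c) := by positivity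
      have e6 : Real.sqrt N * Real.sqrt N = N := Real.mul_self_sqrt hN0.le
      calc (s : ℝ) ≤ Real.sqrt N := e1
        _ = Real.sqrt N * ((Real.log N) ^ (-c) * (Real.log N) ^ c) := by rw [e4, mul_one]
        _ ≤ Real.sqrt N * ((Real.log N) ^ (-c) * (4 * Real.sqrt N)) := by gcongr
        _ = 4 * (Real.sqrt N * Real.sqrt N) * (Real.log N) ^ (-c) := by ring
        _ = _ := by rw [e6]
    have hCl : 0 < C0 + 1 / Real.log 2 := by positivity
    have hpos : 0 < (N : ℝ) * (Real.log N) ^ (-c) := by positivity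
    calc (A.card : ℝ) ≤ s + B.card := hcard
      _ ≤ 4 * N * (Real.log N) ^ (-c) + 2 * (C0 + 1 / Real.log 2) * N * (Real.log N) ^ (-c) :=
          add_le_add hs2 hB2
      _ = (2 * (C0 + 1 / Real.log 2) + 4) * (N * (Real.log N) ^ (-c)) := by ring
      _ ≤ (4 * (C0 + 1 / Real.log 2) + 4) * (N * (Real.log N) ^ (-c)) := by gcongr; linarith
      _ = _ := by ring
  -- α ≥ 1/2
  have hα2 : 1 / 2 ≤ α := by
    by_contra hcon
    rw [not_le] at hcon
    set C2 : ℝ := 4 * (C0 + 1 / Real.log 2) + 4 with hC2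
    have hC20 : 0 < C2 := by positivity
    have hlim : Tendsto (fun N : ℕ => (Real.log N) ^ (-c)) atTop (𝓝 0) :=
      (tendsto_rpow_neg_atTop hcpos).comp
        (Real.tendsto_log_atTop.comp tendsto_natCast_atTop_atTop)
    obtain ⟨N, hN1, hN2, hN3⟩ : ∃ N : ℕ, 4 ≤ N ∧ (Real.log N) ^ (-c) < 1 / 2 - α ∧
        C2 * (Real.log N) ^ (-c) < 1 / 4 := by
      have l1 := hlim.eventually_lt_const (show (0 : ℝ) < 1 / 2 - α by linarith)
      have l2 := (hlim.const_mul C2).eventually_lt_const
        (show C2 * 0 < 1 / 4 by rw [mul_zero]; norm_num)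
      obtain ⟨N, h⟩ := ((eventually_ge_atTop 4).and (l1.and l2)).exists
      exact ⟨N, h.1, h.2.1, h.2.2⟩
    have h3 := hcount N (by omega)
    have hall : (Finset.Icc 2 N).filter (fun n : ℕ => (Real.log N) ^ (-c) <
      |(cls n : ℝ) / Real.log n - α|) = Finset.Icc 2 N := by
      apply Finset.filter_true_of_mem
      intro n hn
      rw [Finset.mem_Icc] at hn
      have hln : 0 < Real.log n := Real.log_pos (by exact_mod_cast (show 1 < n by omega))
      have h5 := (hcls n hn.1).1
      have h6 := (hbd n (by omega)).1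
      have h7 : 1 / 2 ≤ (cls n : ℝ) / Real.log n := by
        rw [le_div_iff₀ hln]
        unfold cls
        linarith
      have h8 := le_abs_self ((cls n : ℝ) / Real.log n - α)
      linarith
    rw [hall, Nat.card_Icc] at h3
    have hNr : (4 : ℝ) ≤ N := by exact_mod_cast hN1
    have h9 : ((N + 1 - 2 : ℕ) : ℝ) = N - 1 := by
      rw [Nat.cast_sub (by omega)]; push_cast; ring
    rw [h9] at h3
    have h10 : C2 * N * (Real.log N) ^ (-c) = N * (C2 * (Real.log N) ^ (-c)) := by ring
    rw [h10] at h3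
    nlinarith
  exact ⟨α, c, 4 * (C0 + 1 / Real.log 2) + 4, hα2, hcpos, by positivity, hcount⟩

end Pool.Agent.N907.EG
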