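import Pool.Agent.N907.EG.Def

/-!
Sequence analysis: creeping and receding of the block moments.
-/

set_option autoImplicit false

open Finset

namespace Pool.Agent.N907.EG

namespace Sq

/-- sum of inverse square roots -/
theorem sum_inv_sqrt (n : ℕ) : ∑ j ∈ Finset.Icc 1 n, (1 : ℝ) / Real.sqrt j ≤ 2 * Real.sqrt n := by
  induction n with
  | zero => simp
  | succ n ih =>
    rw [Finset.sum_Icc_succ_top (by omega)]
    have h1 : (0 : ℝ) ≤ n := by positivity
    have hs : 0 < Real.sqrt ((n + 1 : ℕ) : ℝ) := Real.sqrt_pos.mpr (by positivity)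
    have hn : 0 ≤ Real.sqrt (n : ℝ) := Real.sqrt_nonneg _
    have hsq1 : Real.sqrt ((n + 1 : ℕ) : ℝ) ^ 2 = n + 1 := by
      rw [Real.sq_sqrt (by positivity)]; push_cast; ring
    have hsq2 : Real.sqrt (n : ℝ) ^ 2 = n := Real.sq_sqrt h1
    have h2 : 1 / Real.sqrt ((n + 1 : ℕ) : ℝ) ≤
        2 * (Real.sqrt ((n + 1 : ℕ) : ℝ) - Real.sqrt (n : ℝ)) := by
      rw [div_le_iff₀ hs]
      nlinarith [sq_nonneg (Real.sqrt ((n + 1 : ℕ) : ℝ) - Real.sqrt (n : ℝ))]
    linarith

/-- sum of `(J/j)^(1/2)` -/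
theorem sum_sqrt_ratio (J n : ℕ) (hn : n ≤ J) :
    ∑ j ∈ Finset.Icc 1 n, Real.sqrt ((J : ℝ) / j) ≤ 2 * J := by
  have h1 : ∀ j ∈ Finset.Icc 1 n, Real.sqrt ((J : ℝ) / j) = Real.sqrt J * (1 / Real.sqrt j) := by
    intro j _
    rw [Real.sqrt_div (by positivity)]; ring
  rw [Finset.sum_congr rfl h1, ← Finset.mul_sum]
  have h2 := sum_inv_sqrt n
  have h3 : Real.sqrt (n : ℝ) ≤ Real.sqrt J := Real.sqrt_le_sqrt (by exact_mod_cast hn)
  have h4 : 0 ≤ Real.sqrt (J : ℝ) := Real.sqrt_nonneg _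
  have h5 : Real.sqrt (J : ℝ) * Real.sqrt J = J := Real.mul_self_sqrt (by positivity)
  nlinarith

/-- power sums -/
theorem sum_pow_le (c n : ℕ) : ∑ j ∈ Finset.range n, (j : ℝ) ^ c ≤ (n : ℝ) ^ (c + 1) / (c + 1) := by
  induction n with
  | zero => simp
  | succ n ih =>
    rw [Finset.sum_range_succ]
    have h1 : (n : ℝ) ^ (c + 1) + (c + 1) * (n : ℝ) ^ c ≤ ((n + 1 : ℕ) : ℝ) ^ (c + 1) := by
      push_cast
      rw [add_pow (n : ℝ) 1 (c + 1), Finset.sum_range_succ, Finset.sum_range_succ]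
      simp only [one_pow, mul_one, Nat.choose_self, Nat.cast_one, Nat.choose_succ_self_right]
      have : 0 ≤ ∑ x ∈ Finset.range c, (n : ℝ) ^ x * ((c + 1).choose x : ℝ) :=
        Finset.sum_nonneg fun i _ => by positivity
      push_cast
      nlinarith
    have h2 : (0 : ℝ) < c + 1 := by positivity
    rw [le_div_iff₀ h2] at ih ⊢
    nlinarith

theorem ell_one_le (lam θ : ℝ) (k J j : ℕ) : 1 ≤ ell lam θ k J j := le_max_left _ _

theorem ell_pos (lam θ : ℝ) (k J j : ℕ) : 0 < ell lam θ k J j :=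
  lt_of_lt_of_le one_pos (ell_one_le _ _ _ _ _)

/-- the power of the weight -/
theorem ell_pow_ge (lam : ℕ) (θ : ℝ) (hθ : 0 < θ) (k J j : ℕ) (hk : 1 ≤ k) (_hj : 1 ≤ j) (_hJ : 1 ≤ J) :
    ((J : ℝ) / (θ * j)) ^ lam ≤ ell lam θ k J j ^ k ∧ 1 ≤ ell lam θ k J j ^ k := by
  have hk' : (k : ℝ) ≠ 0 := by positivity
  have hx : 0 ≤ (J : ℝ) / (θ * j) := by positivity
  constructor
  · have h1 : (((J : ℝ) / (θ * j)) ^ ((lam : ℝ) / k)) ^ k = ((J : ℝ) / (θ * j)) ^ lam := by
      rw [← Real.rpow_natCast, ← Real.rpow_mul hx, div_mul_cancel₀ _ hk', Real.rpow_natCast]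
    rw [← h1]
    apply pow_le_pow_left₀ (by positivity)
    exact le_max_right _ _
  · exact one_le_pow₀ (ell_one_le _ _ _ _ _)

theorem ell_le (lam : ℕ) (θ : ℝ) (hθ : 1 ≤ θ) (k J j : ℕ) (hk : 1 ≤ k) (hlk : 2 * lam ≤ k)
    (_hj : 1 ≤ j) (_hJ : 1 ≤ J) : ell lam θ k J j ≤ 1 + Real.sqrt ((J : ℝ) / j) := by
  have hx : 0 ≤ (J : ℝ) / (θ * j) := by positivity
  have hk0 : (0 : ℝ) < k := by positivity
  have hle : (J : ℝ) / (θ * j) ≤ (J : ℝ) / j := by
    have hj' : (0 : ℝ) < j := by positivity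
    apply div_le_div_of_nonneg_left (by positivity) hj'
    nlinarith
  have hs := Real.sqrt_nonneg ((J : ℝ) / j)
  unfold ell
  apply max_le
  · linarith
  · rcases le_or_gt 1 ((J : ℝ) / (θ * j)) with h | h
    · have h1 : ((J : ℝ) / (θ * j)) ^ ((lam : ℝ) / k) ≤ ((J : ℝ) / (θ * j)) ^ (1 / 2 : ℝ) := by
        apply Real.rpow_le_rpow_of_exponent_le h
        rw [div_le_iff₀ hk0]
        have : (2 * lam : ℝ) ≤ k := by exact_mod_cast hlk
        linarith
      rw [← Real.sqrt_eq_rpow] at h1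
      have h2 := Real.sqrt_le_sqrt hle
      linarith
    · have : ((J : ℝ) / (θ * j)) ^ ((lam : ℝ) / k) ≤ 1 :=
        Real.rpow_le_one hx h.le (by positivity)
      linarith

/-- a weighted moment bounded through the power of the weight -/
theorem inv_pow_mul_le {l x b : ℝ} {k : ℕ} (hl : 0 < l) (hk : 1 ≤ k) (hx : x ≤ b * l ^ k) :
    (l⁻¹) ^ (k - 1) * x ≤ b * l := by
  have h1 : (l⁻¹) ^ (k - 1) * x ≤ (l⁻¹) ^ (k - 1) * (b * l ^ k) :=
    mul_le_mul_of_nonneg_left hx (by positivity)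
  refine h1.trans (le_of_eq ?_)
  obtain ⟨m, rfl⟩ : ∃ m, k = m + 1 := ⟨k - 1, by omega⟩
  simp only [Nat.add_sub_cancel]
  rw [inv_pow, pow_succ]
  field_simp

end Sq

open Sq

/-- creeping: the moments grow at most polynomially in the block index -/
theorem creep (C6 : ℝ) (hC6 : 1 ≤ C6) (c lam k J0 : ℕ) (hc : 2 * C6 ≤ c) (hlam : 1 ≤ lam)
    (hlk : 2 * lam ≤ k) (hJ0 : 1 ≤ J0) (N : ℕ → ℝ) (a E : ℝ)
    (ha : 0 ≤ a) (hE : 0 ≤ E) (h1 : ∀ j, 1 ≤ j → j ≤ J0 → N j ≤ a * ((J0 : ℝ) / j) ^ lam)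
    (h2 : ∀ J, J0 < J → N J ≤ C6 * (1 / (J : ℝ)) *
      ∑ j ∈ Finset.Ico 1 J, ((ell lam lam k J j)⁻¹) ^ (k - 1) * N j + E) :
    ∀ J, J0 < J → N J ≤ (6 * C6 * (lam : ℝ) ^ lam * a + 2 * E) * ((J : ℝ) / J0) ^ c := by
  have hk : 1 ≤ k := by omega
  have hlam' : (1 : ℝ) ≤ lam := by exact_mod_cast hlam
  set a' : ℝ := 6 * C6 * (lam : ℝ) ^ lam * a + 2 * E with ha'
  have ha'0 : 0 ≤ a' := by positivity
  intro J
  induction J using Nat.strong_induction_on with
  | _ J ih =>
    intro hJ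
    have hJpos : (0 : ℝ) < J := by
      have : 0 < J := by omega
      exact_mod_cast this
    have hJ0pos : (0 : ℝ) < J0 := by exact_mod_cast hJ0
    have hc0 : (0 : ℝ) ≤ c := by positivity
    -- split the sum
    have hsplit : Finset.Ico 1 J = Finset.Icc 1 J0 ∪ Finset.Ico (J0 + 1) J := by
      ext j; simp only [Finset.mem_Ico, Finset.mem_union, Finset.mem_Icc]; omega
    have hdisj : Disjoint (Finset.Icc 1 J0) (Finset.Ico (J0 + 1) J) := by
      rw [Finset.disjoint_left]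
      intro j hj hj'
      rw [Finset.mem_Icc] at hj; rw [Finset.mem_Ico] at hj'; omega
    have hold : ∑ j ∈ Finset.Icc 1 J0, ((ell lam lam k J j)⁻¹) ^ (k - 1) * N j ≤
        3 * (a * (lam : ℝ) ^ lam) * J := by
      have hb : ∀ j ∈ Finset.Icc 1 J0, ((ell lam lam k J j)⁻¹) ^ (k - 1) * N j ≤
          (a * (lam : ℝ) ^ lam) * (1 + Real.sqrt ((J : ℝ) / j)) := by
        intro j hj
        rw [Finset.mem_Icc] at hj
        have hjpos : (0 : ℝ) < j := by exact_mod_cast hj.1
        have e1 := ell_pow_ge lam (lam : ℝ) (by linarith) k J j hk hj.1 (by omega)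
        have e2 : N j ≤ (a * (lam : ℝ) ^ lam) * ell lam lam k J j ^ k := by
          have e3 : ((J0 : ℝ) / j) ^ lam ≤ (lam : ℝ) ^ lam * ((J : ℝ) / (lam * j)) ^ lam := by
            rw [← mul_pow]
            apply pow_le_pow_left₀ (by positivity)
            have : (lam : ℝ) * ((J : ℝ) / (lam * j)) = J / j := by field_simp
            rw [this]
            have : (J0 : ℝ) ≤ J := by exact_mod_cast hJ.le
            gcongr
          calc N j ≤ a * ((J0 : ℝ) / j) ^ lam := h1 j hj.1 hj.2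
            _ ≤ a * ((lam : ℝ) ^ lam * ((J : ℝ) / (lam * j)) ^ lam) := by gcongr
            _ ≤ a * ((lam : ℝ) ^ lam * ell lam lam k J j ^ k) := by
              gcongr
              exact e1.1
            _ = _ := by ring
        have e4 := inv_pow_mul_le (ell_pos lam lam k J j) hk e2
        refine e4.trans ?_
        have e5 := ell_le lam (lam : ℝ) hlam' k J j hk hlk hj.1 (by omega)
        gcongr
      refine (Finset.sum_le_sum hb).trans ?_
      rw [← Finset.mul_sum, Finset.sum_add_distrib]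
      have e6 := sum_sqrt_ratio J J0 hJ.le
      have e7 : ∑ _j ∈ Finset.Icc 1 J0, (1 : ℝ) ≤ J := by
        simp only [Finset.sum_const, Nat.card_Icc, nsmul_eq_mul, mul_one]
        have : (J0 : ℝ) ≤ J := by exact_mod_cast hJ.le
        push_cast
        simpa using this
      have : 0 ≤ a * (lam : ℝ) ^ lam := by positivity
      calc a * (lam : ℝ) ^ lam * (∑ _j ∈ Finset.Icc 1 J0, (1 : ℝ) + ∑ j ∈ Finset.Icc 1 J0, Real.sqrt ((J : ℝ) / j))
          ≤ a * (lam : ℝ) ^ lam * (J + 2 * J) := by gcongr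
        _ = _ := by ring
    have hnew : ∑ j ∈ Finset.Ico (J0 + 1) J, ((ell lam lam k J j)⁻¹) ^ (k - 1) * N j ≤
        a' * ((J : ℝ) / J0) ^ c * J / (c + 1) := by
      have hb : ∀ j ∈ Finset.Ico (J0 + 1) J, ((ell lam lam k J j)⁻¹) ^ (k - 1) * N j ≤
          a' / (J0 : ℝ) ^ c * (j : ℝ) ^ c := by
        intro j hj
        rw [Finset.mem_Ico] at hj
        have e1 := ih j hj.2 (by omega)
        have e2 : ((ell lam lam k J j)⁻¹) ^ (k - 1) ≤ 1 :=
          pow_le_one₀ (inv_nonneg.mpr (ell_pos _ _ _ _ _).le) (inv_le_one_of_one_le₀ (ell_one_le _ _ _ _ _))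
        have e3 : 0 ≤ ((ell lam lam k J j)⁻¹) ^ (k - 1) := by
          have := ell_pos (lam : ℝ) lam k J j
          positivity
        calc ((ell lam lam k J j)⁻¹) ^ (k - 1) * N j
            ≤ ((ell lam lam k J j)⁻¹) ^ (k - 1) * (a' * ((j : ℝ) / J0) ^ c) := by gcongr
          _ ≤ 1 * (a' * ((j : ℝ) / J0) ^ c) := by gcongr
          _ = _ := by rw [div_pow]; ring
      refine (Finset.sum_le_sum hb).trans ?_
      rw [← Finset.mul_sum]
      have e4 : ∑ j ∈ Finset.Ico (J0 + 1) J, (j : ℝ) ^ c ≤ (J : ℝ) ^ (c + 1) / (c + 1) := by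
        refine le_trans ?_ (sum_pow_le c J)
        apply Finset.sum_le_sum_of_subset_of_nonneg
        · intro j hj; rw [Finset.mem_Ico] at hj; rw [Finset.mem_range]; exact hj.2
        · intro j _ _; positivity
      calc a' / (J0 : ℝ) ^ c * ∑ j ∈ Finset.Ico (J0 + 1) J, (j : ℝ) ^ c
          ≤ a' / (J0 : ℝ) ^ c * ((J : ℝ) ^ (c + 1) / (c + 1)) := by gcongr
        _ = _ := by rw [div_pow, pow_succ]; ring
    have hmain := h2 J hJ
    rw [hsplit, Finset.sum_union hdisj] at hmain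
    have hge1 : 1 ≤ ((J : ℝ) / J0) ^ c := by
      apply one_le_pow₀
      rw [one_le_div hJ0pos]
      exact_mod_cast hJ.le
    have e8 : C6 * (1 / (J : ℝ)) * (3 * (a * (lam : ℝ) ^ lam) * J +
        a' * ((J : ℝ) / J0) ^ c * J / (c + 1)) =
        3 * C6 * (lam : ℝ) ^ lam * a + a' * ((J : ℝ) / J0) ^ c * (C6 / (c + 1)) := by
      field_simp
    have e9 : C6 / ((c : ℝ) + 1) ≤ 1 / 2 := by
      rw [div_le_div_iff₀ (by positivity) (by norm_num)]
      linarith
    have e10 : 0 ≤ a' * ((J : ℝ) / J0) ^ c := by positivity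
    calc N J ≤ C6 * (1 / (J : ℝ)) * (∑ j ∈ Finset.Icc 1 J0, ((ell lam lam k J j)⁻¹) ^ (k - 1) * N j +
          ∑ j ∈ Finset.Ico (J0 + 1) J, ((ell lam lam k J j)⁻¹) ^ (k - 1) * N j) + E := hmain
      _ ≤ C6 * (1 / (J : ℝ)) * (3 * (a * (lam : ℝ) ^ lam) * J +
          a' * ((J : ℝ) / J0) ^ c * J / (c + 1)) + E := by gcongr
      _ = 3 * C6 * (lam : ℝ) ^ lam * a + a' * ((J : ℝ) / J0) ^ c * (C6 / (c + 1)) + E := by rw [e8]
      _ ≤ 3 * C6 * (lam : ℝ) ^ lam * a + a' * ((J : ℝ) / J0) ^ c * (1 / 2) + E := by gcongr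
      _ = a' / 2 * 1 + a' * ((J : ℝ) / J0) ^ c / 2 := by rw [ha']; ring
      _ ≤ a' / 2 * ((J : ℝ) / J0) ^ c + a' * ((J : ℝ) / J0) ^ c / 2 := by gcongr
      _ = _ := by ring

/-- receding: if the coefficients are small away from the top then the moments decrease like a
power of the block index -/
theorem recede (C9 : ℝ) (hC9 : 1 ≤ C9) (lam k J0 ρ : ℕ) (hlk : 2 * lam ≤ k) (hk : 1 ≤ k)
    (hJ0 : 1 ≤ J0) (hρ : 1 ≤ ρ) (N : ℕ → ℝ) (a E η A : ℝ)
    (ha : 0 ≤ a) (hE : 0 ≤ E) (hη : 0 ≤ η) (hη1 : η ≤ 1 / (16 * C9)) (hA : A = 16 * C9)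
    (hJ0A : 16 * C9 ≤ J0)
    (w : ℕ → ℕ → ℝ) (hw0 : ∀ J j, 0 ≤ w J j) (hw1 : ∀ J j, w J j ≤ 1)
    (hwη : ∀ J, J0 < J → J ≤ ρ * J0 → ∀ j : ℕ, 1 ≤ j → (j : ℝ) ≤ (1 - 1 / A) * J → w J j ≤ η)
    (h1 : ∀ j, 1 ≤ j → j ≤ J0 → N j ≤ a * ((J0 : ℝ) / j) ^ lam)
    (h2 : ∀ J, J0 < J → J ≤ ρ * J0 → N J ≤ C9 * (1 / (J : ℝ)) *
      ∑ j ∈ Finset.Ico 1 J, ((ell lam 1 k J j)⁻¹) ^ (k - 1) * N j * w J j + E) :
    ∀ J, 1 ≤ J → J ≤ ρ * J0 → N J ≤ (a + 2 * (ρ : ℝ) ^ lam * E) * ((J0 : ℝ) / J) ^ lam := by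
  set a' : ℝ := a + 2 * (ρ : ℝ) ^ lam * E with ha'
  have ha'0 : 0 ≤ a' := by positivity
  have hA0 : 0 < A := by rw [hA]; linarith
  have hJ0pos : (0 : ℝ) < J0 := by exact_mod_cast hJ0
  intro J
  induction J using Nat.strong_induction_on with
  | _ J ih =>
    intro hJ1 hJρ
    have hJpos : (0 : ℝ) < J := by exact_mod_cast hJ1
    rcases le_or_gt J J0 with hle | hJ
    · refine (h1 J hJ1 hle).trans ?_
      have : a ≤ a' := by rw [ha']; nlinarith [show (0:ℝ) ≤ 2 * (ρ : ℝ) ^ lam * E by positivity]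
      gcongr
    · have hbound : ∀ j ∈ Finset.Ico 1 J, ((ell lam 1 k J j)⁻¹) ^ (k - 1) * N j * w J j ≤
          a' * ((J0 : ℝ) / J) ^ lam * (Real.sqrt ((J : ℝ) / j) * w J j) := by
        intro j hj
        rw [Finset.mem_Ico] at hj
        have hjpos : (0 : ℝ) < j := by exact_mod_cast hj.1
        have hkne : (k : ℝ) ≠ 0 := by positivity
        have hx1 : 1 ≤ (J : ℝ) / j := by
          rw [one_le_div hjpos]; exact_mod_cast hj.2.le
        have hell : ell lam 1 k J j = ((J : ℝ) / j) ^ ((lam : ℝ) / k) := by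
          unfold ell
          rw [one_mul, max_eq_right]
          exact Real.one_le_rpow hx1 (by positivity)
        have hellk : ell lam 1 k J j ^ k = ((J : ℝ) / j) ^ lam := by
          rw [hell, ← Real.rpow_natCast, ← Real.rpow_mul (by positivity), div_mul_cancel₀ _ hkne,
            Real.rpow_natCast]
        have e1 := ih j hj.2 hj.1 (by omega)
        have e2 : N j ≤ (a' * ((J0 : ℝ) / J) ^ lam) * ell lam 1 k J j ^ k := by
          rw [hellk]
          refine e1.trans (le_of_eq ?_)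
          rw [mul_assoc, ← mul_pow]
          congr 2
          field_simp
        have e3 := inv_pow_mul_le (ell_pos lam 1 k J j) hk e2
        have e4 : ell lam 1 k J j ≤ Real.sqrt ((J : ℝ) / j) := by
          rw [hell, Real.sqrt_eq_rpow]
          apply Real.rpow_le_rpow_of_exponent_le hx1
          rw [div_le_iff₀ (by positivity)]
          have : (2 * lam : ℝ) ≤ k := by exact_mod_cast hlk
          linarith
        have e5 : 0 ≤ a' * ((J0 : ℝ) / J) ^ lam := by positivity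
        calc ((ell lam 1 k J j)⁻¹) ^ (k - 1) * N j * w J j
            ≤ (a' * ((J0 : ℝ) / J) ^ lam * ell lam 1 k J j) * w J j := by
              apply mul_le_mul_of_nonneg_right e3 (hw0 _ _)
          _ ≤ (a' * ((J0 : ℝ) / J) ^ lam * Real.sqrt ((J : ℝ) / j)) * w J j := by
              apply mul_le_mul_of_nonneg_right _ (hw0 _ _)
              gcongr
          _ = _ := by ring
      have hsum : ∑ j ∈ Finset.Ico 1 J, Real.sqrt ((J : ℝ) / j) * w J j ≤ J / (2 * C9) := by
        have hb : ∀ j ∈ Finset.Ico 1 J, Real.sqrt ((J : ℝ) / j) * w J j ≤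
            Real.sqrt ((J : ℝ) / j) * η + (if (1 - 1 / A) * J < (j : ℝ) then 2 else 0) := by
          intro j hj
          rw [Finset.mem_Ico] at hj
          have hjpos : (0 : ℝ) < j := by exact_mod_cast hj.1
          split_ifs with h
          · have hs : Real.sqrt ((J : ℝ) / j) ≤ 2 := by
              rw [Real.sqrt_le_left (by norm_num), div_le_iff₀ hjpos]
              have : 1 / A ≤ 1 / 2 := by
                apply div_le_div_of_nonneg_left (by norm_num) (by norm_num)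
                rw [hA]; linarith
              nlinarith
            have h3 := hw1 J j
            have h4 := hw0 J j
            have h5 := Real.sqrt_nonneg ((J : ℝ) / j)
            nlinarith [mul_nonneg h5 hη]
          · have h3 := hwη J hJ hJρ j hj.1 (not_lt.mp h)
            have h5 := Real.sqrt_nonneg ((J : ℝ) / j)
            nlinarith
        refine (Finset.sum_le_sum hb).trans ?_
        rw [Finset.sum_add_distrib, ← Finset.sum_mul]
        have e1 : ∑ j ∈ Finset.Ico 1 J, Real.sqrt ((J : ℝ) / j) ≤ 2 * J := by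
          refine le_trans ?_ (sum_sqrt_ratio J J le_rfl)
          apply Finset.sum_le_sum_of_subset_of_nonneg
          · intro j hj; rw [Finset.mem_Ico] at hj; rw [Finset.mem_Icc]; omega
          · intro j _ _; positivity
        have e2 : ∑ j ∈ Finset.Ico 1 J, (if (1 - 1 / A) * J < (j : ℝ) then (2 : ℝ) else 0) ≤
            2 * (J / A) := by
          rw [← Finset.sum_filter, Finset.sum_const, nsmul_eq_mul]
          have hcard : (((Finset.Ico 1 J).filter (fun j : ℕ => (1 - 1 / A) * J < (j : ℝ))).card : ℝ) ≤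
              J / A := by
            have hsub : (Finset.Ico 1 J).filter (fun j : ℕ => (1 - 1 / A) * J < (j : ℝ)) ⊆
                (Finset.Icc 1 ⌊(J : ℝ) / A⌋₊).image (fun i => J - i) := by
              intro j hj
              rw [Finset.mem_filter, Finset.mem_Ico] at hj
              rw [Finset.mem_image]
              refine ⟨J - j, ?_, by omega⟩
              rw [Finset.mem_Icc]
              refine ⟨by omega, ?_⟩
              apply Nat.le_floor
              rw [Nat.cast_sub hj.1.2.le]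
              have := hj.2
              have e : (1 - 1 / A) * (J : ℝ) = J - J / A := by ring
              rw [e] at this
              linarith
            have h3 := (Finset.card_le_card hsub).trans Finset.card_image_le
            rw [Nat.card_Icc] at h3
            have h4 : ((⌊(J : ℝ) / A⌋₊ : ℕ) : ℝ) ≤ J / A := Nat.floor_le (by positivity)
            have h5 : (((Finset.Ico 1 J).filter (fun j : ℕ => (1 - 1 / A) * J < (j : ℝ))).card : ℝ) ≤
                ((⌊(J : ℝ) / A⌋₊ + 1 - 1 : ℕ) : ℝ) := by exact_mod_cast h3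
            simp only [Nat.add_sub_cancel] at h5
            linarith
          nlinarith
        have e3 : (∑ j ∈ Finset.Ico 1 J, Real.sqrt ((J : ℝ) / j)) * η ≤ (2 * J) * (1 / (16 * C9)) := by
          gcongr
        have e4 : (2 * (J : ℝ)) * (1 / (16 * C9)) + 2 * (J / A) ≤ J / (2 * C9) := by
          rw [hA]
          have : (2 * (J : ℝ)) * (1 / (16 * C9)) + 2 * (J / (16 * C9)) = J / (4 * C9) := by
            field_simp; ring
          rw [this]
          apply div_le_div_of_nonneg_left hJpos.le (by positivity)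
          linarith
        linarith
      have hmain := h2 J hJ hJρ
      have hEle : E ≤ a' * ((J0 : ℝ) / J) ^ lam / 2 := by
        have h3 : (1 : ℝ) ≤ (ρ : ℝ) ^ lam * ((J0 : ℝ) / J) ^ lam := by
          rw [← mul_pow]
          apply one_le_pow₀
          rw [← mul_div_assoc, one_le_div hJpos]
          exact_mod_cast hJρ
        have h4 : 2 * (ρ : ℝ) ^ lam * E ≤ a' := by rw [ha']; linarith
        have h5 : 0 ≤ ((J0 : ℝ) / J) ^ lam := by positivity
        nlinarith [mul_le_mul_of_nonneg_right h4 h5, mul_le_mul_of_nonneg_left h3 hE]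
      have e5 : 0 ≤ a' * ((J0 : ℝ) / J) ^ lam := by positivity
      calc N J ≤ C9 * (1 / (J : ℝ)) *
            ∑ j ∈ Finset.Ico 1 J, ((ell lam 1 k J j)⁻¹) ^ (k - 1) * N j * w J j + E := hmain
        _ ≤ C9 * (1 / (J : ℝ)) *
            ∑ j ∈ Finset.Ico 1 J, a' * ((J0 : ℝ) / J) ^ lam * (Real.sqrt ((J : ℝ) / j) * w J j) + E := by
            have := mul_le_mul_of_nonneg_left (Finset.sum_le_sum hbound)
              (show 0 ≤ C9 * (1 / (J : ℝ)) by positivity)
            linarith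
        _ = C9 * (1 / (J : ℝ)) * (a' * ((J0 : ℝ) / J) ^ lam *
            ∑ j ∈ Finset.Ico 1 J, (Real.sqrt ((J : ℝ) / j) * w J j)) + E := by
            rw [← Finset.mul_sum]
        _ ≤ C9 * (1 / (J : ℝ)) * (a' * ((J0 : ℝ) / J) ^ lam * (J / (2 * C9))) + E := by gcongr
        _ = a' * ((J0 : ℝ) / J) ^ lam / 2 + E := by field_simp
        _ ≤ a' * ((J0 : ℝ) / J) ^ lam / 2 + a' * ((J0 : ℝ) / J) ^ lam / 2 := by gcongr
        _ = _ := by ring

end Pool.Agent.N907.EG
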